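import Pool.Agent.Q220.Pei.Defs

/-!
Soundness of the local check.
-/

set_option autoImplicit false

namespace Pool.Agent.Q220.Pei

theorem mon_val {T : Tr} {u : ℕ} (h : mon T u = true) : T.val u ≤ u := by
  cases T with
  | lf => exact le_rfl
  | nd v s l r =>
    simp only [mon, Bool.and_eq_true] at h
    exact Nat.le_of_ble_eq_true h.1

theorem mon_ch {T : Tr} {u : ℕ} (h : mon T u = true) (t : Turn) :
    mon (T.ch t) (T.val u) = true := by
  cases T with
  | lf => rfl
  | nd v s l r =>
    simp only [mon, Bool.and_eq_true] at h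
    cases t
    · exact h.2.1
    · exact h.2.2.1
    · exact h.2.2.2

theorem mon_self {T : Tr} {u : ℕ} (h : mon T u = true) : mon T (T.val u) = true := by
  cases T with
  | lf => rfl
  | nd v s l r =>
    simp only [mon, Bool.and_eq_true, Tr.val] at h ⊢
    exact ⟨Nat.ble_eq_true_of_le le_rfl, h.2⟩

theorem look_le (ts : List Turn) : ∀ (T : Tr) (u : ℕ), mon T u = true → T.look u ts ≤ T.val u := by
  induction ts with
  | nil => intro T u _; exact le_rfl
  | cons t ts ih =>
    intro T u h
    have h1 := mon_ch h t
    exact (ih _ _ h1).trans (mon_val h1)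

theorem val_val (T : Tr) (u : ℕ) : T.val (T.val u) = T.val u := by cases T <;> rfl

theorem look_val (T : Tr) (u : ℕ) (ts : List Turn) : T.look (T.val u) ts = T.look u ts := by
  cases ts with
  | nil => exact val_val T u
  | cons t ts =>
    show (T.ch t).look (T.val (T.val u)) ts = (T.ch t).look (T.val u) ts
    rw [val_val]

theorem lf_look (ts : List Turn) (u : ℕ) : Tr.lf.look u ts = u := by
  induction ts generalizing u with
  | nil => rfl
  | cons t ts ih => exact ih u

theorem rden_pos (m n : ℕ) : 0 < rden m n := by
  unfold rden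
  split_ifs <;> positivity

/-- bound for the conditional probability that an edge is closed -/
noncomputable def rate (m n : ℕ) : ℝ := (rnum m n : ℝ) / (rden m n : ℝ)

theorem rate_nonneg (m n : ℕ) : 0 ≤ rate m n := by unfold rate; positivity

/-- the inequality -/
def Ineq (v : ℝ) (nB nL nR : ℕ) (bS bL bR : Bool) (x y z : ℝ) : Prop :=
  (if bS = true then 0 else rate nL nR * x) + (if bL = true then 0 else rate nB nL * y) +
    (if bR = true then 0 else rate nB nR * z) ≤ 9999 / 10000 * v

theorem Ineq.anti {v : ℝ} {nB nL nR : ℕ} {bS bL bR : Bool} {x y z x' y' z' : ℝ}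
    (h : Ineq v nB nL nR bS bL bR x y z) (hx : x' ≤ x) (hy : y' ≤ y) (hz : z' ≤ z) :
    Ineq v nB nL nR bS bL bR x' y' z' := by
  unfold Ineq at h ⊢
  refine le_trans ?_ h
  have h1 := rate_nonneg nL nR
  have h2 := rate_nonneg nB nL
  have h3 := rate_nonneg nB nR
  refine add_le_add (add_le_add ?_ ?_) ?_
  · split_ifs
    · exact le_rfl
    · exact mul_le_mul_of_nonneg_left hx h1
  · split_ifs
    · exact le_rfl
    · exact mul_le_mul_of_nonneg_left hy h2
  · split_ifs
    · exact le_rfl
    · exact mul_le_mul_of_nonneg_left hz h3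

theorem ter_div (b : Bool) (m n x : ℕ) :
    (if b = true then 0 else rate m n * (x : ℝ)) = ((ter b (rnum m n) x : ℕ) : ℝ) / (rden m n : ℝ) := by
  unfold rate ter
  cases b
  · simp only [Bool.false_eq_true, if_false]
    push_cast
    ring
  · simp

theorem ineq_real {v nB nL nR : ℕ} {bS bL bR : Bool} {x y z : ℕ}
    (h : ineq v nB nL nR bS bL bR x y z = true) : Ineq v nB nL nR bS bL bR x y z := by
  have h1 := Nat.le_of_ble_eq_true h
  have h2 : ((10000 * (ter bS (rnum nL nR) x * (rden nB nL * rden nB nR) +
      ter bL (rnum nB nL) y * (rden nL nR * rden nB nR) +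
      ter bR (rnum nB nR) z * (rden nL nR * rden nB nL)) : ℕ) : ℝ) ≤
      ((9999 * (v * (rden nL nR * (rden nB nL * rden nB nR))) : ℕ) : ℝ) := by exact_mod_cast h1
  push_cast at h2
  unfold Ineq
  rw [ter_div, ter_div, ter_div]
  have p1 : (0 : ℝ) < rden nL nR := by exact_mod_cast rden_pos nL nR
  have p2 : (0 : ℝ) < rden nB nL := by exact_mod_cast rden_pos nB nL
  have p3 : (0 : ℝ) < rden nB nR := by exact_mod_cast rden_pos nB nR
  rw [div_add_div _ _ p1.ne' p2.ne', div_add_div _ _ (mul_pos p1 p2).ne' p3.ne',
    div_le_iff₀ (by positivity)]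
  linarith

theorem chk_sound : ∀ (T : Tr) (g : St) (cS : Tr) (vS : ℕ) (cL : Tr) (vL : ℕ) (cR : Tr) (vR : ℕ),
    chk T g cS vS cL vL cR vR = true → T ≠ .lf → mon cS vS = true → mon cL vL = true →
    mon cR vR = true → cS.val vS = vS → cL.val vL = vL → cR.val vR = vR →
    ∀ (d : ℕ) (ts : List Turn), ∃ j : ℕ,
      Ineq (T.look d ts) ((ts.take j).foldl St.step g).B.length ((ts.take j).foldl St.step g).L.length
        ((ts.take j).foldl St.step g).R.length ((ts.take j).foldl St.step g).bS
        ((ts.take j).foldl St.step g).bL ((ts.take j).foldl St.step g).bR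
        (cS.look vS ts) (cL.look vL ts) (cR.look vR ts) := by
  intro T
  induction T with
  | lf => intro g cS vS cL vL cR vR _ h; exact absurd rfl h
  | nd v s l r ihs ihl ihr =>
    intro g cS vS cL vL cR vR h _ mS mL mR eS eL eR d ts
    simp only [chk, Bool.and_eq_true] at h
    obtain ⟨h0, hs, hl, hr⟩ := h
    have hI := ineq_real h0
    have here : ∀ ts' : List Turn, (Tr.nd v s l r).look d ts' = v → ∃ j : ℕ,
      Ineq ((Tr.nd v s l r).look d ts' : ℕ) ((ts'.take j).foldl St.step g).B.length
        ((ts'.take j).foldl St.step g).L.length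
        ((ts'.take j).foldl St.step g).R.length ((ts'.take j).foldl St.step g).bS
        ((ts'.take j).foldl St.step g).bL ((ts'.take j).foldl St.step g).bR
        (cS.look vS ts') (cL.look vL ts') (cR.look vR ts') := by
      intro ts' hts
      refine ⟨0, ?_⟩
      rw [hts]
      simp only [List.take_zero, List.foldl_nil]
      refine hI.anti ?_ ?_ ?_
      · exact_mod_cast (look_le ts' _ _ mS).trans eS.le
      · exact_mod_cast (look_le ts' _ _ mL).trans eL.le
      · exact_mod_cast (look_le ts' _ _ mR).trans eR.le
    cases ts with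
    | nil => exact here [] rfl
    | cons t ts =>
      have key : ∀ c : Tr, (Tr.nd v s l r).ch t = c →
          (c ≠ .lf → ∃ j : ℕ,
            Ineq (c.look v ts) ((ts.take j).foldl St.step (g.step t)).B.length
              ((ts.take j).foldl St.step (g.step t)).L.length
              ((ts.take j).foldl St.step (g.step t)).R.length
              ((ts.take j).foldl St.step (g.step t)).bS
              ((ts.take j).foldl St.step (g.step t)).bL ((ts.take j).foldl St.step (g.step t)).bR
              ((cS.ch t).look ((cS.ch t).val vS) ts) ((cL.ch t).look ((cL.ch t).val vL) ts)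
              ((cR.ch t).look ((cR.ch t).val vR) ts)) →
          ∃ j : ℕ,
            Ineq ((Tr.nd v s l r).look d (t :: ts) : ℕ) (((t :: ts).take j).foldl St.step g).B.length
              (((t :: ts).take j).foldl St.step g).L.length
              (((t :: ts).take j).foldl St.step g).R.length
              (((t :: ts).take j).foldl St.step g).bS
              (((t :: ts).take j).foldl St.step g).bL (((t :: ts).take j).foldl St.step g).bR
              (cS.look vS (t :: ts)) (cL.look vL (t :: ts)) (cR.look vR (t :: ts)) := by
        intro c hc hrec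
        by_cases hlf : c = .lf
        · refine here (t :: ts) ?_
          show ((Tr.nd v s l r).ch t).look v ts = v
          rw [hc, hlf, lf_look]
        · obtain ⟨j, hj⟩ := hrec hlf
          refine ⟨j + 1, ?_⟩
          rw [look_val, look_val, look_val] at hj
          have e1 : (Tr.nd v s l r).look d (t :: ts) = c.look v ts := by
            show ((Tr.nd v s l r).ch t).look v ts = _
            rw [hc]
          have e2 : cS.look vS (t :: ts) = (cS.ch t).look vS ts := by
            show (cS.ch t).look (cS.val vS) ts = _
            rw [eS]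
          have e3 : cL.look vL (t :: ts) = (cL.ch t).look vL ts := by
            show (cL.ch t).look (cL.val vL) ts = _
            rw [eL]
          have e4 : cR.look vR (t :: ts) = (cR.ch t).look vR ts := by
            show (cR.ch t).look (cR.val vR) ts = _
            rw [eR]
          rw [e1, e2, e3, e4]
          simpa only [List.take_succ_cons, List.foldl_cons] using hj
      have c1 : ∀ (c : Tr) (u : ℕ), mon c u = true → c.val u = u →
          mon (c.ch t) ((c.ch t).val u) = true := by
        intro c u h1 h2
        have := mon_ch h1 t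
        rw [h2] at this
        exact mon_self this
      cases t
      · exact key s rfl fun hne => ihs _ _ _ _ _ _ _ hs hne (c1 _ _ mS eS) (c1 _ _ mL eL)
          (c1 _ _ mR eR) (val_val _ _) (val_val _ _) (val_val _ _) v ts
      · exact key l rfl fun hne => ihl _ _ _ _ _ _ _ hl hne (c1 _ _ mS eS) (c1 _ _ mL eL)
          (c1 _ _ mR eR) (val_val _ _) (val_val _ _) (val_val _ _) v ts
      · exact key r rfl fun hne => ihr _ _ _ _ _ _ _ hr hne (c1 _ _ mS eS) (c1 _ _ mL eL)
          (c1 _ _ mR eR) (val_val _ _) (val_val _ _) (val_val _ _) v ts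

/-- the check at the root -/
def root (T : Tr) : Bool :=
  chk T st0 (T.ch .S) ((T.ch .S).val (T.val 0)) (T.ch .L) ((T.ch .L).val (T.val 0))
    (T.ch .R) ((T.ch .R).val (T.val 0))

theorem root_sound (T : Tr) (hT : T ≠ .lf) (h : root T = true) (hm : mon T (T.val 0) = true)
    (ts : List Turn) : ∃ j : ℕ,
      Ineq (T.look 0 ts) ((ts.take j).foldl St.step st0).B.length
        ((ts.take j).foldl St.step st0).L.length
        ((ts.take j).foldl St.step st0).R.length ((ts.take j).foldl St.step st0).bS
        ((ts.take j).foldl St.step st0).bL ((ts.take j).foldl St.step st0).bR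
        (T.look 0 (.S :: ts)) (T.look 0 (.L :: ts)) (T.look 0 (.R :: ts)) := by
  have c1 : ∀ t, mon (T.ch t) ((T.ch t).val (T.val 0)) = true := by
    intro t
    have := mon_ch hm t
    rw [val_val] at this
    exact mon_self this
  obtain ⟨j, hj⟩ := chk_sound T st0 _ _ _ _ _ _ h hT (c1 _) (c1 _) (c1 _) (val_val _ _)
    (val_val _ _) (val_val _ _) 0 ts
  refine ⟨j, ?_⟩
  rw [look_val, look_val, look_val] at hj
  exact hj

end Pool.Agent.Q220.Pei
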