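import Pool.Agent.Q220.Pei.Plan

/-!
Crossings of a sequence of rectangles form an infinite cluster.
-/

set_option autoImplicit false

namespace Pool.Agent.Q220.Pei

open MeasureTheory ProbabilityTheory Set
open scoped ENNReal
open H974 (Edg src tgt dsrc dtgt Adj Reach DAdj DReach LRE TBE RE crossings_meet)

theorem restrict_TB {F : Set Edg} {a b s d d' : ℤ} {x x' : ℤ} (hx : a ≤ x ∧ x ≤ b) (hs : s < d')
    (hd : d' ≤ d) (h : Reach (F ∩ TBE a b s d) (x, s) (x', d)) :
    ∃ x'', (a ≤ x'' ∧ x'' ≤ b) ∧ Reach (F ∩ TBE a b s d') (x, s) (x'', d') := by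
  have key : ∀ w : Pt, Reach (F ∩ TBE a b s d) (x, s) w →
      (∃ x'', (a ≤ x'' ∧ x'' ≤ b) ∧ Reach (F ∩ TBE a b s d') (x, s) (x'', d')) ∨
      (w.2 < d' ∧ s ≤ w.2 ∧ a ≤ w.1 ∧ w.1 ≤ b ∧ Reach (F ∩ TBE a b s d') (x, s) w) := by
    intro w hw
    induction hw with
    | refl => exact Or.inr ⟨hs, le_rfl, hx.1, hx.2, Reach.refl _ _⟩
    | @tail w w' _ hstep ih =>
      rcases ih with ih | ⟨h1, h2, h3, h4, h5⟩
      · exact Or.inl ih
      · obtain ⟨⟨x0, y0, t⟩, ⟨heF, heT⟩, hc⟩ := hstep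
        cases t
        · simp only [Finset.mem_coe, H974.mem_TBE_false] at heT
          simp only [H974.src_mk, H974.tgt_false] at hc
          rcases hc with ⟨rfl, rfl⟩ | ⟨rfl, rfl⟩
          · simp only at h1 h2 h3 h4
            have hm : ((x0, y0, false) : Edg) ∈ F ∩ TBE a b s d' := by
              refine ⟨heF, ?_⟩
              simp only [Finset.mem_coe, H974.mem_TBE_false]
              omega
            have hr : Reach (F ∩ TBE a b s d') (x, s) (x0, y0 + 1) :=
              h5.trans (Adj.reach ⟨_, hm, Or.inl ⟨rfl, rfl⟩⟩)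
            rcases lt_or_eq_of_le (show y0 + 1 ≤ d' by omega) with h6 | h6
            · exact Or.inr ⟨h6, by simp only; omega, h3, h4, hr⟩
            · left
              exact ⟨x0, ⟨h3, h4⟩, h6 ▸ hr⟩
          · simp only at h1 h2 h3 h4
            have hm : ((x0, y0, false) : Edg) ∈ F ∩ TBE a b s d' := by
              refine ⟨heF, ?_⟩
              simp only [Finset.mem_coe, H974.mem_TBE_false]
              omega
            have hr : Reach (F ∩ TBE a b s d') (x, s) (x0, y0) :=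
              h5.trans (Adj.reach ⟨_, hm, Or.inr ⟨rfl, rfl⟩⟩)
            exact Or.inr ⟨by simp only; omega, by simp only; omega, h3, h4, hr⟩
        · simp only [Finset.mem_coe, H974.mem_TBE_true] at heT
          simp only [H974.src_mk, H974.tgt_true] at hc
          rcases hc with ⟨rfl, rfl⟩ | ⟨rfl, rfl⟩
          · simp only at h1 h2 h3 h4
            have hm : ((x0, y0, true) : Edg) ∈ F ∩ TBE a b s d' := by
              refine ⟨heF, ?_⟩
              simp only [Finset.mem_coe, H974.mem_TBE_true]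
              omega
            exact Or.inr ⟨h1, h2, by simp only; omega, by simp only; omega,
              h5.trans (Adj.reach ⟨_, hm, Or.inl ⟨rfl, rfl⟩⟩)⟩
          · simp only at h1 h2 h3 h4
            have hm : ((x0, y0, true) : Edg) ∈ F ∩ TBE a b s d' := by
              refine ⟨heF, ?_⟩
              simp only [Finset.mem_coe, H974.mem_TBE_true]
              omega
            exact Or.inr ⟨h1, h2, by simp only; omega, by simp only; omega,
              h5.trans (Adj.reach ⟨_, hm, Or.inr ⟨rfl, rfl⟩⟩)⟩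
  rcases key _ h with h1 | h1
  · exact h1
  · have := h1.1
    simp only at this
    omega

theorem restrict_LR {F : Set Edg} {a b b' s d : ℤ} {y y' : ℤ} (hy : s ≤ y ∧ y ≤ d) (ha : a < b')
    (hb : b' ≤ b) (h : Reach (F ∩ LRE a b s d) (a, y) (b, y')) :
    ∃ y'', (s ≤ y'' ∧ y'' ≤ d) ∧ Reach (F ∩ LRE a b' s d) (a, y) (b', y'') := by
  have key : ∀ w : Pt, Reach (F ∩ LRE a b s d) (a, y) w →
      (∃ y'', (s ≤ y'' ∧ y'' ≤ d) ∧ Reach (F ∩ LRE a b' s d) (a, y) (b', y'')) ∨
      (w.1 < b' ∧ a ≤ w.1 ∧ s ≤ w.2 ∧ w.2 ≤ d ∧ Reach (F ∩ LRE a b' s d) (a, y) w) := by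
    intro w hw
    induction hw with
    | refl => exact Or.inr ⟨ha, le_rfl, hy.1, hy.2, Reach.refl _ _⟩
    | @tail w w' _ hstep ih =>
      rcases ih with ih | ⟨h1, h2, h3, h4, h5⟩
      · exact Or.inl ih
      · obtain ⟨⟨x0, y0, t⟩, ⟨heF, heT⟩, hc⟩ := hstep
        cases t
        · simp only [Finset.mem_coe, H974.mem_LRE_false] at heT
          simp only [H974.src_mk, H974.tgt_false] at hc
          rcases hc with ⟨rfl, rfl⟩ | ⟨rfl, rfl⟩
          · simp only at h1 h2 h3 h4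
            have hm : ((x0, y0, false) : Edg) ∈ F ∩ LRE a b' s d := by
              refine ⟨heF, ?_⟩
              simp only [Finset.mem_coe, H974.mem_LRE_false]
              omega
            exact Or.inr ⟨h1, h2, by simp only; omega, by simp only; omega,
              h5.trans (Adj.reach ⟨_, hm, Or.inl ⟨rfl, rfl⟩⟩)⟩
          · simp only at h1 h2 h3 h4
            have hm : ((x0, y0, false) : Edg) ∈ F ∩ LRE a b' s d := by
              refine ⟨heF, ?_⟩
              simp only [Finset.mem_coe, H974.mem_LRE_false]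
              omega
            exact Or.inr ⟨h1, h2, by simp only; omega, by simp only; omega,
              h5.trans (Adj.reach ⟨_, hm, Or.inr ⟨rfl, rfl⟩⟩)⟩
        · simp only [Finset.mem_coe, H974.mem_LRE_true] at heT
          simp only [H974.src_mk, H974.tgt_true] at hc
          rcases hc with ⟨rfl, rfl⟩ | ⟨rfl, rfl⟩
          · simp only at h1 h2 h3 h4
            have hm : ((x0, y0, true) : Edg) ∈ F ∩ LRE a b' s d := by
              refine ⟨heF, ?_⟩
              simp only [Finset.mem_coe, H974.mem_LRE_true]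
              omega
            have hr : Reach (F ∩ LRE a b' s d) (a, y) (x0 + 1, y0) :=
              h5.trans (Adj.reach ⟨_, hm, Or.inl ⟨rfl, rfl⟩⟩)
            rcases lt_or_eq_of_le (show x0 + 1 ≤ b' by omega) with h6 | h6
            · exact Or.inr ⟨h6, by simp only; omega, h3, h4, hr⟩
            · left
              exact ⟨y0, ⟨h3, h4⟩, h6 ▸ hr⟩
          · simp only at h1 h2 h3 h4
            have hm : ((x0, y0, true) : Edg) ∈ F ∩ LRE a b' s d := by
              refine ⟨heF, ?_⟩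
              simp only [Finset.mem_coe, H974.mem_LRE_true]
              omega
            have hr : Reach (F ∩ LRE a b' s d) (a, y) (x0, y0) :=
              h5.trans (Adj.reach ⟨_, hm, Or.inr ⟨rfl, rfl⟩⟩)
            exact Or.inr ⟨by simp only; omega, by simp only; omega, h3, h4, hr⟩
  rcases key _ h with h1 | h1
  · exact h1
  · have := h1.1
    simp only at this
    omega

/-- the crossing number `k` -/
def Hk (c : Pt → Dr) (k : ℕ) : Prop :=
  if Even k then LRc c 0 (2 ^ (k + 1)) 0 (2 ^ k) else TBc c 0 (2 ^ k) 0 (2 ^ (k + 1))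

/-- `u` starts the crossing number `k` -/
def St' (c : Pt → Dr) (k : ℕ) (u : Pt) : Prop :=
  if Even k then (u.1 = 0 ∧ (0 ≤ u.2 ∧ u.2 ≤ 2 ^ k) ∧
      ∃ y', (0 ≤ y' ∧ y' ≤ 2 ^ k) ∧ Reach (op c ∩ LRE 0 (2 ^ (k + 1)) 0 (2 ^ k)) u (2 ^ (k + 1), y'))
    else (u.2 = 0 ∧ (0 ≤ u.1 ∧ u.1 ≤ 2 ^ k) ∧
      ∃ x', (0 ≤ x' ∧ x' ≤ 2 ^ k) ∧ Reach (op c ∩ TBE 0 (2 ^ k) 0 (2 ^ (k + 1))) u (x', 2 ^ (k + 1)))

theorem exists_start {c : Pt → Dr} {k : ℕ} (h : Hk c k) : ∃ u, St' c k u := by
  unfold Hk at h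
  unfold St'
  split_ifs at h ⊢ with hk
  · obtain ⟨y, y', h1, h2, h3⟩ := h
    exact ⟨(0, y), rfl, h1, y', h2, h3⟩
  · obtain ⟨x, x', h1, h2, h3⟩ := h
    exact ⟨(x, 0), rfl, h1, x', h2, h3⟩

theorem connect {c : Pt → Dr} {k : ℕ} {u v : Pt} (hu : St' c k u) (hv : St' c (k + 1) v) :
    Reach (op c) u v := by
  have hp : (0 : ℤ) < 2 ^ k := by positivity
  have hp1 : (2 : ℤ) ^ (k + 1) = 2 * 2 ^ k := by ring
  have hp2 : (2 : ℤ) ^ (k + 1 + 1) = 4 * 2 ^ k := by ring
  unfold St' at hu hv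
  by_cases hk : Even k
  · have hk1 : ¬ Even (k + 1) := by rw [Nat.even_add_one]; exact not_not.2 hk
    rw [if_pos hk] at hu
    rw [if_neg hk1] at hv
    obtain ⟨hu1, hu2, y', hy', hur⟩ := hu
    obtain ⟨hv1, hv2, x', hx', hvr⟩ := hv
    obtain ⟨u1, u2⟩ := u
    obtain ⟨v1, v2⟩ := v
    simp only at hu1 hu2 hv1 hv2
    subst hu1 hv1
    obtain ⟨x'', hx'', hvr'⟩ := restrict_TB (d' := 2 ^ k) hv2 hp (by rw [hp2]; omega) hvr
    exact (crossings_meet (by rw [hp1]; omega) hp.le hy' hv2 hur hvr').mono inter_subset_left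
  · have hk1 : Even (k + 1) := by rw [Nat.even_add_one]; exact hk
    rw [if_neg hk] at hu
    rw [if_pos hk1] at hv
    obtain ⟨hu1, hu2, y', hy', hur⟩ := hu
    obtain ⟨hv1, hv2, x', hx', hvr⟩ := hv
    obtain ⟨u1, u2⟩ := u
    obtain ⟨v1, v2⟩ := v
    simp only at hu1 hu2 hv1 hv2
    subst hu1 hv1
    obtain ⟨x'', hx'', hvr'⟩ := restrict_LR (b' := 2 ^ k) hv2 hp (by rw [hp2]; omega) hvr
    exact ((crossings_meet hp (by rw [hp1]; omega) hx'' hu2 hvr' hur).mono inter_subset_left).symm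

theorem infinite_of {c : Pt → Dr} {K : ℕ} (h : ∀ k, K ≤ k → Hk c k) :
    ∃ u : Pt, {w | Reach (op c) u w}.Infinite := by
  choose! s hs using fun k (hk : K ≤ k) => exists_start (h k hk)
  refine ⟨s K, ?_⟩
  have hr : ∀ n, Reach (op c) (s K) (s (K + n)) := by
    intro n
    induction n with
    | zero => exact Reach.refl _ _
    | succ n ih =>
      exact ih.trans (connect (hs (K + n) (by omega)) (by
        have := hs (K + n + 1) (by omega)
        exact this))
  have hfar : ∀ n : ℕ, ∃ w, Reach (op c) (s K) w ∧ (n : ℤ) ≤ w.1 + w.2 := by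
    intro n
    have h1 := hs (K + n) (by omega)
    have hpow : (n : ℤ) ≤ 2 ^ (K + n + 1) := by
      have h2 : K + n + 1 < 2 ^ (K + n + 1) := Nat.lt_two_pow_self
      have h3 : ((K + n + 1 : ℕ) : ℤ) < 2 ^ (K + n + 1) := by exact_mod_cast h2
      push_cast at h3
      have : (0 : ℤ) ≤ K := by positivity
      linarith
    unfold St' at h1
    split_ifs at h1
    · obtain ⟨_, _, y', hy', hre⟩ := h1
      refine ⟨_, (hr n).trans (hre.mono inter_subset_left), ?_⟩
      simp only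
      linarith [hy'.1]
    · obtain ⟨_, _, y', hy', hre⟩ := h1
      refine ⟨_, (hr n).trans (hre.mono inter_subset_left), ?_⟩
      simp only
      linarith [hy'.1]
  intro hfin
  obtain ⟨M, hM⟩ := (hfin.image (fun w : Pt => w.1 + w.2)).bddAbove
  obtain ⟨w, hw1, hw2⟩ := hfar (M.toNat + 1)
  have := hM ⟨w, hw1, rfl⟩
  simp only at this
  have h4 := Int.self_le_toNat M
  push_cast at hw2
  omega

/-! ### probability -/

theorem not_Hk_sub (k : ℕ) : {c | ¬ Hk c k} ⊆
    (⋃ x ∈ Finset.Ico (0 : ℤ) (2 ^ (k + 1)), Long (2 ^ k) (x, -1)) ∪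
    (⋃ y ∈ Finset.Ico (0 : ℤ) (2 ^ (k + 1)), Long (2 ^ k) (-1, y)) := by
  intro c hc
  have hp : (0 : ℤ) < 2 ^ k := by positivity
  have hp1 : (0 : ℤ) < 2 ^ (k + 1) := by positivity
  simp only [mem_ofPred_eq, Hk] at hc
  split_ifs at hc with hk
  · left
    obtain ⟨x, x', hx, hr⟩ := dual_of_not_LR hp1.le hp.le hc
    simp only [mem_iUnion]
    refine ⟨x, Finset.mem_Ico.2 hx, ?_⟩
    have e : ((x, (0 : ℤ) - 1) : Pt) = (x, -1) := by simp
    rw [e] at hr
    refine long_of hr (Or.inr ?_)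
    simp only
    push_cast
    rw [abs_of_nonneg (by linarith)]
    linarith
  · right
    obtain ⟨y, y', hy, hr⟩ := dual_of_not_TB hp.le hp1.le hc
    simp only [mem_iUnion]
    refine ⟨y, Finset.mem_Ico.2 hy, ?_⟩
    have e : (((0 : ℤ) - 1, y) : Pt) = (-1, y) := by simp
    rw [e] at hr
    refine long_of hr (Or.inl ?_)
    simp only
    push_cast
    rw [abs_of_nonneg (by linarith)]
    linarith

theorem Vm_nonneg : 0 ≤ Vm := (V_pos []).le

theorem long_le' (n : ℕ) (f : Pt) :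
    QQ (Long n f) ≤ ENNReal.ofReal (4 * ((9999 / 10000) ^ n * Vm)) := by
  rw [← ENNReal.toReal_le_toReal (measure_ne_top _ _) ENNReal.ofReal_ne_top,
    ENNReal.toReal_ofReal (by have := Vm_nonneg; positivity)]
  exact long_le n f

theorem prob_not_Hk (k : ℕ) : QQ {c | ¬ Hk c k} ≤
    ENNReal.ofReal (16 * Vm * ((2 ^ k : ℕ) * (9999 / 10000 : ℝ) ^ (2 ^ k))) := by
  refine (measure_mono (not_Hk_sub k)).trans ((measure_union_le _ _).trans ?_)
  have hcard : (Finset.Ico (0 : ℤ) (2 ^ (k + 1))).card = 2 ^ (k + 1) := by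
    rw [Int.card_Ico, sub_zero]
    have : ((2 : ℤ) ^ (k + 1)) = ((2 ^ (k + 1) : ℕ) : ℤ) := by push_cast; rfl
    rw [this, Int.toNat_natCast]
  have hV := Vm_nonneg
  have hb : ∀ g : ℤ → Pt, QQ (⋃ x ∈ Finset.Ico (0 : ℤ) (2 ^ (k + 1)), Long (2 ^ k) (g x)) ≤
      ENNReal.ofReal (8 * Vm * ((2 ^ k : ℕ) * (9999 / 10000 : ℝ) ^ (2 ^ k))) := by
    intro g
    refine (measure_biUnion_finset_le _ _).trans ?_
    refine (Finset.sum_le_sum fun x _ => long_le' (2 ^ k) (g x)).trans ?_
    rw [Finset.sum_const, hcard, nsmul_eq_mul, ← ENNReal.ofReal_natCast,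
      ← ENNReal.ofReal_mul (by positivity)]
    apply ENNReal.ofReal_le_ofReal
    push_cast
    rw [pow_succ]
    apply le_of_eq
    ring
  refine (add_le_add (hb fun x => (x, -1)) (hb fun y => (-1, y))).trans ?_
  rw [← ENNReal.ofReal_add (by positivity) (by positivity)]
  apply ENNReal.ofReal_le_ofReal
  apply le_of_eq
  ring

theorem summ : Summable fun k : ℕ => 16 * Vm * ((2 ^ k : ℕ) * (9999 / 10000 : ℝ) ^ (2 ^ k)) := by
  have h1 : Summable fun n : ℕ => (n : ℝ) ^ 1 * (9999 / 10000 : ℝ) ^ n :=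
    summable_pow_mul_geometric_of_norm_lt_one 1 (by
      rw [Real.norm_eq_abs, abs_of_pos (by norm_num)]
      norm_num)
  have h2 := h1.comp_injective (Nat.pow_right_injective (le_refl 2))
  simp only [pow_one] at h2
  exact h2.mul_left _

theorem ae_infinite : ∀ᵐ c ∂QQ, ∃ u : Pt, {w | Reach (op c) u w}.Infinite := by
  have hs : ∑' k, QQ {c | ¬ Hk c k} ≠ ∞ := by
    have h1 : ∑' k, QQ {c | ¬ Hk c k} ≤
        ∑' k, ENNReal.ofReal (16 * Vm * ((2 ^ k : ℕ) * (9999 / 10000 : ℝ) ^ (2 ^ k))) :=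
      ENNReal.tsum_le_tsum prob_not_Hk
    refine ne_top_of_le_ne_top ?_ h1
    rw [← ENNReal.ofReal_tsum_of_nonneg (fun k => by have := Vm_nonneg; positivity) summ]
    exact ENNReal.ofReal_ne_top
  have h2 := ae_eventually_notMem hs
  filter_upwards [h2] with c hc
  obtain ⟨K, hK⟩ := Filter.eventually_atTop.1 hc
  refine infinite_of (K := K) fun k hk => ?_
  have := hK k hk
  simp only [mem_ofPred_eq, not_not] at this
  exact this

theorem exists_pos : ∃ u : Pt, QQ {c | {w | Reach (op c) u w}.Infinite} ≠ 0 := by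
  by_contra hcon
  push Not at hcon
  have h1 : QQ (⋃ u : Pt, {c | {w | Reach (op c) u w}.Infinite}) = 0 :=
    measure_iUnion_null hcon
  have h2 : (⋃ u : Pt, {c | {w | Reach (op c) u w}.Infinite}) =
      {c | ∃ u : Pt, {w | Reach (op c) u w}.Infinite} := by
    ext c
    simp
  rw [h2] at h1
  have h3 := ae_infinite
  have h4 : ∀ᵐ c ∂QQ, False := by
    filter_upwards [h3, measure_eq_zero_iff_ae_notMem.1 h1] with c hc1 hc2
    exact hc2 hc1
  rw [Filter.eventually_false_iff_eq_bot, ae_eq_bot] at h4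
  exact IsProbabilityMeasure.ne_zero QQ h4

end Pool.Agent.Q220.Pei
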