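import Pool.Agent.Q220.Pei.Tab
import Pool.Agent.Q220.Pei.Auto

/-!
The check of the table.
-/

set_option autoImplicit false
set_option maxRecDepth 1000000

namespace Pool.Agent.Q220.Pei

theorem s0_mon : mon Tab.s0 (Tab.s0.val 0) = true := by decide +kernel

theorem s0_root : root Tab.s0 = true := by decide +kernel

end Pool.Agent.Q220.Pei
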