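import Mathlib

/-!
Dual self-avoiding walks on the square lattice: histories and the local check.

The face with lower left corner `(x, y)` is denoted by `(x, y)`.
-/

set_option autoImplicit false

namespace Pool.Agent.Q220.Pei

/-- turns of a walk: straight, left, right -/
inductive Turn : Type
  | S | L | R
  deriving DecidableEq

/-- directions -/
inductive Dr : Type
  | E | N | W | S
  deriving DecidableEq

/-- direction of the step before the turn `t` -/
def Dr.prev : Dr → Turn → Dr
  | D, .S => D
  | .E, .L => .S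
  | .N, .L => .E
  | .W, .L => .N
  | .S, .L => .W
  | .E, .R => .N
  | .N, .R => .W
  | .W, .R => .S
  | .S, .R => .E

/-- direction of the step after the turn `t` -/
def Dr.next : Dr → Turn → Dr
  | D, .S => D
  | .E, .L => .N
  | .N, .L => .W
  | .W, .L => .S
  | .S, .L => .E
  | .E, .R => .S
  | .N, .R => .E
  | .W, .R => .N
  | .S, .R => .W

/-- points -/
abbrev Pt : Type := ℤ × ℤ

/-- neighbouring face in the direction `D` -/
def fwd (P : Pt) : Dr → Pt
  | .E => (P.1 + 1, P.2)
  | .N => (P.1, P.2 + 1)
  | .W => (P.1 - 1, P.2)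
  | .S => (P.1, P.2 - 1)

/-- start of the step which arrives at the face `P` in the direction `D` -/
def bck (P : Pt) : Dr → Pt
  | .E => (P.1 - 1, P.2)
  | .N => (P.1, P.2 - 1)
  | .W => (P.1 + 1, P.2)
  | .S => (P.1, P.2 + 1)

/-- left endpoint of the edge crossed by the step which arrives at `P` in the direction `D` -/
def eL (P : Pt) : Dr → Pt
  | .E => (P.1, P.2 + 1)
  | .N => (P.1, P.2)
  | .W => (P.1 + 1, P.2)
  | .S => (P.1 + 1, P.2 + 1)

/-- right endpoint of the edge crossed by the step which arrives at `P` in the direction `D` -/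
def eR (P : Pt) : Dr → Pt
  | .E => (P.1, P.2)
  | .N => (P.1 + 1, P.2)
  | .W => (P.1 + 1, P.2 + 1)
  | .S => (P.1, P.2 + 1)

/-- search tree of turn sequences (the most recent turn first) with values -/
inductive Tr : Type
  | lf : Tr
  | nd (v : ℕ) (s l r : Tr) : Tr

/-- reflection -/
def Tr.mir : Tr → Tr
  | .lf => .lf
  | .nd v s l r => .nd v s.mir r.mir l.mir

/-- child -/
def Tr.ch : Tr → Turn → Tr
  | .lf, _ => .lf
  | .nd _ s _ _, .S => s
  | .nd _ _ l _, .L => l
  | .nd _ _ _ r, .R => r

/-- value, or the default for the empty tree -/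
def Tr.val : Tr → ℕ → ℕ
  | .lf, d => d
  | .nd v _ _ _, _ => v

/-- value of the deepest node along the sequence -/
def Tr.look : Tr → ℕ → List Turn → ℕ
  | T, d, [] => T.val d
  | T, d, t :: ts => (T.ch t).look (T.val d) ts

/-- add an edge to a connected set of vertices -/
def grow (W : List Pt) (a b : Pt) : List Pt :=
  if a ∈ W then (if b ∈ W then W else b :: W) else if b ∈ W then a :: W else W

/-- what is remembered of a history -/
structure St : Type where
  D : Dr
  P : Pt
  B : List Pt
  L : List Pt
  R : List Pt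
  bS : Bool
  bL : Bool
  bR : Bool

/-- one more (older) step of the history -/
def St.step (s : St) (t : Turn) : St :=
  ⟨s.D.prev t, bck s.P (s.D.prev t), grow s.B (eL s.P (s.D.prev t)) (eR s.P (s.D.prev t)),
    grow s.L (eL s.P (s.D.prev t)) (eR s.P (s.D.prev t)),
    grow s.R (eL s.P (s.D.prev t)) (eR s.P (s.D.prev t)),
    s.bS || decide (bck s.P (s.D.prev t) = (1, 0)),
    s.bL || decide (bck s.P (s.D.prev t) = (0, 1)),
    s.bR || decide (bck s.P (s.D.prev t) = (0, -1))⟩

/-- the state after one step -/
def st0 : St := ⟨.E, (-1, 0), [(0, 1), (0, 0)], [(1, 1)], [(1, 0)], false, false, false⟩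

/-- numerator of the bound for the conditional probability -/
def rnum (m n : ℕ) : ℕ :=
  if m = 1 then 3 * n + 4 else if n = 1 then 3 * m + 4 else (3 * m + 1) + (3 * n + 1)

/-- denominator of the bound for the conditional probability -/
def rden (m n : ℕ) : ℕ :=
  if m = 1 then 4 * (3 * n + 1) else if n = 1 then 4 * (3 * m + 1) else (3 * m + 1) * (3 * n + 1)

/-- product with a value which is dropped when the step is blocked -/
def ter (b : Bool) (x y : ℕ) : ℕ := if b then 0 else x * y

/-- the inequality at a node -/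
def ineq (v : ℕ) (nB nL nR : ℕ) (bS bL bR : Bool) (vS vL vR : ℕ) : Bool :=
  Nat.ble (10000 * (ter bS (rnum nL nR) vS * (rden nB nL * rden nB nR) +
      ter bL (rnum nB nL) vL * (rden nL nR * rden nB nR) +
      ter bR (rnum nB nR) vR * (rden nL nR * rden nB nL)))
    (9999 * (v * (rden nL nR * (rden nB nL * rden nB nR))))

/-- the check -/
def chk : Tr → St → Tr → ℕ → Tr → ℕ → Tr → ℕ → Bool
  | .lf, _, _, _, _, _, _, _ => true
  | .nd v s l r, g, cS, vS, cL, vL, cR, vR =>
    ineq v g.B.length g.L.length g.R.length g.bS g.bL g.bR vS vL vR &&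
    (chk s (g.step .S) (cS.ch .S) ((cS.ch .S).val vS) (cL.ch .S) ((cL.ch .S).val vL)
      (cR.ch .S) ((cR.ch .S).val vR) &&
    (chk l (g.step .L) (cS.ch .L) ((cS.ch .L).val vS) (cL.ch .L) ((cL.ch .L).val vL)
      (cR.ch .L) ((cR.ch .L).val vR) &&
    chk r (g.step .R) (cS.ch .R) ((cS.ch .R).val vS) (cL.ch .R) ((cL.ch .R).val vL)
      (cR.ch .R) ((cR.ch .R).val vR)))

/-- children have smaller values -/
def mon : Tr → ℕ → Bool
  | .lf, _ => true
  | .nd v s l r, u => Nat.ble v u && (mon s v && (mon l v && mon r v))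

end Pool.Agent.Q220.Pei
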