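import Pool.Agent.Q220.Pei.Auto

/-!
The remembered state describes every history, in every position and direction.
-/

set_option autoImplicit false

namespace Pool.Agent.Q220.Pei

/-- edges crossed by the older steps -/
def rest (P : Pt) (D : Dr) : List Turn → List (Pt × Pt)
  | [] => []
  | t :: ts => (eL P (D.prev t), eR P (D.prev t)) :: rest (bck P (D.prev t)) (D.prev t) ts

/-- faces visited by the older steps -/
def rpts (P : Pt) (D : Dr) : List Turn → List Pt
  | [] => []
  | t :: ts => bck P (D.prev t) :: rpts (bck P (D.prev t)) (D.prev t) ts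

/-- edges crossed by the walk which arrives at `P` in the direction `D` after the turns `ts` -/
def edges (P : Pt) (D : Dr) (ts : List Turn) : List (Pt × Pt) :=
  (eL P D, eR P D) :: rest (bck P D) D ts

/-- faces visited by the walk -/
def pts (P : Pt) (D : Dr) (ts : List Turn) : List Pt := P :: bck P D :: rpts (bck P D) D ts

theorem prev_next (D : Dr) (t : Turn) : (D.next t).prev t = D := by cases D <;> cases t <;> rfl

theorem bck_fwd (P : Pt) (D : Dr) : bck (fwd P D) D = P := by
  cases D <;> simp [bck, fwd]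

theorem edges_next (P : Pt) (D : Dr) (ts : List Turn) (t : Turn) :
    edges (fwd P (D.next t)) (D.next t) (t :: ts) =
      (eL (fwd P (D.next t)) (D.next t), eR (fwd P (D.next t)) (D.next t)) :: edges P D ts := by
  unfold edges
  rw [bck_fwd]
  simp only [rest, prev_next]

theorem pts_next (P : Pt) (D : Dr) (ts : List Turn) (t : Turn) :
    pts (fwd P (D.next t)) (D.next t) (t :: ts) = fwd P (D.next t) :: pts P D ts := by
  unfold pts
  rw [bck_fwd]
  simp only [rpts, prev_next]

/-! ### frames -/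

/-- the face `Q`, seen from the face `P` looking in the direction `D` -/
def ff (P : Pt) (D : Dr) (Q : Pt) : Pt :=
  match D with
  | .E => (P.1 + Q.1, P.2 + Q.2)
  | .N => (P.1 - Q.2, P.2 + Q.1)
  | .W => (P.1 - Q.1, P.2 - Q.2)
  | .S => (P.1 + Q.2, P.2 - Q.1)

/-- the vertex `Q`, seen from the face `P` looking in the direction `D` -/
def fv (P : Pt) (D : Dr) (Q : Pt) : Pt :=
  match D with
  | .E => (P.1 + Q.1, P.2 + Q.2)
  | .N => (P.1 + 1 - Q.2, P.2 + Q.1)
  | .W => (P.1 + 1 - Q.1, P.2 + 1 - Q.2)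
  | .S => (P.1 + Q.2, P.2 + 1 - Q.1)

/-- composition of directions -/
def dm : Dr → Dr → Dr
  | .E, D => D
  | .N, .E => .N
  | .N, .N => .W
  | .N, .W => .S
  | .N, .S => .E
  | .W, .E => .W
  | .W, .N => .S
  | .W, .W => .E
  | .W, .S => .N
  | .S, .E => .S
  | .S, .N => .E
  | .S, .W => .N
  | .S, .S => .W

theorem dm_prev (D D' : Dr) (t : Turn) : dm D (D'.prev t) = (dm D D').prev t := by
  cases D <;> cases D' <;> cases t <;> rfl

theorem fv_eL (P : Pt) (D : Dr) (Q : Pt) (D' : Dr) :
    fv P D (eL Q D') = eL (ff P D Q) (dm D D') := by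
  obtain ⟨p1, p2⟩ := P
  obtain ⟨q1, q2⟩ := Q
  cases D <;> cases D' <;> simp only [fv, eL, ff, dm, Prod.mk.injEq] <;> constructor <;> first | trivial | ring

theorem fv_eR (P : Pt) (D : Dr) (Q : Pt) (D' : Dr) :
    fv P D (eR Q D') = eR (ff P D Q) (dm D D') := by
  obtain ⟨p1, p2⟩ := P
  obtain ⟨q1, q2⟩ := Q
  cases D <;> cases D' <;> simp only [fv, eR, ff, dm, Prod.mk.injEq] <;> constructor <;> first | trivial | ring

theorem ff_bck (P : Pt) (D : Dr) (Q : Pt) (D' : Dr) :
    ff P D (bck Q D') = bck (ff P D Q) (dm D D') := by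
  obtain ⟨p1, p2⟩ := P
  obtain ⟨q1, q2⟩ := Q
  cases D <;> cases D' <;> simp only [bck, ff, dm, Prod.mk.injEq] <;> constructor <;> first | trivial | ring

theorem fv_inj (P : Pt) (D : Dr) : Function.Injective (fv P D) := by
  rintro ⟨a, b⟩ ⟨c, d⟩ h
  cases D <;> simp only [fv, Prod.mk.injEq] at h <;> ext <;> simp <;> omega

/-! ### connected sets -/

/-- sets of vertices connected by edges of `F`, built one vertex at a time -/
inductive Gr (F : List (Pt × Pt)) : List Pt → Prop
  | one (a : Pt) : Gr F [a]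
  | cons {W : List Pt} {p w : Pt} : Gr F W → p ∈ W → w ∉ W → ((p, w) ∈ F ∨ (w, p) ∈ F) →
      Gr F (w :: W)

theorem grow_sound {F : List (Pt × Pt)} {W : List Pt} {a b : Pt} {f : Pt → Pt}
    (hf : Function.Injective f) (hG : Gr F (W.map f)) (he : (f a, f b) ∈ F) :
    Gr F ((grow W a b).map f) := by
  unfold grow
  have hm : ∀ x, f x ∈ W.map f ↔ x ∈ W := fun x => List.mem_map_of_injective hf
  split_ifs with h1 h2 h3
  · exact hG
  · rw [List.map_cons]
    exact Gr.cons hG ((hm a).2 h1) (fun h => h2 ((hm b).1 h)) (Or.inl he)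
  · rw [List.map_cons]
    exact Gr.cons hG ((hm b).2 h3) (fun h => h1 ((hm a).1 h)) (Or.inr he)
  · exact hG

theorem mem_grow {W : List Pt} {a b x : Pt} (h : x ∈ W) : x ∈ grow W a b := by
  unfold grow
  split_ifs
  · exact h
  · exact List.mem_cons_of_mem _ h
  · exact List.mem_cons_of_mem _ h
  · exact h

/-- the state is a correct description of the edges `F` and of the visited faces `X`, seen from
`P` in the direction `D` -/
structure Valid (P : Pt) (D : Dr) (F : List (Pt × Pt)) (X : List Pt) (g : St) : Prop where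
  B : Gr F (g.B.map (fv P D))
  L : Gr F (g.L.map (fv P D))
  R : Gr F (g.R.map (fv P D))
  mB1 : ((0, 1) : Pt) ∈ g.B
  mB2 : ((0, 0) : Pt) ∈ g.B
  mL : ((1, 1) : Pt) ∈ g.L
  mR : ((1, 0) : Pt) ∈ g.R
  bS : g.bS = true → ff P D (1, 0) ∈ X
  bL : g.bL = true → ff P D (0, 1) ∈ X
  bR : g.bR = true → ff P D (0, -1) ∈ X

theorem valid_fold (P : Pt) (D : Dr) (F : List (Pt × Pt)) (X : List Pt) (ts : List Turn) :
    ∀ (g : St), Valid P D F X g → (∀ e ∈ rest (ff P D g.P) (dm D g.D) ts, e ∈ F) →
      (∀ p ∈ rpts (ff P D g.P) (dm D g.D) ts, p ∈ X) →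
      ∀ j, Valid P D F X ((ts.take j).foldl St.step g) := by
  induction ts with
  | nil =>
    intro g hg _ _ j
    simpa using hg
  | cons t ts ih =>
    intro g hg hF hX j
    cases j with
    | zero => simpa using hg
    | succ j =>
      rw [List.take_succ_cons, List.foldl_cons]
      have e1 : (fv P D (eL g.P (g.D.prev t)), fv P D (eR g.P (g.D.prev t))) ∈ F := by
        rw [fv_eL, fv_eR, dm_prev]
        exact hF _ (by simp [rest])
      have e2 : ff P D (bck g.P (g.D.prev t)) ∈ X := by
        rw [ff_bck, dm_prev]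
        exact hX _ (by simp [rpts])
      have hi := fv_inj P D
      refine ih (g.step t) ⟨grow_sound hi hg.B e1, grow_sound hi hg.L e1, grow_sound hi hg.R e1,
        mem_grow hg.mB1, mem_grow hg.mB2, mem_grow hg.mL, mem_grow hg.mR, ?_, ?_, ?_⟩ ?_ ?_ j
      · intro h
        simp only [St.step, Bool.or_eq_true, decide_eq_true_eq] at h
        rcases h with h | h
        · exact hg.bS h
        · rw [h] at e2; exact e2
      · intro h
        simp only [St.step, Bool.or_eq_true, decide_eq_true_eq] at h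
        rcases h with h | h
        · exact hg.bL h
        · rw [h] at e2; exact e2
      · intro h
        simp only [St.step, Bool.or_eq_true, decide_eq_true_eq] at h
        rcases h with h | h
        · exact hg.bR h
        · rw [h] at e2; exact e2
      · intro e he
        refine hF e ?_
        simp only [St.step, ff_bck, dm_prev] at he
        simp only [rest, List.mem_cons]
        exact Or.inr he
      · intro p hp
        refine hX p ?_
        simp only [St.step, ff_bck, dm_prev] at hp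
        simp only [rpts, List.mem_cons]
        exact Or.inr hp

theorem ff_zero (P : Pt) (D : Dr) : ff P D (0, 0) = P := by
  cases D <;> simp [ff]

theorem dm_E (D : Dr) : dm D .E = D := by cases D <;> rfl

theorem valid_all (P : Pt) (D : Dr) (ts : List Turn) (j : ℕ) :
    Valid P D (edges P D ts) (pts P D ts) ((ts.take j).foldl St.step st0) := by
  have h1 : ff P D st0.P = bck P D := by
    cases D <;> simp [ff, st0, bck, sub_eq_add_neg]
  have h2 : dm D st0.D = D := dm_E D
  refine valid_fold P D _ _ ts st0 ⟨?_, Gr.one _, Gr.one _, by simp [st0], by simp [st0],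
    by simp [st0], by simp [st0], by simp [st0], by simp [st0], by simp [st0]⟩ ?_ ?_ j
  · show Gr _ [fv P D (0, 1), fv P D (0, 0)]
    have e1 : fv P D (0, 1) = eL P D := by cases D <;> simp [fv, eL]
    have e2 : fv P D (0, 0) = eR P D := by cases D <;> simp [fv, eR]
    rw [e1, e2]
    refine Gr.cons (Gr.one _) (List.mem_singleton_self _) ?_ (Or.inr (by simp [edges]))
    rw [List.mem_singleton]
    intro h
    obtain ⟨p1, p2⟩ := P
    cases D <;> simp [eL, eR] at h
  · intro e he
    rw [h1, h2] at he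
    simp only [edges, List.mem_cons]
    exact Or.inr he
  · intro p hp
    rw [h1, h2] at hp
    simp only [pts, List.mem_cons]
    exact Or.inr (Or.inr hp)

/-! ### the new edges -/

theorem new_S (P : Pt) (D : Dr) : eL (fwd P (D.next .S)) (D.next .S) = fv P D (1, 1) ∧
    eR (fwd P (D.next .S)) (D.next .S) = fv P D (1, 0) ∧ fwd P (D.next .S) = ff P D (1, 0) := by
  cases D <;> simp [eL, eR, fwd, Dr.next, fv, ff, sub_eq_add_neg]

theorem new_L (P : Pt) (D : Dr) : eL (fwd P (D.next .L)) (D.next .L) = fv P D (0, 1) ∧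
    eR (fwd P (D.next .L)) (D.next .L) = fv P D (1, 1) ∧ fwd P (D.next .L) = ff P D (0, 1) := by
  cases D <;> simp [eL, eR, fwd, Dr.next, fv, ff, sub_eq_add_neg]

theorem new_R (P : Pt) (D : Dr) : eL (fwd P (D.next .R)) (D.next .R) = fv P D (1, 0) ∧
    eR (fwd P (D.next .R)) (D.next .R) = fv P D (0, 0) ∧ fwd P (D.next .R) = ff P D (0, -1) := by
  cases D <;> simp [eL, eR, fwd, Dr.next, fv, ff, sub_eq_add_neg]

theorem faces_eq {P Q : Pt} {D D' : Dr}
    (h : (eL P D = eL Q D' ∧ eR P D = eR Q D') ∨ (eL P D = eR Q D' ∧ eR P D = eL Q D')) :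
    P = Q ∨ P = bck Q D' := by
  obtain ⟨p1, p2⟩ := P
  obtain ⟨q1, q2⟩ := Q
  cases D <;> cases D' <;> simp only [eL, eR, bck, Prod.mk.injEq] at h ⊢ <;> omega

theorem rest_faces (ts : List Turn) : ∀ (P : Pt) (D : Dr), ∀ e ∈ rest P D ts, ∃ (Q : Pt) (D' : Dr),
    e = (eL Q D', eR Q D') ∧ Q ∈ P :: rpts P D ts ∧ bck Q D' ∈ P :: rpts P D ts := by
  induction ts with
  | nil => intro P D e he; simp [rest] at he
  | cons t ts ih =>
    intro P D e he
    simp only [rest, List.mem_cons] at he
    rcases he with rfl | he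
    · exact ⟨P, D.prev t, rfl, by simp, by simp [rpts]⟩
    · obtain ⟨Q, D', h1, h2, h3⟩ := ih _ _ e he
      refine ⟨Q, D', h1, ?_, ?_⟩
      · simp only [rpts, List.mem_cons] at h2 ⊢
        exact Or.inr h2
      · simp only [rpts, List.mem_cons] at h3 ⊢
        exact Or.inr h3

theorem edges_faces (P : Pt) (D : Dr) (ts : List Turn) : ∀ e ∈ edges P D ts, ∃ (Q : Pt) (D' : Dr),
    e = (eL Q D', eR Q D') ∧ Q ∈ pts P D ts ∧ bck Q D' ∈ pts P D ts := by
  intro e he
  simp only [edges, List.mem_cons] at he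
  rcases he with rfl | he
  · exact ⟨P, D, rfl, by simp [pts], by simp [pts]⟩
  · obtain ⟨Q, D', h1, h2, h3⟩ := rest_faces ts _ _ e he
    refine ⟨Q, D', h1, ?_, ?_⟩
    · simp only [pts, List.mem_cons] at h2 ⊢
      exact Or.inr h2
    · simp only [pts, List.mem_cons] at h3 ⊢
      exact Or.inr h3

/-- the new edge of a self-avoiding walk is new -/
theorem new_edge {P : Pt} {D : Dr} {ts : List Turn} {P' : Pt} {D' : Dr} (h : P' ∉ pts P D ts) :
    (eL P' D', eR P' D') ∉ edges P D ts ∧ (eR P' D', eL P' D') ∉ edges P D ts := by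
  constructor
  · intro he
    obtain ⟨Q, D1, h1, h2, h3⟩ := edges_faces P D ts _ he
    rw [Prod.mk.injEq] at h1
    rcases faces_eq (Or.inl h1) with hq | hq
    · exact h (hq ▸ h2)
    · exact h (hq ▸ h3)
  · intro he
    obtain ⟨Q, D1, h1, h2, h3⟩ := edges_faces P D ts _ he
    rw [Prod.mk.injEq] at h1
    rcases faces_eq (Or.inr ⟨h1.2, h1.1⟩) with hq | hq
    · exact h (hq ▸ h2)
    · exact h (hq ▸ h3)

end Pool.Agent.Q220.Pei
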