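import Pool.Agent.Q220.Pei.Sum
import Pool.Agent.H974R2.Lattice

/-!
Rectangles which are not crossed contain long closed dual paths.
-/

set_option autoImplicit false

namespace Pool.Agent.Q220.Pei

open MeasureTheory ProbabilityTheory Set
open H974 (Edg src tgt dsrc dtgt Adj Reach DAdj DReach LRE TBE RE bdry dual_crossing)

/-- the closed edges -/
def cs (c : Pt → Dr) : Set Edg := {e | cl c (src e, tgt e)}

/-- the open edges -/
def op (c : Pt → Dr) : Set Edg := {e | ¬ cl c (src e, tgt e)}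

theorem cl_symm {c : Pt → Dr} {a b : Pt} (h : cl c (a, b)) : cl c (b, a) := h.symm

theorem dadj_dir {c : Pt → Dr} {P v : Pt} (h : DAdj (cs c) P v) :
    ∃ D, v = fwd P D ∧ cl c (eL v D, eR v D) := by
  obtain ⟨⟨x, y, b⟩, he, hc⟩ := h
  cases b
  · simp only [H974.dsrc_false, H974.dtgt_mk] at hc
    have he' : cl c ((x, y), (x, y + 1)) := he
    rcases hc with ⟨rfl, rfl⟩ | ⟨rfl, rfl⟩
    · exact ⟨.E, by simp [fwd], cl_symm he'⟩
    · refine ⟨.W, by simp [fwd], ?_⟩
      simpa [eL, eR] using he'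
  · simp only [H974.dsrc_true, H974.dtgt_mk] at hc
    have he' : cl c ((x, y), (x + 1, y)) := he
    rcases hc with ⟨rfl, rfl⟩ | ⟨rfl, rfl⟩
    · exact ⟨.N, by simp [fwd], he'⟩
    · refine ⟨.S, by simp [fwd], ?_⟩
      simpa [eL, eR] using cl_symm he'

/-- the graph of faces with the closed dual edges -/
def DG (c : Pt → Dr) : SimpleGraph Pt where
  Adj u v := DAdj (cs c) u v
  symm := ⟨fun _ _ h => h.symm⟩
  loopless := ⟨fun v h => by
    obtain ⟨D, h1, _⟩ := dadj_dir h
    obtain ⟨x, y⟩ := v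
    cases D <;> simp [fwd] at h1 <;> omega⟩

theorem reachable_of {c : Pt → Dr} {u v : Pt} (h : DReach (cs c) u v) : (DG c).Reachable u v := by
  induction h with
  | refl => exact SimpleGraph.Reachable.refl _
  | tail _ hs ih => exact ih.trans (SimpleGraph.Adj.reachable hs)

theorem adj_disp {c : Pt → Dr} {u v : Pt} (h : (DG c).Adj u v) :
    |v.1 - u.1| ≤ 1 ∧ |v.2 - u.2| ≤ 1 := by
  obtain ⟨D, h1, _⟩ := dadj_dir h
  rw [h1]
  cases D <;> simp [fwd]

theorem walk_disp {c : Pt → Dr} {u v : Pt} (p : (DG c).Walk u v) :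
    |v.1 - u.1| ≤ p.length ∧ |v.2 - u.2| ≤ p.length := by
  induction p with
  | nil => simp
  | @cons a b d h p ih =>
    have := adj_disp h
    rw [SimpleGraph.Walk.length_cons]
    push_cast
    constructor
    · have h1 := abs_sub_le d.1 b.1 a.1
      linarith [ih.1, this.1]
    · have h1 := abs_sub_le d.2 b.2 a.2
      linarith [ih.2, this.2]

theorem walk_Wk {c : Pt → Dr} (n : ℕ) : ∀ {P g : Pt} (p : (DG c).Walk P g) (D : Dr)
    (ts : List Turn), p.IsPath → n ≤ p.length → (pts P D ts).Nodup →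
    (∀ v ∈ p.support.tail, v ∉ pts P D ts) → c ∈ CL (edges P D ts) → c ∈ Wk n P D ts := by
  induction n with
  | zero =>
    intro P g p D ts _ _ hN _ hc
    unfold Wk
    rw [if_pos hN]
    exact hc
  | succ n ih =>
    intro P g p D ts hp hn hN hd hc
    cases p with
    | nil => simp at hn
    | @cons _ v _ h p =>
      rw [SimpleGraph.Walk.length_cons] at hn
      rw [SimpleGraph.Walk.support_cons, List.tail_cons] at hd
      have hv : v ∉ pts P D ts := hd v p.start_mem_support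
      obtain ⟨D1, h1, h2⟩ := dadj_dir h
      have hb : fwd P D1 ≠ bck P D := by
        intro he
        apply hv
        rw [h1, he]
        simp [pts]
      obtain ⟨t, ht⟩ := turn_exists hb
      subst ht
      have hpp : p.IsPath := hp.of_cons
      have key : c ∈ Wk n v (D.next t) (t :: ts) := by
        apply ih p (D.next t) (t :: ts) hpp (by omega)
        · rw [h1, pts_next, List.nodup_cons, ← h1]
          exact ⟨hv, hN⟩
        · intro w hw
          rw [h1, pts_next, ← h1, List.mem_cons, not_or]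
          have hsup : p.support.Nodup := hpp.support_nodup
          have hw' : w ∈ p.support := List.mem_of_mem_tail hw
          refine ⟨?_, hd w hw'⟩
          intro hwv
          rw [SimpleGraph.Walk.support_eq_cons, List.nodup_cons] at hsup
          exact hsup.1 (hwv ▸ hw)
        · rw [h1, edges_next, ← h1]
          intro e he
          rw [List.mem_cons] at he
          rcases he with rfl | he
          · exact h2
          · exact hc e he
      rw [h1] at key
      show c ∈ (Wk n (fwd P (D.next .S)) (D.next .S) (.S :: ts) ∪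
        Wk n (fwd P (D.next .L)) (D.next .L) (.L :: ts)) ∪
        Wk n (fwd P (D.next .R)) (D.next .R) (.R :: ts)
      cases t
      · exact Or.inl (Or.inl key)
      · exact Or.inl (Or.inr key)
      · exact Or.inr key

/-- there is a long closed dual path from the face `f` -/
def Long (n : ℕ) (f : Pt) : Set (Pt → Dr) :=
  ((Wk n (fwd f .E) .E [] ∪ Wk n (fwd f .N) .N []) ∪ Wk n (fwd f .W) .W []) ∪
    Wk n (fwd f .S) .S []

theorem long_of {c : Pt → Dr} {f g : Pt} (h : DReach (cs c) f g) {n : ℕ}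
    (hd : (n : ℤ) + 1 ≤ |g.1 - f.1| ∨ (n : ℤ) + 1 ≤ |g.2 - f.2|) : c ∈ Long n f := by
  obtain ⟨p0⟩ := reachable_of h
  classical
  set p := (p0.toPath : (DG c).Walk f g) with hp
  have hpath : p.IsPath := p0.toPath.2
  have hlen : n + 1 ≤ p.length := by
    have := walk_disp p
    rcases hd with h1 | h1
    · have := h1.trans this.1
      exact_mod_cast this
    · have := h1.trans this.2
      exact_mod_cast this
  clear_value p
  cases p with
  | nil => simp at hlen
  | @cons _ v _ h p =>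
    rw [SimpleGraph.Walk.length_cons] at hlen
    obtain ⟨D1, h1, h2⟩ := dadj_dir h
    have hsup := hpath.support_nodup
    rw [SimpleGraph.Walk.support_cons, List.nodup_cons] at hsup
    have hpp : p.IsPath := hpath.of_cons
    have hbf : bck v D1 = f := by rw [h1, bck_fwd]
    have key : c ∈ Wk n v D1 [] := by
      apply walk_Wk n p D1 [] hpp (by omega)
      · simp only [pts, rpts, hbf, List.nodup_cons, List.mem_singleton, List.not_mem_nil,
          not_false_eq_true, List.nodup_nil, and_self, and_true]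
        intro hvf
        exact hsup.1 (hvf ▸ p.start_mem_support)
      · intro w hw
        simp only [pts, rpts, hbf, List.mem_cons, List.not_mem_nil, or_false, not_or]
        have hw' : w ∈ p.support := List.mem_of_mem_tail hw
        have hs2 := hpp.support_nodup
        rw [SimpleGraph.Walk.support_eq_cons, List.nodup_cons] at hs2
        exact ⟨fun hwv => hs2.1 (hwv ▸ hw), fun hwf => hsup.1 (hwf ▸ hw')⟩
      · intro e he
        simp only [edges, rest, List.mem_singleton] at he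
        rw [he]
        exact h2
    rw [h1] at key
    unfold Long
    cases D1
    · exact Or.inl (Or.inl (Or.inl key))
    · exact Or.inl (Or.inl (Or.inr key))
    · exact Or.inl (Or.inr key)
    · exact Or.inr key

theorem long_le (n : ℕ) (f : Pt) : QQ.real (Long n f) ≤ 4 * ((9999 / 10000) ^ n * Vm) := by
  unfold Long
  have h1 := measureReal_union_le (μ := QQ) ((Wk n (fwd f .E) .E [] ∪ Wk n (fwd f .N) .N []) ∪
    Wk n (fwd f .W) .W []) (Wk n (fwd f .S) .S [])
  have h2 := measureReal_union_le (μ := QQ) (Wk n (fwd f .E) .E [] ∪ Wk n (fwd f .N) .N [])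
    (Wk n (fwd f .W) .W [])
  have h3 := measureReal_union_le (μ := QQ) (Wk n (fwd f .E) .E []) (Wk n (fwd f .N) .N [])
  have e1 := Wk_le n (fwd f .E) .E
  have e2 := Wk_le n (fwd f .N) .N
  have e3 := Wk_le n (fwd f .W) .W
  have e4 := Wk_le n (fwd f .S) .S
  linarith

/-! ### crossings -/

/-- left-right crossing -/
def LRc (c : Pt → Dr) (a b s d : ℤ) : Prop :=
  ∃ y y', (s ≤ y ∧ y ≤ d) ∧ (s ≤ y' ∧ y' ≤ d) ∧ Reach (op c ∩ LRE a b s d) (a, y) (b, y')

/-- top-bottom crossing -/
def TBc (c : Pt → Dr) (a b s d : ℤ) : Prop :=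
  ∃ x x', (a ≤ x ∧ x ≤ b) ∧ (a ≤ x' ∧ x' ≤ b) ∧ Reach (op c ∩ TBE a b s d) (x, s) (x', d)

theorem dual_of_not_LR {c : Pt → Dr} {a b s d : ℤ} (hab : a ≤ b) (hsd : s ≤ d)
    (h : ¬ LRc c a b s d) : ∃ x x', (a ≤ x ∧ x < b) ∧ DReach (cs c) (x, s - 1) (x', d) := by
  set W : Pt → Prop := fun v => ∃ y, (s ≤ y ∧ y ≤ d) ∧ Reach (op c ∩ LRE a b s d) (a, y) v with hW
  obtain ⟨x, x', hx, _, hr⟩ := dual_crossing hab hsd W
    (fun y h1 h2 => ⟨y, ⟨h1, h2⟩, Reach.refl _ _⟩)
    (fun y' h1 h2 ⟨y, h3, h4⟩ => h ⟨y, y', h3, ⟨h1, h2⟩, h4⟩)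
  refine ⟨x, x', hx, hr.mono ?_⟩
  rintro e ⟨he, heL⟩
  by_contra hcl
  have ho : e ∈ op c ∩ (LRE a b s d : Set Edg) := ⟨hcl, heL⟩
  apply he
  constructor
  · rintro ⟨y, hy, hr⟩
    exact ⟨y, hy, hr.trans (Adj.reach ⟨e, ho, Or.inl ⟨rfl, rfl⟩⟩)⟩
  · rintro ⟨y, hy, hr⟩
    exact ⟨y, hy, hr.trans (Adj.reach ⟨e, ho, Or.inr ⟨rfl, rfl⟩⟩)⟩

/-- transposition of an edge -/
def tr (e : Edg) : Edg := (e.2.1, e.1, !e.2.2)

theorem dreach_swap {F G : Set Edg} (hFG : ∀ e ∈ F, tr e ∈ G) {u v : Pt} (h : DReach F u v) :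
    DReach G u.swap v.swap := by
  induction h with
  | refl => exact DReach.refl _ _
  | @tail w w' _ hs ih =>
    refine ih.trans (DAdj.reach ?_)
    obtain ⟨⟨x, y, b⟩, he, hc⟩ := hs
    refine ⟨tr (x, y, b), hFG _ he, ?_⟩
    cases b
    · simp only [H974.dsrc_false, H974.dtgt_mk, tr, Bool.not_false, H974.dsrc_true] at hc ⊢
      rcases hc with ⟨rfl, rfl⟩ | ⟨rfl, rfl⟩
      · left; simp
      · right; simp
    · simp only [H974.dsrc_false, H974.dtgt_mk, tr, Bool.not_true, H974.dsrc_true] at hc ⊢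
      rcases hc with ⟨rfl, rfl⟩ | ⟨rfl, rfl⟩
      · left; simp
      · right; simp

theorem src_tr (e : Edg) : src (tr e) = (src e).swap := rfl

theorem tgt_tr (e : Edg) : tgt (tr e) = (tgt e).swap := by
  obtain ⟨x, y, b⟩ := e
  cases b <;> simp [tr]

theorem dual_of_not_TB {c : Pt → Dr} {a b s d : ℤ} (hab : a ≤ b) (hsd : s ≤ d)
    (h : ¬ TBc c a b s d) : ∃ y y', (s ≤ y ∧ y < d) ∧ DReach (cs c) (a - 1, y) (b, y') := by
  set W : Pt → Prop := fun v => ∃ x, (a ≤ x ∧ x ≤ b) ∧
    Reach (op c ∩ TBE a b s d) (x, s) v.swap with hW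
  obtain ⟨x, x', hx, _, hr⟩ := dual_crossing (a := s) (b := d) (c := a) (d := b) hsd hab W
    (fun y h1 h2 => ⟨y, ⟨h1, h2⟩, Reach.refl _ _⟩)
    (fun y' h1 h2 ⟨y, h3, h4⟩ => h ⟨y, y', h3, ⟨h1, h2⟩, h4⟩)
  refine ⟨x, x', hx, dreach_swap (fun e he => ?_) hr⟩
  obtain ⟨he, heL⟩ := he
  by_contra hcl
  have heT : tr e ∈ (TBE a b s d : Set Edg) := by
    obtain ⟨x, y, b⟩ := e
    cases b
    · simp only [Finset.mem_coe, H974.mem_LRE_false] at heL
      simp only [tr, Bool.not_false, Finset.mem_coe, H974.mem_TBE_true]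
      omega
    · simp only [Finset.mem_coe, H974.mem_LRE_true] at heL
      simp only [tr, Bool.not_true, Finset.mem_coe, H974.mem_TBE_false]
      omega
  have ho : tr e ∈ op c ∩ (TBE a b s d : Set Edg) := ⟨hcl, heT⟩
  apply he
  constructor
  · rintro ⟨y, hy, hr⟩
    exact ⟨y, hy, hr.trans (Adj.reach ⟨tr e, ho, Or.inl ⟨src_tr e, tgt_tr e⟩⟩)⟩
  · rintro ⟨y, hy, hr⟩
    exact ⟨y, hy, hr.trans (Adj.reach ⟨tr e, ho, Or.inr ⟨src_tr e, tgt_tr e⟩⟩)⟩

end Pool.Agent.Q220.Pei
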