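import Pool.Agent.Q220.Pei.Tab
import Pool.Agent.Q220.Pei.Auto

/-!
All values of the table are positive.
-/

set_option autoImplicit false
set_option maxRecDepth 1000000

namespace Pool.Agent.Q220.Pei

/-- all values are positive -/
def minv : Tr → Bool
  | .lf => true
  | .nd v s l r => Nat.ble 1 v && (minv s && (minv l && minv r))

theorem s0_minv : minv Tab.s0 = true := by decide +kernel

theorem s0_top : Nat.ble 1 (Tab.s0.val 0) = true := by decide +kernel

theorem minv_ch {T : Tr} (h : minv T = true) (t : Turn) : minv (T.ch t) = true := by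
  cases T with
  | lf => rfl
  | nd v s l r =>
    simp only [minv, Bool.and_eq_true] at h
    cases t
    · exact h.2.1
    · exact h.2.2.1
    · exact h.2.2.2

theorem minv_val {T : Tr} (h : minv T = true) {u : ℕ} (hu : 1 ≤ u) : 1 ≤ T.val u := by
  cases T with
  | lf => exact hu
  | nd v s l r =>
    simp only [minv, Bool.and_eq_true] at h
    exact Nat.le_of_ble_eq_true h.1

theorem minv_look (ts : List Turn) : ∀ (T : Tr) (u : ℕ), minv T = true → 1 ≤ u →
    1 ≤ T.look u ts := by
  induction ts with
  | nil => intro T u h hu; exact minv_val h hu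
  | cons t ts ih => intro T u h hu; exact ih _ _ (minv_ch h t) (minv_val h hu)

theorem s0_ne : Tab.s0 ≠ .lf := by
  intro h
  have := Nat.le_of_ble_eq_true s0_top
  rw [h] at this
  simp [Tr.val] at this

theorem look_pos (ts : List Turn) : 1 ≤ Tab.s0.look 0 ts := by
  rw [← look_val]
  exact minv_look ts _ _ s0_minv (Nat.le_of_ble_eq_true s0_top)

end Pool.Agent.Q220.Pei
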