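import Pool.Agent.Q220.Pei.Geo
import Pool.Agent.Q220.Dep.Dep

/-!
Every vertex picks one of its four neighbours; an edge is closed if one of its endpoints picks the
other.
-/

set_option autoImplicit false

namespace Pool.Agent.Q220.Pei

open MeasureTheory ProbabilityTheory Set
open Pool.Agent.Q220.DP
open scoped ENNReal

instance : Fintype Dr := ⟨{.E, .N, .W, .S}, by intro x; cases x <;> simp⟩

instance : MeasurableSpace Dr := ⊤

instance : DiscreteMeasurableSpace Dr := ⟨fun _ => trivial⟩

instance : Nonempty Dr := ⟨.E⟩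

/-- uniform direction -/
noncomputable def mu4 : Measure Dr := (PMF.uniformOfFintype Dr).toMeasure

instance : IsProbabilityMeasure mu4 := by unfold mu4; infer_instance

/-- independent uniform choices at all vertices -/
noncomputable def QQ : Measure (Pt → Dr) := Measure.infinitePi fun _ => mu4

instance : IsProbabilityMeasure QQ := by unfold QQ; infer_instance

/-- `a` picks `b` -/
def pk (c : Pt → Dr) (a b : Pt) : Prop := fwd a (c a) = b

theorem fwd_inj {a : Pt} {D D' : Dr} (h : fwd a D = fwd a D') : D = D' := by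
  obtain ⟨x, y⟩ := a
  cases D <;> cases D' <;> simp [fwd] at h ⊢ <;> omega

theorem pk_unique {c : Pt → Dr} {a b b' : Pt} (h : pk c a b) (h' : pk c a b') : b = b' :=
  h.symm.trans h'

/-- adjacent vertices -/
def Nb (a b : Pt) : Prop := ∃ D, fwd a D = b

theorem Nb.symm {a b : Pt} (h : Nb a b) : Nb b a := by
  obtain ⟨D, rfl⟩ := h
  cases D
  · exact ⟨.W, by simp [fwd]⟩
  · exact ⟨.S, by simp [fwd]⟩
  · exact ⟨.E, by simp [fwd]⟩
  · exact ⟨.N, by simp [fwd]⟩

theorem Nb.ne {a b : Pt} (h : Nb a b) : a ≠ b := by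
  obtain ⟨D, rfl⟩ := h
  obtain ⟨x, y⟩ := a
  cases D <;> simp [fwd] <;> omega

theorem dep_pk (a b : Pt) : Dep ({a} : Set Pt) {c : Pt → Dr | pk c a b} := by
  intro c c' hc h
  have := hc a rfl
  simp only [mem_ofPred_eq, pk] at h ⊢
  rw [← this]
  exact h

theorem card_Dr : Fintype.card Dr = 4 := rfl

theorem prob_pk {a b : Pt} (h : Nb a b) : QQ {c | pk c a b} = 4⁻¹ := by
  obtain ⟨D, hD⟩ := h
  have h1 : {c : Pt → Dr | pk c a b} = Set.pi (({a} : Finset Pt) : Set Pt) fun _ => {D} := by
    ext c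
    simp only [mem_ofPred_eq, pk, Finset.coe_singleton, Set.mem_pi, mem_singleton_iff,
      forall_eq, ← hD]
    exact ⟨fun h => fwd_inj h, fun h => by rw [h]⟩
  rw [h1]
  unfold QQ
  rw [Measure.infinitePi_pi _ (fun _ _ => MeasurableSet.of_discrete), Finset.prod_singleton]
  unfold mu4
  rw [PMF.toMeasure_apply_singleton _ _ (MeasurableSet.of_discrete)]
  rw [PMF.uniformOfFintype_apply, card_Dr]
  norm_num

theorem QQ_indep {D1 D2 : Set Pt} (h1 : D1.Finite) (h2 : D2.Finite) (hd : Disjoint D1 D2)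
    {A B : Set (Pt → Dr)} (hA : Dep D1 A) (hB : Dep D2 B) : QQ (A ∩ B) = QQ A * QQ B :=
  Dep.indep (fun _ => mu4) h1 h2 hd hA hB

/-! ### covering -/

/-- an edge is closed -/
def cl (c : Pt → Dr) (e : Pt × Pt) : Prop := pk c e.1 e.2 ∨ pk c e.2 e.1

/-- all edges of `F` are closed -/
def CL (F : List (Pt × Pt)) : Set (Pt → Dr) := {c | ∀ e ∈ F, cl c e}

/-- all edges of `F` are closed because of vertices different from `x` -/
def EX (F : List (Pt × Pt)) (x : Pt) : Set (Pt → Dr) :=
  {c | ∀ e ∈ F, (e.1 ≠ x ∧ pk c e.1 e.2) ∨ (e.2 ≠ x ∧ pk c e.2 e.1)}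

theorem EX_sub (F : List (Pt × Pt)) (x : Pt) : EX F x ⊆ CL F := fun c hc e he =>
  (hc e he).imp And.right And.right

/-- the vertices of `F` -/
def vs (F : List (Pt × Pt)) : Set Pt := {a | ∃ e ∈ F, a = e.1 ∨ a = e.2}

theorem vs_finite (F : List (Pt × Pt)) : (vs F).Finite := by
  have : vs F ⊆ ((F.map Prod.fst ++ F.map Prod.snd).toFinset : Set Pt) := by
    rintro a ⟨e, he, h⟩
    simp only [List.toFinset_append, Finset.coe_union, mem_union, Finset.mem_coe,
      List.mem_toFinset, List.mem_map]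
    rcases h with h | h
    · exact Or.inl ⟨e, he, h.symm⟩
    · exact Or.inr ⟨e, he, h.symm⟩
  exact (Finset.finite_toSet _).subset this

theorem dep_CL (F : List (Pt × Pt)) : Dep (vs F) (CL F) := by
  intro c c' hc h e he
  have h1 := hc e.1 ⟨e, he, Or.inl rfl⟩
  have h2 := hc e.2 ⟨e, he, Or.inr rfl⟩
  have := h e he
  simp only [cl, pk] at this ⊢
  rw [← h1, ← h2]
  exact this

theorem dep_EX (F : List (Pt × Pt)) (x : Pt) : Dep (vs F \ {x}) (EX F x) := by
  intro c c' hc h e he
  rcases h e he with h1 | h1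
  · left
    refine ⟨h1.1, ?_⟩
    have := hc e.1 ⟨⟨e, he, Or.inl rfl⟩, h1.1⟩
    simp only [pk] at h1 ⊢
    rw [← this]
    exact h1.2
  · right
    refine ⟨h1.1, ?_⟩
    have := hc e.2 ⟨⟨e, he, Or.inr rfl⟩, h1.1⟩
    simp only [pk] at h1 ⊢
    rw [← this]
    exact h1.2

theorem EX_pk (F : List (Pt × Pt)) {x z : Pt} (h : Nb x z) :
    QQ (EX F x ∩ {c | pk c x z}) = QQ (EX F x) * 4⁻¹ := by
  rw [QQ_indep ((vs_finite F).subset sdiff_subset) (Set.finite_singleton x)
    disjoint_sdiff_left (dep_EX F x) (dep_pk x z), prob_pk h]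

/-- all edges of `F` other than `{x, y}` are closed because of vertices different from `x, y` -/
def EXY (F : List (Pt × Pt)) (x y : Pt) : Set (Pt → Dr) :=
  {c | ∀ e ∈ F, e ≠ (x, y) → e ≠ (y, x) →
    (e.1 ≠ x ∧ e.1 ≠ y ∧ pk c e.1 e.2) ∨ (e.2 ≠ x ∧ e.2 ≠ y ∧ pk c e.2 e.1)}

theorem dep_EXY (F : List (Pt × Pt)) (x y : Pt) : Dep (vs F \ {x, y}) (EXY F x y) := by
  intro c c' hc h e he he1 he2
  rcases h e he he1 he2 with h1 | h1
  · left
    refine ⟨h1.1, h1.2.1, ?_⟩
    have := hc e.1 ⟨⟨e, he, Or.inl rfl⟩, by simp [h1.1, h1.2.1]⟩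
    simp only [pk] at h1 ⊢
    rw [← this]
    exact h1.2.2
  · right
    refine ⟨h1.1, h1.2.1, ?_⟩
    have := hc e.2 ⟨⟨e, he, Or.inr rfl⟩, by simp [h1.1, h1.2.1]⟩
    simp only [pk] at h1 ⊢
    rw [← this]
    exact h1.2.2

theorem EX_eq {F : List (Pt × Pt)} {x y : Pt} (hxy : x ≠ y) (h : (x, y) ∈ F ∨ (y, x) ∈ F) :
    EX F x = EXY F x y ∩ {c | pk c y x} := by
  ext c
  simp only [mem_inter_iff, mem_ofPred_eq]
  constructor
  · intro hc
    have hy : pk c y x := by
      rcases h with h | h
      · rcases hc _ h with h1 | h1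
        · exact absurd rfl h1.1
        · exact h1.2
      · rcases hc _ h with h1 | h1
        · exact h1.2
        · exact absurd rfl h1.1
    refine ⟨fun e he he1 he2 => ?_, hy⟩
    rcases hc e he with h1 | h1
    · left
      refine ⟨h1.1, fun h2 => ?_, h1.2⟩
      have h3 := h1.2
      rw [h2] at h3
      exact he2 (Prod.ext h2 (pk_unique h3 hy))
    · right
      refine ⟨h1.1, fun h2 => ?_, h1.2⟩
      have h3 := h1.2
      rw [h2] at h3
      exact he1 (Prod.ext (pk_unique h3 hy) h2)
  · rintro ⟨hc, hy⟩ e he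
    by_cases he1 : e = (x, y)
    · right
      rw [he1]
      exact ⟨hxy.symm, hy⟩
    by_cases he2 : e = (y, x)
    · left
      rw [he2]
      exact ⟨hxy.symm, hy⟩
    rcases hc e he he1 he2 with h1 | h1
    · exact Or.inl ⟨h1.1, h1.2.2⟩
    · exact Or.inr ⟨h1.1, h1.2.2⟩

theorem EXY_symm (F : List (Pt × Pt)) (x y : Pt) : EXY F x y = EXY F y x := by
  ext c
  simp only [EXY, mem_ofPred_eq]
  constructor
  · intro h e he h1 h2
    rcases h e he h2 h1 with h3 | h3
    · exact Or.inl ⟨h3.2.1, h3.1, h3.2.2⟩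
    · exact Or.inr ⟨h3.2.1, h3.1, h3.2.2⟩
  · intro h e he h1 h2
    rcases h e he h2 h1 with h3 | h3
    · exact Or.inl ⟨h3.2.1, h3.1, h3.2.2⟩
    · exact Or.inr ⟨h3.2.1, h3.1, h3.2.2⟩

theorem EX_prob {F : List (Pt × Pt)} {x y : Pt} (hn : Nb x y) (h : (x, y) ∈ F ∨ (y, x) ∈ F) :
    QQ (EX F x) = QQ (EX F y) := by
  have key : ∀ x y : Pt, Nb x y → ((x, y) ∈ F ∨ (y, x) ∈ F) →
      QQ (EX F x) = QQ (EXY F x y) * 4⁻¹ := by
    intro x y hn h
    have hd : Disjoint (vs F \ {x, y}) ({y} : Set Pt) := by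
      rw [Set.disjoint_singleton_right]
      simp
    rw [EX_eq hn.ne h, QQ_indep ((vs_finite F).subset sdiff_subset) (Set.finite_singleton y) hd
      (dep_EXY F x y) (dep_pk y x), prob_pk hn.symm]
  rw [key x y hn h, key y x hn.symm h.symm, EXY_symm]

/-- on `EX F x` the other vertices of a connected set pick vertices of the set -/
theorem stay {F : List (Pt × Pt)} (hF : ∀ e ∈ F, Nb e.1 e.2) {W : List Pt} (hW : Gr F W) :
    ∀ x ∈ W, ∀ c ∈ EX F x, ∀ w ∈ W, w ≠ x → ∃ w' ∈ W, pk c w w' := by
  induction hW with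
  | one a =>
    intro x hx c _ w hw hwx
    rw [List.mem_singleton] at hx hw
    exact absurd (hw.trans hx.symm) hwx
  | @cons W p w hG hp hw he ih =>
    have hpw : p ≠ w := fun h => hw (h ▸ hp)
    have hn : Nb w p := by
      rcases he with h | h
      · exact (hF _ h).symm
      · exact hF _ h
    intro x hx c hc u hu hux
    rcases List.mem_cons.1 hx with rfl | hx'
    · -- the free vertex is `x = w`
      rcases List.mem_cons.1 hu with rfl | hu'
      · exact absurd rfl hux
      have hpk : pk c p x := by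
        rcases he with h | h
        · rcases hc _ h with h1 | h1
          · exact h1.2
          · exact absurd rfl h1.1
        · rcases hc _ h with h1 | h1
          · exact absurd rfl h1.1
          · exact h1.2
      by_cases hup : u = p
      · exact ⟨x, List.mem_cons_self, hup ▸ hpk⟩
      obtain ⟨D, hD⟩ := hn
      have hc' : Function.update c x D ∈ EX F p := by
        intro e he'
        rcases hc e he' with h1 | h1
        · by_cases h2 : e.1 = p
          · right
            have h3 := h1.2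
            rw [h2] at h3
            have h4 := pk_unique h3 hpk
            refine ⟨by rw [h4]; exact hpw.symm, ?_⟩
            rw [h4, h2, pk, Function.update_self, hD]
          · left
            refine ⟨h2, ?_⟩
            rw [pk, Function.update_of_ne h1.1]
            exact h1.2
        · by_cases h2 : e.2 = p
          · left
            have h3 := h1.2
            rw [h2] at h3
            have h4 := pk_unique h3 hpk
            refine ⟨by rw [h4]; exact hpw.symm, ?_⟩
            rw [h4, h2, pk, Function.update_self, hD]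
          · right
            refine ⟨h2, ?_⟩
            rw [pk, Function.update_of_ne h1.1]
            exact h1.2
      obtain ⟨w', hw', h5⟩ := ih p hp _ hc' u hu' hup
      refine ⟨w', List.mem_cons_of_mem _ hw', ?_⟩
      rw [pk, Function.update_of_ne hux] at h5
      exact h5
    · rcases List.mem_cons.1 hu with rfl | hu'
      · -- the new vertex picks its parent
        refine ⟨p, List.mem_cons_of_mem _ hp, ?_⟩
        have hcase : pk c p u ∧ p ≠ x ∨ pk c u p := by
          rcases he with h | h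
          · rcases hc _ h with h1 | h1
            · exact Or.inl ⟨h1.2, h1.1⟩
            · exact Or.inr h1.2
          · rcases hc _ h with h1 | h1
            · exact Or.inr h1.2
            · exact Or.inl ⟨h1.2, h1.1⟩
        rcases hcase with ⟨h1, h2⟩ | h1
        · obtain ⟨w', hw', h5⟩ := ih x hx' c hc p hp h2
          rw [pk_unique h1 h5] at hw
          exact absurd hw' hw
        · exact h1
      · obtain ⟨w', hw', h5⟩ := ih x hx' c hc u hu' hux
        exact ⟨w', List.mem_cons_of_mem _ hw', h5⟩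

end Pool.Agent.Q220.Pei
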