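import Pool.Agent.Q220.Pei.Prob

/-!
The conditional probability that a new edge is closed.
-/

set_option autoImplicit false

namespace Pool.Agent.Q220.Pei

open MeasureTheory ProbabilityTheory Set
open Pool.Agent.Q220.DP
open scoped ENNReal

theorem pick_parent {F : List (Pt × Pt)} (hF : ∀ e ∈ F, Nb e.1 e.2) {W : List Pt} (hW : Gr F W)
    {p w : Pt} (hp : p ∈ W) (hw : w ∉ W) (he : (p, w) ∈ F ∨ (w, p) ∈ F) {x : Pt} (hx : x ∈ W)
    {c : Pt → Dr} (hc : c ∈ EX F x) : pk c w p := by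
  have hcase : pk c p w ∧ p ≠ x ∨ pk c w p := by
    rcases he with h | h
    · rcases hc _ h with h1 | h1
      · exact Or.inl ⟨h1.2, h1.1⟩
      · exact Or.inr h1.2
    · rcases hc _ h with h1 | h1
      · exact Or.inr h1.2
      · exact Or.inl ⟨h1.2, h1.1⟩
  rcases hcase with ⟨h1, h2⟩ | h1
  · obtain ⟨w', hw', h5⟩ := stay hF hW x hx c hc p hp h2
    rw [pk_unique h1 h5] at hw
    exact absurd hw' hw
  · exact h1

/-- some vertex of `W` can be left out -/
def UX (F : List (Pt × Pt)) (W : List Pt) : Set (Pt → Dr) := {c | ∃ x ∈ W, c ∈ EX F x}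

theorem meas_EX (F : List (Pt × Pt)) (x : Pt) : MeasurableSet (EX F x) :=
  Dep.measurable (vs_finite F) ((dep_EX F x).mono sdiff_subset)

theorem meas_CL (F : List (Pt × Pt)) : MeasurableSet (CL F) :=
  Dep.measurable (vs_finite F) (dep_CL F)

theorem meas_pk (a b : Pt) : MeasurableSet {c : Pt → Dr | pk c a b} :=
  Dep.measurable (Set.finite_singleton a) (dep_pk a b)

theorem real_pk {a b : Pt} (h : Nb a b) : QQ.real {c | pk c a b} = 1 / 4 := by
  rw [Measure.real, prob_pk h]
  norm_num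

theorem real_indep {D1 D2 : Set Pt} (h1 : D1.Finite) (h2 : D2.Finite) (hd : Disjoint D1 D2)
    {A B : Set (Pt → Dr)} (hA : Dep D1 A) (hB : Dep D2 B) :
    QQ.real (A ∩ B) = QQ.real A * QQ.real B := by
  rw [Measure.real, QQ_indep h1 h2 hd hA hB, ENNReal.toReal_mul]
  rfl

theorem real_EX_pk (F : List (Pt × Pt)) {x z : Pt} (h : Nb x z) :
    QQ.real (EX F x ∩ {c | pk c x z}) = QQ.real (EX F x) / 4 := by
  rw [real_indep ((vs_finite F).subset sdiff_subset) (Set.finite_singleton x)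
    disjoint_sdiff_left (dep_EX F x) (dep_pk x z), real_pk h]
  ring

theorem union_bound {F : List (Pt × Pt)} (hF : ∀ e ∈ F, Nb e.1 e.2) {W : List Pt} (hW : Gr F W) :
    ∃ ε : ℝ, 0 ≤ ε ∧ (∀ x ∈ W, QQ.real (EX F x) = ε) ∧
      ε * (3 * W.length + 1) / 4 ≤ QQ.real (UX F W) := by
  induction hW with
  | one a =>
    refine ⟨QQ.real (EX F a), measureReal_nonneg, fun x hx => ?_, ?_⟩
    · rw [List.mem_singleton.1 hx]
    · have : UX F [a] = EX F a := by
        ext c
        simp [UX]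
      rw [this]
      simp only [List.length_singleton]
      push_cast
      linarith
  | @cons W p w hG hp hw he ih =>
    obtain ⟨ε, h0, h1, h2⟩ := ih
    have hn : Nb p w := by
      rcases he with h | h
      · exact hF _ h
      · exact (hF _ h).symm
    have hwε : QQ.real (EX F w) = ε := by
      rw [← h1 p hp, Measure.real, Measure.real, EX_prob hn he]
    refine ⟨ε, h0, fun x hx => ?_, ?_⟩
    · rcases List.mem_cons.1 hx with rfl | hx'
      · exact hwε
      · exact h1 x hx'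
    · have e1 : UX F (w :: W) = UX F W ∪ EX F w := by
        ext c
        simp only [UX, mem_ofPred_eq, List.mem_cons, exists_eq_or_imp, mem_union]
        exact or_comm
      have e2 := measureReal_union_add_inter (μ := QQ) (s := UX F W) (meas_EX F w)
        (measure_ne_top _ _) (measure_ne_top _ _)
      have e3 : QQ.real (UX F W ∩ EX F w) ≤ ε / 4 := by
        rw [← hwε, ← real_EX_pk F hn.symm]
        refine measureReal_mono ?_ (measure_ne_top _ _)
        rintro c ⟨⟨x, hx, hc⟩, hcw⟩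
        exact ⟨hcw, pick_parent hF hG hp hw he hx hc⟩
      rw [e1, List.length_cons]
      push_cast
      linarith

theorem pick_bound {F : List (Pt × Pt)} (hF : ∀ e ∈ F, Nb e.1 e.2) {W : List Pt} (hW : Gr F W)
    {v u : Pt} (hv : v ∈ W) (hn : Nb v u) (h1 : (v, u) ∉ F) (h2 : (u, v) ∉ F) :
    QQ.real (CL F ∩ {c | pk c v u}) ≤ 1 / (3 * W.length + 1) * QQ.real (CL F) := by
  obtain ⟨ε, h0, h3, h4⟩ := union_bound hF hW
  have e1 : QQ.real (CL F ∩ {c | pk c v u}) ≤ ε / 4 := by
    rw [← h3 v hv, ← real_EX_pk F hn]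
    refine measureReal_mono ?_ (measure_ne_top _ _)
    rintro c ⟨hc, hp⟩
    refine ⟨fun e he => ?_, hp⟩
    rcases hc e he with h | h
    · left
      refine ⟨fun h5 => h1 ?_, h⟩
      rw [h5] at h
      rw [← pk_unique h hp, ← h5]
      exact he
    · right
      refine ⟨fun h5 => h2 ?_, h⟩
      rw [h5] at h
      rw [← pk_unique h hp, ← h5]
      exact he
  have e2 : QQ.real (UX F W) ≤ QQ.real (CL F) := by
    refine measureReal_mono ?_ (measure_ne_top _ _)
    rintro c ⟨x, _, hc⟩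
    exact EX_sub F x hc
  have hpos : (0 : ℝ) < 3 * W.length + 1 := by positivity
  rw [one_div, inv_mul_eq_div, le_div_iff₀ hpos]
  calc QQ.real (CL F ∩ {c | pk c v u}) * (3 * W.length + 1) ≤ ε / 4 * (3 * W.length + 1) :=
        mul_le_mul_of_nonneg_right e1 hpos.le
    _ ≤ QQ.real (CL F) := by linarith

theorem cl_eq (F : List (Pt × Pt)) (u v : Pt) :
    CL ((u, v) :: F) = (CL F ∩ {c | pk c u v}) ∪ (CL F ∩ {c | pk c v u}) := by
  ext c
  simp only [CL, cl, mem_ofPred_eq, List.mem_cons, forall_eq_or_imp, mem_union, mem_inter_iff]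
  tauto

theorem sum_bound {F : List (Pt × Pt)} (hF : ∀ e ∈ F, Nb e.1 e.2) {u v : Pt} (hn : Nb u v)
    (h1 : (u, v) ∉ F) (h2 : (v, u) ∉ F) {W W' : List Pt} (hW : Gr F W) (hW' : Gr F W')
    (hu : u ∈ W) (hv : v ∈ W') :
    QQ.real (CL ((u, v) :: F)) ≤
      (1 / (3 * W.length + 1) + 1 / (3 * W'.length + 1)) * QQ.real (CL F) := by
  rw [cl_eq]
  refine (measureReal_union_le _ _).trans ?_
  have := pick_bound hF hW hu hn h1 h2
  have := pick_bound hF hW' hv hn.symm h2 h1
  linarith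

theorem one_bound {F : List (Pt × Pt)} (hF : ∀ e ∈ F, Nb e.1 e.2) {u v : Pt} (hn : Nb u v)
    (h1 : (u, v) ∉ F) (h2 : (v, u) ∉ F) {W' : List Pt} (hW' : Gr F W') (hv : v ∈ W')
    (hlen : 1 ≤ W'.length) :
    QQ.real (CL ((u, v) :: F)) ≤
      ((3 * W'.length + 4) / (4 * (3 * W'.length + 1))) * QQ.real (CL F) := by
  have hn0 : (1 : ℝ) ≤ W'.length := by exact_mod_cast hlen
  have hpos : (0 : ℝ) < 3 * W'.length + 1 := by positivity
  have hCL : 0 ≤ QQ.real (CL F) := measureReal_nonneg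
  have hr : ((3 * (W'.length : ℝ) + 4) / (4 * (3 * W'.length + 1))) =
      1 / 4 + 3 / 4 * (1 / (3 * W'.length + 1)) := by
    field_simp
    ring
  by_cases hu : u ∈ vs F
  · obtain ⟨e, he, hue⟩ := hu
    obtain ⟨w, hw1, hw2⟩ : ∃ w, Nb w u ∧ ((w, u) ∈ F ∨ (u, w) ∈ F) := by
      rcases hue with h | h
      · refine ⟨e.2, ?_, Or.inr ?_⟩
        · rw [h]; exact (hF e he).symm
        · rw [h]; exact he
      · refine ⟨e.1, ?_, Or.inl ?_⟩
        · rw [h]; exact hF e he
        · rw [h]; exact he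
    have hG : Gr F [u, w] := Gr.cons (Gr.one w) (List.mem_singleton_self w)
      (by rw [List.mem_singleton]; exact hw1.ne.symm) hw2
    have := sum_bound hF hn h1 h2 hG hW' List.mem_cons_self hv
    refine this.trans (mul_le_mul_of_nonneg_right ?_ hCL)
    rw [hr]
    have h3 : (1 : ℝ) / (3 * W'.length + 1) ≤ 1 / 4 := by
      rw [div_le_div_iff₀ hpos (by norm_num)]
      linarith
    simp only [List.length_cons, List.length_nil]
    norm_num
    have h4 : (1 : ℝ) / (3 * W'.length + 1) = (3 * (W'.length : ℝ) + 1)⁻¹ := one_div _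
    rw [h4] at h3
    linarith
  · set A : Set (Pt → Dr) := CL F ∩ {c | pk c v u} with hA
    have hAd : Dep (vs F ∪ {v}) A :=
      ((dep_CL F).mono subset_union_left).inter ((dep_pk v u).mono subset_union_right)
    have hfin : (vs F ∪ {v}).Finite := (vs_finite F).union (Set.finite_singleton v)
    have hdis : Disjoint (vs F ∪ {v}) ({u} : Set Pt) := by
      rw [Set.disjoint_singleton_right]
      rintro (h | h)
      · exact hu h
      · exact hn.ne h
    have hAm : MeasurableSet A := Dep.measurable hfin hAd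
    have hBd : Dep (vs F ∪ {v}) (CL F ∩ Aᶜ) :=
      ((dep_CL F).mono subset_union_left).inter hAd.compl
    have hsub : CL ((u, v) :: F) ⊆ A ∪ ((CL F ∩ Aᶜ) ∩ {c | pk c u v}) := by
      rw [cl_eq]
      rintro c (⟨h3, h4⟩ | h3)
      · by_cases h5 : c ∈ A
        · exact Or.inl h5
        · exact Or.inr ⟨⟨h3, h5⟩, h4⟩
      · exact Or.inl h3
    have e1 : QQ.real ((CL F ∩ Aᶜ) ∩ {c | pk c u v}) = QQ.real (CL F ∩ Aᶜ) * (1 / 4) := by
      rw [real_indep hfin (Set.finite_singleton u) hdis hBd (dep_pk u v), real_pk hn]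
    have e2 : QQ.real (CL F ∩ Aᶜ) = QQ.real (CL F) - QQ.real A := by
      have h6 : CL F ∩ Aᶜ = CL F \ A := rfl
      rw [h6, measureReal_sdiff inter_subset_left hAm]
    have e3 : QQ.real A ≤ 1 / (3 * W'.length + 1) * QQ.real (CL F) :=
      pick_bound hF hW' hv hn.symm h2 h1
    calc QQ.real (CL ((u, v) :: F)) ≤ QQ.real (A ∪ ((CL F ∩ Aᶜ) ∩ {c | pk c u v})) :=
          measureReal_mono hsub (measure_ne_top _ _)
      _ ≤ QQ.real A + QQ.real ((CL F ∩ Aᶜ) ∩ {c | pk c u v}) := measureReal_union_le _ _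
      _ = 1 / 4 * QQ.real (CL F) + 3 / 4 * QQ.real A := by rw [e1, e2]; ring
      _ ≤ _ := by rw [hr]; linarith

theorem cl_swap (F : List (Pt × Pt)) (u v : Pt) : CL ((u, v) :: F) = CL ((v, u) :: F) := by
  rw [cl_eq, cl_eq, union_comm]

theorem Gr.len {F : List (Pt × Pt)} {W : List Pt} (h : Gr F W) : 1 ≤ W.length := by
  cases h <;> simp

/-- the main bound -/
theorem rate_bound {F : List (Pt × Pt)} (hF : ∀ e ∈ F, Nb e.1 e.2) {u v : Pt} (hn : Nb u v)
    (h1 : (u, v) ∉ F) (h2 : (v, u) ∉ F) {W W' : List Pt} (hW : Gr F W) (hW' : Gr F W')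
    (hu : u ∈ W) (hv : v ∈ W') :
    QQ.real (CL ((u, v) :: F)) ≤ rate W.length W'.length * QQ.real (CL F) := by
  unfold rate rnum rden
  by_cases hm : W.length = 1
  · rw [if_pos hm, if_pos hm]
    have := one_bound hF hn h1 h2 hW' hv hW'.len
    push_cast
    exact this
  rw [if_neg hm, if_neg hm]
  by_cases hm' : W'.length = 1
  · rw [if_pos hm', if_pos hm', cl_swap]
    have := one_bound hF hn.symm h2 h1 hW hu hW.len
    push_cast
    exact this
  rw [if_neg hm', if_neg hm']
  have := sum_bound hF hn h1 h2 hW hW' hu hv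
  push_cast
  refine this.trans (le_of_eq ?_)
  congr 1
  have p1 : (0 : ℝ) < 3 * W.length + 1 := by positivity
  have p2 : (0 : ℝ) < 3 * W'.length + 1 := by positivity
  field_simp
  ring

end Pool.Agent.Q220.Pei
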