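import Pool.Agent.Q220.Pei.Chk
import Pool.Agent.Q220.Pei.Pos
import Pool.Agent.Q220.Pei.Prob2

/-!
The expected number of closed dual self-avoiding walks decays exponentially.
-/

set_option autoImplicit false

namespace Pool.Agent.Q220.Pei

open MeasureTheory ProbabilityTheory Set
open Pool.Agent.Q220.DP

theorem nb_e (P : Pt) (D : Dr) : Nb (eL P D) (eR P D) := by
  cases D
  · exact ⟨.S, by simp [fwd, eL, eR]⟩
  · exact ⟨.E, by simp [fwd, eL, eR]⟩
  · exact ⟨.N, by simp [fwd, eL, eR]⟩
  · exact ⟨.W, by simp [fwd, eL, eR]⟩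

theorem nb_edges (P : Pt) (D : Dr) (ts : List Turn) : ∀ e ∈ edges P D ts, Nb e.1 e.2 := by
  intro e he
  obtain ⟨Q, D', h, _, _⟩ := edges_faces P D ts e he
  rw [h]
  exact nb_e Q D'

open Classical in
/-- probability that all edges crossed by a self-avoiding walk are closed -/
noncomputable def q (P : Pt) (D : Dr) (ts : List Turn) : ℝ :=
  if (pts P D ts).Nodup then QQ.real (CL (edges P D ts)) else 0

theorem q_of {P : Pt} {D : Dr} {ts : List Turn} (h : (pts P D ts).Nodup) :
    q P D ts = QQ.real (CL (edges P D ts)) := if_pos h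

theorem q_not {P : Pt} {D : Dr} {ts : List Turn} (h : ¬ (pts P D ts).Nodup) :
    q P D ts = 0 := if_neg h

theorem q_nonneg (P : Pt) (D : Dr) (ts : List Turn) : 0 ≤ q P D ts := by
  unfold q
  split_ifs
  · exact measureReal_nonneg
  · exact le_rfl

theorem q_le_one (P : Pt) (D : Dr) (ts : List Turn) : q P D ts ≤ 1 := by
  unfold q
  split_ifs
  · exact measureReal_le_one
  · exact zero_le_one

theorem one_step {P : Pt} {D : Dr} {ts : List Turn} (t : Turn) {W W' : List Pt}
    (hW : Gr (edges P D ts) W) (hW' : Gr (edges P D ts) W')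
    (hu : eL (fwd P (D.next t)) (D.next t) ∈ W) (hv : eR (fwd P (D.next t)) (D.next t) ∈ W')
    (b : Bool) (hb : b = true → fwd P (D.next t) ∈ pts P D ts) :
    q (fwd P (D.next t)) (D.next t) (t :: ts) ≤
      if b = true then 0 else rate W.length W'.length * q P D ts := by
  have hr := rate_nonneg W.length W'.length
  by_cases hm : fwd P (D.next t) ∈ pts P D ts
  · have h0 : q (fwd P (D.next t)) (D.next t) (t :: ts) = 0 := by
      unfold q
      rw [pts_next, if_neg]
      rw [List.nodup_cons]
      exact fun h => h.1 hm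
    rw [h0]
    split_ifs
    · exact le_rfl
    · exact mul_nonneg hr (q_nonneg _ _ _)
  · have hb' : ¬ b = true := fun h => hm (hb h)
    rw [if_neg hb']
    by_cases hN : (pts P D ts).Nodup
    · rw [q_of (by rw [pts_next, List.nodup_cons]; exact ⟨hm, hN⟩), q_of hN, edges_next]
      exact rate_bound (nb_edges P D ts) (nb_e _ _) (new_edge hm).1 (new_edge hm).2 hW hW' hu hv
    · rw [q_not (by rw [pts_next, List.nodup_cons]; exact fun h => hN h.2), q_not hN, mul_zero]

/-- the weight -/
noncomputable def V (ts : List Turn) : ℝ := (Tab.s0.look 0 ts : ℝ)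

theorem V_ge (ts : List Turn) : 1 ≤ V ts := by
  unfold V
  exact_mod_cast look_pos ts

theorem V_pos (ts : List Turn) : 0 < V ts := lt_of_lt_of_le one_pos (V_ge ts)

theorem rate_comm (m n : ℕ) : rate m n = rate n m := by
  unfold rate rnum rden
  by_cases hm : m = 1
  · by_cases hn : n = 1
    · rw [hm, hn]
    · rw [if_pos hm, if_pos hm, if_neg hn, if_neg hn, if_pos hm, if_pos hm]
  · by_cases hn : n = 1
    · rw [if_neg hm, if_neg hm, if_pos hn, if_pos hn, if_pos hn, if_pos hn]
    · rw [if_neg hm, if_neg hm, if_neg hn, if_neg hn, if_neg hn, if_neg hn, if_neg hm, if_neg hm]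
      push_cast
      rw [add_comm, mul_comm (3 * (m : ℝ) + 1)]

theorem step_bound (P : Pt) (D : Dr) (ts : List Turn) :
    q (fwd P (D.next .S)) (D.next .S) (.S :: ts) * V (.S :: ts) +
      q (fwd P (D.next .L)) (D.next .L) (.L :: ts) * V (.L :: ts) +
      q (fwd P (D.next .R)) (D.next .R) (.R :: ts) * V (.R :: ts) ≤
      9999 / 10000 * (q P D ts * V ts) := by
  obtain ⟨j, hj⟩ := root_sound Tab.s0 s0_ne s0_root s0_mon ts
  have hv := valid_all P D ts j
  set g := (ts.take j).foldl St.step st0 with hg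
  have mem : ∀ {Q : Pt} {W : List Pt}, Q ∈ W → fv P D Q ∈ W.map (fv P D) := fun h =>
    List.mem_map_of_mem h
  have hS := one_step (P := P) (D := D) (ts := ts) .S hv.L hv.R
    (by rw [(new_S P D).1]; exact mem hv.mL) (by rw [(new_S P D).2.1]; exact mem hv.mR) g.bS
    (by rw [(new_S P D).2.2]; exact hv.bS)
  have hL := one_step (P := P) (D := D) (ts := ts) .L hv.B hv.L
    (by rw [(new_L P D).1]; exact mem hv.mB1) (by rw [(new_L P D).2.1]; exact mem hv.mL) g.bL
    (by rw [(new_L P D).2.2]; exact hv.bL)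
  have hR := one_step (P := P) (D := D) (ts := ts) .R hv.R hv.B
    (by rw [(new_R P D).1]; exact mem hv.mR) (by rw [(new_R P D).2.1]; exact mem hv.mB2) g.bR
    (by rw [(new_R P D).2.2]; exact hv.bR)
  simp only [List.length_map] at hS hL hR
  rw [rate_comm] at hR
  unfold Ineq at hj
  have hq := q_nonneg P D ts
  have h1 := mul_le_mul_of_nonneg_right hS (V_pos (.S :: ts)).le
  have h2 := mul_le_mul_of_nonneg_right hL (V_pos (.L :: ts)).le
  have h3 := mul_le_mul_of_nonneg_right hR (V_pos (.R :: ts)).le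
  have h4 := mul_le_mul_of_nonneg_left hj hq
  have e : ∀ (b : Bool) (r v : ℝ), (if b = true then 0 else r * q P D ts) * v =
      q P D ts * (if b = true then 0 else r * v) := by
    intro b r v
    split_ifs
    · ring
    · ring
  rw [e] at h1 h2 h3
  change q P D ts * ((if g.bS = true then 0 else rate g.L.length g.R.length * V (.S :: ts)) +
    (if g.bL = true then 0 else rate g.B.length g.L.length * V (.L :: ts)) +
    (if g.bR = true then 0 else rate g.B.length g.R.length * V (.R :: ts))) ≤
    q P D ts * (9999 / 10000 * V ts) at h4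
  linarith

open Classical in
/-- the walk can be continued by `n` steps to a self-avoiding walk which crosses only closed
edges -/
noncomputable def Wk : ℕ → Pt → Dr → List Turn → Set (Pt → Dr)
  | 0, P, D, ts => if (pts P D ts).Nodup then CL (edges P D ts) else ∅
  | n + 1, P, D, ts => (Wk n (fwd P (D.next .S)) (D.next .S) (.S :: ts) ∪
      Wk n (fwd P (D.next .L)) (D.next .L) (.L :: ts)) ∪
      Wk n (fwd P (D.next .R)) (D.next .R) (.R :: ts)

theorem Wk_bound (n : ℕ) : ∀ (P : Pt) (D : Dr) (ts : List Turn),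
    QQ.real (Wk n P D ts) ≤ (9999 / 10000) ^ n * (q P D ts * V ts) := by
  induction n with
  | zero =>
    intro P D ts
    have h1 : QQ.real (Wk 0 P D ts) = q P D ts := by
      unfold Wk q
      split_ifs
      · rfl
      · simp
    rw [h1, pow_zero, one_mul]
    exact le_mul_of_one_le_right (q_nonneg _ _ _) (V_ge _)
  | succ n ih =>
    intro P D ts
    have h1 := measureReal_union_le (μ := QQ) (Wk n (fwd P (D.next .S)) (D.next .S) (.S :: ts) ∪
      Wk n (fwd P (D.next .L)) (D.next .L) (.L :: ts))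
      (Wk n (fwd P (D.next .R)) (D.next .R) (.R :: ts))
    have h2 := measureReal_union_le (μ := QQ) (Wk n (fwd P (D.next .S)) (D.next .S) (.S :: ts))
      (Wk n (fwd P (D.next .L)) (D.next .L) (.L :: ts))
    have h3 := ih (fwd P (D.next .S)) (D.next .S) (.S :: ts)
    have h4 := ih (fwd P (D.next .L)) (D.next .L) (.L :: ts)
    have h5 := ih (fwd P (D.next .R)) (D.next .R) (.R :: ts)
    have h6 := mul_le_mul_of_nonneg_left (step_bound P D ts)
      (pow_nonneg (by norm_num : (0 : ℝ) ≤ 9999 / 10000) n)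
    show QQ.real ((Wk n (fwd P (D.next .S)) (D.next .S) (.S :: ts) ∪
      Wk n (fwd P (D.next .L)) (D.next .L) (.L :: ts)) ∪
      Wk n (fwd P (D.next .R)) (D.next .R) (.R :: ts)) ≤ _
    rw [pow_succ]
    linarith

/-- the largest value -/
noncomputable def Vm : ℝ := V []

theorem Wk_le (n : ℕ) (P : Pt) (D : Dr) :
    QQ.real (Wk n P D []) ≤ (9999 / 10000) ^ n * Vm := by
  refine (Wk_bound n P D []).trans (mul_le_mul_of_nonneg_left ?_ (by positivity))
  exact mul_le_of_le_one_left (V_pos _).le (q_le_one _ _ _)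

/-- there is a turn to every direction except backwards -/
theorem turn_exists {P : Pt} {D D1 : Dr} (h : fwd P D1 ≠ bck P D) : ∃ t, D.next t = D1 := by
  cases D <;> cases D1 <;> first
    | exact ⟨.S, rfl⟩
    | exact ⟨.L, rfl⟩
    | exact ⟨.R, rfl⟩
    | exact absurd rfl h

end Pool.Agent.Q220.Pei
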