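import Pool.Agent.Q220.Pei.Defs

/-!
Table of values.
-/

set_option autoImplicit false
set_option maxRecDepth 100000

namespace Pool.Agent.Q220.Pei.Tab

/-- node -/
abbrev n := Tr.nd
/-- leaf -/
abbrev o := Tr.lf

/-- part of the table -/
def t0 : Tr := (n 5816 (n 5743 o (n 5669 (n 5472 (n 5127 (n 4476 (n 3430 o (n 2412 o o o) o) (n 4064 (n 3632 o o o) o (n 2202 o o o)) o) (n 4992 (n 4836 o o (n 4525 o o o)) o (n 4793 (n 2481 o o o) o o)) o) (n 5402 (n 5349 o o (n 5236 (n 4791 o o o) o o)) o (n 5270 (n 4537 (n 2232 o o o) (n 3986 o o o) o) o o)) o) (n 5660 o o (n 5622 (n 5490 (n 5178 (n 2687 o o o) o o) o o) o o)) o) o) (n 5719 (n 5515 (n 5129 (n 4335 (n 2029 (n 1132 o (n 5 o o o) o) o o) (n 3919 o o o) (n 3887 o (n 3070 o (n 2080 o o o) o) o)) (n 5008 o o (n 4706 o o o)) (n 4922 o (n 4598 (n 3496 o (n 2250 o o o) o) (n 4458 (n 4025 o o o) o o) o) o)) (n 5477 o o (n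 5365 (n 4883 o o o) o o)) (n 5365 o (n 5150 (n 4512 (n 3468 o (n 2451 o o o) o) (n 4111 (n 3623 o o o) o (n 2236 o o o)) o) (n 5078 o o (n 4879 (n 2551 o o o) o o)) o) o)) (n 5706 o o (n 5667 (n 5496 (n 4979 o o o) o o) o o)) (n 5655 o (n 5577 (n 5317 (n 4654 (n 3601 o (n 2550 o o o) o) (n 4191 (n 3629 o o o) o (n 2297 o o o)) o) (n 5194 o o (n 4995 (n 2633 o o o) o o)) o) o o) o)) o)
/-- part of the table -/
def t1 : Tr := (n 5933 t0 (n 5876 (n 5771 (n 5538 (n 4963 o o (n 3970 o (n 2135 o o o) o)) o (n 5086 (n 4948 o (n 4786 (n 3687 o (n 2451 o o o) o) o o) o) (n 4464 (n 2136 o o o) (n 4035 o o o) o) o)) o (n 5540 (n 5478 o (n 5403 (n 5233 (n 4103 o (n 2743 o o o) o) o o) o o) o) (n 5236 (n 4471 (n 2136 o o o) (n 4041 o o o) o) (n 5109 o o (n 4791 o o o)) o) o)) o (n 5737 (n 5632 o (n 5507 (n 5256 (n 4598 (n 3554 o (n 2542 o o o) o) (n 4184 (n 3635 o o o) o (n 2293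 o o o)) o) (n 5189 o o (n 4993 (n 2628 o o o) o o)) o) (n 5487 o o (n 5397 (n 5105 (n 2658 o o o) o o) o o)) o) o) (n 5585 (n 5221 (n 4451 (n 2136 o o o) (n 4025 o o o) o) (n 5094 o o (n 4776 o o o)) (n 5096 o (n 4934 (n 3830 o (n 2579 o o o) o) o o) o)) (n 5547 o o (n 5434 (n 4937 o o o) o o)) o) o)) (n 5926 o (n 5916 o (n 5903 (n 5876 (n 5811 (n 5658 (n 5327 (n 2767 o o o) o o) o o) o o) o o) o o) o) o))
/-- part of the table -/
def t2 : Tr := (n 5236 (n 4840 (n 4191 (n 3139 (n 2482 o (n 1733 (n 206 o o o) (n 1332 o o o) o) o) (n 2199 o o o) o) (n 3828 (n 3457 o o o) o (n 2026 (n 1166 o (n 39 o o o) o) o o)) (n 3990 o (n 3630 o (n 3209 (n 2236 o o o) o o) o) o)) (n 4693 (n 4593 o o (n 4367 o o o)) o (n 4180 (n 2014 (n 1137 o (n 10 o o o) o) o o) (n 3783 o o o) o)) (n 4690 o (n 4452 (n 3965 o (n 3427 (n 2363 o o o) o o) o) (n 4292 (n 3942 (n 3562 o o o) o (n 2121 o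 o o)) o o) o) o)) (n 5178 (n 5152 o o (n 5075 (n 4654 o o o) o o)) o (n 4961 (n 4284 (n 2107 o o o) (n 3883 o o o) (n 3878 o (n 3088 o (n 2108 o o o) o) o)) (n 4848 o o (n 4567 o o o)) o)) (n 5144 o (n 5022 (n 4598 (n 4127 o (n 3650 (n 2529 o o o) o o) o) (n 4235 (n 3863 (n 3436 o o o) o (n 2202 o o o)) o (n 3431 o (n 2414 o o o) o)) o) (n 4995 (n 4935 o o (n 4755 (n 2504 o o o) o o)) o o) o) o))
/-- part of the table -/
def t3 : Tr := (n 5430 (n 5038 (n 4268 (n 1988 (n 1095 (n 780 o (n 339 o (n 4 o o o) o) o) (n 4 o o o) o) o (n 1885 o (n 1696 o (n 1511 (n 4 o o o) o o) o) o)) (n 3859 o o o) (n 3774 (n 3589 o (n 3295 o (n 2982 (n 2028 o o o) o o) o) o) (n 2921 (n 2265 o (n 1521 (n 6 o o o) (n 1137 o o o) o) o) (n 1995 o o o) o) o)) (n 4918 o o (n 4617 o o (n 3851 o (n 2091 o o o) o))) (n 4689 (n 4569 o (n 4420 (n 3963 o (n 3539 (n 2398 o o o) o o) o) (n 4334 o o (n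 3505 o (n 2398 o o o) o)) o) o) (n 4175 (n 3096 (n 2432 o (n 1667 (n 146 o o o) (n 1281 o o o) o) o) (n 2170 o o o) o) (n 3848 (n 3519 o o o) o (n 2065 o o o)) o) o)) (n 5391 o o (n 5278 (n 4778 o o (n 3894 o (n 2110 o o o) o)) o (n 5146 o (n 4859 (n 2465 o o o) o o) o))) (n 5184 (n 5077 o (n 4952 (n 4543 (n 4083 o (n 3650 (n 2488 o o o) o o) o) (n 4238 (n 3834 (n 3433 o o o) o (n 2181 o o o)) o (n 3425 o (n 2375 o o o) o)) o) (n 4924 o o (n 4834 (n 3823 o (n 2597 o o o) o) o o)) o) o) (n 4871 (n 4220 (n 3158 (n 2489 o (n 1716 (n 192 o o o) (n 1322 o o o) o) o) (n 2224 o o o) o) (n 3886 (n 3522 o o o) o (n 2109 o o o)) (n 4006 o (n 3646 o (n 3225 (n 2260 o o o) o o) o) o)) (n 4732 (n 4639 o o (n 4408 o o o)) o (n 4228 (n 2099 o o o) (n 3835 o o o) o)) o) o))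
/-- part of the table -/
def t4 : Tr := (n 5453 (n 5169 (n 5059 o (n 4937 (n 4526 (n 4066 o (n 3635 (n 2465 o o o) o o) o) (n 4223 (n 3817 (n 3441 o o o) o (n 2167 o o o)) o (n 3410 o (n 2352 o o o) o)) o) (n 4910 o o (n 4821 (n 3807 o (n 2575 o o o) o) o o)) o) o) (n 4861 (n 4206 (n 3150 (n 2482 o (n 1710 (n 182 o o o) (n 1311 o o o) o) o) (n 2213 o o o) o) (n 3870 (n 3519 o o o) o (n 2104 o o o)) (n 4001 o (n 3642 o (n 3220 (n 2251 o o o) o o) o) o)) (n 4734 (n 4642 o o (n 4410 o o o)) o (n 4225 (n 2103 o o o) (n 3834 o o o) o)) (n 4807 o (n 4740 (n 4253 o (n 3713 (n 2495 o o o) o o) o) o o) o)) o) (n 5111 (n 4331 (n 2027 (n 1132 o (n 4 o o o) o) o o) (n 3916 o o o) (n 3877 o (n 3066 o (n 2078 o o o) o) o)) (n 4989 o o (n 4684 o o o)) (n 4772 o (n 4281 (n 3246 o (n 2247 o o o) o) (n 3937 (n 3600 o o o) o (n 2106 o o o)) o) o)) o)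
/-- part of the table -/
def t5 : Tr := (n 5895 (n 5634 (n 5430 (n 5329 o (n 5222 (n 4968 (n 4559 (n 4097 o (n 3659 (n 2515 o o o) o o) o) (n 4269 (n 3858 (n 3445 o o o) o (n 2198 o o o)) o (n 3461 o (n 2426 o o o) o)) o) (n 4836 (n 4721 (n 4589 o o (n 4324 o o o)) o (n 4541 (n 2410 o o o) o o)) o (n 4554 (n 3550 o (n 2369 o o o) o) (n 4373 (n 3897 o o o) o o) o)) o) (n 5189 (n 5170 o o (n 5090 (n 4843 (n 2546 o o o) o o) o o)) o (n 5104 (n 4514 (n 3507 o (n 2447 o o o) o) (n 4056 (n 3574 o o o) o (n 2227 o o o)) o) o o)) o) o) t2 o) t3 (n 5614 o (n 5579 o (n 5539 (n 5424 (n 5186 (n 4549 (n 3518 o (n 2517 o o o) o) (n 4148 (n 3609 o o o) o (n 2272 o o o)) o) (n 5124 o o (n 4936 (n 2603 o o o) o o)) o) (n 5403 o o (n 5318 (n 5041 (n 2629 o o o) o o) o o)) o) o o) o) o)) (n 5766 (n 5516 (n 4932 o o (n 3885 (n 3475 o (n 2812 o (n 2077 o o o) o) o) (n 2026 (n 1131 o (n 4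 o o o) o) o o) o)) o (n 5006 (n 4657 (n 4588 o (n 4512 (n 4026 o (n 3493 (n 2331 o o o) o o) o) o o) o) (n 4216 (n 3192 o (n 2203 o o o) o) (n 3930 (n 3594 o o o) o (n 2105 o o o)) o) o) (n 4346 (n 2027 (n 1132 o (n 4 o o o) o) o o) (n 3929 o o o) (n 3878 o (n 3067 o (n 2078 o o o) o) o)) o)) o t4) (n 5853 (n 5848 o (n 5839 o (n 5830 (n 5802 (n 5742 (n 5593 (n 5269 (n 2733 o o o) o o) o o) o o) o o) o o) o) o) (n 5789 (n 5729 o (n 5664 (n 5534 (n 5285 (n 4629 (n 3588 o (n 2578 o o o) o) (n 4208 (n 3628 o o o) o (n 2312 o o o)) o) (n 5218 o o (n 5023 (n 2656 o o o) o o)) o) (n 5514 o o (n 5424 (n 5136 (n 2685 o o o) o o) o o)) o) (n 5655 o o (n 5621 (n 5493 (n 5186 (n 2699 o o o) o o) o o) o o)) o) o) (n 5726 (n 5554 (n 5194 (n 4430 (n 2132 o o o) (n 4007 o o o) o) (n 5068 o o (n 4752 o o o)) (n 5079 o (n 4920 (n 3821 o (n 2573 o o o) o) o o) o)) (n 5516 o o (n 5404 (n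 4910 o o o) o o)) (n 5501 o (n 5434 (n 5269 (n 4140 o (n 2775 o o o) o) o o) o o) o)) o o) o) o))
/-- part of the table -/
def t6 : Tr := (n 6077 (n 6011 (n 5994 (n 5991 o (n 5988 o (n 5984 (n 5974 (n 5947 (n 5875 (n 5675 (n 5112 o o o) o o) o o) o o) o o) o o) o) o) (n 5971 (n 5937 o (n 5903 (n 5817 (n 5640 (n 5276 (n 4493 (n 2140 o o o) (n 4056 o o o) o) (n 5143 o o (n 4823 o o o)) o) (n 5595 o o (n 5482 (n 4979 o o o) o o)) o) (n 5795 o o (n 5755 (n 5581 (n 5047 o o o) o o) o o)) o) o o) o) (n 5954 (n 5916 (n 5829 (n 5611 (n 5048 o o o) o (n 5379 o (n 5050 (n 2555 o o o) o o) o)) o (n 5728 o (n 5585 (n 5249 (n 2704 o o o) o o) o o) o)) o (n 5869 o (n 5807 (n 5656 (n 5321 (n 2758 o o o) o o) o o) o o) o)) o (n 5930 o (n 5903 (n 5837 (n 5682 (n 5346 (n 2777 o o o) o o) o o) o o) o o) o)) o) o) t1 o) t5 (n 6063 (n 6061 o o (n 6058 (n 6053 (n 6043 (n 6001 (n 5895 o o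 (n 5788 (n 5602 (n 3884 o o o) o o) o o)) o (n 5969 o (n 5788 o o (n 5602 (n 3884 o o o) o o)) o)) o o) o o) o o)) (n 6052 (n 6050 o (n 6048 (n 6034 o (n 6018 (n 5996 (n 5920 (n 5714 (n 5142 o o o) o o) o o) o o) o o) o) o o) o) (n 6043 (n 6003 (n 5972 o (n 5944 (n 5869 (n 5706 (n 5367 (n 2788 o o o) o o) o o) o o) o o) o) (n 5976 (n 5901 (n 5694 (n 5122 o o o) o o) o o) o (n 5921 o (n 5848 (n 5685 (n 5346 (n 2772 o o o) o o) o o) o o) o)) o) o o) o) (n 6061 (n 6057 (n 6044 (n 5809 (n 5585 (n 5467 o o (n 5346 (n 4554 o o (n 3884 o o o)) o o)) o (n 5419 (n 3853 o o o) o o)) o o) o o) o o) o o)))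
/-- part of the table -/
def t7 : Tr := (n 4594 (n 4151 (n 3609 (n 3200 o (n 2762 (n 1853 (n 315 o o o) (n 1366 o o o) o) (n 2624 o o (n 1995 o o o)) o) o) (n 3147 (n 2136 o o o) (n 3105 o o (n 3004 (n 2777 o o o) o o)) (n 2945 o (n 2718 (n 1014 o o o) o o) o)) o) (n 3889 (n 3560 (n 3236 o o o) o (n 1981 (n 1157 o (n 35 o o o) o) o o)) o (n 3088 (n 2473 o (n 1728 (n 206 o o o) (n 1323 o o o) o) o) (n 2166 o o o) o)) (n 4061 o (n 3903 o (n 3721 (n 3312 (n 2282 o o o) o o) o o) o) o)) (n 4483 (n 4386 (n 4309 o o (n 4114 o o o)) o (n 3990 (n 2049 o o o) (n 3632 o o o) o)) o (n 4058 (n 3084 (n 2446 o (n 1689 (n 169 o o o) (n 1300 o o o) o) o) (n 2169 o o o) o) (n 3750 (n 3414 o o o) o (n 2058 o o o)) o)) (n 4520 o (n 4409 (n 4196 o (n 3961 (n 3512 (n 2419 o o o) o o) o o) o) (n 4334 (n 4173 (n 4005 o o (n 2326 o o o)) o (n 3390 o (n 2419 o o o) o)) o o) o) o))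
/-- part of the table -/
def t8 : Tr := (n 4713 (n 4045 (n 2886 (n 2218 (n 1935 o (n 1604 (n 804 o (n 206 o o o) o) (n 1474 (n 1118 o o o) o o) o) o) (n 1495 (n 75 o o o) (n 1134 o o o) (n 1130 o (n 541 o (n 76 o o o) o) o)) o) (n 1882 o (n 1879 o o (n 1872 o o o)) (n 1121 o (n 14 o o o) o)) (n 2787 o (n 2608 o (n 2413 (n 1574 (n 75 o o o) (n 1193 o o o) o) o o) o) o)) (n 3716 (n 3398 o o o) (n 3716 o o (n 3715 o o (n 3714 o o o))) (n 1966 (n 1121 o (n 5 o o o) o) o o)) (n 3807 (n 3724 o (n 3595 o (n 3461 (n 3057 (n 2132 o o o) o o) o o) o) o) (n 3416 (n 3001 o (n 2539 (n 1656 (n 145 o o o) (n 1271 o o o) o) (n 2407 o o (n 1878 o o o)) o) o) (n 3025 (n 2117 o o o) o o) o) o)) (n 4590 (n 4501 o o (n 4279 o o (n 3665 o (n 2049 o o o) o))) o (n 4099 (n 1990 (n 1125 o (n 4 o o o) o) o o) (n 3719 o o o) (n 3761 o (n 2993 o (n 2034 o o o) o) o))) (n 4483 (n 4427 o (n 4360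 (n 4160 o (n 3977 (n 3489 (n 2372 o o o) o o) o o) o) (n 4322 o o (n 3962 o (n 3489 (n 2372 o o o) o o) o)) o) o) (n 4152 (n 3660 (n 3237 o (n 2750 (n 1841 (n 311 o o o) (n 1381 o o o) o) (n 2617 o o (n 2013 o o o)) o) o) (n 3268 (n 2268 o o o) o o) o) (n 3910 (n 3635 (n 3322 o o o) o (n 2058 o o o)) o (n 3143 o (n 2198 o o o) o)) o) o))
/-- part of the table -/
def t9 : Tr := (n 5034 (n 4256 (n 1978 (n 1087 (n 768 (n 655 o (n 494 o (n 340 (n 4 o o o) o o) o) o) (n 340 o (n 4 o o o) o) o) (n 4 o o o) o) o (n 1862 o (n 1659 (n 1530 o (n 1399 (n 602 o (n 4 o o o) o) o o) o) (n 1474 (n 4 o o o) o o) o) o)) (n 3848 o o o) (n 3718 (n 3498 (n 3427 o (n 3322 o (n 3212 (n 2900 (n 1974 o o o) o o) o o) o) o) (n 3175 (n 2933 o (n 2692 (n 1760 (n 210 o o o) (n 1129 o o o) o) o o) o) (n 2863 (n 1956 o o o) o o) o) o) (n 2832 (n 2174 (n 1884 o (n 1533 (n 734 o (n 136 o o o) o) (n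 1403 (n 1048 o o o) o o) o) o) (n 1485 (n 6 o o o) (n 1110 o o o) o) o) (n 1879 o o (n 1111 o (n 5 o o o) o)) o) o)) (n 4912 o o (n 4609 o o (n 3813 (n 3429 o (n 2779 o (n 2053 o o o) o) o) (n 2005 (n 1125 o (n 4 o o o) o) o o) o))) (n 4621 (n 4376 (n 4320 o (n 4257 (n 4056 o (n 3874 (n 3385 (n 2306 o o o) o o) o o) o) (n 4220 o o (n 3859 o (n 3385 (n 2306 o o o) o o) o)) o) o) (n 4072 (n 3586 (n 3164 o (n 2680 (n 1773 (n 248 o o o) (n 1335 o o o) o) (n 2546 o o (n 1961 o o o)) o) o) (n 3195 (n 2214 o o o) o o) o) (n 3875 (n 3601 (n 3312 o o o) o (n 2034 o o o)) o (n 3116 o (n 2168 o o o) o)) (n 3977 o (n 3819 o (n 3638 (n 3233 (n 2232 o o o) o o) o o) o) o)) o) (n 4075 (n 2912 (n 2261 (n 2128 o (n 1988 (n 1188 o (n 590 o o o) o) o o) o) (n 1552 (n 67 o o o) (n 1175 o o o) o) o) (n 1886 o (n 1886 o o (n 1885 o o o)) (n 1116 o (n 5 o o o) o)) o) (n 3752 (n 3429 o o o)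 o (n 1972 (n 1121 o (n 4 o o o) o) o o)) (n 3866 o (n 3511 o (n 3092 (n 2141 o o o) o o) o) o)) o))
/-- part of the table -/
def t10 : Tr := (n 5331 (n 5322 o (n 5307 o (n 5292 (n 5250 (n 5086 (n 4940 (n 3868 o (n 2654 o o o) o) o o) (n 5014 o o (n 4794 (n 2514 o o o) o o)) o) o o) o o) o) o) (n 5228 (n 5159 o (n 5083 (n 4896 (n 4482 (n 4026 o (n 3598 (n 2471 o o o) o o) o) (n 4159 (n 3788 (n 3420 o o o) o (n 2148 o o o)) o (n 3360 o (n 2346 o o o) o)) o) (n 4831 (n 4772 o o (n 4592 (n 2460 o o o) o o)) o (n 4745 (n 3752 o (n 2583 o o o) o) o o)) o) (n 5074 o o (n 5037 (n 4909 (n 3862 o (n 2601 o o o) o) o o) o o)) o) o) (n 5128 (n 4805 (n 4165 (n 3119 (n 2456 o (n 1688 (n 166 o o o) (n 1296 o o o) o) o) (n 2190 o o o) o) (n 3840 (n 3500 o o o) o (n 2083 o o o)) (n 3962 o (n 3605 o (n 3185 (n 2226 o o o) o o) o) o)) (n 4690 (n 4598 o o (n 4368 o o o)) o (n 4192 (n 2087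 o o o) (n 3804 o o o) o)) (n 4751 o (n 4688 (n 4205 o (n 3669 (n 2466 o o o) o o) o) o o) o)) o o) o) o)
/-- part of the table -/
def t11 : Tr := (n 4989 (n 4550 (n 4319 (n 4287 o (n 4251 (n 4038 o (n 3806 (n 3317 (n 2236 o o o) o o) o o) o) o o) o) (n 4036 (n 3535 (n 3112 o (n 2628 (n 1720 (n 193 o o o) (n 1281 o o o) o) (n 2495 o o (n 1909 o o o)) o) o) (n 3143 (n 2161 o o o) o o) o) (n 3854 (n 3615 (n 3324 o o o) o (n 2036 o o o)) o (n 3083 o (n 2134 o o o) o)) o) o) (n 4054 (n 2952 (n 2298 (n 2166 o (n 2026 (n 1225 o (n 627 o o o) o) o o) o) (n 1589 (n 103 o o o) (n 1212 o o o) o) o) (n 1985 o o (n 1213 o (n 102 o o o) o)) o) (n 3762 (n 3437 o o o) o (n 1975 (n 1122 o (n 4 o o o) o) o o)) (n 3841 o (n 3484 o (n 3064 (n 2111 o o o) o o) o) o)) (n 4538 o (n 4515 o (n 4485 (n 4422 (n 3941 o (n 3413 (n 2276 o o o) o o) o) o o) o o) o) o)) (n 4308 (n 1989 (n 1095 (n 780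 o (n 340 o (n 4 o o o) o) o) (n 4 o o o) o) o (n 1884 o (n 1696 o (n 1511 (n 4 o o o) o o) o) o)) (n 3893 o o o) (n 3775 (n 3584 o (n 3291 o (n 2979 (n 2026 o o o) o o) o) o) (n 2918 (n 2264 o (n 1521 (n 6 o o o) (n 1137 o o o) o) o) (n 1993 o o o) o) o)) (n 4954 o (n 4873 o (n 4779 (n 4408 (n 3383 o (n 2400 o o o) o) (n 4219 o o (n 2321 o o o)) o) o o) o) o))
/-- part of the table -/
def t12 : Tr := (n 5420 (n 5350 o (n 5272 (n 5079 (n 4657 (n 4196 o (n 3758 (n 2584 o o o) o o) o) (n 4318 (n 3891 (n 3448 o o o) o (n 2223 o o o)) o (n 3508 o (n 2457 o o o) o)) o) (n 5009 (n 4915 o o (n 4728 (n 2550 o o o) o o)) o (n 4915 (n 3906 o (n 2697 o o o) o) o o)) o) (n 5263 o o (n 5222 (n 5084 (n 4018 o (n 2716 o o o) o) o o) o o)) o) o) (n 5252 (n 4872 (n 4210 (n 3162 (n 2493 o (n 1718 (n 191 o o o) (n 1322 o o o) o) o) (n 2227 o o o) o) (n 3879 (n 3518 o o o) o (n 2115 o o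 o)) (n 4010 o (n 3651 o (n 3230 (n 2265 o o o) o o) o) o)) (n 4734 (n 4641 o o (n 4409 o o o)) o (n 4226 (n 2106 o o o) (n 3835 o o o) o)) (n 4822 o (n 4757 (n 4269 o (n 3724 (n 2509 o o o) o o) o) o o) o)) (n 5205 o o (n 4995 (n 4322 (n 2114 o o o) (n 3915 o o o) o) (n 4880 o o (n 4594 o o o)) o)) (n 5228 o (n 5198 (n 5126 (n 4625 o (n 4025 (n 2671 o o o) o o) o) o o) o o) o)) o)
/-- part of the table -/
def t13 : Tr := (n 5758 (n 5724 (n 5719 o (n 5712 o (n 5705 (n 5684 (n 5622 (n 5483 (n 5168 (n 2665 o o o) o o) o o) o o) o o) o o) o) o) (n 5677 (n 5624 o (n 5570 (n 5421 (n 5080 (n 4427 (n 3391 o (n 2384 o o o) o) (n 4014 (n 3618 o o o) o (n 2169 o o o)) o) (n 4949 (n 4819 o o (n 4493 o o o)) o (n 4761 (n 2465 o o o) o o)) o) (n 5384 o o (n 5302 (n 5023 (n 2604 o o o) o o) o o)) o) o o) o) (n 5636 (n 5528 (n 5193 (n 4440 (n 2126 o o o) (n 4014 o o o) o) (n 5067 o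 o (n 4752 o o o)) o) o o) o (n 5612 o (n 5579 (n 5503 (n 5341 (n 4207 o (n 2811 o o o) o) o o) o o) o o) o)) o) o) (n 5596 t12 (n 5448 (n 5072 (n 4314 (n 2025 (n 1132 o (n 4 o o o) o) o o) (n 3902 o o o) (n 3868 o (n 3062 o (n 2075 o o o) o) o)) (n 4951 o o (n 4648 o o (n 3875 o (n 2103 o o o) o))) (n 4742 (n 4675 o (n 4600 (n 4116 o (n 3582 (n 2422 o o o) o o) o) o o) o) (n 4251 (n 3231 o (n 2244 o o o) o) (n 3923 (n 3588 o o o) o (n 2104 o o o)) o) o)) o (n 5246 o (n 4976 (n 4351 (n 3322 o (n 2327 o o o) o) (n 3978 (n 3604 o o o) o (n 2143 o o o)) o) (n 4879 (n 4760 o o (n 4462 o o o)) o (n 4696 (n 2426 o o o) o o)) o) o)) o) o)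
/-- part of the table -/
def t14 : Tr := (n 5866 (n 5406 (n 5050 (n 4829 (n 4744 o (n 4648 (n 4416 (n 4214 o (n 4027 (n 3557 (n 2430 o o o) o o) o o) o) (n 4237 (n 3970 (n 3653 (n 3312 o o o) o (n 2108 o o o)) o (n 3266 o (n 2277 o o o) o)) o (n 3889 o (n 3463 (n 2379 o o o) o o) o)) o) (n 4607 (n 4562 (n 4518 o o (n 4384 (n 2373 o o o) o o)) o (n 4485 (n 3581 o (n 2478 o o o) o) o o)) o (n 4476 (n 4043 o (n 3547 (n 2478 o o o) o o) o) (n 4393 (n 4197 o o (n 2373 o o o)) o o) o)) o) o) t7 o) t8 (n 5031 o (n 4996 o (n 4955 (n 4838 (n 4437 (n 3987 o (n 3564 (n 2420 o o o) o o) o) (n 4145 (n 3758 (n 3389 o o o) o (n 2129 o o o)) o (n 3343 o (n 2309 o o o) o)) o) (n 4812 o o (n 4730 (n 3736 o (n 2529 o o o) o) o o)) o) o o) o) o)) t9 t10) (n 5582 (n 4967 o o (n 3841 (n 3333 (n 3175 o (n 2936 o (n 2681 (n 1994 o o o) o o) o) o) (n 2594 (n 2031 (n 1900 o (n 1763 (n 962 o (n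 365 o o o) o) o o) o) (n 1486 (n 4 o o o) (n 1110 o o o) o) o) (n 1883 o o (n 1111 o (n 4 o o o) o)) o) o) (n 1992 (n 1094 (n 780 o (n 339 o (n 4 o o o) o) o) (n 4 o o o) o) o (n 1883 o (n 1695 o (n 1510 (n 4 o o o) o o) o) o)) (n 3615 o (n 3434 o (n 3277 (n 2579 o (n 2055 o o o) o) o o) o) o))) o t11) t13)
/-- part of the table -/
def t15 : Tr := (n 6150 (n 6125 (n 6069 (n 5916 (n 5823 o o (n 5720 (n 5602 (n 4766 o o (n 4021 o o o)) o o) o (n 5662 o (n 5534 (n 3969 o o o) o o) o))) o (n 5781 (n 5548 (n 3821 (n 2572 o o (n 930 o o o)) o o) (n 5198 o o (n 4581 o o (n 3969 o o o))) o) (n 5688 o o (n 5580 (n 4744 o o (n 3999 o o o)) o o)) o)) (n 6049 o o (n 6013 o o (n 5971 (n 5876 (n 5690 (n 3987 o o o) o o) o o) o o))) (n 6045 o (n 5861 (n 5745 o o (n 5621 (n 4784 o o (n 4039 o o o)) o o)) o (n 5676 (n 3987 o o o) o o)) o)) (n 6120 o o (n 6114 (n 6065 o o (n 6011 (n 5891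 (n 5706 (n 3990 o o o) o o) o o) o o)) o o)) (n 6119 o (n 5902 (n 5710 o o (n 5545 (n 3957 o o o) o o)) o o) o)) (n 6147 o o (n 6144 (n 6137 (n 6087 o o (n 6028 (n 5897 (n 5711 (n 3991 o o o) o o) o o) o o)) o o) o o)) (n 6148 o (n 6142 (n 5916 (n 5716 o o (n 5550 (n 3959 o o o) o o)) o o) o o) o))
/-- part of the table -/
def t16 : Tr := (n 5936 (n 5747 (n 5633 o (n 5508 (n 5248 (n 4590 (n 3545 o (n 2535 o o o) o) (n 4175 (n 3634 o o o) o (n 2284 o o o)) o) (n 5183 o o (n 4987 (n 2624 o o o) o o)) o) (n 5488 o o (n 5400 (n 5107 (n 2656 o o o) o o) o o)) o) o) (n 5590 (n 5202 (n 4397 (n 2133 o o o) (n 3980 o o o) (n 3943 o (n 3124 o (n 2134 o o o) o) o)) (n 5074 o o (n 4752 o o o)) (n 5091 o (n 4945 (n 3838 o (n 2583 o o o) o) o o) o)) (n 5551 o o (n 5436 (n 4927 o o o) o o)) (n 5535 o (n 5464 (n 5306 (n 4169 o (n 2795 o o o) o) o o) o o) o)) o) (n 5848 (n 5614 (n 5005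 o o (n 3986 o (n 2132 o o o) o)) o (n 5372 o (n 5057 (n 2555 o o o) o o) o)) o (n 5585 (n 5517 o (n 5434 (n 5262 (n 4125 o (n 2756 o o o) o) o o) o o) o) (n 5268 (n 4488 (n 2133 o o o) (n 4054 o o o) o) (n 5139 o o (n 4816 o o o)) o) o)) (n 5921 o (n 5897 o (n 5868 (n 5805 (n 5654 (n 5320 (n 2750 o o o) o o) o o) o o) o o) o) o))
/-- part of the table -/
def t17 : Tr := (n 6169 (n 6150 (n 5893 (n 5608 (n 5389 (n 5337 o o (n 5281 (n 4936 o o (n 4557 (n 3916 o o o) o o)) o o)) o (n 5177 (n 4390 (n 3984 o o (n 3567 (n 1332 o o o) o o)) o (n 3830 o o o)) o (n 5042 o (n 3854 o o o) o))) o (n 5404 (n 3787 (n 2543 o o (n 900 o o o)) o o) (n 5054 o o (n 4474 o o (n 3915 o o o))) o)) (n 5730 o o (n 5580 o o (n 5443 (n 5309 (n 3898 o o o) o o) o o))) o) (n 6128 o o (n 6097 (n 5994 o o (n 5896 (n 5712 (n 3993 o o o) o o) o o)) o (n 6078 o (n 5896 o o (n 5712 (n 3993 o o o) o o))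 o))) o) (n 6159 (n 6156 o o (n 6153 (n 6145 (n 6095 o o (n 6036 (n 5902 (n 5716 (n 3995 o o o) o o) o o) o o)) o o) o o)) o (n 6148 (n 6105 (n 5993 (n 5936 o o (n 5866 (n 5733 (n 4866 o o (n 4047 o o o)) o o) o o)) o (n 5889 (n 5703 (n 3995 o o o) o o) o o)) o (n 6078 o (n 5897 o o (n 5711 (n 3995 o o o) o o)) o)) o o)) o)
/-- part of the table -/
def t18 : Tr := (n 6177 (n 6161 (n 6156 o o (n 6150 (n 6138 (n 6108 (n 6062 o o (n 6019 (n 5900 (n 5714 (n 3992 o o o) o o) o o) o o)) o (n 6087 (n 6062 o (n 5900 o o (n 5714 (n 3992 o o o) o o)) o) (n 6006 o o (n 5900 (n 5714 (n 3992 o o o) o o) o o)) o)) o (n 6135 o (n 6127 (n 6025 o o (n 5900 (n 5714 (n 3992 o o o) o o) o o)) o o) o)) o (n 6149 o (n 6145 (n 6132 (n 6026 o o (n 5900 (n 5714 (n 3992 o o o) o o) o o)) o o) o o) o))) (n 6155 (n 6153 o (n 6149 (n 6143 (n 6100 o (n 6052 (n 5985 (n 5770 (n 5181 o o o) o o) o o)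 o o) o) o o) o o) o) (n 6150 (n 6122 (n 6030 (n 5957 o (n 5876 (n 5707 (n 5360 (n 2767 o o o) o o) o o) o o) o) (n 5969 (n 5754 (n 5165 o o o) o o) o o) o) o o) o o) o) t15) (n 6130 (n 6112 (n 6109 o (n 6106 (n 6089 o (n 6070 (n 6030 (n 5970 (n 5757 (n 5172 o o o) o o) o o) o o) o o) o) o o) o) (n 6092 (n 6033 (n 5987 o (n 5941 (n 5833 (n 5610 (n 4751 (n 2316 o o o) (n 4069 o o o) o) o o) o o) o o) o) (n 5987 (n 5917 (n 5704 (n 5123 o o o) o o) o (n 5806 o (n 5644 (n 5300 (n 2726 o o o) o o) o o) o)) o (n 5933 o (n 5869 (n 5704 (n 5359 (n 2771 o o o) o o) o o) o o) o)) o) (n 6083 o o (n 6014 (n 5947 o (n 5871 (n 5706 (n 5361 (n 2772 o o o) o o) o o) o o) o) (n 5955 (n 5742 (n 5158 o o o) o o) o o) o)) o) o) (n 6090 t16 o (n 6069 o (n 6039 o (n 6006 (n 5957 (n 5747 (n 5164 o o o) o o) o o) o o) o) o)) o) t17)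
/-- part of the table -/
def t19 : Tr := (n 4041 (n 3992 o (n 3932 (n 3845 o (n 3766 (n 3579 (n 3146 (n 2146 o o o) o o) o o) o o) o) (n 3887 (n 3812 (n 3707 (n 3588 o o (n 2104 o o o)) o (n 3064 o (n 2146 o o o) o)) o (n 3512 o (n 3113 (n 2146 o o o) o o) o)) o (n 3736 o (n 3559 (n 3137 (n 2146 o o o) o o) o o) o)) o) o) (n 3876 (n 3610 (n 3379 o (n 3141 (n 2638 (n 1748 (n 230 o o o) (n 1274 o o o) o) (n 2483 o o (n 1883 o o o)) o) (n 3086 o o (n 2842 (n 1998 o o o) o o)) o) o) (n 3404 (n 2949 (n 2044 o o o) o (n 2461 o (n 1729 (n 214 o o o) (n 1274 o o o) o) o)) o (n 3228 o (n 3021 (n 2061 (n 485 o o o) (n 1274 o o o) o) o o) o)) o) (n 3767 (n 3615 (n 3405 (n 3140 o o o) o (n 1967 o o o)) o (n 2959 o (n 2056 o o o) o)) o (n 3411 (n 3029 o (n 2573 (n 1688 (n 178 o o o) (n 1257 o o o) o) (n 2441 o o (n 1866 o o o)) o) o) (n 3032 (n 2089 o o o) o o) o)) (n 3834 o (n 3765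 o (n 3687 (n 3513 (n 3098 (n 2118 o o o) o o) o o) o o) o) o)) o)
/-- part of the table -/
def t20 : Tr := (n 3858 (n 3234 (n 2790 (n 2569 o (n 2322 (n 1832 (n 1029 o (n 418 o o o) o) (n 1587 (n 1154 o o o) o o) o) (n 2213 (n 2091 o o (n 1581 o o o)) o (n 2071 (n 613 o o o) o o)) o) o) (n 2355 (n 1521 (n 117 o o o) (n 1142 o o o) (n 1179 o (n 590 o (n 122 o o o) o) o)) (n 2233 o o (n 1721 o o o)) (n 2090 o (n 1708 (n 905 o (n 294 o o o) o) (n 1535 (n 1153 o o o) o o) o) o)) o) (n 2744 (n 1808 o (n 1807 o o (n 1806 o o o)) (n 1096 o (n 5 o o o) o)) (n 2724 o o (n 2683 (n 2528 o o o) o (n 1843 o o o))) (n 2230 (n 2110 o (n 1978 (n 1179 o (n 577 o o o) o) o o) o) (n 1534 (n 66 o o o) (n 1161 o o o) o) o)) (n 3165 o (n 3045 o (n 2911 (n 2448 (n 1602 (n 117 o o o) (n 1203 o o o) o) (n 2318 o o (n 1776 o o o)) o) o o) o) o)) (n 3669 (n 3437 (n 3159 o o o) o (n 1911 (n 1108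 o (n 4 o o o) o) o o)) o (n 2860 (n 2264 (n 2140 o (n 2006 (n 1207 o (n 608 o o o) o) o o) o) (n 1566 (n 92 o o o) (n 1192 o o o) o) o) (n 1935 o o (n 1191 o (n 91 o o o) o)) o)) (n 3739 (n 3701 o (n 3645 o (n 3586 (n 3413 (n 3023 (n 2075 o o o) o o) o o) o o) o) o) (n 3559 (n 3321 o (n 3060 (n 2548 (n 1677 (n 173 o o o) (n 1248 o o o) o) (n 2417 o o (n 1845 o o o)) o) (n 3005 o o (n 2785 (n 1965 o o o) o o)) o) o) (n 3391 (n 3009 (n 2068 o o o) o o) o o) o) o))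
/-- part of the table -/
def t21 : Tr := (n 2818 (n 2129 (n 1747 (n 1590 o (n 1403 (n 1069 o (n 789 (n 229 o o o) o o) o) (n 1271 (n 1140 (n 857 o o o) o o) o (n 693 o (n 159 o o o) o)) o) o) (n 1332 (n 628 o (n 159 o o o) o) (n 1071 (n 806 o o o) o (n 28 o o o)) (n 1171 o (n 908 o (n 628 (n 159 o o o) o o) o) o)) o) (n 1412 (n 6 o o o) (n 1055 (n 1055 o o (n 1054 o o o)) o o) (n 1057 o (n 475 o (n 7 o o o) o) o)) (n 2105 o (n 2064 o (n 2013 (n 1908 (n 1120 o (n 526 o o o) o) o o) o o) o) o)) (n 1836 o (n 1836 o o (n 1835 o o o)) (n 1077 (n 780 o (n 343 o (n 5 o o o) o) o) (n 5 o o o) o)) (n 2705 (n 2683 o (n 2649 o (n 2612 (n 2515 (n 1873 o (n 1409 o o o) o) o o) o o) o) o) (n 2515 (n 2396 o (n 2270 (n 1779 (n 957 o (n 290 o o o) o) (n 1534 (n 1156 o o o) o o) o) o o) o) (n 2320 (n 1506 (n 45 o o o) (n 1135 o o o) o) o o) o) o))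
/-- part of the table -/
def t22 : Tr := (n 4485 (n 4184 t19 t20 (n 4175 o (n 4159 o (n 4140 (n 4068 (n 3871 o (n 3691 (n 3212 (n 2167 o o o) o o) o o) o) (n 4032 o o (n 3677 o (n 3212 (n 2167 o o o) o o) o)) o) o o) o) o)) (n 3968 t21 (n 3688 (n 3370 o o o) o (n 1934 (n 1086 (n 781 o (n 342 o (n 4 o o o) o) o) (n 4 o o o) o) o (n 1855 o (n 1676 o (n 1494 (n 4 o o o) o o) o) o))) (n 3668 (n 3559 (n 3527 o (n 3481 o (n 3433 (n 3299 (n 2906 (n 2013 o o o) o o) o o) o o) o) o) (n 3408 (n 3246 o (n 3079 (n 2549 (n 1668 (n 158 o o o) (n 1200 o o o) o) (n 2310 o o (n 1787 o o o)) o) o o) o) (n 3274 (n 2889 (n 2005 o o o) o o) o o) o) o) (n 3212 (n 2803 (n 2682 o (n 2545 (n 2045 (n 1216 o (n 539 o o o) o) (n 1799 (n 1198 o o o) o o) o) o o) o) (n 2390 (n 1557 (n 75 o o o) (n 1181 o o o) o) (n 2262 o o (n 1749 o o o)) o) o) (n 2762 (n 1825 o (n 1825 o o (n 1824 o o o)) (n 1106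 o (n 5 o o o) o)) o (n 2249 o (n 1556 (n 65 o o o) (n 1177 o o o) o) o)) o) o)) (n 4403 (n 4397 o (n 4388 o (n 4379 (n 4350 (n 4290 (n 3820 o (n 3304 (n 2222 o o o) o o) o) o o) o o) o o) o) o) (n 4314 (n 4271 o (n 4224 (n 4094 (n 3895 o (n 3714 (n 3262 (n 2206 o o o) o o) o o) o) (n 4017 (n 3953 o o (n 3240 o (n 2206 o o o) o)) o (n 3673 o (n 3262 (n 2206 o o o) o o) o)) o) (n 4212 o o (n 4178 (n 3750 o (n 3262 (n 2206 o o o) o o) o) o o)) o) o) (n 4234 (n 3940 (n 3462 (n 3046 o (n 2567 (n 1669 (n 156 o o o) (n 1253 o o o) o) (n 2435 o o (n 1874 o o o)) o) o) (n 3072 (n 2121 o o o) o o) o) (n 3795 (n 3565 (n 3279 o o o) o (n 2013 o o o)) o (n 3040 o (n 2103 o o o) o)) (n 3845 o (n 3689 o (n 3508 (n 3105 (n 2136 o o o) o o) o o) o) o)) o o) o) o))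
/-- part of the table -/
def t23 : Tr := (n 3688 (n 3408 (n 3320 (n 3294 o (n 3257 o (n 3218 (n 3108 (n 2817 (n 1923 o o o) o o) o o) o o) o) o) (n 3201 (n 3095 o (n 2979 (n 2752 (n 1818 (n 267 o o o) (n 1119 o o o) o) o o) o o) o) (n 3091 (n 2800 (n 1915 o o o) o o) o o) o) o) (n 3033 (n 2660 (n 2539 o (n 2403 (n 1902 (n 1075 o (n 402 o o o) o) (n 1657 (n 1126 o o o) o o) o) o o) o) (n 2315 (n 1485 (n 6 o o o) (n 1110 o o o) o) (n 2187 o o (n 1673 o o o)) o) o) (n 2702 (n 1823 o o (n 1104 o (n 4 o o o) o)) o (n 2188 o (n 1494 (n 6 o o o) (n 1116 o o o) o) o)) o) o) (n 2794 (n 2120 (n 1751 (n 1693 o (n 1631 (n 1277 o (n 910 (n 350 o o o) o o) o) o o) o) (n 1337 (n 605 o (n 137 o o o) o) (n 1072 (n 801 o o o) o (n 6 o o o)) o) o) (n 1420 (n 6 o o o) (n 1061 o o o) (n 1058 o (n 474 o (n 6 o o o) o) o)) o) (n 1843 o o (n 1081 (n 780 o (n 342 o (n 4 o o o) o) o) (n 4 o o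 o) o)) (n 2690 o (n 2512 o (n 2318 (n 1485 (n 6 o o o) (n 1110 o o o) o) o o) o) o)) (n 3586 o (n 3504 o (n 3435 (n 3129 o (n 2907 (n 1969 o o o) o o) o) o o) o) o))
/-- part of the table -/
def t24 : Tr := (n 4516 (n 4454 o (n 4384 (n 4196 (n 3996 o (n 3811 (n 3345 (n 2235 o o o) o o) o o) o) (n 4057 (n 3897 (n 3769 o o (n 2190 o o o)) o (n 3201 o (n 2235 o o o) o)) o (n 3711 o (n 3288 (n 2235 o o o) o o) o)) o) (n 4364 (n 4339 o o (n 4268 (n 3361 o (n 2235 o o o) o) o o)) o (n 4325 (n 3893 o (n 3401 (n 2235 o o o) o o) o) o o)) o) o) (n 4376 (n 4012 (n 3534 (n 3111 o (n 2618 (n 1704 (n 174 o o o) (n 1245 o o o) o) (n 2485 o o (n 1880 o o o)) o) o) (n 3143 (n 2137 o o o) o o) o) (n 3816 (n 3612 (n 3324 o o o) o (n 2046 o o o)) o (n 3063 o (n 2111 o o o) o)) (n 3922 o (n 3764 o (n 3583 (n 3179 (n 2154 o o o) o o) o o) o) o)) (n 4320 o o (n 3992 (n 3081 o (n 2119 o o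 o) o) (n 3759 (n 3445 o o o) o (n 2054 o o o)) o)) (n 4351 o (n 4322 (n 4109 o (n 3876 (n 3363 (n 2214 o o o) o o) o o) o) o o) o)) o)
/-- part of the table -/
def t25 : Tr := (n 4841 (n 4811 (n 4806 o (n 4799 o (n 4791 (n 4770 (n 4706 (n 4571 (n 3509 o (n 2310 o o o) o) o o) o o) o o) o o) o) o) (n 4766 (n 4727 o (n 4688 (n 4571 (n 4266 (n 3812 o (n 3381 (n 2304 o o o) o o) o) (n 4067 (n 3922 o o (n 2246 o o o)) o (n 3280 o (n 2304 o o o) o)) o) (n 4528 o o (n 4451 (n 3463 o (n 2304 o o o) o) o o)) o) o o) o) (n 4724 (n 4588 (n 4114 (n 3114 o (n 2138 o o o) o) (n 3865 (n 3535 o o o) o (n 2073 o o o)) o) o o) o (n 4700 o (n 4666 (n 4595 (n 4104 o (n 3529 (n 2298 o o o) o o) o) o o) o o) o)) o) o) (n 4661 t24 (n 4501 (n 3985 (n 2905 (n 2257 (n 2126 o (n 1987 (n 1188 o (n 587 o o o) o) o o) o) (n 1550 (n 64 o o o) (n 1173 o o o) o) o) (n 1942 o o (n 1173 o (n 62 o o o)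 o)) o) (n 3735 (n 3414 o o o) o (n 1968 (n 1121 o (n 4 o o o) o) o o)) (n 3784 o (n 3432 o (n 3013 (n 2065 o o o) o o) o) o)) o (n 4336 (n 4306 o (n 4272 (n 4060 o (n 3829 (n 3335 (n 2208 o o o) o o) o o) o) o o) o) (n 4108 (n 3663 o (n 3244 (n 2208 o o o) o o) o) (n 3953 (n 3808 o o (n 2167 o o o)) o (n 3171 o (n 2208 o o o) o)) o) o)) o) o)
/-- part of the table -/
def t26 : Tr := (n 3293 (n 3068 (n 3002 o (n 2908 (n 2859 o (n 2806 (n 2690 (n 2490 (n 797 o o o) o o) o o) o o) o) (n 2818 (n 2581 (n 1916 o o o) o o) o o) o) o) (n 2768 (n 2456 (n 2398 o (n 2329 (n 2190 (n 1362 o (n 688 o o o) o) o o) o o) o) (n 2157 (n 1485 (n 5 o o o) (n 1110 o o o) o) (n 2035 o o (n 1674 o o o)) o) o) (n 2511 (n 1824 o o (n 1104 o (n 4 o o o) o)) o (n 2329 o (n 2146 (n 526 o o o) o o) o)) o) o) (n 2546 (n 1963 (n 1641 (n 1584 o (n 1522 (n 1167 o (n 801 (n 241 o o o) o o) o) o o) o)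 (n 1293 (n 561 o (n 92 o o o) o) (n 1071 (n 800 o o o) o (n 4 o o o)) o) o) (n 1419 (n 4 o o o) (n 1061 o o o) (n 1057 o (n 473 o (n 5 o o o) o) o)) o) (n 1844 o o (n 1080 (n 780 o (n 341 o (n 4 o o o) o) o) (n 4 o o o) o)) (n 2457 o (n 2307 o (n 2144 (n 1485 (n 4 o o o) (n 1110 o o o) o) o o) o) o)) (n 3207 o (n 3139 o (n 3083 (n 2831 o (n 2649 (n 1972 o o o) o o) o) o o) o) o))
/-- part of the table -/
def t27 : Tr := (n 5239 (n 5169 o (n 5093 (n 4899 (n 4478 (n 4019 o (n 3585 (n 2434 o o o) o o) o) (n 4146 (n 3744 (n 3444 o o o) o (n 2114 o o o)) o (n 3340 o (n 2307 o o o) o)) o) (n 4830 (n 4747 o o (n 4571 (n 2437 o o o) o o)) o (n 4739 (n 3736 o (n 2547 o o o) o) o o)) o) (n 5083 o o (n 5043 (n 4909 (n 3848 o (n 2565 o o o) o) o o) o o)) o) o) (n 5111 (n 4814 (n 4159 (n 3114 (n 2447 o (n 1673 (n 146 o o o) (n 1285 o o o) o) o) (n 2188 o o o) o) (n 3838 (n 3515 o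 o o) o (n 2085 o o o)) (n 3959 o (n 3600 o (n 3179 (n 2225 o o o) o o) o) o)) (n 4714 o o (n 4217 (n 2103 o o o) (n 3828 o o o) o)) (n 4765 o (n 4699 (n 4213 o (n 3671 (n 2468 o o o) o o) o) o o) o)) (n 5078 o o (n 4972 (n 4312 (n 2111 o o o) (n 3907 o o o) o) o o)) (n 5086 o (n 5055 (n 4984 (n 4484 o (n 3889 (n 2548 o o o) o o) o) o o) o o) o)) o)
/-- part of the table -/
def t28 : Tr := (n 5498 (n 5475 (n 5471 o (n 5465 o (n 5459 (n 5441 (n 5396 (n 5256 (n 4956 (n 2513 o o o) o o) o o) o o) o o) o o) o) o) (n 5443 (n 5405 o (n 5366 (n 5279 (n 5023 (n 4372 (n 3335 o (n 2315 o o o) o) (n 3948 (n 3612 o o o) o (n 2122 o o o)) o) (n 4914 o o (n 4739 (n 2454 o o o) o o)) o) o o) o o) o) (n 5416 (n 5350 (n 5162 (n 4426 (n 2122 o o o) (n 4002 o o o) o) o o) o o) o (n 5391 o (n 5359 (n 5285 (n 5127 (n 4002 o (n 2629 o o o) o) o o) o o) o o) o)) o) o) (n 5381 t27 (n 5287 (n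 5065 (n 4311 (n 2024 (n 1133 o (n 4 o o o) o) o o) (n 3899 o o o) (n 3866 o (n 3061 o (n 2075 o o o) o) o)) o (n 4741 o (n 4252 (n 3228 o (n 2241 o o o) o) (n 3924 (n 3588 o o o) o (n 2102 o o o)) o) o)) o (n 5124 (n 5094 o (n 5057 (n 4979 (n 4481 o (n 3890 (n 2562 o o o) o o) o) o o) o o) o) (n 4918 (n 4295 (n 3274 o (n 2287 o o o) o) (n 3933 (n 3598 o o o) o (n 2114 o o o)) o) (n 4859 o o (n 4685 (n 2424 o o o) o o)) o) o)) (n 5375 o (n 5364 o (n 5352 (n 5324 (n 5256 (n 5103 (n 3983 o (n 2618 o o o) o) o o) o o) o o) o o) o) o)) o)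
/-- part of the table -/
def t29 : Tr := (n 4809 (n 4750 o (n 4685 (n 4448 (n 4246 o (n 4060 (n 3563 (n 2392 o o o) o o) o o) o) (n 4256 (n 3961 (n 3624 (n 3340 o o o) o (n 2082 o o o)) o (n 3251 o (n 2236 o o o) o)) o (n 3903 o (n 3454 (n 2340 o o o) o o) o)) o) (n 4674 o o (n 4634 (n 4192 o (n 3666 (n 2440 o o o) o o) o) o o)) o) o) (n 4607 (n 4188 (n 3706 (n 3281 o (n 2784 (n 1858 (n 316 o o o) (n 1373 o o o) o) (n 2647 o o (n 2020 o o o)) o) o) (n 3312 (n 2281 o o o) o o) o) (n 3944 (n 3641 (n 3351 o o o) o (n 2069 o o o)) o (n 3186 o (n 2212 o o o) o)) (n 4098 o (n 3940 o (n 3758 (n 3350 (n 2299 o o o) o o) o o) o) o)) (n 4514 (n 4441 o o (n 4041 (n 2078 o o o) (n 3680 o o o) o)) o (n 4098 (n 3182 o (n 2215 o o o) o) (n 3793 (n 3477 o o o) o (n 2078 o o o)) o)) (n 4582 o (n 4552 (n 4339 o (n 4104 (n 3585 (n 2409 o o o) o o) o o) o) o o) o)) o)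
/-- part of the table -/
def t30 : Tr := (n 5308 (n 5002 t29 (n 4720 (n 4078 (n 2921 (n 2267 (n 2134 o (n 1993 (n 1191 o (n 591 o o o) o) o o) o) (n 1558 (n 66 o o o) (n 1179 o o o) o) o) (n 1892 o (n 1892 o o (n 1891 o o o)) (n 1120 o (n 5 o o o) o)) o) (n 3756 (n 3434 o o o) o (n 1980 (n 1126 o (n 4 o o o) o) o o)) (n 3876 o (n 3522 o (n 3102 (n 2149 o o o) o o) o) o)) (n 4620 o o (n 4129 (n 2001 (n 1129 o (n 4 o o o) o) o o) (n 3745 o o o) (n 3788 o (n 3014 o (n 2045 o o o) o) o))) (n 4506 (n 4475 o (n 4440 (n 4227 o (n 3995 (n 3499 (n 2365 o o o) o o) o o) o) o o) o) (n 4195 (n 3748 o (n 3328 (n 2285 o o o) o o) o) (n 3953 (n 3674 (n 3377 o o o) o (n 2064 o o o)) o (n 3167 o (n 2198 o o o) o)) o) o)) (n 4995 o (n 4984 o (n 4972 (n 4943 (n 4875 (n 4384 o (n 3805 (n 2498 o o o) o o) o) o o) o o) o o) o) o)) (n 5056 (n 4280 (n 1990 (n 1098 (n 783 o (n 342 o (n 4 o o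 o) o) o) (n 4 o o o) o) o (n 1887 o (n 1699 o (n 1514 (n 4 o o o) o o) o) o)) (n 3870 o o o) (n 3773 (n 3586 o (n 3294 o (n 2981 (n 2028 o o o) o o) o) o) (n 2921 (n 2268 o (n 1524 (n 6 o o o) (n 1139 o o o) o) o) (n 1996 o o o) o) o)) o (n 4665 (n 4451 o (n 4178 (n 3723 o (n 3302 (n 2280 o o o) o o) o) (n 3977 (n 3691 (n 3394 o o o) o (n 2076 o o o)) o (n 3185 o (n 2216 o o o) o)) o) o) (n 4145 (n 3092 (n 2430 o (n 1668 (n 145 o o o) (n 1282 o o o) o) o) (n 2166 o o o) o) (n 3823 (n 3499 o o o) o (n 2061 o o o)) (n 3933 o (n 3575 o (n 3155 (n 2201 o o o) o o) o) o)) o)) (n 5270 o (n 5205 o (n 5131 (n 4903 (n 4285 (n 3264 o (n 2280 o o o) o) (n 3923 (n 3589 o o o) o (n 2106 o o o)) o) (n 4845 o o (n 4671 (n 2416 o o o) o o)) o) o o) o) o))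
/-- part of the table -/
def t31 : Tr := (n 5781 (n 4996 t22 (n 4294 (n 1972 (n 1077 (n 747 (n 632 (n 592 o (n 534 o (n 476 (n 321 (n 4 o o o) o o) o o) o) o) (n 476 o (n 321 (n 4 o o o) o o) o) o) (n 311 (n 146 o (n 5 o (n 4 o o o) o) o) (n 4 o o o) o) o) (n 4 o o o) (n 849 o (n 696 o (n 582 (n 213 o (n 4 o o o) o) o o) o) o)) o (n 1836 (n 1786 o (n 1710 (n 1654 o (n 1590 (n 1466 (n 652 o (n 4 o o o) o) o o) o o) o) (n 1637 (n 1458 (n 4 o o o) o o) o o) o) o) (n 1613 (n 1402 (n 1345 o (n 1284 (n 929 o (n 563 (n 4 o o o) o o) o) o o) o) (n 1203 (n 472 o (n 4 o o o) o) (n 1068 o o (n 4 o o o)) o) o) (n 1415 (n 4 o o o) o (n 1054 o (n 472 o (n 4 o o o) o) o)) o) o)) (n 3878 o o o) t23) t25) (n 5097 o o (n 3861 t26 (n 1985 (n 1079 (n 749 (n 636 o (n 476 o (n 320 (n 4 o o o) o o) o) o) (n 310 (n 145 o (n 4 o (n 4 o o o) o) o) (n 4 o o o) o) o) (n 4 o o o) (n 850 o (n 696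 o (n 583 (n 212 o (n 4 o o o) o) o o) o) o)) o (n 1860 (n 1817 o (n 1749 o (n 1677 (n 1492 (n 4 o o o) o o) o o) o) o) (n 1660 (n 1532 o (n 1402 (n 603 o (n 4 o o o) o) o o) o) (n 1475 (n 4 o o o) o o) o) o)) (n 3616 (n 3596 o (n 3563 o (n 3526 (n 3329 (n 2604 o (n 2047 o o o) o) o o) o o) o) o) (n 3407 (n 3314 o (n 3208 (n 2888 o (n 2592 (n 2035 o o o) o o) o) (n 3149 o o (n 2592 o (n 2035 o o o) o)) o) o) (n 3237 (n 2512 (n 2260 o (n 2041 (n 366 o o o) o o) o) (n 1988 o o o) o) o o) o) o))) (n 5586 t28 t30 (n 5562 (n 5558 (n 5555 o o (n 5551 (n 5543 (n 5528 (n 5416 o o (n 5282 (n 5096 (n 3414 o o o) o o) o o)) o o) o o) o o)) o (n 5555 (n 5545 (n 5337 (n 5125 o o (n 4960 (n 3396 o o o) o o)) o o) o o) o o)) (n 5544 o (n 5529 (n 5460 o (n 5410 (n 5212 (n 4459 (n 2124 o o o) (n 4029 o o o) o) o o) o o) o) o o) o) o)))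
/-- part of the table -/
def t32 : Tr := (n 6313 (n 6269 (n 6193 (n 6139 o o (n 6082 (n 5957 (n 5834 (n 4995 o o (n 4237 o o o)) o o) o (n 5891 o (n 5764 (n 4179 o o o) o o) o)) o (n 6068 o (n 6006 (n 5823 (n 4179 o o o) o o) o o) o))) o (n 6127 (n 5986 (n 5758 (n 4026 (n 2755 o o (n 1044 o o o)) o o) (n 5416 o o (n 4800 o o (n 4180 o o o))) o) (n 5904 o o (n 5796 (n 4961 o o (n 4209 o o o)) o o)) o) (n 6086 o o (n 6033 (n 5916 (n 5052 o o (n 4227 o o o)) o o) o o)) o)) (n 6260 o o (n 6244 o o (n 6226 (n 6185 (n 6081 (n 5898 (n 4187 o o o) o o) o o) o o) o o))) (n 6248 (n 6224 o (n 6028 (n 5920 o o (n 5796 (n 4961 o o (n 4209 o o o)) o o)) o (n 5815 (n 4026 (n 2755 o o (n 1044 o o o)) o o) o o)) o) (n 6168 (n 6117 o o (n 6056 (n 5927 (n 5064 o o (n 4244 o o o)) o o) o o)) o (n 6072 (n 5888 (n 4185 o o o) o o) o o)) o)) (n 6311 o o (n 6308 (n 6286 o o (n 6263 (n 6211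 (n 6095 (n 5911 (n 4190 o o o) o o) o o) o o) o o)) o o)) (n 6307 (n 6303 o (n 6085 (n 5906 o o (n 5743 (n 4154 o o o) o o)) o o) o) (n 6280 (n 6181 (n 6127 o o (n 6062 (n 5932 (n 5069 o o (n 4249 o o o)) o o) o o)) o (n 6085 (n 5902 (n 4190 o o o) o o) o o)) o (n 6263 o (n 6092 o o (n 5909 (n 4190 o o o) o o)) o)) o))
/-- part of the table -/
def t33 : Tr := (n 6328 (n 6304 (n 6298 o (n 6292 (n 6270 (n 6217 o (n 6155 (n 6037 (n 5849 (n 5239 o o o) o o) o o) o o) o) (n 6260 (n 6233 o o (n 6037 o (n 5849 (n 5239 o o o) o o) o)) o o) o) o o) o) (n 6281 (n 6220 (n 6058 (n 5953 o (n 5845 (n 5612 (n 4718 (n 2266 o o o) (n 4060 o o o) o) o o) o o) o) (n 5926 (n 5715 (n 5113 o o o) o (n 5453 o (n 5102 (n 2553 o o o) o o) o)) o (n 5803 o (n 5650 (n 5290 (n 2694 o o o) o o) o o) o)) o) (n 6193 o o (n 5991 (n 5836 o (n 5655 (n 5295 (n 2698 o o o) o o) o o) o) (n 5802 (n 5196 o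 o o) o o) o)) o) (n 6274 o o (n 6228 (n 6014 o (n 5842 (n 5233 o o o) o o) o) o o)) o) o) (n 6304 (n 6207 (n 5874 (n 5559 (n 5485 o (n 5402 (n 5221 (n 4076 o (n 2701 o o o) o) o o) o o) o) (n 5271 (n 4476 (n 2104 o o o) (n 4039 o o o) o) (n 5139 o o (n 4809 o o o)) o) o) (n 5654 (n 5032 o o (n 3971 o (n 2104 o o o) o)) o (n 5116 (n 4960 o (n 4789 (n 3676 o (n 2431 o o o) o) o o) o) (n 4466 (n 2104 o o o) (n 4031 o o o) o) o)) o) o (n 6145 o (n 6057 o (n 5962 (n 5816 (n 5213 o o o) o o) o o) o) o)) o (n 6274 o (n 6236 (n 6115 (n 6039 o (n 5949 (n 5756 (n 5397 (n 2775 o o o) o o) o o) o o) o) (n 6014 (n 5826 (n 5217 o o o) o o) o o) o) (n 6216 o o (n 6025 o (n 5837 (n 5228 o o o) o o) o)) o) o)) (n 6327 o o (n 6326 (n 6323 (n 6316 (n 6267 o o (n 6209 (n 6081 (n 5898 (n 4171 o o o) o o) o o) o o)) o o) o o) o o)))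
/-- part of the table -/
def t34 : Tr := (n 6079 (n 5933 (n 5864 o o (n 5789 (n 5585 (n 5241 o o (n 4919 (n 4196 o o o) o o)) o (n 5464 (n 5303 o (n 4137 o o o) o) (n 4854 o o (n 4196 o o o)) o)) o (n 5769 o (n 5704 (n 4943 o o (n 4196 o o o)) o o) o))) o (n 5792 (n 5502 (n 4624 (n 4241 o o (n 3887 (n 1569 o o o) o o)) o (n 3900 o (n 2814 o o (n 1105 o o o)) o)) (n 5349 o o (n 5080 o o (n 4764 (n 4143 o o o) o o))) (n 5366 o (n 4084 o o o) o)) (n 5751 o o (n 5703 (n 5339 o o (n 4934 (n 4179 o o o) o o)) o o)) (n 5751 o (n 5658 (n 4121 o o o) o o) o))) (n 6068 o o (n 6050 o o (n 6029 (n 5980 (n 5867 (n 5021 o o (n 4213 o o o)) o o) o o) o o))) (n 5939 (n 5715 (n 3984 (n 2704 (n 2244 o o (n 1606 o o (n 1047 o o o))) o (n 1047 o o o)) o o) (n 5326 (n 5185 o o (n 4965 o o (n 4731 (n 4110 o o o) o o))) o (n 4676 (n 4278 o o (n 3879 (n 1569 o o o) o o)) o (n 4055 o o o)))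 o) (n 5753 (n 5702 o o (n 5647 (n 5284 o o (n 4883 (n 4169 o o o) o o)) o o)) o (n 5530 (n 4710 (n 4304 o o (n 3883 (n 1569 o o o) o o)) o (n 4089 o o o)) o (n 5390 o (n 4087 o o o) o))) o))
/-- part of the table -/
def t35 : Tr := (n 6326 (n 6255 t34 (n 6232 o o (n 6194 (n 6169 o o (n 6141 (n 6080 (n 5955 (n 5086 o o (n 4241 o o o)) o o) o o) o o)) o (n 6152 (n 6057 (n 5878 (n 4182 o o o) o o) o o) o o))) (n 6225 o (n 5990 (n 5772 (n 5718 o o (n 5660 (n 5297 o o (n 4895 (n 4181 o o o) o o)) o o)) o (n 5543 (n 4717 (n 4311 o o (n 3890 (n 1569 o o o) o o)) o (n 4096 o o o)) o (n 5401 o (n 4094 o o o) o))) o (n 5766 (n 4022 (n 2758 o o (n 1047 o o o)) o o) (n 5406 o o (n 4796 o o (n 4175 o o o))) o)) o)) (n 6308 (n 6305 o o (n 6301 (n 6280 o o (n 6257 (n 6206 (n 6094 (n 5911 (n 4192 o o o) o o) o o) o o) o o)) o o)) o (n 6283 (n 6235 (n 6209 o o (n 6179 (n 6111 (n 5982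 (n 5106 o o (n 4251 o o o)) o o) o o) o o)) o (n 6192 (n 6088 (n 5906 (n 4192 o o o) o o) o o) o o)) o (n 6267 (n 6252 o (n 6092 o o (n 5910 (n 4192 o o o) o o)) o) (n 6188 o o (n 6092 (n 5910 (n 4192 o o o) o o) o o)) o))) (n 6317 o (n 6083 (n 5827 (n 5721 o o (n 5620 (n 4830 o o (n 4150 o o o)) o o)) o (n 5618 (n 3992 (n 2721 o o (n 1010 o o o)) o o) (n 5273 o o (n 4690 o o (n 4123 o o o))) o)) o o) o))
/-- part of the table -/
def t36 : Tr := (n 5943 (n 5740 (n 5625 o (n 5497 (n 5233 (n 4569 (n 3517 o (n 2505 o o o) o) (n 4151 (n 3625 o o o) o (n 2259 o o o)) o) (n 5162 o o (n 4967 (n 2599 o o o) o o)) o) (n 5476 o o (n 5381 (n 5088 (n 2632 o o o) o o) o o)) o) o) (n 5556 (n 5181 (n 4337 (n 2015 (n 1119 o (n 4 o o o) o) o o) (n 3918 o o o) (n 3880 o (n 3056 o (n 2066 o o o) o) o)) (n 5051 o o (n 4726 o o o)) (n 5069 o (n 4922 (n 3809 o (n 2551 o o o) o) o o) o)) (n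 5518 o o (n 5435 (n 4924 o o o) o o)) (n 5501 o (n 5432 (n 5271 (n 4127 o (n 2744 o o o) o) o o) o o) o)) o) (n 5805 (n 5607 (n 5008 o o (n 3983 o (n 2126 o o o) o)) o (n 5121 (n 4975 o (n 4807 (n 3696 o (n 2451 o o o) o) o o) o) (n 4478 (n 2127 o o o) (n 4045 o o o) o) o)) o (n 5558 (n 5491 o (n 5411 (n 5234 (n 4092 o (n 2719 o o o) o) o o) o o) o) (n 5275 (n 4488 (n 2127 o o o) (n 4054 o o o) o) (n 5144 o o (n 4817 o o o)) o) o)) (n 5929 o (n 5904 o (n 5876 (n 5813 (n 5653 (n 5316 (n 2738 o o o) o o) o o) o o) o o) o) o))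
/-- part of the table -/
def t37 : Tr := (n 6212 (n 6183 (n 6179 o (n 6176 (n 6154 o (n 6131 (n 6082 (n 5976 (n 5811 (n 5213 o o o) o o) o o) o o) o o) o) o o) o) (n 6150 (n 6073 (n 6027 o (n 5980 (n 5868 (n 5631 (n 4736 (n 2292 o o o) (n 4078 o o o) o) o o) o o) o o) o) (n 6010 (n 5886 (n 5700 (n 5106 o o o) o (n 5454 o (n 5111 (n 2572 o o o) o o) o)) o (n 5777 o (n 5626 (n 5277 (n 2695 o o o) o o) o o) o)) o (n 5956 o (n 5889 (n 5725 (n 5376 (n 2770 o o o) o o) o o) o o) o)) o) (n 6133 (n 6115 o o (n 5946 (n 5804 o (n 5628 (n 5279 (n 2697 o o o) o o) o o) o) (n 5781 (n 5184 o o o) o o) o)) o (n 6049 (n 5981 o (n 5904 (n 5722 (n 5373 (n 2767 o o o) o o) o o) o o) o) (n 5955 (n 5790 (n 5193 o o o) o o) o o) o)) o) o) (n 6141 t36 (n 6110 o o (n 5876 (n 5581 (n 5510 o (n 5424 (n 5246 (n 4103 o (n 2728 o o o) o) o o) o o) o) (n 5289 (n 4501 (n 2128 o o o) (n 4064 o o o)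 o) (n 5158 o o (n 4831 o o o)) o) o) (n 5681 (n 5047 o o (n 3998 o (n 2127 o o o) o)) o (n 5414 o (n 5093 (n 2565 o o o) o o) o)) o)) (n 6115 o (n 6075 (n 6041 o (n 6005 (n 5925 (n 5745 (n 5399 (n 2791 o o o) o o) o o) o o) o o) o) (n 6033 (n 5941 (n 5779 (n 5187 o o o) o o) o o) o o) o) o)) o)
/-- part of the table -/
def t38 : Tr := (n 5430 (n 5135 (n 5021 o (n 4898 (n 4484 (n 4024 o (n 3593 (n 2427 o o o) o o) o) (n 4181 (n 3778 (n 3428 o o o) o (n 2135 o o o)) o (n 3368 o (n 2314 o o o) o)) o) (n 4871 o o (n 4783 (n 3766 o (n 2537 o o o) o) o o)) o) o) (n 4840 (n 4175 (n 3118 (n 2449 o (n 1678 (n 169 o o o) (n 1288 o o o) o) o) (n 2187 o o o) o) (n 3844 (n 3503 o o o) o (n 2081 o o o)) (n 3970 o (n 3609 o (n 3188 (n 2226 o o o) o o) o) o)) (n 4722 (n 4629 o o (n 4396 o o o)) o (n 4214 (n 2089 o o o) (n 3823 o o o) o)) (n 4784 o (n 4716 (n 4228 o (n 3686 (n 2473 o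 o o) o o) o) o o) o)) o) (n 5112 (n 4325 (n 2013 (n 1119 o (n 4 o o o) o) o o) (n 3909 o o o) (n 3865 o (n 3053 o (n 2064 o o o) o) o)) (n 4989 o o (n 4680 o o o)) (n 4755 (n 4685 o (n 4607 (n 4121 o (n 3585 (n 2414 o o o) o o) o) o o) o) (n 4259 (n 3230 o (n 2234 o o o) o) (n 3921 (n 3584 o o o) o (n 2093 o o o)) o) o)) (n 5416 o (n 5391 o (n 5363 (n 5297 (n 5145 (n 4019 o (n 2668 o o o) o) o o) o o) o o) o) o))
/-- part of the table -/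
def t39 : Tr := (n 6183 (n 5821 t38 (n 5607 (n 4990 o o (n 3893 (n 3468 o (n 2799 o (n 2064 o o o) o) o) (n 2013 (n 1118 o (n 4 o o o) o) o o) o)) o (n 5031 (n 4658 (n 4586 o (n 4507 (n 4020 o (n 3485 (n 2320 o o o) o o) o) o o) o) (n 4211 (n 3181 o (n 2191 o o o) o) (n 3924 (n 3587 o o o) o (n 2093 o o o)) o) o) (n 4353 (n 2014 (n 1119 o (n 4 o o o) o) o o) (n 3932 o o o) (n 3872 o (n 3055 o (n 2065 o o o) o) o)) o)) (n 5764 o (n 5665 (n 5632 o (n 5596 (n 5513 (n 5345 (n 4196 o (n 2777 o o o) o) o o) o o) o o) o) (n 5557 (n 5246 (n 4472 (n 2120 o o o) (n 4039 o o o) o) (n 5117 o o (n 4794 o o o)) o) o o) o) o)) o (n 6089 (n 6066 o (n 6033 (n 6000 o (n 5964 (n 5886 (n 5710 (n 5365 (n 2764 o o o) o o) o o) o o) o o) o) (n 6004 (n 5912 (n 5773 (n 5180 o o o) o o) o o) o o) o) o) (n 5962 (n 5805 o (n 5643 (n 5315 (n 4513 (n 2127 o o o) (n 4074 o o o) o) (n 5184 o o (n 4857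 o o o)) o) (n 5607 o o (n 5539 (n 5019 o o o) o o)) o) o) (n 5852 (n 5697 (n 5107 o o o) o (n 5440 o (n 5102 (n 2567 o o o) o o) o)) o (n 5729 o (n 5579 (n 5234 (n 2666 o o o) o o) o o) o)) o) o))
/-- part of the table -/
def t40 : Tr := (n 5720 (n 5455 (n 5326 (n 5302 o o (n 5277 (n 5127 o o (n 4962 (n 4609 (n 4006 o o o) o o) o o)) o o)) o (n 5181 (n 4834 (n 4655 o o (n 4440 (n 4018 (n 1614 o o o) o o) o o)) o (n 4535 (n 3964 o o o) o o)) o (n 5099 (n 4996 o (n 3958 o o o) o) (n 4540 o o (n 3993 o o o)) o))) o (n 5212 (n 4358 (n 3709 (n 3532 o o (n 3343 (n 2286 o o (n 1265 o o o)) o o)) o (n 3109 (n 993 o o o) o (n 2719 o o o))) o (n 3763 o (n 2683 o o (n 992 o o o)) o)) (n 5059 o o (n 4806 o o (n 4507 (n 3967 o o o) o o))) (n 5061 o (n 3860 (n 2658 o o (n 958 o o o)) o o) o))) (n 5690 o o (n 5638 o o (n 5577 (n 5358 (n 4626 o o (n 4071 o o o)) o (n 5223 o (n 4037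 o o o) o)) o o))) (n 5500 (n 3858 (n 2532 (n 2073 o o (n 1435 o o (n 872 o o o))) o (n 830 (n 297 o o (n 4 o o o)) o o)) (n 3669 o o (n 3360 o o (n 3019 (n 877 o o o) o o))) o) (n 5054 (n 4892 o o (n 4657 (n 4483 o o (n 4289 (n 3909 (n 1534 o o o) o o) o o)) o (n 4435 (n 3895 o o o) o o))) o (n 4372 (n 3748 o o (n 3148 (n 991 o o o) o (n 2751 o o o))) o (n 3777 o (n 2695 o o (n 990 o o o)) o))) o))
/-- part of the table -/
def t41 : Tr := (n 6280 (n 6262 (n 6258 o o (n 6255 (n 6234 o o (n 6210 (n 6161 (n 6052 (n 5870 (n 4152 o o o) o o) o o) o o) o o)) o o)) o (n 6239 (n 6190 (n 6165 o o (n 6135 (n 6067 (n 5937 (n 5061 o o (n 4208 o o o)) o o) o o) o o)) o (n 6148 (n 6047 (n 5864 (n 4152 o o o) o o) o o) o o)) o (n 6225 (n 6211 o (n 6050 o o (n 5868 (n 4152 o o o) o o)) o) (n 6147 o o (n 6050 (n 5868 (n 4152 o o o) o o) o o)) o))) (n 6264 (n 6254 o (n 6246 (n 6207 (n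 5991 o (n 5840 (n 5226 o o o) o o) o) o o) o o) o) o o) (n 6229 (n 6072 (n 5942 (n 5917 o o (n 5886 (n 5824 (n 5448 o o (n 4999 (n 4171 o o o) o o)) o o) o o)) o (n 5807 (n 5525 (n 4692 (n 4282 o o (n 3848 (n 1522 o o o) o o)) o (n 4071 o o o)) o (n 5381 o (n 4071 o o o) o)) o (n 5765 o (n 5670 (n 4101 o o o) o o) o))) o (n 5946 (n 5721 (n 3987 (n 2717 o o (n 1002 o o o)) o o) (n 5372 o o (n 4758 o o (n 4138 o o o))) o) (n 5854 o o (n 5746 (n 4915 o o (n 4167 o o o)) o o)) o)) (n 6208 o o (n 6172 o o (n 6130 (n 6035 (n 5854 (n 4146 o o o) o o) o o) o o))) (n 6205 o (n 5991 (n 5876 o o (n 5753 (n 4919 o o (n 4169 o o o)) o o)) o (n 5780 (n 3988 (n 2717 o o (n 1002 o o o)) o o) o o)) o)))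
/-- part of the table -/
def t42 : Tr := (n 6407 (n 6355 (n 6333 (n 6328 o o (n 6322 (n 6303 (n 6283 o o (n 6264 (n 6214 (n 6099 (n 5916 (n 4191 o o o) o o) o o) o o) o o)) o (n 6289 (n 6270 (n 6253 o (n 6099 o o (n 5916 (n 4191 o o o) o o)) o) (n 6199 o o (n 6099 (n 5916 (n 4191 o o o) o o) o o)) o) (n 6254 o o (n 6208 (n 6099 (n 5916 (n 4191 o o o) o o) o o) o o)) o)) o (n 6321 o (n 6317 (n 6273 o o (n 6220 (n 6099 (n 5916 (n 4191 o o o) o o) o o) o o)) o o) o))) (n 6327 (n 6324 o (n 6320 (n 6311 (n 6294 (n 6175 o (n 6035 (n 5846 (n 5233 o o o) o o) o o) o) o o) o o) o o) o) (n 6322 (n 6307 (n 6235 (n 5983 (n 5817 o (n 5630 (n 5269 (n 2674 o o o) o o) o o) o) (n 5810 (n 5197 o o o) o o) o) o o) o o) o o) o) t32) t33 t35) (n 6283 t37 t39 (n 6254 (n 6253 o o (n 6251 (n 6247 (n 6240 (n 6190 o o (n 6128 (n 5995 (n 5810 (n 4081 o o o) o o) o o) o o)) o o) o o) o o)) (n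 6233 o (n 6215 (n 6180 (n 6085 o (n 5997 (n 5851 (n 5245 o o o) o o) o o) o) (n 6163 o o (n 5997 o (n 5851 (n 5245 o o o) o o) o)) o) o o) o) (n 6248 (n 6230 (n 6189 (n 6079 (n 6022 o o (n 5953 (n 5820 (n 4955 o o (n 4135 o o o)) o o) o o)) o (n 5981 (n 5797 (n 4081 o o o) o o) o o)) o (n 6170 o (n 5989 o o (n 5804 (n 4081 o o o) o o)) o)) o (n 6224 o (n 6004 (n 5809 o o (n 5644 (n 4047 o o o) o o)) o o) o)) o o))) (n 6345 (n 6035 t40 (n 5839 (n 5823 o o (n 5798 o o (n 5771 (n 5612 (n 5476 (n 4047 o o o) o o) o o) o o))) o (n 5649 (n 5553 o o (n 5454 (n 5248 (n 4553 o o (n 4051 o o o)) o (n 5120 o (n 4033 o o o) o)) o (n 5417 o (n 5349 (n 4033 o o o) o o) o))) o (n 5488 (n 5323 (n 3888 (n 2620 o o (n 906 o o o)) o o) (n 5018 o o (n 4481 o o (n 3996 o o o))) o) (n 5367 o o (n 5244 (n 4536 o o (n 3995 o o o)) o o)) o))) o) t41 o))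
/-- part of the table -/
def t43 : Tr := (n 2745 (n 2714 (n 2707 o (n 2696 o (n 2684 (n 2652 (n 2571 (n 2350 (n 1733 o o o) o o) o o) o o) o o) o) o) (n 2674 (n 2611 o (n 2545 (n 2368 (n 2033 (n 1395 (n 18 o o o) (n 985 o o o) o) (n 1895 o o (n 1546 o o o)) o) (n 2301 o o (n 2180 (n 1644 o o o) o o)) o) o o) o) (n 2642 (n 2563 (n 2343 (n 1730 o o o) o o) o o) o o) o) o) (n 2605 (n 2431 (n 2359 o (n 2284 (n 2021 (n 1625 (n 860 o (n 290 o o o) o) (n 1437 (n 957 o o o) o o) o) (n 1878 (n 1717 o o (n 1368 o o o)) o (n 1763 (n 412 o o o) o o)) o) o o) o) (n 2278 (n 1945 (n 1302 (n 5 o o o) (n 930 o o o) (n 989 o (n 435 o (n 5 o o o) o) o)) (n 1828 o o (n 1483 o o o)) (n 1866 o (n 1763 (n 1010 o (n 465 o o o) o) o o) o)) (n 2237 o o (n 2118 (n 1591 o o o) o o)) (n 2238 o (n 2188 (n 2077 (n 1296 o (n 690 o o o) o) o o) o o) o)) o) (n 2492 (n 2251 (n 1644 o o (n 972 o (n 4 o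 o o) o)) o (n 1871 o (n 1371 (n 4 o o o) (n 980 o o o) o) o)) o (n 2261 (n 2212 o (n 2153 (n 2031 (n 1253 o (n 651 o o o) o) o o) o o) o) (n 1993 (n 1367 (n 5 o o o) (n 977 o o o) o) (n 1876 o o (n 1528 o o o)) o) o)) o) o)
/-- part of the table -/
def t44 : Tr := (n 2191 (n 1958 (n 1883 o (n 1803 (n 1554 (n 1237 o (n 963 (n 349 o o o) o o) o) (n 1370 (n 1223 (n 817 o o o) o o) o (n 788 o (n 231 o o o) o)) o) (n 1784 o o (n 1722 (n 1029 o (n 472 o o o) o) o o)) o) o) (n 1724 (n 1245 (n 583 o (n 148 o o o) o) (n 1002 (n 696 o o o) o (n 27 o o o)) (n 1102 o (n 853 o (n 585 (n 148 o o o) o o) o) o)) (n 1613 (n 1533 o o (n 1296 o o o)) o (n 1212 (n 5 o o o) (n 865 o o o) o)) (n 1685 o (n 1637 (n 1300 o (n 948 (n 394 o o o) o o) o) o o) o)) o) (n 1901 (n 1296 (n 5 o o o) (n 926 o o o) (n 981 o (n 435 o (n 5 o o o) o) o)) (n 1790 o o (n 1463 o o o)) (n 1621 (n 1571 o (n 1516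 (n 1180 o (n 832 (n 316 o o o) o o) o) o o) o) (n 1246 (n 555 o (n 120 o o o) o) (n 997 (n 712 o o o) o (n 5 o o o)) o) o)) (n 2181 o (n 2164 o (n 2143 (n 2097 (n 1990 (n 1223 o (n 628 o o o) o) o o) o o) o o) o) o))
/-- part of the table -/
def t45 : Tr := (n 1816 (n 1488 (n 1326 (n 1302 o (n 1277 (n 1128 o (n 971 (n 656 (n 184 o o o) o o) o o) o) o o) o) (n 1134 (n 815 (n 701 o (n 570 o (n 440 o o (n 129 o o o)) o) o) (n 569 (n 129 o o o) o o) o) (n 1007 (n 838 (n 598 o o o) o (n 4 o o o)) o (n 499 o (n 80 o o o) o)) o) o) (n 1151 (n 428 (n 216 o (n 31 o (n 30 o o o) o) o) (n 5 o (n 4 o o (n 4 o o o)) o) o) (n 957 (n 684 o o o) o (n 4 o o o)) (n 1001 o (n 754 o (n 488 (n 76 o o o) o o) o) o)) (n 1479 o (n 1461 o (n 1441 (n 1396 (n 1063 o (n 719 (n 224 o o o) o o) o) o o) o o) o) o)) (n 1306 (n 4 o o o) (n 933 o o o) (n 952 (n 816 o (n 614 o (n 415 (n 5 o o o) o o)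 o) o) (n 402 (n 190 o (n 5 o (n 5 o o o) o) o) (n 5 o o o) o) o)) (n 1711 o (n 1605 (n 1582 o (n 1556 (n 1501 (n 1157 o (n 773 (n 217 o o o) o o) o) o o) o o) o) (n 1508 (n 1168 (n 482 o (n 55 o o o) o) (n 991 (n 708 o o o) o (n 4 o o o)) o) o o) o) o))
/-- part of the table -/
def t46 : Tr := (n 3021 (n 3012 o (n 2999 (n 2990 o (n 2980 (n 2961 (n 2830 o (n 2679 (n 2474 (n 1813 o o o) o o) o o) o) o o) o o) o) (n 2986 (n 2916 (n 2662 o (n 2474 (n 1813 o o o) o o) o) o o) o o) o) o) (n 2927 (n 2890 (n 2882 o (n 2873 (n 2820 o (n 2762 (n 2638 (n 2456 (n 1800 o o o) o o) o o) o o) o) o o) o) (n 2852 (n 2732 (n 2686 o (n 2632 (n 2520 (n 2339 (n 757 o o o) o o) o o) o o) o) (n 2628 (n 2445 (n 1790 o o o) o o) o o) o) (n 2831 o o (n 2635 o (n 2452 (n 1797 o o o) o o) o)) o) o) (n 2849 (n 2542 (n 2274 (n 2220 o (n 2155 (n 2026 (n 1239 o (n 623 o o o) o) o o) o o) o) (n 2040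 (n 1387 (n 5 o o o) (n 991 o o o) o) (n 1920 o o (n 1566 o o o)) o) o) (n 2346 (n 1738 o o o) o (n 1917 o (n 1394 (n 4 o o o) (n 996 o o o) o) o)) o) o (n 2784 o (n 2693 o (n 2593 (n 2442 (n 1793 o o o) o o) o o) o) o)) o) o)
/-- part of the table -/
def t47 : Tr := (n 3128 (n 2858 t43 (n 2533 t44 (n 2261 (n 1638 o o (n 953 (n 697 o (n 303 o (n 4 o o o) o) o) (n 4 o o o) o)) o (n 1820 (n 1536 (n 1484 o (n 1428 (n 1092 o (n 744 (n 235 o o o) o o) o) o o) o) (n 1209 (n 518 o (n 88 o o o) o) (n 999 (n 714 o o o) o (n 4 o o o)) o) o) (n 1316 (n 4 o o o) (n 940 o o o) (n 984 o (n 435 o (n 5 o o o) o) o)) o)) (n 2478 o (n 2389 (n 2365 o (n 2339 (n 2281 (n 2162 (n 1375 o (n 748 o o o) o) o o) o o) o o) o) (n 2292 (n 1982 (n 1361 (n 5 o o o) (n 972 o o o) o) (n 1865 o o (n 1520 o o o)) o) o o) o) o)) (n 2826 o (n 2801 (n 2794 o (n 2788 (n 2744 o (n 2697 (n 2629 (n 2396 (n 1762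 o o o) o o) o o) o o) o) o o) o) (n 2781 (n 2693 o (n 2629 (n 2396 (n 1762 o o o) o o) o o) o) o o) o) o)) (n 2382 t45 (n 1697 o o (n 962 (n 689 (n 590 o (n 445 o (n 303 (n 4 o o o) o o) o) o) (n 303 o (n 4 o o o) o) o) (n 4 o o o) o)) (n 2262 (n 2222 o (n 2164 (n 2120 o (n 2072 (n 1971 (n 1580 (n 798 o (n 183 o o o) o) (n 1402 (n 1001 o o o) o o) o) o o) o o) o) (n 2109 (n 1961 (n 1355 (n 4 o o o) (n 968 o o o) o) o o) o o) o) o) (n 2079 (n 1898 (n 1874 o (n 1845 (n 1786 (n 1440 o (n 1048 (n 440 o o o) o o) o) o o) o o) o) (n 1719 (n 1244 (n 549 o (n 120 o o o) o) (n 1001 (n 715 o o o) o (n 4 o o o)) o) (n 1635 o o (n 1236 (n 4 o o o) (n 883 o o o) o)) o) o) (n 1910 (n 1304 (n 4 o o o) (n 932 o o o) (n 984 o (n 434 o (n 5 o o o) o) o)) o (n 1697 o (n 1398 (n 654 o (n 119 o o o) o) (n 1283 (n 917 o o o) o o) o) o)) o) o)) t46)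
/-- part of the table -/
def t48 : Tr := (n 1697 (n 1632 (n 1613 o (n 1588 (n 1564 o (n 1538 (n 1482 (n 1371 (n 598 o (n 4 o o o) o) o o) o o) o o) o) (n 1564 (n 1503 (n 1348 (n 4 o o o) o o) o o) o o) o) o) (n 1544 (n 1443 (n 1420 o (n 1391 (n 1333 (n 987 o (n 597 (n 4 o o o) o o) o) o o) o o) o) (n 1349 (n 1127 (n 433 o (n 4 o o o) o) (n 999 o o (n 4 o o o)) o) (n 1311 o o (n 1232 (n 4 o o o) o o)) o) o) (n 1470 (n 1302 (n 4 o o o) o (n 982 o (n 433 o (n 4 o o o) o) o)) o (n 1382 o (n 1281 (n 537 o (n 4 o o o) o) o o) o)) o) o) (n 1487 (n 1272 (n 1153 (n 1129 o (n 1104 (n 955 o (n 798 (n 477 (n 4 o o o) o o) o o) o) o o) o) (n 1023 (n 712 o (n 445 (n 4 o o o) o o) o) (n 944 (n 848 o o (n 4 o o o)) o (n 423 o (n 4 o o o) o)) o) o) (n 1080 (n 401 (n 189 o (n 5 o (n 4 o o o) o) o) (n 4 o o o) o) (n 958 o o (n 4 o o o)) (n 929 o (n 682 o (n 414 (n 4 o o o) o o) o) o))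 o) (n 1311 (n 4 o o o) o (n 970 (n 833 o (n 630 o (n 432 (n 4 o o o) o o) o) o) (n 432 o (n 4 o o o) o) o)) (n 1464 o (n 1424 o (n 1377 (n 1277 (n 537 o (n 4 o o o) o) o o) o o) o) o)) (n 1675 o (n 1658 o (n 1644 (n 1579 o (n 1532 (n 1375 (n 4 o o o) o o) o o) o) o o) o) o))
/-- part of the table -/
def t49 : Tr := (n 3390 (n 3381 o (n 3367 (n 3356 o (n 3344 (n 3319 (n 3267 (n 2900 o (n 2469 (n 1886 o o o) o o) o) o o) o o) o o) o) (n 3354 (n 3319 (n 3128 (n 2419 o (n 1886 o o o) o) o o) o o) o o) o) o) (n 3334 (n 3278 (n 3260 o (n 3240 (n 3173 (n 3010 o (n 2818 (n 2458 (n 1877 o o o) o o) o o) o) (n 3142 (n 3059 o o (n 2458 o (n 1877 o o o) o)) o o) o) o o) o) (n 3225 (n 3093 (n 2744 (n 2639 o (n 2513 (n 2312 (n 670 o o o) o o) o o) o) (n 2432 (n 1851 o o o) o o) o) (n 3032 o o (n 2447 o (n 1866 o o o) o)) o) (n 3206 o o (n 3062 (n 2404 o (n 1874 o o o) o) o o)) o)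 o) (n 3283 (n 3059 (n 2296 (n 1838 o (n 1421 (n 4 o o o) (n 1015 o o o) o) o) (n 1755 o o (n 1007 o (n 4 o o o) o)) o) o (n 2866 o (n 2597 o (n 2304 (n 1857 o o o) o o) o) o)) o (n 3203 o (n 3100 (n 2764 o (n 2452 (n 1874 o o o) o o) o) (n 3038 o o (n 2452 o (n 1874 o o o) o)) o) o)) o) o)
/-- part of the table -/
def t50 : Tr := (n 3178 (n 3044 (n 2985 (n 2974 o (n 2963 (n 2897 o (n 2826 (n 2675 (n 2349 (n 1841 o o o) o o) o o) o o) o) o o) o) (n 2916 (n 2770 (n 2724 o (n 2670 (n 2548 (n 2354 (n 675 o o o) o o) o o) o o) o) (n 2642 (n 2338 (n 1829 o o o) o o) o o) o) (n 2875 (n 2830 o o (n 2345 o (n 1837 o o o) o)) o (n 2634 o (n 2345 (n 1837 o o o) o o) o)) o) o) (n 2910 (n 2519 (n 2232 (n 2177 o (n 2109 (n 1975 (n 1186 o (n 574 o o o) o) o o) o o) o) (n 1944 (n 1400 (n 4 o o o) (n 1000 o o o) o) (n 1829 o o (n 1572 o o o)) o) o) (n 2203 (n 1704 o o (n 998 o (n 4 o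 o o) o)) o (n 1824 o (n 1408 (n 4 o o o) (n 1006 o o o) o) o)) o) (n 2845 o o (n 2290 (n 1848 o (n 1412 (n 4 o o o) (n 1009 o o o) o) o) (n 1800 o o o) o)) (n 2843 o (n 2733 o (n 2605 (n 2321 (n 1822 o o o) o o) o o) o) o)) o) (n 2978 (n 2215 (n 1733 (n 1464 (n 1410 o (n 1352 (n 1016 o (n 666 (n 156 o o o) o o) o) o o) o) (n 1184 (n 488 o (n 57 o o o) o) (n 1003 (n 717 o o o) o (n 4 o o o)) o) o) (n 1332 (n 4 o o o) (n 952 o o o) (n 989 o (n 435 o (n 4 o o o) o) o)) o) (n 1713 o o (n 972 (n 701 o (n 304 o (n 4 o o o) o) o) (n 4 o o o) o)) (n 2146 o (n 2025 o (n 1895 (n 1393 (n 4 o o o) (n 996 o o o) o) o o) o) o)) o (n 2768 (n 2711 o (n 2626 o (n 2537 (n 2255 (n 1828 o o o) o o) o o) o) o) (n 2486 (n 2217 o (n 1921 (n 1410 (n 4 o o o) (n 1007 o o o) o) (n 1810 o o (n 1602 o o o)) o) o) (n 2222 (n 1814 o o o) o o) o) o)) (n 3105 o (n 3041 o (n 2985 (n 2878 (n 2586 o (n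 2315 (n 1864 o o o) o o) o) (n 2824 o o (n 2315 o (n 1864 o o o) o)) o) o o) o) o))
/-- part of the table -/
def t51 : Tr := (n 3737 t47 (n 1842 (n 969 (n 662 (n 548 (n 511 o (n 459 o (n 406 (n 275 (n 4 o o o) o o) o o) o) o) (n 396 (n 288 o (n 188 (n 4 o (n 4 o o o) o) (n 128 o o (n 4 o o o)) o) o) (n 269 (n 4 o o o) o o) o) o) (n 270 (n 123 (n 71 o (n 4 o (n 4 (n 4 o o o) o o) o) o) (n 4 o (n 4 o o o) o) o) (n 4 o o o) (n 250 o (n 216 o (n 186 (n 4 o (n 4 o o o) o) o o) o) o)) (n 610 o (n 569 o (n 535 (n 383 o (n 282 (n 4 o o o) o o) o) o o) o) o)) (n 4 o o o) (n 743 (n 732 o (n 713 o (n 693 (n 550 (n 203 o (n 4 o o o) o) o o) o o) o) o) (n 595 (n 548 o (n 494 (n 336 o (n 203 (n 4 o o o) o o) o) (n 465 o o (n 203 o (n 4 o o o) o)) o) o) (n 494 (n 182 o (n 4 o o o) o) o o) o) o)) o t48) (n 3430 t49 t50 (n 3317 (n 3224 (n 3214 o o (n 3207 (n 3119 (n 2925 o o (n 2783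 (n 1431 o o o) o o)) o o) o o)) o o) (n 3246 o (n 3196 (n 3164 o (n 3141 (n 3019 (n 2355 o (n 1890 o o o) o) o o) o o) o) o o) o) o)))
/-- part of the table -/
def t52 : Tr := (n 4569 (n 4471 (n 4419 o (n 4362 (n 4243 (n 3936 (n 3477 o (n 3045 (n 1857 o o o) o o) o) (n 3733 (n 3480 o o (n 1857 o o o)) o (n 2918 o (n 1857 o o o) o)) o) (n 4213 o o (n 4126 (n 3106 o (n 1857 o o o) o) o o)) o) (n 4353 o o (n 4313 (n 4182 (n 3124 o (n 1857 o o o) o) o o) o o)) o) o) (n 4384 (n 4192 (n 3785 (n 2776 (n 2378 o (n 1859 o (n 1286 o o o) o) o) (n 1857 o o o) o) (n 3604 o o (n 1857 o o o)) (n 3585 o (n 3226 o (n 2805 (n 1857 o o o) o o) o) o)) (n 4134 o o (n 3914 (n 1811 o o o) o o)) (n 4143 o (n 4078 (n 3593 o (n 3053 (n 1857 o o o) o o) o) o o) o)) (n 4365 o o (n 4309 (n 4001 (n 1811 o o o) o o) o o)) (n 4360 o (n 4328 (n 4258 (n 3759 o (n 3166 (n 1857 o o o) o o) o) o o) o o)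 o)) o) (n 4513 (n 4382 (n 3991 (n 1724 (n 895 o (n 4 o o o) o) o o) o (n 3512 o (n 2682 o (n 1683 o o o) o) o)) o (n 4161 o (n 3850 (n 2826 o (n 1847 o o o) o) (n 3662 o o (n 1847 o o o)) o) o)) o (n 4429 (n 4399 o (n 4362 (n 4285 (n 3787 o (n 3197 (n 1854 o o o) o o) o) o o) o o) o) (n 4336 (n 3937 (n 2899 o (n 1854 o o o) o) (n 3667 o o (n 1854 o o o)) o) o o) o)) o)
/-- part of the table -/
def t53 : Tr := (n 4310 (n 4167 (n 4116 o (n 4060 (n 3871 (n 3669 o (n 3483 (n 2982 (n 1836 o o o) o o) o o) o) (n 3731 (n 3537 (n 3371 o o (n 1836 o o o)) o (n 2830 o (n 1836 o o o) o)) o (n 3377 o (n 2925 (n 1836 o o o) o o) o)) o) (n 4048 o o (n 4009 (n 3566 o (n 3038 (n 1836 o o o) o o) o) o o)) o) o) (n 4022 (n 3713 (n 3249 (n 2940 o (n 2588 (n 1929 o (n 1271 o o o) o) (n 2450 o o (n 1836 o o o)) o) o) (n 2852 (n 1836 o o o) o o) o) (n 3554 (n 3401 o o (n 1836 o o o)) o (n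 2796 o (n 1836 o o o) o)) (n 3623 o (n 3465 o (n 3284 (n 2872 (n 1836 o o o) o o) o o) o) o)) (n 3962 (n 3920 o o (n 3749 (n 1790 o o o) o o)) o (n 3712 (n 2796 o (n 1836 o o o) o) (n 3543 o o (n 1836 o o o)) o)) (n 3998 o (n 3968 (n 3754 o (n 3519 (n 2997 (n 1836 o o o) o o) o o) o) o o) o)) o) (n 4129 (n 3707 (n 2632 (n 2012 (n 1891 o (n 1763 (n 1027 o (n 524 o o o) o) o o) o) (n 1340 (n 5 o o o) (n 927 o o o) o) o) (n 1671 o o (n 933 o (n 4 o o o) o)) o) (n 3511 o o (n 1748 (n 939 o (n 4 o o o) o) o o)) (n 3506 o (n 3152 o (n 2731 (n 1785 o o o) o o) o) o)) (n 4073 o o (n 3862 (n 1778 o o o) o o)) (n 3964 (n 3933 o (n 3899 (n 3686 o (n 3454 (n 2950 (n 1823 o o o) o o) o o) o) o o) o) (n 3734 (n 3285 o (n 2859 (n 1823 o o o) o o) o) (n 3572 (n 3427 o o (n 1823 o o o)) o (n 2785 o (n 1823 o o o) o)) o) o)) (n 4304 o (n 4293 o (n 4281 (n 4252 (n 4184 (n 3693 o (n 3111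 (n 1836 o o o) o o) o) o o) o o) o o) o) o))
/-- part of the table -/
def t54 : Tr := (n 4520 t53 (n 4373 (n 3964 (n 1697 (n 868 (n 615 o (n 258 o (n 4 o o o) o) o) (n 4 o o o) o) o (n 1612 o (n 1457 o (n 1316 (n 4 o o o) o o) o) o)) o (n 3416 (n 3229 o (n 2937 o (n 2624 (n 1654 o o o) o o) o) o) (n 2537 (n 1942 o (n 1271 (n 5 o o o) (n 831 o o o) o) o) (n 1600 o o o) o) o)) o (n 4092 (n 3919 (n 3887 o (n 3853 (n 3639 o (n 3408 (n 2910 (n 1826 o o o) o o) o o) o) o o) o) (n 3712 (n 3263 o (n 2841 (n 1826 o o o) o o) o) (n 3576 (n 3431 o o (n 1826 o o o)) o (n 2788 o (n 1826 o o o) o)) o) o) (n 3749 (n 2702 (n 2078 o (n 1370 (n 5 o o o) (n 947 o o o) o) o) (n 1783 o o o) o) (n 3567 o o (n 1813 o o o)) (n 3538 o (n 3182 o (n 2760 (n 1813 o o o) o o) o) o)) o)) (n 4490 o (n 4440 (n 4426 o (n 4410 (n 4373 (n 4299 (n 3797 o (n 3185 (n 1848 o o o) o o) o) o o) o o) o o) o)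 (n 4386 (n 4218 (n 3842 (n 2825 o (n 1848 o o o) o) (n 3655 o o (n 1848 o o o)) o) (n 4159 o o (n 3940 (n 1802 o o o) o o)) o) o o) o) o))
/-- part of the table -/
def t55 : Tr := (n 3742 (n 3636 (n 3621 o (n 3605 (n 3512 o (n 3411 (n 3195 (n 2736 (n 1710 o o o) o o) o o) o o) o) o o) o) (n 3509 (n 3293 (n 3175 o (n 3049 (n 2610 (n 1926 o (n 1156 o o o) o) (n 2307 o o (n 1710 o o o)) o) o o) o) (n 3112 (n 2696 (n 1710 o o o) o o) o o) o) (n 3426 (n 3313 (n 3188 o o (n 1710 o o o)) o (n 2632 o (n 1710 o o o) o)) o (n 3083 o (n 2681 (n 1710 o o o) o o) o)) o) o) (n 3481 (n 2917 (n 2529 (n 2465 o (n 2397 (n 2033 o (n 1795 (n 1049 o o o) o o) o) o o) o) (n 2131 (n 1343 (n 24 o o o) (n 892 o o o) o) (n 2003 o o (n 1470 o o o)) o) o) (n 2454 (n 1581 o o (n 888 o (n 4 o o o) o)) (n 2454 o o (n 2454 o o (n 1611 o o o))) (n 1970 o (n 1320 (n 5 o o o) (n 892 o o o) o) o)) o) (n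 3339 (n 3190 o o (n 1654 (n 888 o (n 4 o o o) o) o o)) o (n 2551 (n 1989 o (n 1320 (n 5 o o o) (n 892 o o o) o) o) (n 1663 o o o) o)) (n 3386 o (n 3230 o (n 3048 (n 2645 (n 1687 o o o) o o) o o) o) o)) o)
/-- part of the table -/
def t56 : Tr := (n 3983 t55 (n 3607 (n 2515 (n 1893 (n 1560 o (n 1183 (n 515 o (n 130 o o o) o) (n 935 (n 631 o o o) o (n 5 o o o)) o) o) (n 1242 (n 5 o o o) (n 839 o o o) (n 916 o (n 389 o (n 5 o o o) o) o)) o) (n 1579 o o (n 859 (n 615 o (n 259 o (n 4 o o o) o) o) (n 4 o o o) o)) (n 2422 o (n 2258 o (n 2080 (n 1298 (n 5 o o o) (n 877 o o o) o) o o) o) o)) (n 3414 o o (n 1661 (n 864 (n 615 o (n 259 o (n 4 o o o) o) o) (n 4 o o o) o) o o)) (n 3353 (n 3268 o (n 3139 o (n 3004 (n 2600 (n 1684 o o o) o o) o o) o) o) (n 2963 (n 2569 o (n 2131 (n 1313 (n 5 o o o) (n 887 o o o) o) (n 2000 o o (n 1477 o o o)) o) o) (n 2572 (n 1672 o o o) o o) o) o))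 (n 3925 o (n 3861 (n 3847 o (n 3831 (n 3797 (n 3579 o (n 3324 (n 2790 (n 1731 o o o) o o) o o) o) o o) o o) o) (n 3801 (n 3578 (n 3132 o (n 2714 (n 1731 o o o) o o) o) (n 3464 (n 3320 o o (n 1731 o o o)) o (n 2681 o (n 1731 o o o) o)) o) o o) o) o))
/-- part of the table -/
def t57 : Tr := (n 4378 t56 (n 3953 (n 1647 (n 828 (n 581 (n 493 o (n 368 o (n 247 (n 4 o o o) o o) o) o) (n 247 o (n 4 o o o) o) o) (n 4 o o o) o) o (n 1550 (n 1516 o (n 1462 o (n 1404 (n 1271 (n 4 o o o) o o) o o) o) o) (n 1389 (n 1277 o (n 1163 (n 462 o (n 4 o o o) o) o o) o) (n 1256 (n 4 o o o) o o) o) o)) o (n 3349 (n 3121 (n 3050 o (n 2945 o (n 2835 (n 2522 (n 1584 o o o) o o) o o) o) o) (n 2802 (n 2586 o (n 2373 (n 1513 (n 209 o o o) (n 825 o o o) o) o o) o) (n 2490 (n 1571 o o o) o o) o) o) (n 2446 (n 1848 (n 1578 o (n 1248 (n 564 o (n 130 o o o) o) (n 1123 (n 725 o o o) o o) o) o) (n 1224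 (n 5 o o o) (n 790 o o o) o) o) (n 1489 o o (n 770 o (n 4 o o o) o)) o) o)) (n 4259 (n 4239 o (n 4209 o (n 4176 (n 4057 (n 3686 (n 2667 o (n 1696 o o o) o) (n 3499 o o (n 1696 o o o)) o) o o) o o) o) o) (n 4109 (n 4013 o (n 3912 (n 3617 (n 3162 o (n 2741 (n 1681 o o o) o o) o) (n 3439 (n 3293 o o (n 1681 o o o)) o (n 2647 o (n 1681 o o o) o)) o) (n 3886 o o (n 3808 (n 2822 o (n 1681 o o o) o) o o)) o) o) (n 3967 (n 3565 (n 2527 (n 1932 o (n 1257 (n 5 o o o) (n 811 o o o) o) o) (n 1610 o o o) o) (n 3384 o o (n 1637 o o o)) (n 3360 o (n 3002 o (n 2581 (n 1637 o o o) o o) o) o)) o (n 3897 o (n 3822 (n 3339 o (n 2809 (n 1620 o o o) o o) o) o o) o)) o) o))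
/-- part of the table -/
def t58 : Tr := (n 4729 (n 4710 (n 4701 o o (n 4693 (n 4658 (n 4571 o o (n 4487 (n 4343 (n 2925 o o o) o o) o o)) o (n 4638 o (n 4487 o o (n 4343 (n 2925 o o o) o o)) o)) o o)) (n 4705 o (n 4699 (n 4635 (n 4522 o (n 4435 (n 4090 (n 1731 o o o) o o) o o) o) o o) o o) o) (n 4699 (n 4613 (n 4362 (n 4258 o o (n 4164 (n 3436 o o (n 2883 o o o)) o o)) o (n 4182 (n 2764 (n 1549 o o (n 4 o o o)) o o) (n 3858 o o (n 3322 o o (n 2860 o o o))) o)) o o) (n 4688 o o (n 4675 (n 4585 o o (n 4483 (n 4340 (n 2923 o o o) o o) o o)) o o)) o)) (n 4658 (n 4643 o (n 4627 (n 4577 o (n 4530 (n 4444 (n 4100 (n 1745 o o o) o o) o o) o o) o) (n 4618 o o (n 4530 o (n 4444 (n 4100 (n 1745 o o o) o o) o o) o)) o) o) (n 4599 (n 4461 (n 4351 o (n 4250 (n 3824 (n 2771 o (n 1745 o o o) o) (n 3576 o o (n 1745 o o o)) o) o o) o) (n 4366 (n 4035 (n 1725 o o o) o o) o (n 4236 o (n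 4078 (n 2973 o (n 1745 o o o) o) o o) o)) o) o o) o) o)
/-- part of the table -/
def t59 : Tr := (n 6546 (n 6511 (n 6491 o o (n 6470 (n 6406 (n 6288 (n 6173 (n 5381 o o (n 4689 o o o)) o o) o (n 6217 o (n 6112 (n 4639 o o o) o o) o)) o (n 6379 o (n 6324 (n 6168 (n 4639 o o o) o o) o o) o)) o o)) o (n 6482 (n 6422 (n 6299 (n 6103 (n 4492 (n 3192 o o (n 1378 o o o)) o o) (n 5785 o o (n 5206 o o (n 4636 o o o))) o) (n 6225 o o (n 6125 (n 5340 o o (n 4662 o o o)) o o)) o) (n 6388 o o (n 6339 (n 6232 (n 5419 o o (n 4678 o o o)) o o) o o)) o) (n 6465 o o (n 6443 (n 6390 (n 6277 (n 5453 o o (n 4686 o o o)) o o) o o) o o)) o)) o (n 6538 (n 6527 (n 6516 o (n 6381 o o (n 6225 (n 4643 o o o) o o)) o) (n 6465 o o (n 6381 (n 6225 (n 4643 o o o) o o) o o)) o) (n 6504 (n 6483 o o (n 6458 (n 6399 (n 6282 (n 5458 o o (n 4693 o o o)) o o) o o) o o)) o (n 6468 (n 6379 (n 6223 (n 4643 o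 o o) o o) o o) o o)) o))
/-- part of the table -/
def t60 : Tr := (n 6514 (n 6499 o (n 6481 (n 6444 (n 6350 (n 6209 o (n 6076 (n 5710 (n 5139 o o o) o o) o o) o) (n 6288 (n 6210 o o (n 5710 o (n 5139 o o o) o)) o (n 6037 o (n 5710 (n 5139 o o o) o o) o)) o) (n 6435 o o (n 6408 (n 6095 o (n 5710 (n 5139 o o o) o o) o) o o)) o) (n 6478 o o (n 6466 (n 6426 (n 6100 o (n 5710 (n 5139 o o o) o o) o) o o) o o)) o) o) (n 6482 (n 6409 (n 6244 (n 5832 (n 5547 o (n 5228 (n 4866 (n 2292 o o o) o o) (n 5052 o o (n 4656 o o o)) o) o) (n 5483 (n 4859 o o (n 3781 o (n 1884 o o o) o)) o (n 5197 o (n 4866 (n 2292 o o o) o o) o)) o) (n 6171 o o (n 5606 (n 5249 o (n 4866 (n 2292 o o o) o o) o) (n 5035 o o o) o)) (n 6182 o (n 6072 o (n 5942 (n 5651 (n 5079 o o o) o o) o o) o) o)) (n 6391 o o (n 6215 (n 5591 o (n 5053 o o o) o) o o)) (n 6394 o (n 6374 (n 6225 o (n 6059 (n 5691 (n 5119 o o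 o) o o) o o) o) o o) o)) (n 6476 o o (n 6459 (n 6255 (n 5604 o (n 5067 o o o) o) o o) o o)) (n 6474 o (n 6465 (n 6443 (n 6289 o (n 6107 (n 5704 (n 5133 o o o) o o) o o) o) o o) o o) o)) o)
/-- part of the table -/
def t61 : Tr := (n 6449 (n 6374 (n 6338 o o (n 6299 (n 6197 (n 6068 (n 5742 o o (n 5429 (n 4673 o o o) o o)) o (n 5993 o (n 5371 o o (n 4673 o o o)) o)) o (n 6152 (n 6083 o (n 5988 (n 4622 o o o) o o) o) (n 6086 (n 5356 o o (n 4673 o o o)) o o) o)) o (n 6292 o (n 6262 (n 6165 (n 5394 o o (n 4673 o o o)) o o) o o) o))) o (n 6305 (n 6157 (n 5880 (n 5043 (n 4661 o o (n 4303 (n 1840 o o o) o o)) o (n 4368 o (n 3246 o o (n 1432 o o o)) o)) (n 5739 o o (n 5484 o o (n 5183 (n 4611 o o o) o o))) (n 5750 o (n 4561 o o o) o)) (n 6121 o o (n 6075 (n 5729 o o (n 5341 (n 4648 o o o) o o)) o o)) (n 6115 o (n 6034 (n 4598 o o o) o o) o)) (n 6288 o o (n 6265 (n 6214 (n 5859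 o o (n 5430 (n 4665 o o o) o o)) o o) o o)) (n 6293 o (n 6244 (n 6110 (n 4615 o o o) o o) o o) o))) (n 6445 o o (n 6437 o o (n 6428 (n 6409 (n 6358 (n 6248 (n 5434 o o (n 4680 o o o)) o o) o o) o o) o o))) (n 6382 (n 6264 (n 6073 (n 4456 (n 3144 (n 2678 o o (n 2018 o o (n 1382 o o o))) o (n 1382 o o o)) o o) (n 5717 o o (n 5092 (n 4695 o o (n 4293 (n 1839 o o o) o o)) o (n 4521 o o o))) o) (n 6104 (n 6058 o o (n 6005 (n 5661 o o (n 5281 (n 4629 o o o) o o)) o o)) o (n 5900 (n 5122 (n 4718 o o (n 4297 (n 1839 o o o) o o)) o (n 4551 o o o)) o (n 5767 o (n 4556 o o o) o))) o) (n 6291 (n 6270 o o (n 6245 (n 6188 (n 5834 o o (n 5410 (n 4660 o o o) o o)) o o) o o)) o (n 6175 (n 5923 (n 5140 (n 4733 o o (n 4300 (n 1839 o o o) o o)) o (n 4570 o o o)) o (n 5788 o (n 4574 o o o) o)) o (n 6136 o (n 6054 (n 4600 o o o) o o) o))) (n 6382 o (n 6382 o (n 6305 o o (n 6158 (n 4618 o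 o o) o o)) o) o)))
/-- part of the table -/
def t62 : Tr := (n 6538 t61 (n 6528 o o (n 6512 (n 6502 o o (n 6491 (n 6466 (n 6409 (n 6293 (n 5467 o o (n 4693 o o o)) o o) o o) o o) o o)) o (n 6496 (n 6459 (n 6371 (n 6217 (n 4643 o o o) o o) o o) o o) o o))) (n 6518 (n 6498 o (n 6312 (n 6125 o o (n 5917 (n 5127 (n 4724 o o (n 4303 (n 1839 o o o) o o)) o (n 4557 o o o)) o (n 5782 o (n 4561 o o o) o))) o (n 6118 (n 4492 (n 3196 o o (n 1382 o o o)) o o) (n 5784 o o (n 5206 o o (n 4635 o o o))) o)) o) (n 6412 (n 6303 (n 6280 o o (n 6253 (n 6196 (n 5842 o o (n 5419 (n 4667 o o o) o o)) o o) o o)) o (n 6183 (n 5928 (n 5142 (n 4735 o o (n 4303 (n 1839 o o o) o o)) o (n 4572 o o o)) o (n 5793 o (n 4576 o o o) o)) o (n 6144 o (n 6063 (n 4604 o o o) o o) o))) o (n 6301 (n 6108 (n 4493 (n 3196 o o (n 1382 o o o)) o o) (n 5784 o o (n 5207 o o (n 4637 o o o))) o) (n 6219 o o (n 6119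 (n 5338 o o (n 4663 o o o)) o o)) o)) o))
/-- part of the table -/
def t63 : Tr := (n 6579 (n 6561 (n 6560 o o (n 6558 (n 6550 o o (n 6540 (n 6521 (n 6479 (n 6385 (n 6229 (n 4643 o o o) o o) o o) o o) o o) o o)) o o)) (n 6555 (n 6548 o (n 6541 (n 6525 (n 6492 (n 6364 (n 6040 o (n 5708 (n 5136 o o o) o o) o) (n 6267 o o (n 5708 o (n 5136 o o o) o)) o) o o) o o) o o) o) (n 6550 (n 6535 (n 6496 (n 6258 (n 5529 (n 5147 o (n 4754 (n 2178 o o o) o o) o) (n 4990 o o o) o) o o) o o) o o) o o) o) t59) (n 6551 t60 (n 6529 (n 6477 (n 6213 (n 5416 (n 4788 (n 4617 o (n 4435 (n 3316 o (n 2083 o o o) o) o o) o) (n 4192 (n 1818 o o o) (n 3755 o o o) o) o) (n 4838 o o (n 3702 o (n 1818 o o o) o)) o) o (n 6000 o (n 5712 o (n 5397 (n 4926 o o o) o o) o) o)) o (n 6409 o (n 6313 (n 5998 o (n 5697 (n 5128 o o o) o o) o) (n 6255 o o (n 5697 o (n 5128 o o o) o)) o) o)) o (n 6499 (n 6490 o (n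 6478 (n 6455 (n 6301 o (n 6120 (n 5707 (n 5136 o o o) o o) o o) o) o o) o o) o) (n 6465 (n 6331 (n 5987 (n 5811 o (n 5597 (n 5186 (n 2521 o o o) o o) o o) o) (n 5665 (n 5095 o o o) o o) o) (n 6248 o o (n 5690 o (n 5120 o o o) o)) o) o o) o)) o) t62)
/-- part of the table -/
def t64 : Tr := (n 6352 (n 6227 (n 6019 (n 5852 o (n 5675 (n 5293 (n 4913 (n 2334 o o o) o o) (n 5090 o o (n 4699 o o o)) o) (n 5633 o o (n 5444 (n 4879 o o o) o o)) o) o) (n 5844 (n 5469 (n 4857 o o (n 3805 o (n 1910 o o o) o)) o (n 5214 o (n 4884 (n 2313 o o o) o o) o)) o (n 5718 o (n 5557 (n 5197 (n 2537 o o o) o o) o o) o)) o) (n 6167 (n 6107 o o (n 5598 (n 5265 o (n 4884 (n 2313 o o o) o o) o) (n 5033 o o o) o)) o (n 5920 (n 5763 o (n 5577 (n 5179 (n 2525 o o o) o o) o o) o) (n 5624 (n 5060 o o o) o o) o)) (n 6199 o (n 6151 o (n 6095 (n 5968 (n 5649 (n 5085 o o o) o o) o o) o o) o) o)) (n 6332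 (n 6319 o o (n 6159 (n 5578 o (n 5046 o o o) o) o o)) o (n 6249 (n 5946 (n 5781 o (n 5580 (n 5179 (n 2524 o o o) o o) o o) o) (n 5651 (n 5086 o o o) o o) o) (n 6197 o o (n 5672 o (n 5107 o o o) o)) o)) (n 6345 o (n 6336 (n 6270 o (n 6198 (n 6037 (n 5679 (n 5115 o o o) o o) o o) o o) o) o o) o))
/-- part of the table -/
def t65 : Tr := (n 6198 (n 5741 (n 5343 (n 5131 o (n 4901 (n 4273 (n 3216 o (n 2226 o o o) o) (n 3902 (n 3405 o o o) o (n 2025 o o o)) o) (n 4841 o o (n 4640 (n 2297 o o o) o o)) o) o) (n 4963 (n 4183 (n 1911 o o o) (n 3765 o o o) (n 3712 o (n 2883 o (n 1911 o o o) o) o)) (n 4836 o o (n 4551 o o o)) (n 4837 o (n 4689 (n 3568 o (n 2322 o o o) o) o o) o)) o) (n 5387 (n 4813 o o (n 3742 (n 3309 o (n 2632 o (n 1910 o o o) o) o) (n 1910 o o o) o)) o (n 4873 (n 4716 o (n 4547 (n 3430 o (n 2197 o o o) o) o o) o) (n 4261 (n 1911 o o o) (n 3828 o o o) o) o)) (n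 5710 o (n 5654 o (n 5588 (n 5439 (n 5092 (n 2488 o o o) o o) o o) o o) o) o)) (n 6119 o o (n 5494 (n 4895 (n 4730 o (n 4552 (n 3433 o (n 2199 o o o) o) o o) o) (n 4279 (n 1911 o o o) (n 3843 o o o) o) o) (n 4895 o o (n 3787 o (n 1910 o o o) o)) o)) (n 6128 o (n 6009 (n 5933 o (n 5849 (n 5661 (n 5275 (n 2603 o o o) o o) o o) o o) o) (n 5880 (n 5589 (n 5040 o o o) o o) o o) o) o))
/-- part of the table -/
def t66 : Tr := (n 6464 (n 6409 (n 6393 o (n 6376 (n 6318 (n 6256 o (n 6199 (n 6044 (n 5691 (n 5127 o o o) o o) o o) o o) o) (n 6275 (n 6215 (n 6164 o o (n 5691 o (n 5127 o o o) o)) o (n 5998 o (n 5691 (n 5127 o o o) o o) o)) o (n 6166 o (n 6027 (n 5691 (n 5127 o o o) o o) o o) o)) o) (n 6372 o o (n 6360 (n 6224 o (n 6061 (n 5691 (n 5127 o o o) o o) o o) o) o o)) o) o) t64 o) (n 6384 t65 (n 6362 o o (n 6172 (n 5450 (n 5106 o (n 4776 (n 2208 o o o) o o) o) (n 4859 o o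 (n 3735 o (n 1843 o o o) o)) o) o o)) (n 6330 (n 6320 o (n 6310 (n 6244 o (n 6173 (n 6018 (n 5671 (n 5110 o o o) o o) o o) o o) o) o o) o) (n 6254 (n 6105 (n 6027 o (n 5934 (n 5724 (n 5326 (n 2632 o o o) o o) o o) o o) o) (n 5974 (n 5655 (n 5094 o o o) o o) o o) o) (n 6204 (n 6159 o o (n 5666 o (n 5105 o o o) o)) o (n 5962 o (n 5666 (n 5105 o o o) o o) o)) o) o)) (n 6462 o (n 6459 o (n 6455 (n 6446 (n 6425 (n 6274 o (n 6095 (n 5702 (n 5138 o o o) o o) o o) o) o o) o o) o o) o) o))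
/-- part of the table -/
def t67 : Tr := (n 6490 (n 6182 (n 5357 (n 4673 (n 4291 (n 4215 o (n 4133 (n 3644 o (n 3110 (n 1961 o o o) o o) o) o o) o) (n 3863 (n 2827 o (n 1855 o o o) o) (n 3597 (n 3262 o o o) o (n 1779 o o o)) o) o) (n 4047 (n 1714 (n 887 o (n 4 o o o) o) o o) (n 3625 o o o) (n 3550 o (n 2727 o (n 1755 o o o) o) o)) o) (n 4776 o o (n 3599 (n 3151 o (n 2477 o (n 1755 o o o) o) o) (n 1713 (n 886 o (n 4 o o o) o) o o) o)) (n 5262 o (n 5091 o (n 4895 (n 4181 (n 1804 o o o) (n 3743 o o o) o) o o) o) o)) o (n 5898 (n 5844 o (n 5760 o (n 5669 (n 5346 (n 4877 o o o) o o) o o) o) o) (n 5521 (n 5192 o (n 4847 (n 4137 (n 1735 o o o) (n 3695 o o o) o) (n 4722 o o (n 4486 o o o)) o) o) (n 5172 (n 4671 o o (n 3598 o (n 1709 o o o) o)) o (n 4862 o (n 4514 (n 1954 o o o) o o) o)) o) o)) o (n 6377 (n 6319 (n 6309 o (n 6298 (n 6233 o (n 6161 (n 6008 (n 5675 (n 5113 o o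 o) o o) o o) o o) o) o o) o) (n 6249 (n 6099 (n 6021 o (n 5929 (n 5721 (n 5321 (n 2626 o o o) o o) o o) o o) o) (n 5969 (n 5657 (n 5095 o o o) o o) o o) o) (n 6208 (n 6163 o o (n 5669 o (n 5107 o o o) o)) o (n 5965 o (n 5669 (n 5107 o o o) o o) o)) o) o) (n 6237 (n 5812 (n 5450 (n 5372 o (n 5277 (n 5084 (n 3930 o (n 2549 o o o) o) o o) o o) o) (n 5077 (n 4300 (n 1910 o o o) (n 3860 o o o) o) (n 4947 o o (n 4656 o o o)) o) o) (n 5473 (n 4872 o o (n 3797 o (n 1909 o o o) o)) o (n 5188 o (n 4858 (n 2301 o o o) o o) o)) o) (n 6172 o o (n 5605 (n 5251 o (n 4873 (n 2308 o o o) o o) o) (n 5047 o o o) o)) (n 6172 o (n 6062 o (n 5933 (n 5641 (n 5083 o o o) o o) o o) o) o)) o))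
/-- part of the table -/
def t68 : Tr := (n 6111 (n 6081 o o (n 6048 (n 5954 (n 5812 o o (n 5679 (n 5324 (n 4618 o o o) o o) o o)) o (n 5895 (n 5822 o (n 5280 o o (n 4618 o o o)) o) (n 5645 o o (n 5324 (n 4618 o o o) o o)) o)) o (n 6040 o (n 6012 (n 5699 o o (n 5324 (n 4618 o o o) o o)) o o) o))) o (n 5996 (n 5763 (n 5346 (n 5059 o o (n 4744 (n 4352 (n 1881 o o o) o o) o (n 4567 o (n 4130 o o o) o))) o (n 4998 (n 4305 o (n 3254 o o (n 1443 o o o)) o) (n 4702 o o (n 4349 (n 1879 o o o) o o)) o)) (n 5700 o o (n 5588 o o (n 5459 (n 5167 (n 4556 o o o) o o) o o))) (n 5658 (n 5547 o (n 4495 o o o) o) (n 5087 (n 4717 o o (n 4311 (n 1852 o o o) o o)) o (n 4515 o o o)) o)) (n 5978 o o (n 5957 (n 5806 o o (n 5639 (n 5269 (n 4597 o o o) o o) o o)) o o)) (n 5951 (n 5924 o (n 5866 (n 4544 o o o) o o) o) (n 5795 (n 5098 (n 4714 o o (n 4303 (n 1846 o o o) o o)) o (n 4534 o o o)) o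 (n 5675 o (n 4529 o o o) o)) o)))
/-- part of the table -/
def t69 : Tr := (n 6069 (n 5784 (n 4931 (n 4251 (n 3944 o o (n 3612 (n 2586 o o (n 1725 o o o)) o (n 3423 o (n 1644 o o o) o))) o (n 3609 (n 1444 o o o) (n 3113 o o (n 2305 o o (n 1444 o o o))) (n 3210 o o o))) (n 4859 o o (n 4731 o o (n 4576 (n 4253 (n 1829 o o o) o o) o o))) (n 4325 o (n 3233 o o (n 1443 o o o)) o)) (n 5624 o o (n 5351 (n 5177 o o (n 4980 (n 4582 (n 2053 o o o) o o) o o)) o (n 5050 (n 4497 o o o) o o))) (n 5636 o (n 4416 (n 3195 o o (n 1392 o o o)) o o) o)) (n 5955 (n 5933 o o (n 5909 (n 5758 o o (n 5594 (n 5239 (n 4595 o o o) o o) o o)) o o)) o (n 5798 (n 5456 (n 5277 o o (n 5061 (n 4632 (n 2084 o o o) o o) o o)) o (n 5155 (n 4559 o o o) o o)) o (n 5704 (n 5601 o (n 4534 o o o) o) (n 5145 o o (n 4584 o o o)) o))) (n 6027 o (n 5937 (n 4454 (n 3201 o o (n 1392 o o o)) o o) (n 5695 o o (n 5145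 o o (n 4585 o o o))) o) o))
/-- part of the table -/
def t70 : Tr := (n 6256 (n 6055 (n 4418 (n 3060 (n 2586 (n 2420 o o (n 2182 o o (n 1944 (n 1305 o o o) o o))) o (n 1944 o o (n 1305 o o o))) o (n 1262 (n 584 o o (n 4 o o o)) o o)) (n 4224 o o (n 3909 o o (n 3558 (n 1285 o o o) o o))) o) (n 5636 (n 5482 o o (n 5249 (n 5075 o o (n 4881 (n 4498 (n 1994 o o o) o o) o o)) o (n 5025 (n 4473 o o o) o o))) o (n 4950 (n 4301 (n 4125 o o (n 3939 (n 2847 o o (n 1721 o o o)) o o)) o (n 3688 (n 1440 o o o) o (n 3274 o o o))) o (n 4343 o (n 3230 o o (n 1439 o o o)) o))) o) (n 6046 (n 5924 (n 5902 o o (n 5877 (n 5727 o o (n 5562 (n 5207 (n 4591 o o o) o o) o o)) o o)) o (n 5781 (n 5436 (n 5257 o o (n 5043 (n 4618 (n 2074 o o o) o o) o o)) o (n 5135 (n 4551 o o o) o o)) o (n 5699 (n 5596 o (n 4528 o o o) o) (n 5139 o o (n 4579 o o o)) o))) o (n 5808 (n 4959 (n 4308 (n 4131 o o (n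 3942 (n 2850 o o (n 1724 o o o)) o o)) o (n 3695 (n 1443 o o o) o (n 3280 o o o))) o (n 4351 o (n 3236 o o (n 1442 o o o)) o)) (n 5659 o o (n 5407 o o (n 5106 (n 4553 o o o) o o))) (n 5658 o (n 4431 (n 3195 o o (n 1391 o o o)) o o) o))) o)
/-- part of the table -/
def t71 : Tr := (n 6525 (n 6516 o o (n 6503 (n 6492 o o (n 6481 (n 6457 (n 6403 (n 6289 (n 5467 o o (n 4699 o o o)) o o) o o) o o) o o)) o (n 6490 (n 6454 (n 6370 (n 6216 (n 4649 o o o) o o) o o) o o) o o))) (n 6522 (n 6509 (n 6499 o (n 6487 (n 6464 (n 6416 (n 6071 o (n 5661 (n 5088 o o o) o o) o) o o) o o) o o) o) (n 6500 (n 6467 (n 6249 (n 5562 o (n 5024 o o o) o) o o) o o) o o) o) o o) (n 6468 (n 6404 (n 6393 o o (n 6381 (n 6352 (n 6296 (n 5937 o o (n 5492 (n 4688 o o o) o o)) o o) o o) o o)) o (n 6338 (n 6200 (n 5943 (n 5157 (n 4750 o o (n 4314 (n 1848 o o o) o o)) o (n 4588 o o o)) o (n 5808 o (n 4591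 o o o) o)) o (n 6161 o (n 6080 (n 4619 o o o) o o) o)) o (n 6326 o (n 6278 (n 6143 (n 4632 o o o) o o) o o) o))) o (n 6414 (n 6304 (n 6112 (n 4504 (n 3207 o o (n 1390 o o o)) o o) (n 5793 o o (n 5216 o o (n 4647 o o o))) o) (n 6227 o o (n 6127 (n 5347 o o (n 4672 o o o)) o o)) o) (n 6376 o o (n 6330 (n 6224 (n 5419 o o (n 4687 o o o)) o o) o o)) o)))
/-- part of the table -/
def t72 : Tr := (n 6305 (n 6057 (n 5932 (n 5909 o o (n 5884 (n 5734 o o (n 5569 (n 5214 (n 4596 o o o) o o) o o)) o o)) o (n 5787 (n 5441 (n 5262 o o (n 5047 (n 4621 (n 2075 o o o) o o) o o)) o (n 5140 (n 4555 o o o) o o)) o (n 5705 (n 5602 o (n 4532 o o o) o) (n 5144 o o (n 4583 o o o)) o))) o (n 5814 (n 4962 (n 4309 (n 4132 o o (n 3943 (n 2850 o o (n 1724 o o o)) o o)) o (n 3696 (n 1443 o o o) o (n 3281 o o o))) o (n 4354 o (n 3237 o o (n 1442 o o o)) o)) (n 5663 o o (n 5410 o o (n 5109 (n 4556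 o o o) o o))) (n 5664 o (n 4434 (n 3196 o o (n 1391 o o o)) o o) o))) (n 6289 o o (n 6252 o o (n 6205 (n 6107 (n 5332 o o (n 4658 o o o)) o o) o o))) (n 6096 (n 4430 (n 3070 (n 2605 o o (n 1944 o o (n 1305 o o o))) o (n 1262 (n 584 o o (n 4 o o o)) o o)) (n 4232 o o (n 3915 o o (n 3564 (n 1285 o o o) o o))) o) (n 5714 (n 5579 o o (n 5372 o o (n 5148 (n 4579 o o o) o o))) o (n 5098 (n 4703 o o (n 4302 (n 1846 o o o) o o)) o (n 4529 o o o))) o))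
/-- part of the table -/
def t73 : Tr := (n 6637 t63 (n 6554 t66 t67 (n 6538 (n 6537 o o (n 6535 (n 6532 (n 6512 o o (n 6489 (n 6440 (n 6343 (n 6185 (n 4589 o o o) o o) o o) o o) o o)) o o) o o)) (n 6521 (n 6516 o (n 6511 (n 6500 (n 6477 (n 6323 o (n 6135 (n 5723 (n 5155 o o o) o o) o o) o) o o) o o) o o) o) (n 6502 (n 6446 (n 6320 (n 5983 (n 5808 o (n 5595 (n 5186 (n 2525 o o o) o o) o o) o) (n 5682 (n 5114 o o o) o o) o) (n 6262 o o (n 5706 o (n 5138 o o o) o)) o) (n 6428 o o (n 6251 (n 5617 o (n 5082 o o o) o) o o)) o) o o) o) (n 6532 (n 6510 (n 6466 (n 6442 o o (n 6415 (n 6352 (n 6232 (n 5405 o o (n 4638 o o o)) o o) o o) o o)) o (n 6428 (n 6338 (n 6180 (n 4589 o o o) o o) o o) o o)) o (n 6500 (n 6486 o (n 6341 o o (n 6183 (n 4589 o o o) o o)) o) (n 6428 o o (n 6341 (n 6183 (n 4589 o o o) o o) o o)) o)) o o))) (n 6567 (n 6388 (n 6221 t68 (n 6217 o o (n 6209 o o (n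 6200 (n 6180 (n 6132 (n 5785 o o (n 5372 (n 4636 o o o) o o)) o o) o o) o o))) t69) (n 6367 o o (n 6330 (n 6319 o o (n 6308 (n 6282 (n 6230 (n 5874 o o (n 5438 (n 4664 o o o) o o)) o o) o o) o o)) o (n 6289 (n 6162 (n 5915 (n 5140 (n 4737 o o (n 4309 (n 1848 o o o) o o)) o (n 4572 o o o)) o (n 5782 o (n 4574 o o o) o)) o (n 6123 o (n 6043 (n 4599 o o o) o o) o)) o o))) t70) t71 (n 6538 o t72 o)))
/-- part of the table -/
def t74 : Tr := (n 5750 (n 5531 (n 5414 o (n 5286 (n 4953 (n 4536 (n 3475 o (n 2457 o o o) o) (n 4293 o o (n 2271 o o o)) o) (n 4807 (n 4585 o o (n 4274 o o o)) o (n 4592 (n 2223 o o o) o o)) o) (n 5265 o o (n 5167 (n 4851 (n 2346 o o o) o o) o o)) o) o) (n 5328 (n 4904 (n 4125 (n 1859 o o o) (n 3703 o o o) (n 3666 o (n 2839 o (n 1861 o o o) o) o)) (n 4770 o o (n 4505 o o o)) (n 4790 o (n 4638 (n 3516 o (n 2253 o o o) o) o o) o)) (n 5290 o o (n 5132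 (n 4695 o o o) o o)) (n 5273 o (n 5201 (n 5033 (n 3879 o (n 2487 o o o) o) o o) o o) o)) o) (n 5570 (n 5257 (n 4742 o o (n 3713 o (n 1854 o o o) o)) o (n 4793 (n 4644 o (n 4469 (n 3354 o (n 2117 o o o) o) o o) o) (n 4207 (n 1855 o o o) (n 3774 o o o) o) o)) (n 5570 o o (n 5570 o o (n 5320 o (n 4841 o o o) o))) (n 5301 (n 5232 o (n 5150 (n 4965 (n 3815 o (n 2439 o o o) o) o o) o o) o) (n 4956 (n 4220 (n 1855 o o o) (n 3784 o o o) o) (n 4829 o o (n 4564 o o o)) o) o)) (n 5736 o (n 5711 o (n 5683 (n 5619 (n 5455 (n 5096 (n 2453 o o o) o o) o o) o o) o o) o) o))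
/-- part of the table -/
def t75 : Tr := (n 6111 (n 6070 (n 6066 o (n 6061 (n 6033 o (n 6003 (n 5939 (n 5803 (n 5498 (n 4991 o o o) o o) o o) o o) o o) o) o o) o) (n 6022 (n 5921 (n 5855 o (n 5788 (n 5580 (n 5194 (n 4820 (n 2249 o o o) o o) (n 4965 o o (n 4622 o o o)) o) (n 5490 o o (n 5313 (n 4805 o o o) o o)) o) o o) o) (n 5837 (n 5668 (n 5322 (n 4770 o o (n 3737 o (n 1854 o o o) o)) o (n 5081 o (n 4756 (n 2205 o o o) o o) o)) o (n 5557 o (n 5398 (n 5049 (n 2407 o o o) o o) o o) o)) o (n 5782 o (n 5712 (n 5538 (n 5172 (n 2493 o o o) o o) o o) o o) o)) o) (n 5996 (n 5962 (n 5925 o o (n 5486 o (n 4979 o o o) o)) o (n 5760 o (n 5486 (n 4979 o o o) o o) o)) o (n 5888 (n 5819 o (n 5737 (n 5545 (n 5164 (n 2487 o o o) o o) o o) o o) o) (n 5769 (n 5480 (n 4973 o o o) o o) o o) o)) o) o) (n 5996 t74 (n 5939 (n 5884 o o (n 5365 (n 4831 o (n 4243 (n 1855 o o o) (n 3804 o o o)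 o) o) (n 4818 o o (n 3732 o (n 1854 o o o) o)) o)) o (n 5637 (n 5318 (n 5245 o (n 5156 (n 4970 (n 3820 o (n 2444 o o o) o) o o) o o) o) (n 4968 (n 4232 (n 1855 o o o) (n 3794 o o o) o) (n 4841 o o (n 4576 o o o)) o) o) (n 5326 (n 4783 o o (n 3730 o (n 1854 o o o) o)) o (n 5058 o (n 4733 (n 2195 o o o) o o) o)) o)) (n 5964 o (n 5913 (n 5880 o (n 5843 (n 5762 (n 5578 (n 5202 (n 2517 o o o) o o) o o) o o) o o) o) (n 5859 (n 5739 (n 5455 (n 4954 o o o) o o) o o) o o) o) o)) o)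
/-- part of the table -/
def t76 : Tr := (n 5153 (n 4853 (n 4755 o (n 4650 (n 4343 (n 3881 o (n 3451 (n 2296 o o o) o o) o) (n 4152 (n 3913 o o (n 2153 o o o)) o (n 3338 o (n 2296 o o o) o)) o) (n 4622 o o (n 4532 (n 3514 o (n 2296 o o o) o) o o)) o) o) (n 4544 (n 3922 (n 2903 (n 2505 o (n 1995 o (n 1422 o o o) o) o) (n 1986 o o o) o) (n 3616 (n 3257 o o o) o (n 1860 o o o)) (n 3716 o (n 3354 o (n 2934 (n 1986 o o o) o o) o) o)) (n 4411 (n 4321 o o (n 4133 o o o)) o (n 3951 (n 1834 o o o) (n 3561 o o o) o)) (n 4487 o (n 4418 (n 3928 o (n 3386 (n 2184 o o o) o o) o) o o) o)) o) (n 4764 (n 4050 (n 1757 (n 916 o (n 4 o o o) o) o o) (n 3635 o o o) (n 3589 o (n 2775 o (n 1798 o o o) o) o)) (n 4644 o o (n 4395 o o (n 3610 o (n 1823 o o o) o))) (n 4420 (n 4349 o (n 4270 (n 3781 o (n 3246 (n 2095 o o o) o o) o) o o) o) (n 3945 (n 2915 o (n 1938 o o o) o) (n 3641 (n 3306 o o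 o) o (n 1824 o o o)) o) o)) (n 5139 o (n 5115 o (n 5086 (n 5020 (n 4865 (n 3737 o (n 2395 o o o) o) o o) o o) o o) o) o))
/-- part of the table -/
def t77 : Tr := (n 6045 (n 5583 t76 (n 5241 (n 4712 o o (n 3622 (n 3194 o (n 2523 o (n 1797 o o o) o) o) (n 1756 (n 916 o (n 4 o o o) o) o o) o)) o (n 4693 (n 4333 (n 4260 o (n 4179 (n 3691 o (n 3156 (n 2003 o o o) o o) o) o o) o) (n 3908 (n 2875 o (n 1897 o o o) o) (n 3642 (n 3307 o o o) o (n 1821 o o o)) o) o) (n 4079 (n 1757 (n 916 o (n 4 o o o) o) o o) (n 3659 o o o) (n 3595 o (n 2775 o (n 1798 o o o) o) o)) o)) (n 5521 o (n 5412 (n 5379 o (n 5342 (n 5259 (n 5087 (n 3932 o (n 2514 o o o) o) o o) o o) o o) o) (n 5294 (n 4913 (n 4193 (n 1845 o o o) (n 3760 o o o) o) (n 4787 o o (n 4527 o o o)) o) o o) o) o)) (n 5968 o o (n 5354 (n 4711 (n 4340 (n 4266 o (n 4185 (n 3697 o (n 3162 (n 2007 o o o) o o) o) o o) o) (n 3914 (n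 2880 o (n 1902 o o o) o) (n 3648 (n 3312 o o o) o (n 1825 o o o)) o) o) (n 4087 (n 1757 (n 916 o (n 4 o o o) o) o o) (n 3666 o o o) (n 3597 o (n 2776 o (n 1798 o o o) o) o)) o) (n 4793 o o (n 3687 (n 3248 o (n 2576 o (n 1849 o o o) o) o) (n 1849 o o o) o)) (n 5301 o (n 5180 o (n 5028 (n 4709 (n 2190 o o o) o o) o o) o) o))) (n 5935 (n 5905 o (n 5861 (n 5828 o (n 5792 (n 5714 (n 5537 (n 5167 (n 2496 o o o) o o) o o) o o) o o) o) (n 5821 (n 5701 (n 5429 (n 4929 o o o) o o) o o) o o) o) o) (n 5768 (n 5577 (n 5542 o (n 5501 (n 5409 (n 5226 (n 4061 o (n 2614 o o o) o) o o) o o) o o) o) (n 5381 (n 4975 (n 4230 (n 1852 o o o) (n 3792 o o o) o) (n 4849 o o (n 4585 o o o)) o) (n 5342 o o (n 5187 (n 4748 o o o) o o)) o) o) (n 5614 (n 5304 (n 4761 o o (n 3724 o (n 1851 o o o) o)) o (n 5052 o (n 4730 (n 2195 o o o) o o) o)) o (n 5492 o (n 5340 (n 4997 (n 2379 o o o) o o) o o) o))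 o) o))
/-- part of the table -/
def t78 : Tr := (n 4584 (n 4148 (n 3930 (n 3897 o (n 3860 (n 3647 o (n 3415 (n 2917 (n 1853 o o o) o o) o o) o) o o) o) (n 3673 (n 3201 (n 3066 o (n 2937 (n 2214 o (n 1263 o o o) o) o o) o) (n 2781 (n 1817 o o o) o o) o) (n 3502 (n 3286 (n 2996 o o o) o (n 1711 o o o)) o (n 2714 o (n 1782 o o o) o)) o) o) (n 3686 (n 2603 (n 2009 o (n 1357 (n 76 o o o) (n 940 o o o) o) o) (n 1659 o o (n 936 o (n 75 o o o) o)) o) (n 3421 (n 3099 o o o) o (n 1654 (n 865 o (n 4 o o o) o) o o)) (n 3469 o (n 3110 o (n 2690 (n 1753 o o o) o o) o) o)) o) (n 3970 (n 1660 (n 840 (n 587 o (n 238 o (n 4 o o o) o) o) (n 4 o o o) o) o (n 1571 o (n 1415 o (n 1274 (n 4 o o o) o o) o) o)) (n 3554 o o o) (n 3424 (n 3228 o (n 2934 o (n 2622 (n 1685 o o o) o o) o) o) (n 2566 (n 1958 o (n 1282 (n 5 o o o) (n 866 o o o) o) o) (n 1658 o o o) o) o)) (n 4534 o (n 4445 (n 4412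 o (n 4375 (n 4298 (n 3798 o (n 3211 (n 1977 o o o) o o) o) o o) o o) o) (n 4348 (n 3971 (n 2946 o (n 1977 o o o) o) (n 3782 o o (n 1899 o o o)) o) o o) o) o))
/-- part of the table -/
def t79 : Tr := (n 5285 t78 (n 4728 o o (n 3524 (n 3022 (n 2859 o (n 2619 o (n 2364 (n 1689 o o o) o o) o) o) (n 2314 (n 1798 o (n 1281 (n 4 o o o) (n 866 o o o) o) o) (n 1658 o o o) o) o) (n 1673 (n 839 (n 586 o (n 237 o (n 4 o o o) o) o) (n 4 o o o) o) o o) (n 3289 o (n 3100 o (n 2940 (n 2235 o (n 1718 o o o) o) o o) o) o))) (n 5149 (n 5105 o (n 5039 (n 5006 o (n 4969 (n 4890 (n 4724 (n 3578 o (n 2192 o o o) o) o o) o o) o o) o) (n 4973 (n 4786 (n 4102 (n 1769 o o o) (n 3673 o o o) o) o o) o o) o) o) (n 4925 (n 4716 (n 4682 o (n 4641 (n 4558 (n 4055 o (n 3459 (n 2130 o o o) o o) o) o o) o o) o) (n 4499 (n 3906 (n 2869 o (n 1894 o o o) o) (n 3582 (n 3247 o o o) o (n 1761 o o o)) o) (n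 4439 o o (n 4261 (n 1988 o o o) o o)) o) o) (n 4710 (n 3991 (n 1692 (n 868 o (n 4 o o o) o) o o) (n 3575 o o o) (n 3524 o (n 2704 o (n 1730 o o o) o) o)) o (n 4586 o (n 4442 (n 3338 o (n 2114 o o o) o) o o) o)) o) o))
/-- part of the table -/
def t80 : Tr := (n 5804 (n 5706 (n 5686 o (n 5656 o (n 5625 (n 5536 (n 5238 (n 4795 o o o) o o) o o) o o) o) o) (n 5573 (n 5440 o (n 5314 (n 4910 (n 4183 (n 1777 o o o) (n 3686 o o o) o) (n 4715 o o (n 4481 o o o)) o) o o) o) (n 5453 (n 5116 (n 4630 o o (n 3589 o (n 1713 o o o) o)) o (n 4839 o (n 4495 (n 1952 o o o) o o) o)) o (n 5329 o (n 5178 (n 4831 (n 2207 o o o) o o) o o) o)) o) o) (n 5400 (n 5015 (n 4766 o (n 4487 (n 3898 (n 2843 o (n 1848 o o o) o) (n 3561 (n 3188 o o o) o (n 1713 o o o)) o) (n 4391 (n 4280 o o (n 4077 o o o)) o (n 4191 (n 1895 o o o) o o)) o) o) (n 4659 (n 3929 (n 1619 (n 809 o (n 4 o o o) o) o o) (n 3510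 o o o) (n 3458 o (n 2632 o (n 1654 o o o) o) o)) (n 4538 o o (n 4317 o o o)) (n 4534 o (n 4387 (n 3269 o (n 2021 o o o) o) o o) o)) o) (n 5051 (n 4580 o o (n 3513 (n 3082 o (n 2407 o (n 1680 o o o) o) o) (n 1680 o o o) o)) o (n 4547 (n 4392 o (n 4226 (n 3111 o (n 1876 o o o) o) o o) o) (n 4002 (n 1652 o o o) (n 3558 o o o) o) o)) (n 5340 o (n 5262 o (n 5178 (n 5029 (n 4685 (n 2073 o o o) o o) o o) o o) o) o)) o)
/-- part of the table -/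
def t81 : Tr := (n 6247 (n 6233 o (n 6224 o (n 6215 (n 6126 (n 6020 (n 5731 o (n 5455 (n 4973 o o o) o o) o) (n 5967 o o (n 5455 o (n 4973 o o o) o)) o) o o) o o) o) (n 6225 (n 6200 (n 6163 o o (n 6128 (n 6041 (n 5903 (n 4441 o o o) o o) o o) o o)) o (n 6186 (n 6174 o (n 6041 o o (n 5903 (n 4441 o o o) o o)) o) (n 6121 o o (n 6041 (n 5903 (n 4441 o o o) o o) o o)) o)) o (n 6223 o (n 6216 (n 6135 o o (n 6041 (n 5903 (n 4441 o o o) o o) o o)) o o) o))) (n 6138 (n 6111 o (n 6082 (n 5998 (n 5869 o (n 5749 (n 5448 (n 4971 o o o) o o) o o) o) (n 5948 (n 5906 o o (n 5448 o (n 4971 o o o) o)) o (n 5723 o (n 5448 (n 4971 o o o) o o) o)) o) (n 6075 o o (n 6053 (n 5772 o (n 5448 (n 4971 o o o) o o) o) o o)) o) o) (n 6045 (n 5897 (n 5509 (n 5183 o (n 4840 (n 4133 (n 1723 o o o) (n 3690 o o o) o) (n 4715 o o (n 4488 o o o)) o) o) (n 5196 (n 4693 o o (n 3618 o (n 1722 o o o) o)) o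 (n 4912 o (n 4583 (n 2017 o o o) o o) o)) o) (n 5837 o o (n 5320 (n 4968 o (n 4590 (n 2021 o o o) o o) o) (n 4862 o o o) o)) (n 5839 o (n 5739 o (n 5621 (n 5357 (n 4898 o o o) o o) o o) o) o)) o (n 5993 o (n 5946 (n 5814 o (n 5669 (n 5342 (n 4898 o o o) o o) o o) o) o o) o)) o) (n 6161 (n 6114 (n 5989 (n 5896 o o (n 5799 (n 5598 (n 4913 o o (n 4424 o o o)) o (n 5472 o (n 4406 o o o) o)) o (n 5763 o (n 5699 (n 4406 o o o) o o) o))) o (n 5886 (n 5720 (n 4275 (n 2980 o o (n 1196 o o o)) o o) (n 5415 o o (n 4876 o o (n 4387 o o o))) o) (n 5806 o o (n 5712 (n 4983 o o (n 4410 o o o)) o o)) o)) (n 6098 o o (n 6069 o o (n 6036 (n 5960 (n 5830 (n 4421 o o o) o o) o o) o o))) (n 6094 o (n 5922 (n 5821 o o (n 5714 (n 4984 o o (n 4410 o o o)) o o)) o (n 5768 (n 4275 (n 2980 o o (n 1196 o o o)) o o) o o)) o)) (n 6105 o o (n 6059 (n 6022 o o (n 5982 (n 5892 (n 5769 (n 4402 o o o)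 o o) o o) o o)) o o)) o))
/-- part of the table -/
def t82 : Tr := (n 5522 (n 5079 (n 4692 (n 4516 o o (n 4327 (n 3918 (n 2886 o o (n 1995 o o o)) o (n 3703 o (n 1812 o o o) o)) o (n 4266 o (n 4065 (n 1812 o o o) o o) o))) o (n 4325 (n 3566 (n 1415 o o o) (n 3100 o o (n 2291 o o (n 1422 o o o))) (n 3150 o o o)) (n 4196 o o (n 4039 (n 2945 o o (n 1802 o o o)) o o)) (n 4201 o (n 3922 o o o) o))) (n 5047 o o (n 4990 o o (n 4924 (n 4774 (n 4426 (n 1934 o o o) o o) o o) o o))) (n 4742 (n 4197 o (n 3172 o o (n 1399 o o o)) o) (n 4239 (n 4077 o o (n 3898 (n 2806 o o (n 1677 o o o)) o o)) o (n 3658 (n 1414 o o o) o (n 3225 o o o))) o)) (n 5449 o o (n 5332 (n 5255 o o (n 5171 (n 4981 (n 4595 (n 2038 o o o) o o) o o) o o)) o (n 5207 (n 4929 (n 4408 o o o) o o) o o))) (n 5424 (n 5314 o (n 4322 (n 3154 o o (n 1364 o o o)) o o) o) (n 4813 (n 4227 (n 4060 o o (n 3878 (n 2786 o o (n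 1656 o o o)) o o)) o (n 3645 (n 1400 o o o) o (n 3232 o o o))) o (n 4261 o (n 3184 o o (n 1399 o o o)) o)) o))
/-- part of the table -/
def t83 : Tr := (n 5651 (n 4801 (n 4108 (n 3711 (n 3634 o o (n 3551 (n 3068 o o (n 2557 (n 1535 o o o) o o)) o o)) o (n 3267 (n 2229 (n 1860 o o (n 1433 o o (n 1013 o o o))) o (n 1431 o o o)) o (n 3012 (n 2707 o o o) (n 1361 o o o) o))) (n 4077 o o (n 4021 o o (n 3954 (n 3808 (n 2726 o o (n 1610 o o o)) o o) o o))) (n 3492 (n 1294 (n 605 o o (n 4 o o o)) o o) (n 3004 o o (n 2202 o o (n 1337 o o o))) (n 3095 o o o))) (n 4696 o o (n 4512 (n 4437 o o (n 4351 (n 4174 (n 3055 o o (n 1806 o o o)) o o) o o)) o (n 4316 (n 3616 (n 1387 o o o) o (n 3206 o o o)) o o))) (n 4229 o (n 3081 (n 2638 o o (n 1980 o o (n 1335 o o o))) o (n 1293 (n 604 o o (n 4 o o o)) o o)) o)) (n 5429 (n 5360 o o (n 5260 (n 5184 o o (n 5101 (n 4918 (n 4540 (n 1999 o o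 o) o o) o o) o o)) o (n 5168 (n 4890 (n 4389 o o o) o o) o o))) o (n 5092 (n 4740 (n 4662 o o (n 4568 (n 4377 (n 3250 o o (n 1978 o o o)) o o) o o)) o (n 4383 (n 3655 (n 1398 o o o) o (n 3239 o o o)) o (n 4260 o (n 4003 o o o) o))) o (n 4769 (n 4225 o (n 3184 o o (n 1397 o o o)) o) (n 4484 o o (n 4157 (n 1737 o o o) o o)) o))) (n 5505 o (n 4359 (n 3120 (n 2667 o o (n 2007 o o (n 1362 o o o))) o (n 1362 o o o)) o o) o))
/-- part of the table -/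
def t84 : Tr := (n 5897 (n 5714 (n 5631 (n 5621 o o (n 5611 (n 5547 o o (n 5478 (n 5331 (n 5015 (n 4465 o o o) o o) o o) o o)) o o)) o (n 5536 (n 5331 (n 5219 o o (n 5113 (n 4717 (n 4337 (n 1854 o o o) o o) o (n 4434 o (n 4059 o o o) o)) o o)) o (n 5159 (n 4810 (n 4216 o (n 3197 o o (n 1399 o o o)) o) (n 4553 o o (n 4219 (n 1772 o o o) o o)) o) (n 5032 o o (n 4867 (n 4506 (n 1970 o o o) o o) o o)) o)) o (n 5481 (n 5417 (n 5331 o (n 4406 o o o) o) (n 4949 o o (n 4441 o o o)) o) (n 5233 (n 5074 o o (n 4882 (n 4486 (n 1956 o o o) o o) o o)) o (n 4956 (n 4427 o o o) o o)) o))) o t82) (n 5880 o o (n 5850 (n 5840 o o (n 5829 (n 5806 (n 5658 o o (n 5483 (n 5117 (n 4530 o o o) o o) o o)) o o) o o)) o (n 5817 (n 5694 (n 5366 (n 5190 o o (n 4979 (n 4562 (n 2004 o o o) o o) o o)) o (n 5079 (n 4492 o o o) o o)) o (n 5638 o (n 5079 o o (n 4516 o o o)) o)) o o))) t83)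
/-- part of the table -/
def t85 : Tr := (n 6132 (n 6119 o o (n 6099 (n 6089 o o (n 6078 (n 6055 (n 6005 (n 5665 o o (n 5254 (n 4603 o o o) o o)) o o) o o) o o)) o (n 6079 (n 6024 (n 5821 (n 5128 o o (n 4603 o o o)) o (n 5693 o (n 4568 o o o) o)) o o) o o))) (n 6130 (n 6038 (n 6006 o (n 5980 (n 5831 (n 5161 o (n 4669 o o o) o) o o) o o) o) o o) o o) (n 6048 (n 5981 (n 5971 o o (n 5959 (n 5934 (n 5785 o o (n 5608 (n 5213 (n 4581 o o o) o o) o o)) o o) o o)) o (n 5911 (n 5722 (n 5388 (n 5208 o o (n 4986 (n 4552 (n 1989 o o o) o o) o o)) o (n 5098 (n 4536 o o o) o o)) o (n 5625 (n 5526 o (n 4527 o o o) o) (n 5085 o o (n 4562 o o o)) o)) o (n 5893 o (n 5840 (n 5165 o o (n 4575 o o o)) o o) o))) o (n 5965 (n 5699 (n 4885 (n 4250 (n 4074 o o (n 3886 (n 2793 o o (n 1658 o o o)) o o)) o (n 3662 (n 1401 o o o) o (n 3246 o o o))) o (n 4315 o (n 3201 o o (n 1400 o o o)) o)) (n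 5560 o o (n 5317 o o (n 5028 (n 4514 o o o) o o))) (n 5555 o (n 4409 (n 3174 o o (n 1365 o o o)) o o) o)) (n 5928 o o (n 5886 (n 5558 o o (n 5195 (n 4567 o o o) o o)) o o)) o)))
/-- part of the table -/
def t86 : Tr := (n 5504 (n 5292 (n 5232 o o (n 5148 (n 5072 o o (n 4989 (n 4807 (n 4444 (n 1933 o o o) o o) o o) o o)) o (n 5073 (n 4872 (n 4371 o o o) o o) o o))) o (n 5006 (n 4680 (n 4602 o o (n 4509 (n 4320 (n 3196 o o (n 1929 o o o)) o o) o o)) o (n 4372 (n 3651 (n 1396 o o o) o (n 3235 o o o)) o (n 4249 o (n 3992 o o o) o))) o (n 4766 (n 4222 o (n 3181 o o (n 1395 o o o)) o) (n 4480 o o (n 4153 (n 1736 o o o) o o)) o))) (n 5434 o o (n 5378 o o (n 5330 (n 5121 o o (n 4967 (n 4458 o o o) o o)) o o))) (n 4821 (n 4122 (n 3736 (n 3659 o o (n 3576 (n 3093 o o (n 2582 (n 1538 o o o) o o)) o o)) o (n 3313 (n 2305 o o (n 1435 o o o)) o (n 3057 (n 2746 o o o) (n 1365 o o o)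 o))) o (n 3500 (n 1292 (n 604 o o (n 4 o o o)) o o) (n 3007 o o (n 2205 o o (n 1335 o o o))) (n 3101 o o o))) (n 4745 o o (n 4618 o o (n 4463 (n 4140 (n 1735 o o o) o o) o o))) (n 4249 o (n 3141 (n 2695 o o (n 2037 o o (n 1391 o o o))) o (n 1391 o o o)) o)))
/-- part of the table -/
def t87 : Tr := (n 6102 (n 5968 (n 5897 o o (n 5817 (n 5650 (n 5351 o o (n 5068 (n 4543 o o o) o o)) o (n 5554 (n 5448 o (n 4524 o o o) o) (n 5030 o o (n 4543 o o o)) o)) o (n 5790 (n 5759 o (n 5701 (n 4524 o o o) o o) o) (n 5733 (n 5081 o o (n 4543 o o o)) o o) o))) o (n 5841 (n 5582 (n 4801 (n 4198 o o (n 3637 (n 1327 o o o) o (n 3212 o o o))) o (n 4272 o (n 3148 o o (n 1327 o o o)) o)) (n 5449 o o (n 5214 o o (n 4936 (n 4466 o o o) o o))) (n 5443 o (n 4376 (n 3129 o o (n 1308 o o o)) o o) o)) (n 5806 o o (n 5764 (n 5446 o o (n 5092 (n 4518 o o o) o o)) o o)) (n 5801 o (n 5728 (n 4401 (n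 3129 o o (n 1308 o o o)) o o) o o) o))) (n 6043 o o (n 5990 o o (n 5941 (n 5900 (n 5806 (n 5090 o o (n 4521 o o o)) o o) o o) o o))) (n 5943 (n 5784 (n 4380 (n 3065 (n 2599 o o (n 1937 o o (n 1293 o o o))) o (n 1293 o o o)) o o) (n 5445 (n 5324 o o (n 5135 o o (n 4932 (n 4461 o o o) o o))) o (n 4879 (n 4483 o o (n 4082 (n 1615 o o o) o o)) o (n 4408 o o o))) o) (n 5753 (n 5710 o o (n 5664 (n 5356 o o (n 5014 (n 4495 o o o) o o)) o o)) o (n 5556 (n 4858 (n 4457 o o (n 4040 (n 1570 o o o) o o)) o (n 4405 o o o)) o (n 5417 o (n 4449 o o o) o))) o))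
/-- part of the table -/
def t88 : Tr := (n 6295 (n 6258 (n 6252 o o (n 6244 o o (n 6235 (n 6209 (n 6070 (n 5944 (n 4563 o o o) o o) o o) o o) o o))) (n 6254 (n 6239 o (n 6226 (n 6201 (n 6048 (n 5379 o (n 4884 o o o) o) o o) o o) o o) o) (n 6251 o o (n 6226 o (n 6201 (n 6048 (n 5379 o (n 4884 o o o) o) o o) o o) o)) o) (n 6215 (n 6171 o o (n 6129 (n 6000 (n 5762 (n 5011 (n 4605 o o (n 4173 (n 1695 o o o) o o)) o (n 4497 o o o)) o (n 5618 o (n 4526 o o o) o)) o (n 5943 o (n 5875 (n 4554 o o o) o o) o)) o o)) o (n 6175 (n 6011 (n 5851 (n 4424 (n 3127 o o (n 1304 o o o)) o o) (n 5555 o o (n 5022 o o (n 4536 o o o))) o) (n 5893 o o (n 5768 (n 5064 o o (n 4524 o o o)) o o)) o) (n 6139 o o (n 6096 (n 5995 (n 5236 o o (n 4597 o o o)) o o) o o)) o))) (n 6219 (n 6169 (n 6138 o (n 6109 (n 5988 (n 5689 o (n 5397 (n 4902 o o o) o o) o) (n 5918 o o (n 5397 o (n 4902 o o o) o)) o)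 o o) o) (n 6134 (n 5969 (n 5205 (n 4840 o (n 4508 (n 1944 o o o) o o) o) (n 4655 o o (n 3515 o (n 1629 o o o) o)) o) o o) o (n 6097 o (n 6052 (n 5739 o (n 5390 (n 4894 o o o) o o) o) o o) o)) o) o o) t87)
/-- part of the table -/
def t89 : Tr := (n 6766 t73 (n 6400 (n 6217 t75 t77 (n 6196 o (n 6176 (n 6172 o (n 6167 (n 6157 (n 6092 o (n 6016 (n 5858 (n 5543 (n 5030 o o o) o o) o o) o o) o) o o) o o) o) (n 6156 (n 6085 (n 5942 (n 5866 o (n 5775 (n 5571 (n 5180 (n 2494 o o o) o o) o o) o o) o) (n 5818 (n 5526 (n 5012 o o o) o o) o o) o) (n 6051 (n 6008 o o (n 5537 o (n 5023 o o o) o)) o (n 5819 o (n 5537 (n 5023 o o o) o o) o)) o) o o) o) (n 6193 (n 6093 (n 6062 (n 5978 o o (n 5898 (n 5759 (n 4298 o o o) o o) o o)) o (n 6047 o (n 5898 o o (n 5759 (n 4298 o o o) o o)) o)) o o) o o))) (n 6122 t79 o t80) t81) (n 6506 (n 6183 t84 t85 (n 5974 (n 4394 (n 2997 (n 2476 (n 2309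 o o (n 2071 o o (n 1832 (n 1236 o o o) o o))) o (n 1786 (n 1294 o o (n 839 (n 4 o o o) o (n 567 o o o))) o (n 1209 o o o))) (n 2760 o o (n 2573 o o (n 2417 (n 1726 o o (n 1266 o o o)) o o))) (n 1214 (n 544 (n 306 o o (n 4 o o (n 4 o o o))) o (n 4 o o o)) (n 1120 o o (n 965 o o (n 831 (n 4 o o o) o o))) o)) (n 4182 (n 4115 o o (n 4011 o o (n 3896 (n 3554 (n 1295 o o o) o o) o o))) o (n 3847 (n 3536 o o (n 3188 (n 2163 o o (n 1295 o o o)) o (n 2999 o (n 1295 o o o) o))) o (n 3518 (n 1280 o o o) o o))) o) t86 o)) t88 o))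
/-- part of the table -/
def t90 : Tr := (n 6747 (n 6615 (n 6501 o (n 6387 (n 6134 (n 5640 (n 4718 (n 2329 o o o) (n 4200 o o o) o) (n 5470 o o (n 5016 o o o)) o) (n 6078 o o (n 5864 (n 5192 o o o) o o)) o) (n 6367 o o (n 6280 (n 5979 (n 5265 o o o) o o) o o)) o) o) (n 6514 (n 6309 (n 5937 (n 5153 o o (n 4129 o (n 2263 o o o) o)) o (n 5695 o (n 5366 (n 2847 o o o) o o) o)) o (n 6025 o (n 5609 (n 4712 (n 2324 o o o) (n 4200 o o o) o) (n 5446 o o (n 4992 o o o)) o) o)) o (n 6396 o (n 6256 (n 5743 (n 4809 (n 2402 o o o) (n 4200 o o o) o) (n 5462 o o (n 5008 o o o)) o) o o) o)) o) (n 6701 (n 6640 (n 6558 (n 6463 o o (n 5138 o o o)) o (n 6023 (n 5709 o (n 5338 (n 2825 o o o) o o) o) (n 5321 o o o) o)) o (n 6393 (n 6252 o (n 6080 (n 5693 (n 3109 o o o) o o) o o) o) (n 6071 (n 5337 o o o) o o) o)) o (n 6554 (n 6349 o (n 6109 (n 5626 (n 4699 (n 2314 o o o) (n 4200 o o o) o)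 (n 5472 o o (n 5023 o o o)) o) (n 6062 o o (n 5856 (n 5190 o o o) o o)) o) o) (n 6405 (n 6038 (n 5292 o o o) o (n 5753 o (n 5382 (n 2860 o o o) o o) o)) o o) o)) (n 6732 o (n 6707 o (n 6679 (n 6617 (n 6469 (n 6119 (n 5362 o o o) o o) o o) o o) o o) o) o))
/-- part of the table -/
def t91 : Tr := (n 6406 (n 6128 (n 5953 o (n 5766 (n 5371 (n 4672 (n 3617 o (n 2615 o o o) o) (n 4213 (n 3730 o o o) o (n 2367 o o o)) o) (n 5208 (n 5053 o o (n 4641 o o o)) o (n 4994 (n 2701 o o o) o o)) o) (n 5706 (n 5662 o o (n 5480 (n 4916 o o o) o o)) o (n 5557 (n 4724 (n 2422 o o o) (n 4091 o o o) o) o o)) o) o) (n 5874 (n 5372 (n 4467 (n 2150 (n 1234 o (n 37 o o o) o) o o) (n 4014 o o o) (n 4009 o (n 3187 o (n 2223 o o o) o) o)) (n 5236 o o (n 4829 o o o)) (n 5136 o (n 4776 (n 3664 o (n 2433 o o o) o) (n 4608 (n 4135 o o o) o o) o) o)) (n 5823 o o (n 5625 (n 4975 o o (n 4048 o (n 2241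 o o o) o)) o o)) (n 5692 o (n 5449 (n 4730 (n 3654 o (n 2564 o o o) o) (n 4162 (n 3723 o o o) o (n 2325 o o o)) o) (n 5388 (n 5251 o o (n 4839 o o o)) o o) o) o)) o) (n 6176 (n 5775 (n 5064 o o (n 3992 (n 3569 o (n 2897 o (n 2182 o o o) o) o) (n 2116 (n 1201 o (n 4 o o o) o) o o) o)) (n 5775 o o (n 5775 o o (n 4928 o o o))) (n 5237 (n 4963 o (n 4622 (n 3576 o (n 2609 o o o) o) (n 4425 o o (n 2530 o o o)) o) o) (n 4502 (n 2118 (n 1202 o (n 5 o o o) o) o o) (n 4075 o o o) o) o)) (n 6169 o o (n 6154 (n 6099 o o (n 4994 o o o)) o (n 5854 o (n 5196 o o o) o))) (n 5835 (n 5628 o (n 5383 (n 4698 (n 3647 o (n 2658 o o o) o) (n 4259 (n 3720 o o o) o (n 2402 o o o)) o) (n 5320 o o (n 5113 (n 2802 o o o) o o)) o) o) (n 5414 (n 4480 (n 2135 (n 1220 o (n 22 o o o) o) o o) (n 4039 o o o) (n 3991 o (n 3168 o (n 2205 o o o) o) o)) (n 5281 o o (n 4866 o o o)) o) o)) (n 6367 o (n 6300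 o (n 6224 (n 5994 (n 5531 (n 4644 (n 2288 o o o) (n 4171 o o o) o) (n 5389 o o (n 4959 o o o)) o) (n 5948 o o (n 5754 (n 5120 o o o) o o)) o) o o) o) o))
/-- part of the table -/
def t92 : Tr := (n 6722 t91 (n 6635 (n 6535 (n 6424 o o (n 5062 (n 3915 o (n 2058 o o o) o) o o)) o (n 5923 (n 5316 (n 5159 o (n 4985 (n 3876 o (n 2656 o o o) o) o o) o) (n 4602 (n 2262 o o o) (n 4171 o o o) o) o) (n 5185 o o (n 4114 o (n 2261 o o o) o)) o)) o (n 6272 (n 5851 (n 5638 o (n 5399 (n 4709 (n 3659 o (n 2675 o o o) o) (n 4277 (n 3726 o o o) o (n 2417 o o o)) o) (n 5339 o o (n 5136 (n 2817 o o o) o o)) o) o) (n 5408 (n 4467 (n 2143 (n 1227 o (n 30 o o o) o) o o) (n 4021 o o o) (n 4001 o (n 3178 o (n 2215 o o o) o) o)) (n 5275 o o (n 4849 o o o)) (n 5283 o (n 5131 (n 4018 o (n 2784 o o o) o) o o) o)) o) (n 5894 (n 5150 o o (n 4113 o (n 2259 o o o) o)) o (n 5363 o (n 4649 (n 2285 o o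 o) (n 4184 o o o) o) o)) o)) (n 6668 (n 6655 o (n 6634 o (n 6614 (n 6552 (n 6412 (n 6074 (n 5333 o o o) o o) o o) o o) o o) o) o) (n 6587 (n 6468 o (n 6338 (n 6085 (n 5603 (n 4688 (n 2311 o o o) (n 4192 o o o) o) (n 5450 o o (n 5005 o o o)) o) (n 6038 o o (n 5834 (n 5175 o o o) o o)) o) (n 6319 o o (n 6240 (n 5947 (n 5246 o o o) o o) o o)) o) o) (n 6515 (n 6353 (n 5991 (n 5252 o o o) o (n 5728 o (n 5365 (n 2852 o o o) o o) o)) o (n 6231 o (n 6079 (n 5701 (n 3121 o o o) o o) o o) o)) o o) o) o))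
/-- part of the table -/
def t93 : Tr := (n 5695 (n 5337 (n 5160 o (n 4960 (n 4539 (n 4078 o (n 3652 (n 2578 o o o) o o) o) (n 4247 (n 3870 (n 3496 o o o) o (n 2261 o o o)) o (n 3452 o (n 2478 o o o) o)) o) (n 4865 (n 4763 (n 4662 o o (n 4356 o o o)) o (n 4588 (n 2522 o o o) o o)) o (n 4567 (n 3576 o (n 2443 o o o) o) (n 4377 (n 3930 o o o) o o) o)) o) o) (n 4971 (n 4272 (n 3215 (n 2521 o (n 1751 (n 236 o o o) (n 1438 o o o) o) o) (n 2311 o o o) o) (n 3889 (n 3515 o o o) o (n 2107 (n 1243 o (n 49 o o o) o) o o)) (n 4066 o (n 3705 o (n 3290 (n 2355 o o o) o o) o) o)) (n 4817 (n 4722 o o (n 4435 o o o)) o (n 4245 (n 2091 (n 1205 o (n 11 o o o) o) o o) (n 3852 o o o) o)) (n 4801 o (n 4549 (n 4061 o (n 3526 (n 2499 o o o) o o) o) (n 4377 (n 4009 (n 3626 o o o) o (n 2221 o o o)) o o) o) o)) o) (n 5227 (n 4346 (n 2062 (n 1155 (n 792 o (n 303 o (n 5 o o o) o) o) (n 5 o o o)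 o) o (n 1939 o (n 1719 o (n 1497 (n 5 o o o) o o) o) o)) (n 3940 o o o) (n 3830 (n 3640 o (n 3345 o (n 3037 (n 2114 o o o) o o) o) o) (n 2970 (n 2277 o (n 1510 (n 7 o o o) (n 1208 o o o) o) o) (n 2076 o o o) o) o)) (n 5099 (n 5098 o o (n 5098 o o (n 4525 o o o))) o (n 4721 o o (n 3948 o (n 2192 o o o) o))) (n 4824 (n 4696 o (n 4545 (n 4086 o (n 3669 (n 2554 o o o) o o) o) (n 4458 o o (n 3634 o (n 2554 o o o) o)) o) o) (n 4270 (n 3182 (n 2479 o (n 1686 (n 176 o o o) (n 1381 o o o) o) o) (n 2286 o o o) o) (n 3914 (n 3589 o o o) o (n 2160 o o o)) o) o)) (n 5658 o (n 5590 o (n 5513 (n 5278 (n 4609 (n 3580 o (n 2615 o o o) o) (n 4197 (n 3680 o o o) o (n 2365 o o o)) o) (n 5218 o o (n 5032 (n 2760 o o o) o o)) o) o o) o) o))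
/-- part of the table -/
def t94 : Tr := (n 6209 t93 (n 5787 (n 5065 o o (n 3954 (n 3484 (n 3323 o (n 3083 o (n 2831 (n 2118 o o o) o o) o) o) (n 2787 (n 2488 o (n 2220 (n 574 o o o) o o) o) (n 2074 o o o) o) o) (n 2080 (n 1154 (n 790 o (n 302 o (n 4 o o o) o) o) (n 4 o o o) o) o o) o)) (n 5787 o o (n 5786 o o (n 4930 (n 3854 o (n 2034 o o o) o) o o))) (n 5173 (n 4731 (n 4602 o (n 4458 (n 4000 o (n 3584 (n 2467 o o o) o o) o) (n 4374 o o (n 3549 o (n 2467 o o o) o)) o) o) (n 4205 (n 3137 (n 2435 o (n 1643 (n 127 o o o) (n 1338 o o o) o) o) (n 2243 o o o) o) (n 3901 (n 3581 o o o) o (n 2168 o o o)) (n 3988 o (n 3627 o (n 3213 (n 2289 o o o) o o) o) o)) o) (n 4422 (n 2108 (n 1200 o (n 5 o o o) o) o o) (n 4007 o o o) (n 3943 o (n 3132 o (n 2173 o o o) o) o)) o)) (n 6118 (n 6097 o (n 6065 o (n 6031 (n 5933 (n 5559 (n 5226 (n 2774 o o o) o o) (n 5394 o o (n 4890 o o o)) o)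 o o) o o) o) o) (n 5967 (n 5826 o (n 5672 (n 5286 (n 4595 (n 3554 o (n 2575 o o o) o) (n 4144 (n 3709 o o o) o (n 2316 o o o)) o) (n 5139 (n 5004 o o (n 4591 o o o)) o (n 4940 (n 2672 o o o) o o)) o) (n 5652 o o (n 5569 (n 5276 (n 2882 o o o) o o) o o)) o) o) (n 5819 (n 5348 (n 4432 (n 2122 (n 1212 o (n 16 o o o) o) o o) (n 4005 o o o) (n 3968 o (n 3152 o (n 2191 o o o) o) o)) (n 5215 o o (n 4810 o o o)) (n 5223 o (n 5078 (n 3975 o (n 2750 o o o) o) o o) o)) o o) o) o))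
/-- part of the table -/
def t95 : Tr := (n 6401 (n 6141 (n 5999 o (n 5842 (n 5444 (n 4736 (n 3684 o (n 2683 o o o) o) (n 4255 (n 3729 o o o) o (n 2403 o o o)) o) (n 5285 (n 5070 o o (n 4642 o o o)) o (n 5069 (n 2763 o o o) o o)) o) (n 5821 o o (n 5727 (n 5412 (n 2976 o o o) o o) o o)) o) o) (n 5899 (n 5401 (n 4447 (n 2136 (n 1222 o (n 25 o o o) o) o o) (n 4009 o o o) (n 3990 o (n 3169 o (n 2207 o o o) o) o)) (n 5267 o o (n 4845 o o o)) (n 5288 o (n 5137 (n 4023 o (n 2778 o o o) o) o o) o)) (n 5853 o o (n 5670 (n 5046 o o o) o o)) (n 5844 o (n 5775 (n 5610 (n 4465 o (n 3094 o o o) o) o o) o o) o)) o) (n 6200 (n 5818 (n 5118 o o (n 4098 o (n 2256 o o o) o)) (n 5818 o o (n 5818 o o (n 4964 o o o))) (n 5303 (n 5149 o (n 4978 (n 3871 o (n 2651 o o o) o) o o) o) (n 4588 (n 2257 o o o) (n 4159 o o o) o) o)) o (n 5897 o (n 5502 (n 4626 (n 2275 o o o) (n 4172 o o o) o) (n 5367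 o o (n 4946 o o o)) o) o)) o)
/-- part of the table -/
def t96 : Tr := (n 6775 t94 (n 6649 (n 6518 o o (n 5002 (n 3749 (n 3308 o (n 2638 o (n 1923 o o o) o) o) (n 1870 (n 1012 o (n 4 o o o) o) o o) o) o (n 4800 o (n 4482 o (n 4117 (n 1765 o o o) o o) o) o))) o (n 5919 (n 5200 (n 4762 (n 4687 o (n 4607 (n 4120 o (n 3589 (n 2471 o o o) o o) o) o o) o) (n 4243 (n 3139 (n 2437 o (n 1645 (n 127 o o o) (n 1339 o o o) o) o) (n 2244 o o o) o) (n 3932 (n 3607 o o o) o (n 2170 o o o)) o) o) (n 4441 (n 2112 (n 1202 o (n 5 o o o) o) o o) (n 4024 o o o) (n 3954 o (n 3138 o (n 2178 o o o) o) o)) (n 5172 o (n 5118 o (n 5051 (n 4907 (n 3807 o (n 2599 o o o) o) o o) o o) o) o)) (n 5156 o o (n 3999 (n 3563 o (n 2894 o (n 2179 o o o) o) o) (n 2114 (n 1201 o (n 4 o o o) o) o o) o)) (n 5838 o (n 5655 o (n 5440 (n 4590 (n 2247 o o o) (n 4158 o o o) o) o o) o) o))) (n 6625 (n 6577 (n 6565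 o (n 6549 o (n 6532 (n 6484 (n 6343 (n 6025 (n 5306 o o o) o o) o o) o o) o o) o) o) (n 6513 (n 6423 o (n 6335 (n 6070 (n 5580 (n 4670 (n 2302 o o o) (n 4181 o o o) o) (n 5413 o o (n 4985 o o o)) o) (n 5984 o o (n 5798 (n 5159 o o o) o o)) o) o o) o) (n 6459 (n 6321 (n 6005 (n 5290 o o o) o o) o o) o (n 6402 o (n 6329 (n 6154 (n 5783 (n 3193 o o o) o o) o o) o o) o)) o) o) t95 o))
/-- part of the table -/
def t97 : Tr := (n 6964 (n 6949 o (n 6932 (n 6885 (n 6814 o (n 6750 (n 6588 (n 6211 (n 5423 o o o) o o) o o) o o) o) (n 6858 (n 6835 o o (n 6580 o (n 6211 (n 5423 o o o) o o) o)) o (n 6735 o (n 6588 (n 6211 (n 5423 o o o) o o) o o) o)) o) (n 6928 o o (n 6915 (n 6762 o (n 6588 (n 6211 (n 5423 o o o) o o) o o) o) o o)) o) o) (n 6929 (n 6806 (n 6572 (n 6353 o (n 6116 (n 5617 (n 4698 (n 2308 o o o) (n 4206 o o o) o) (n 5468 o o (n 5021 o o o)) o) (n 6069 o o (n 5869 (n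 5200 o o o) o o)) o) o) (n 6387 (n 5987 (n 5172 o o (n 4135 o (n 2263 o o o) o)) o (n 5733 o (n 5400 (n 2869 o o o) o o) o)) o (n 6262 o (n 6100 (n 5740 (n 3141 o o o) o o) o o) o)) o) (n 6750 (n 6668 (n 6566 o o (n 5191 o o o)) o (n 6113 o (n 5394 o o o) o)) o (n 6467 (n 6312 o (n 6123 (n 5728 (n 3132 o o o) o o) o o) o) (n 6133 (n 5382 o o o) o o) o)) (n 6772 o (n 6716 o (n 6651 (n 6507 (n 6161 (n 5399 o o o) o o) o o) o o) o) o)) o o) o)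
/-- part of the table -/
def t98 : Tr := (n 7036 (n 6885 (n 6820 (n 6803 o (n 6782 (n 6750 o (n 6722 (n 6655 (n 6501 (n 6143 (n 5377 o o o) o o) o o) o o) o o) o) (n 6765 (n 6738 (n 6701 (n 6659 o o (n 6128 o (n 5377 o o o) o)) o (n 6471 o (n 6143 (n 5377 o o o) o o) o)) o (n 6631 o (n 6489 (n 6143 (n 5377 o o o) o o) o o) o)) o (n 6711 o (n 6648 (n 6498 (n 6143 (n 5377 o o o) o o) o o) o o) o)) o) o) t90 o) t92 (n 6882 o (n 6876 o (n 6869 (n 6843 (n 6773 o (n 6709 (n 6538 (n 6164 (n 5390 o o o) o o) o o) o o) o) (n 6830 o o (n 6703 o (n 6538 (n 6164 (n 5390 o o o) o o) o o) o)) o) o o) o) o)) t96 (n 7001 (n 6998 o (n 6995 o (n 6991 (n 6981 (n 6959 (n 6792 o (n 6607 (n 6221 (n 5427 o o o) o o) o o) o) o o) o o) o o) o) (n 6996 (n 6993 (n 6987 (n 6945 o o (n 6895 (n 6827 (n 6608 (n 4598 o o o) o o) o o) o o)) o o) o o) o o)) t97 (n 6999 (n 6994 (n 6968 (n 6878 (n 6819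 o o (n 6752 (n 6623 (n 5696 o o (n 4741 o o o)) o o) o o)) o (n 6816 (n 6598 (n 4600 o o o) o o) o o)) o o) o o) o o)))
/-- part of the table -/
def t99 : Tr := (n 4610 (n 4333 (n 4222 o (n 4084 (n 3884 o (n 3703 (n 3277 (n 2288 o o o) o o) o o) o) (n 3980 (n 3808 (n 3569 (n 3297 o o o) o (n 2099 o o o)) o (n 3124 o (n 2212 o o o) o)) o (n 3636 o (n 3232 (n 2268 o o o) o o) o)) o) o) (n 4019 (n 3481 (n 3057 o (n 2614 (n 1727 (n 218 o o o) (n 1372 o o o) o) (n 2487 o o (n 1930 o o o)) o) o) (n 3055 (n 2067 o o (n 1356 o (n 173 o o o) o)) o (n 2837 o (n 2602 (n 932 o o o) o o) o)) o) (n 3815 (n 3564 (n 3287 o o o) o (n 2065 o o o)) o (n 3022 (n 2381 o (n 1618 (n 119 o o o) (n 1317 o o o) o) o) (n 2155 o o o) o)) (n 3924 o (n 3766 o (n 3586 (n 3189 (n 2241 o o o) o o) o o) o) o)) o) (n 4062 (n 2889 (n 2186 (n 1893 o (n 1562 (n 734 o (n 173 o o o) o) (n 1445 (n 1166 o o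 o) o o) o) o) (n 1450 (n 57 o o o) (n 1170 o o o) (n 1062 o (n 452 o (n 57 o o o) o) o)) o) (n 1922 o (n 1921 o o (n 1920 o o o)) (n 1172 o (n 5 o o o) o)) (n 2780 o (n 2587 o (n 2379 (n 1537 (n 57 o o o) (n 1239 o o o) o) o o) o) o)) (n 3758 (n 3445 o o o) o (n 2025 (n 1182 o (n 5 o o o) o) o o)) (n 3804 (n 3718 o (n 3589 o (n 3455 (n 3059 (n 2168 o o o) o o) o o) o) o) (n 3408 (n 2977 o (n 2504 (n 1609 (n 116 o o o) (n 1308 o o o) o) (n 2378 o o (n 1876 o o o)) o) o) (n 3025 (n 2151 o o o) o o) o) o)) (n 4590 o (n 4553 o (n 4510 (n 4345 (n 3895 o (n 3484 (n 2389 o o o) o o) o) (n 4262 o o (n 3450 o (n 2389 o o o) o)) o) o o) o) o))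
/-- part of the table -/
def t100 : Tr := (n 5131 t99 (n 4353 (n 2046 (n 1143 (n 777 (n 646 o (n 463 o (n 303 (n 5 o o o) o o) o) o) (n 303 o (n 5 o o o) o) o) (n 5 o o o) o) o (n 1907 (n 1856 o (n 1778 o (n 1694 (n 1472 (n 4 o o o) o o) o o) o) o) (n 1674 (n 1532 o (n 1389 (n 565 o (n 4 o o o) o) o o) o) (n 1452 (n 4 o o o) o o) o) o)) (n 3943 o o o) (n 3768 (n 3534 (n 3462 o (n 3357 o (n 3248 (n 2940 (n 2041 o o o) o o) o o) o) o) (n 3209 (n 2948 o (n 2689 (n 1741 (n 207 o o o) (n 1196 o o o) o) o o) o) (n 2901 (n 2022 o o o) o o) o) o) (n 2868 (n 2187 (n 2042 o (n 1891 (n 1065 o (n 505 o o o) o) o o) o) (n 1466 (n 6 o o o) (n 1173 o o o) o) o) (n 1930 o o (n 1172 o (n 5 o o o) o)) o) o)) (n 4985 (n 4972 o (n 4952 o (n 4930 (n 4865 (n 4727 (n 3653 o (n 2474 o o o) o) o o) o o) o o) o) o) (n 4818 (n 4720 o (n 4611 (n 4316 (n 3861 o (n 3447 (n 2413 o o o) o o) o) (n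 4139 (n 3994 o o (n 2363 o o o)) o (n 3354 o (n 2413 o o o) o)) o) (n 4585 o o (n 4507 (n 3528 o (n 2413 o o o) o) o o)) o) o) (n 4667 (n 4124 (n 3066 (n 2373 o (n 1586 (n 81 o o o) (n 1283 o o o) o) o) (n 2175 o o o) o) (n 3867 (n 3549 o o o) o (n 2140 o o o)) (n 3907 o (n 3549 o (n 3135 (n 2215 o o o) o o) o) o)) o o) o) o))
/-- part of the table -/
def t101 : Tr := (n 5501 (n 5214 (n 5071 o (n 4912 (n 4483 (n 4024 o (n 3602 (n 2538 o o o) o o) o) (n 4165 (n 3800 (n 3506 o o o) o (n 2208 o o o)) o (n 3374 o (n 2408 o o o) o)) o) (n 4865 (n 4810 o o (n 4646 (n 2573 o o o) o o)) o (n 4778 (n 3789 o (n 2665 o o o) o) o o)) o) o) (n 4941 (n 4246 (n 3192 (n 2489 o (n 1688 (n 174 o o o) (n 1383 o o o) o) o) (n 2299 o o o) o) (n 3898 (n 3580 o o o) o (n 2176 o o o)) (n 4040 o (n 3681 o (n 3266 (n 2343 o o o) o o) o) o)) (n 4835 o o (n 4281 (n 2198 o o o) (n 3897 o o o) o))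 (n 4885 o (n 4818 (n 4332 o (n 3799 (n 2626 o o o) o o) o) o o) o)) o) (n 5242 (n 4388 (n 2104 (n 1199 o (n 4 o o o) o) o o) (n 3979 o o o) (n 3929 o (n 3124 o (n 2168 o o o) o) o)) o (n 4865 (n 4795 o (n 4719 (n 4234 o (n 3707 (n 2577 o o o) o o) o) o o) o) (n 4343 (n 3326 o (n 2369 o o o) o) (n 3989 (n 3659 o o o) o (n 2201 o o o)) o) o)) o)
/-- part of the table -/
def t102 : Tr := (n 5946 t100 (n 5156 o o (n 3928 (n 3380 (n 3195 (n 3136 o (n 3050 o (n 2961 (n 2709 (n 2046 o o o) o o) o o) o) o) (n 2940 (n 2810 o (n 2667 (n 2412 (n 736 o o o) o o) o o) o) (n 2689 (n 2025 o o o) o o) o) o) (n 2628 (n 2032 (n 1887 o (n 1737 (n 908 o (n 348 o o o) o) o o) o) (n 1467 (n 4 o o o) (n 1174 o o o) o) o) (n 1933 o o (n 1173 o (n 4 o o o) o)) o) o) (n 2063 (n 1153 (n 791 o (n 302 o (n 4 o o o) o) o) (n 4 o o o) o) o (n 1934 o (n 1716 o (n 1495 (n 4 o o o) o o) o) o)) (n 3695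 o (n 3508 o (n 3351 (n 2651 o (n 2143 o o o) o) o o) o) o))) (n 5776 (n 5715 (n 5704 o (n 5688 o (n 5670 (n 5622 (n 5477 (n 5169 (n 2739 o o o) o o) o o) o o) o o) o) o) (n 5628 (n 5538 o (n 5449 (n 5181 (n 4484 (n 3446 o (n 2462 o o o) o) (n 4030 (n 3699 o o o) o (n 2230 o o o)) o) (n 5082 o o (n 4906 (n 2648 o o o) o o)) o) o o) o) (n 5547 (n 5341 (n 4516 (n 2230 o o o) (n 4095 o o o) o) o o) o (n 5490 o (n 5415 (n 5251 (n 4129 o (n 2814 o o o) o) o o) o o) o)) o) o) t101 o))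
/-- part of the table -/
def t103 : Tr := (n 6315 (n 6071 (n 5930 o (n 5776 (n 5376 (n 4673 (n 3623 o (n 2630 o o o) o) (n 4202 (n 3726 o o o) o (n 2361 o o o)) o) (n 5220 (n 5031 o o (n 4629 o o o)) o (n 5012 (n 2720 o o o) o o)) o) (n 5756 o o (n 5664 (n 5358 (n 2933 o o o) o o) o o)) o) o) (n 5857 (n 5362 (n 4420 (n 2116 (n 1203 o (n 5 o o o) o) o o) (n 4007 o o o) (n 3964 o (n 3144 o (n 2182 o o o) o) o)) (n 5228 o o (n 4832 o o o)) (n 5249 o (n 5100 (n 3989 o (n 2750 o o o) o) o o) o)) (n 5811 o o (n 5628 (n 5031 o o o) o o)) (n 5802 o (n 5730 (n 5568 (n 4426 o (n 3065 o o o) o) o o) o o) o)) o) (n 6165 (n 5808 (n 5112 o o (n 4094 o (n 2254 o o o) o)) o (n 5306 o (n 4596 (n 2255 o o o) (n 4164 o o o) o) o)) o (n 5856 (n 5787 o (n 5703 (n 5526 (n 4386 o (n 3035 o o o) o) o o) o o) o) (n 5460 (n 4590 (n 2255 o o o) (n 4159 o o o) o) (n 5325 o o (n 4927 o o o)) o)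 o)) (n 6301 o (n 6276 o (n 6248 (n 6184 (n 6028 (n 5679 (n 3120 o o o) o o) o o) o o) o o) o) o))
/-- part of the table -/
def t104 : Tr := (n 5723 (n 5380 (n 5261 o (n 5133 (n 4701 (n 4240 o (n 3815 (n 2677 o o o) o o) o) (n 4379 (n 3942 (n 3524 o o o) o (n 2321 o o o)) o (n 3572 o (n 2546 o o o) o)) o) (n 5106 o o (n 5016 (n 4005 o (n 2804 o o o) o) o o)) o) o) (n 5024 (n 4316 (n 3258 (n 2551 o (n 1747 (n 227 o o o) (n 1434 o o o) o) o) (n 2356 o o o) o) (n 3958 (n 3593 o o o) o (n 2225 o o o)) (n 4110 o (n 3750 o (n 3335 (n 2402 o o o) o o) o) o)) (n 4870 (n 4773 o o (n 4487 o o o)) o (n 4305 (n 2212 o o o) (n 3919 o o o) o)) (n 4967 o (n 4898 (n 4410 o (n 3873 (n 2688 o o o) o o) o) o o) o)) o) (n 5271 (n 4409 (n 2114 (n 1203 o (n 5 o o o) o) o o) (n 3998 o o o) (n 3949 o (n 3140 o (n 2180 o o o) o) o)) (n 5142 o o (n 4763 o o (n 3984 o (n 2215 o o o) o))) (n 4893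 (n 4823 o (n 4744 (n 4257 o (n 3727 (n 2592 o o o) o o) o) o o) o) (n 4367 (n 3345 o (n 2384 o o o) o) (n 4011 (n 3680 o o o) o (n 2216 o o o)) o) o)) (n 5708 o (n 5684 o (n 5655 (n 5589 (n 5434 (n 4312 o (n 2987 o o o) o) o o) o o) o o) o) o))
/-- part of the table -/
def t105 : Tr := (n 6653 (n 6507 (n 6467 (n 6457 o (n 6444 o (n 6430 (n 6391 (n 6287 (n 5967 (n 5281 o o o) o o) o o) o o) o o) o) o) (n 6414 (n 6345 o (n 6275 (n 6118 (n 5616 (n 4701 (n 2331 o o o) (n 4174 o o o) o) (n 5366 o o (n 4966 o o o)) o) o o) o o) o) (n 6369 (n 6265 (n 5949 (n 5265 o o o) o o) o o) o (n 6313 o (n 6239 (n 6070 (n 5710 (n 3138 o o o) o o) o o) o o) o)) o) o) t103 o) (n 6216 t104 (n 5811 (n 5090 o o (n 3988 (n 3561 o (n 2893 o (n 2179 o o o) o) o) (n 2114 (n 1201 o (n 4 o o o) o) o o) o)) o (n 5197 (n 4812 o (n 4337 (n 3298 o (n 2336 o o o) o) (n 4025 (n 3691 o o o) o (n 2215 o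 o o)) o) o) (n 4444 (n 2115 (n 1202 o (n 5 o o o) o) o o) (n 4027 o o o) (n 3960 o (n 3142 o (n 2181 o o o) o) o)) o)) (n 6146 o (n 6027 o (n 5892 (n 5446 (n 4583 (n 2249 o o o) (n 4153 o o o) o) (n 5312 o o (n 4916 o o o)) o) o o) o) o)) (n 6617 o (n 6588 o (n 6563 (n 6454 o (n 6374 (n 6040 (n 5336 o o o) o o) o o) o) o o) o) o))
/-- part of the table -/
def t106 : Tr := (n 7198 (n 7194 o (n 7192 o (n 7189 (n 7182 (n 7159 (n 7111 (n 6731 o (n 6303 (n 5478 o o o) o o) o) o o) o o) o o) o o) o) (n 7192 (n 7184 (n 7165 o o (n 7143 (n 7101 (n 7034 (n 6816 (n 4791 o o o) o o) o o) o o) o o)) o (n 7181 (n 7171 o (n 7101 o o (n 7034 (n 6816 (n 4791 o o o) o o) o o)) o) o o)) o o)) (n 7180 (n 7166 o (n 7152 (n 7110 (n 7001 (n 6839 o (n 6685 (n 6301 (n 5478 o o o) o o) o o) o) (n 6931 (n 6879 o o (n 6280 o (n 5478 o o o) o)) o (n 6649 o (n 6301 (n 5478 o o o) o o) o)) o) (n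 7095 o o (n 7067 (n 6715 o (n 6301 (n 5478 o o o) o o) o) o o)) o) o o) o) (n 7163 (n 7107 (n 6913 (n 6533 (n 6365 o (n 6175 (n 5761 (n 3145 o o o) o o) o o) o) (n 6184 (n 5421 o o o) o o) o) (n 6812 (n 6695 o o (n 5229 o o o)) o (n 6138 (n 5782 o (n 5389 (n 2847 o o o) o o) o) (n 5398 o o o) o)) o) o o) o (n 7154 o (n 7142 (n 7117 (n 6941 o (n 6736 (n 6296 (n 5476 o o o) o o) o o) o) o o) o o) o)) o) (n 7189 (n 7167 (n 7102 (n 7065 o o (n 7026 (n 6943 (n 6624 (n 5748 o o (n 4939 o o o)) o (n 6389 o (n 4784 o o o) o)) o o) o o)) o (n 7047 (n 6961 (n 6713 (n 4640 (n 3354 o o (n 1567 o o o)) o o) o o) (n 6868 o o (n 6743 (n 5832 o o (n 4921 o o o)) o o)) o) (n 7003 o o (n 6949 (n 6820 (n 5893 o o (n 4931 o o o)) o o) o o)) o)) o (n 7157 o (n 7085 (n 7030 o o (n 6965 (n 6836 (n 5909 o o (n 4945 o o o)) o o) o o)) o (n 7017 (n 6801 (n 4791 o o o) o o) o o)) o)) o (n 7187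 o (n 7170 (n 7094 o o (n 7033 (n 6815 (n 4792 o o o) o o) o o)) o o) o)))
/-- part of the table -/
def t107 : Tr := (n 7012 (n 6853 (n 6617 (n 6395 o (n 6152 (n 5650 (n 4717 (n 2313 o o o) (n 4216 o o o) o) (n 5486 o o (n 5041 o o o)) o) (n 6105 o o (n 5888 (n 5217 o o o) o o)) o) o) (n 6427 (n 6010 (n 5189 o o (n 4145 o (n 2263 o o o) o)) o (n 5754 o (n 5418 (n 2874 o o o) o o) o)) o (n 6302 o (n 6144 (n 5777 (n 3161 o o o) o o) o o) o)) o) (n 6773 (n 6691 (n 6588 o o (n 5197 o o o)) o (n 6103 (n 5770 o (n 5386 (n 2848 o o o) o o) o) (n 5372 o o o) o)) o (n 6490 (n 6335 o (n 6152 (n 5749 (n 3138 o o o) o o) o o) o) (n 6150 (n 5396 o o o) o o) o)) (n 6821 o (n 6764 o (n 6700 (n 6555 (n 6189 (n 5420 o o o) o o) o o) o o) o) o)) (n 6990 o o (n 6868 (n 6522 (n 6359 o (n 6162 (n 5755 (n 3143 o o o) o o) o o) o) (n 6179 (n 5422 o o o) o o) o) (n 6785 (n 6673 o o (n 5239 o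 o o)) o (n 6176 o (n 5442 o o o) o)) o)) (n 7003 o (n 6993 (n 6917 o (n 6833 (n 6650 (n 6240 (n 5449 o o o) o o) o o) o o) o) o o) o))
/-- part of the table -/
def t108 : Tr := (n 6817 (n 6313 (n 5857 (n 5636 o (n 5398 (n 4702 (n 3650 o (n 2666 o o o) o) (n 4269 (n 3726 o o o) o (n 2409 o o o)) o) (n 5336 o o (n 5134 (n 2809 o o o) o o)) o) o) (n 5411 (n 4455 (n 2128 (n 1213 o (n 22 o o o) o) o o) (n 4018 o o o) (n 3986 o (n 3161 o (n 2198 o o o) o) o)) (n 5276 o o (n 4857 o o o)) (n 5282 o (n 5127 (n 4011 o (n 2774 o o o) o) o o) o)) o) (n 5913 (n 5167 o o (n 4116 o (n 2259 o o o) o)) o (n 5352 (n 5192 o (n 5014 (n 3902 o (n 2678 o o o) o) o o) o) (n 4629 (n 2277 o o o) (n 4176 o o o) o) o)) (n 6281 o (n 6225 o (n 6159 (n 6010 (n 5662 (n 3089 o o o) o o) o o) o o) o) o)) (n 6708 (n 6579 o o (n 5121 (n 3931 o (n 2058 o o o) o) o o)) o (n 5994 (n 5343 (n 5178 o (n 4998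 (n 3886 o (n 2662 o o o) o) o o) o) (n 4618 (n 2263 o o o) (n 4184 o o o) o) o) (n 5230 o o (n 4129 o (n 2262 o o o) o)) o)) (n 6737 o (n 6601 (n 6525 o (n 6442 (n 6254 (n 5868 (n 3242 o o o) o o) o o) o o) o) (n 6451 (n 6113 (n 5375 o o o) o o) o o) o) o))
/-- part of the table -/
def t109 : Tr := (n 7210 (n 7171 (n 7038 (n 6914 (n 6888 o o (n 6858 (n 6793 (n 6384 o o (n 5893 (n 4929 o o o) o o)) o o) o o)) o (n 6798 (n 6488 (n 5587 (n 5181 o o (n 4749 (n 2334 o o o) o o)) o (n 4835 o o o)) o (n 6332 o (n 4734 o o o) o)) o (n 6751 o (n 6633 (n 4760 o o o) o o) o))) o (n 6950 (n 6694 (n 4649 (n 3365 o o (n 1577 o o o)) o o) (n 6315 o o (n 5648 o o (n 4897 o o o))) o) (n 6758 (n 6702 o o (n 6641 (n 6243 o o (n 5799 (n 4930 o o o) o o)) o o)) o (n 6525 (n 5682 o o (n 4930 o o o)) o (n 6370 o (n 4775 o o o) o))) o)) (n 7149 o o (n 7118 o o (n 7084 (n 7032 (n 6816 (n 4799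 o o o) o o) o o) o o))) o) (n 7199 o o (n 7186 (n 7143 (n 7115 o o (n 7083 (n 7014 (n 6886 (n 5949 o o (n 4959 o o o)) o o) o o) o o)) o (n 7106 (n 7039 (n 6822 (n 4803 o o o) o o) o o) o o)) o (n 7178 o (n 7110 o o (n 7043 (n 6826 (n 4803 o o o) o o) o o)) o))) o)
/-- part of the table -/
def t110 : Tr := (n 7299 t98 (n 6960 t102 (n 6786 o o (n 5065 (n 3698 (n 3183 (n 3019 o (n 2779 o (n 2527 (n 1863 o o o) o o) o) o) (n 2475 (n 1917 o (n 1353 (n 4 o o o) (n 1011 o o o) o) o) (n 1830 o o o) o) o) (n 1829 (n 973 (n 664 o (n 249 o (n 4 o o o) o) o) (n 4 o o o) o) o (n 1717 o (n 1528 o (n 1344 (n 4 o o o) o o) o) o)) (n 3458 o (n 3269 o (n 3110 (n 2407 o (n 1897 o o o) o) o o) o) o)) o (n 4826 (n 4766 o (n 4664 o (n 4551 (n 4164 (n 1809 o o o) o o) o o) o) o) (n 4458 (n 4157 o (n 3813 (n 2771 o (n 1809 o o o) o) (n 3621 o o (n 1809 o o o)) o) o) (n 4100 (n 1764 o o o)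 o o) o) o))) t105) (n 7220 t106 (n 7136 (n 7074 (n 7052 o (n 7027 (n 6960 (n 6888 o (n 6822 (n 6656 (n 6259 (n 5461 o o o) o o) o o) o o) o) (n 6910 (n 6853 (n 6807 o o (n 6243 o (n 5461 o o o) o)) o (n 6604 o (n 6259 (n 5461 o o o) o o) o)) o (n 6786 o (n 6635 (n 6259 (n 5461 o o o) o o) o o) o)) o) (n 7019 (n 7011 o o (n 6985 (n 6661 o (n 6259 (n 5461 o o o) o o) o) o o)) o (n 7006 (n 6851 o (n 6676 (n 6259 (n 5461 o o o) o o) o o) o) o o)) o) o) t107 o) (n 7061 t108 o (n 7002 (n 6991 o (n 6979 (n 6903 o (n 6821 (n 6644 (n 6241 (n 5453 o o o) o o) o o) o o) o) o o) o) (n 6920 (n 6761 o (n 6612 (n 6241 (n 5453 o o o) o o) o o) o) (n 6865 (n 6813 o o (n 6227 o (n 5453 o o o) o)) o (n 6585 o (n 6241 (n 5453 o o o) o o) o)) o) o)) o) t109))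
/-- part of the table -/
def t111 : Tr := (n 3071 (n 2826 (n 2747 (n 2726 o (n 2695 o (n 2663 (n 2574 (n 2347 (n 1727 o o o) o o) o o) o o) o) o) (n 2644 (n 2522 o (n 2397 (n 2029 (n 1364 (n 50 o o o) (n 976 o o o) o) (n 1842 o o (n 1501 o o o)) o) o o) o) (n 2555 (n 2333 (n 1719 o o o) o o) o o) o) o) (n 2514 (n 2205 (n 2100 o (n 1981 (n 1585 (n 803 o (n 279 o o o) o) (n 1430 (n 979 o o o) o o) o) o o) o) (n 1923 (n 1293 (n 5 o o o) (n 966 o o o) o) (n 1811 o o (n 1477 o o o)) o) o) (n 2247 (n 1627 o o (n 965 o (n 4 o o o) o)) o (n 1814 o (n 1302 (n 4 o o o) (n 973 o o o) o) o)) o) o) (n 2326 (n 1749 (n 1431 (n 1373 o (n 1311 (n 968 o (n 636 (n 225 o o o) o o) o) o o) o) (n 1093 (n 405 o (n 83 o o o) o) (n 888 (n 664 o o o) o (n 4 o o o)) o) o) (n 1227 (n 4 o o o) (n 917 o o o) (n 876 o (n 327 o (n 5 o o o) o) o)) o) (n 1648 o o (n 941 (n 649 o (n 236 o (n 4 o o o)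 o) o) (n 4 o o o) o)) (n 2235 o (n 2086 o (n 1924 (n 1294 (n 4 o o o) (n 967 o o o) o) o o) o) o)) (n 2981 o (n 2911 (n 2892 o (n 2873 (n 2751 o (n 2618 (n 2428 (n 1776 o o o) o o) o o) o) o o) o) (n 2854 (n 2607 o (n 2428 (n 1776 o o o) o o) o) o o) o) o))
/-- part of the table -/
def t112 : Tr := (n 3669 t111 (n 1791 (n 940 (n 618 (n 507 o (n 352 o (n 215 (n 4 o o o) o o) o) o) (n 205 (n 76 o (n 4 o (n 4 o o o) o) o) (n 4 o o o) o) o) (n 4 o o o) (n 737 o (n 598 o (n 494 (n 146 o (n 4 o o o) o) o o) o) o)) o (n 1646 (n 1593 o (n 1517 (n 1461 o (n 1397 (n 1274 (n 502 o (n 4 o o o) o) o o) o o) o) (n 1445 (n 1269 (n 4 o o o) o o) o o) o) o) (n 1424 (n 1222 o (n 1027 (n 325 o (n 4 o o o) o) (n 897 o o (n 4 o o o)) o) o) (n 1231 (n 4 o o o) o (n 879 o (n 325 o (n 4 o o o) o) o)) o) o)) (n 3383 (n 3359 o (n 3322 (n 3297 o (n 3270 (n 3215 (n 2848 o (n 2427 (n 1853 o o o)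 o o) o) o o) o o) o) (n 3284 (n 3089 (n 2377 o (n 1853 o o o) o) o o) o o) o) o) (n 3148 (n 3053 (n 3029 o (n 3004 (n 2854 o (n 2692 (n 2346 (n 1836 o o o) o o) o o) o) o o) o) (n 2953 (n 2637 o (n 2346 (n 1836 o o o) o o) o) (n 2895 o o (n 2346 o (n 1836 o o o) o)) o) o) (n 2955 (n 2202 (n 1734 o (n 1328 (n 4 o o o) (n 992 o o o) o) o) (n 1701 o o (n 984 o (n 4 o o o) o)) o) o (n 2775 o (n 2519 o (n 2239 (n 1816 o o o) o o) o) o)) o) o))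
/-- part of the table -/
def t113 : Tr := (n 4271 (n 3903 (n 3718 (n 3684 o (n 3648 (n 3435 o (n 3204 (n 2712 (n 1652 o o o) o o) o o) o) o o) o) (n 3508 (n 3058 o (n 2643 (n 1652 o o o) o o) o) (n 3373 (n 3229 o o (n 1652 o o o)) o (n 2590 o (n 1652 o o o) o)) o) o) (n 3536 (n 2456 (n 1856 o (n 1208 (n 5 o o o) (n 835 o o o) o) o) (n 1523 o o (n 832 o (n 4 o o o) o)) o) (n 3343 o o (n 1591 (n 832 o (n 4 o o o) o) o o)) (n 3318 o (n 2960 o (n 2546 (n 1622 o o o) o o) o) o)) o) (n 3836 (n 1544 (n 764 (n 516 o (n 181 o (n 4 o o o) o) o) (n 4 o o o) o) o (n 1456 o (n 1301 o (n 1160 (n 4 o o o) o o) o) o)) o (n 3248 (n 3052 o (n 2759 o (n 2451 (n 1506 o o o) o o) o) o) (n 2366 (n 1774 o (n 1123 (n 5 o o o) (n 734 o o o) o) o) (n 1455 o o o) o) o)) (n 4180 o (n 4065 o (n 3945 (n 3567 (n 2539 o (n 1585 o o o) o) (n 3378 o o (n 1585 o o o)) o) o o) o) o))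
/-- part of the table -/
def t114 : Tr := (n 6199 (n 5974 (n 5855 o (n 5725 (n 5454 (n 4751 (n 3704 o (n 2716 o o o) o) (n 4289 (n 3710 o o o) o (n 2426 o o o)) o) (n 5385 o o (n 5185 (n 2855 o o o) o o)) o) (n 5705 o o (n 5613 (n 5315 (n 2895 o o o) o o) o o)) o) o) (n 5777 (n 5338 (n 4407 (n 2101 (n 1191 o (n 5 o o o) o) o o) (n 3994 o o o) (n 3950 o (n 3130 o (n 2166 o o o) o) o)) (n 5203 o o (n 4807 o o o)) (n 5225 o (n 5077 (n 3967 o (n 2734 o o o) o) o o) o)) (n 5733 o o (n 5604 (n 5006 o o o) o o)) (n 5721 o (n 5649 (n 5488 (n 4348 o (n 2992 o o o) o) o o) o o) o)) o) (n 6077 (n 5794 (n 5097 o o (n 4077 o (n 2237 o o o) o)) o (n 5290 o (n 4579 (n 2238 o o o) (n 4148 o o o) o) o)) o (n 5885 (n 5816 o (n 5732 (n 5556 (n 4418 o (n 3069 o o o) o) o o) o o) o) (n 5672 (n 4760 (n 2388 o o o) (n 4143 o o o) o) o o) o)) o)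
/-- part of the table -/
def t115 : Tr := (n 5656 (n 5330 (n 5212 o (n 5085 (n 4652 (n 4192 o (n 3767 (n 2622 o o o) o o) o) (n 4332 (n 3889 (n 3510 o o o) o (n 2274 o o o)) o (n 3523 o (n 2491 o o o) o)) o) (n 5058 o o (n 4968 (n 3956 o (n 2749 o o o) o) o o)) o) o) (n 4999 (n 4292 (n 3231 (n 2525 o (n 1721 (n 215 o o o) (n 1406 o o o) o) o) (n 2324 o o o) o) (n 3928 (n 3579 o o o) o (n 2197 o o o)) (n 4086 o (n 3725 o (n 3310 (n 2371 o o o) o o) o) o)) (n 4860 (n 4764 o o (n 4478 o o o)) o (n 4290 (n 2196 o o o) (n 3904 o o o) o)) (n 4942 o (n 4874 (n 4385 o (n 3849 (n 2656 o o o) o o) o) o o) o)) o) (n 5271 (n 4395 (n 2099 (n 1191 o (n 5 o o o) o) o o) (n 3984 o o o) (n 3935 o (n 3126 o (n 2164 o o o) o) o)) (n 5142 o o (n 4764 o o o)) (n 4894 (n 4823 o (n 4744 (n 4257 o (n 3727 (n 2576 o o o) o o) o) o o) o) (n 4368 (n 3342 o (n 2368 o o o) o) (n 3997 (n 3666 o o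 o) o (n 2200 o o o)) o) o)) (n 5642 o (n 5618 o (n 5589 (n 5522 (n 5369 (n 4246 o (n 2915 o o o) o) o o) o o) o o) o) o))
/-- part of the table -/
def t116 : Tr := (n 6485 (n 6360 (n 6331 o (n 6292 (n 6242 o (n 6186 (n 6068 (n 5828 (n 4874 (n 2466 o o o) (n 4158 o o o) o) o o) o o) o o) o) (n 6260 (n 6175 (n 5938 (n 5254 o o o) o o) o o) o o) o) o) t114 o) (n 6107 t115 (n 5797 (n 5076 o o (n 3973 (n 3546 o (n 2880 o (n 2164 o o o) o) o) (n 2099 (n 1190 o (n 4 o o o) o) o o) o)) o (n 5179 (n 4785 (n 4711 o (n 4632 (n 4145 o (n 3615 (n 2477 o o o) o o) o) o o) o) (n 4310 (n 3284 o (n 2320 o o o) o) (n 4000 (n 3668 o o o) o (n 2200 o o o)) o) o) (n 4425 (n 2100 (n 1191 o (n 4 o o o) o) o o) (n 4009 o o o) (n 3942 o (n 3128 o (n 2165 o o o) o) o)) o)) (n 6039 o (n 5925 (n 5891 o (n 5854 (n 5771 (n 5601 (n 4454 o (n 3056 o o o) o) o o) o o) o o) o) (n 5801 (n 5417 (n 4558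 (n 2233 o o o) (n 4129 o o o) o) (n 5283 o o (n 4886 o o o)) o) o o) o) o)) (n 6452 o (n 6425 o (n 6400 (n 6300 (n 6225 o (n 6142 (n 5965 (n 5609 (n 3049 o o o) o o) o o) o o) o) (n 6235 (n 5993 (n 5289 o o o) o o) o o) o) o o) o) o))
/-- part of the table -/
def t117 : Tr := (n 5148 (n 4644 (n 4401 (n 4368 o (n 4331 (n 4118 o (n 3887 (n 3394 (n 2344 o o o) o o) o o) o) o o) o) (n 4112 (n 3618 (n 3349 o (n 3060 (n 2056 (n 494 o o o) (n 1365 o o o) o) o o) o) (n 3203 (n 2253 o o o) o o) o) (n 3921 (n 3664 (n 3377 o o o) o (n 2106 o o o)) o (n 3138 o (n 2220 o o o) o)) o) o) (n 4100 (n 2921 (n 2232 (n 2085 o (n 1931 (n 1100 o (n 556 o o o) o) o o) o) (n 1511 (n 57 o o o) (n 1218 o o o) o) o) (n 1927 o (n 1926 o o (n 1925 o o o)) (n 1168 o (n 5 o o o) o)) o) (n 3793 (n 3475 o o o) o (n 2029 (n 1176 o (n 4 o o o) o) o o)) (n 3883 o (n 3525 o (n 3110 (n 2188 o o o) o o) o)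 o)) o) (n 4371 (n 2048 (n 1143 (n 781 o (n 291 o (n 4 o o o) o) o) (n 4 o o o) o) o (n 1923 o (n 1704 o (n 1482 (n 4 o o o) o o) o) o)) (n 3958 o o o) (n 3816 (n 3620 o (n 3326 o (n 3018 (n 2095 o o o) o o) o) o) (n 2950 (n 2261 o (n 1494 (n 6 o o o) (n 1195 o o o) o) o) (n 2057 o o o) o) o)) (n 5015 o (n 4870 (n 4837 o (n 4800 (n 4722 (n 4223 o (n 3641 (n 2421 o o o) o o) o) o o) o o) o) (n 4733 (n 4223 (n 3203 o (n 2248 o o o) o) (n 3961 (n 3631 o o o) o (n 2173 o o o)) o) o o) o) o))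
/-- part of the table -/
def t118 : Tr := (n 6786 t116 (n 5961 t117 (n 5170 o o (n 3964 (n 3472 (n 3309 o (n 3068 o (n 2817 (n 2102 o o o) o o) o) o) (n 2773 (n 2475 o (n 2207 (n 575 o o o) o o) o) (n 2058 o o o) o) o) (n 2068 (n 1143 (n 780 o (n 290 o (n 4 o o o) o) o) (n 4 o o o) o) o o) o)) (n 5803 (n 5757 o (n 5688 o (n 5613 (n 5398 (n 4550 (n 2221 o o o) (n 4121 o o o) o) o o) o o) o) o) (n 5551 (n 5332 o (n 5101 (n 4426 (n 3386 o (n 2423 o o o) o) (n 4020 (n 3686 o o o) o (n 2209 o o o)) o) (n 5041 o o (n 4864 (n 2608 o o o) o o)) o) o) (n 5302 (n 4408 (n 2095 (n 1189 o (n 4 o o o) o) o o) (n 3994 o o o) (n 3941 o (n 3122 o (n 2160 o o o) o) o)) o (n 5177 o (n 5033 (n 3931 o (n 2720 o o o) o) o o) o)) o) o)) (n 6687 (n 6677 o (n 6665 o (n 6652 (n 6581 (n 6322 o (n 6124 (n 5392 o o o) o o) o) o o) o o) o) (n 6674 (n 6660 (n 6583 o o (n 6529 (n 6309 (n 4328 o o o)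 o o) o o)) o o) o o)) (n 6600 (n 6567 o (n 6529 (n 6415 o (n 6309 (n 6110 (n 5384 o o o) o o) o o) o) (n 6508 o o (n 6309 o (n 6110 (n 5384 o o o) o o) o)) o) o) (n 6525 (n 6208 (n 5958 o (n 5726 (n 4753 (n 2345 o o o) (n 4185 o o o) o) o o) o) (n 5991 (n 5281 o o o) o (n 5695 o (n 5332 (n 2809 o o o) o o) o)) o) o o) o) o))
/-- part of the table -/
def t119 : Tr := (n 7466 (n 7464 o (n 7462 o (n 7459 (n 7453 (n 7437 (n 7387 (n 7280 (n 6407 o (n 5510 o o o) o) o o) o o) o o) o o) o o) o) (n 7462 (n 7455 o o (n 7447 (n 7429 (n 7391 (n 7332 (n 7119 (n 5081 o o o) o o) o o) o o) o o) o o)) o o)) (n 7454 (n 7441 o (n 7427 (n 7396 (n 7304 (n 7072 (n 6701 o (n 6337 (n 5510 o o o) o o) o) (n 6920 (n 6800 o o (n 5311 o o o)) o (n 6268 o (n 5510 o o o) o)) o) (n 7265 o o (n 7203 (n 6386 o (n 5510 o o o) o) o o)) o) o o) o o) o) (n 7443 (n 7417 (n 7340 (n 7055 (n 6183 (n 5792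 o (n 5375 (n 2818 o o o) o o) o) (n 5425 o o o) o) (n 6903 o o (n 5276 o o o)) o) o o) o o) o (n 7434 o (n 7423 (n 7396 (n 7340 (n 6938 o (n 6448 (n 5509 o o o) o o) o) o o) o o) o o) o)) o) (n 7454 (n 7424 (n 7407 o o (n 7391 (n 7351 (n 7266 (n 6947 (n 6074 o o (n 5255 o o o)) o (n 6712 o (n 5079 o o o) o)) o o) o o) o o)) o (n 7398 (n 7348 (n 7272 (n 7027 (n 4936 (n 3631 o o (n 1783 o o o)) o o) o o) (n 7184 o o (n 7062 (n 6155 o o (n 5237 o o o)) o o)) o) (n 7309 o o (n 7255 (n 7130 (n 6208 o o (n 5246 o o o)) o o) o o)) o) (n 7379 o o (n 7356 (n 7297 (n 7172 (n 6241 o o (n 5252 o o o)) o o) o o) o o)) o)) o (n 7448 (n 7442 o (n 7381 (n 7331 o o (n 7268 (n 7143 (n 6221 o o (n 5258 o o o)) o o) o o)) o (n 7322 (n 7109 (n 5082 o o o) o o) o o)) o) (n 7418 (n 7394 o o (n 7366 (n 7301 (n 7177 (n 6246 o o (n 5258 o o o)) o o) o o) o o)) o (n 7385 (n 7326 (n 7112 (n 5082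 o o o) o o) o o) o o)) o)))
/-- part of the table -/
def t120 : Tr := (n 7323 (n 7194 (n 6907 (n 6432 (n 6031 o (n 5598 (n 4680 (n 2264 o o o) (n 4186 o o o) o) (n 5459 o o (n 5000 o o o)) o) o) (n 6036 (n 5193 o o (n 4116 o (n 2222 o o o) o)) o (n 5748 o (n 5409 (n 2847 o o o) o o) o)) o) (n 6772 (n 6636 o o (n 5130 (n 3916 o (n 2022 o o o) o) o o)) o (n 6116 (n 5758 o (n 5372 (n 2818 o o o) o o) o) (n 5372 o o o) o)) (n 6835 o (n 6707 o (n 6557 (n 6216 (n 5422 o o o) o o) o o) o) o)) (n 7153 o o (n 6962 (n 6164 (n 5786 o (n 5379 (n 2823 o o o) o o) o) (n 5413 o o o) o) (n 6823 o o (n 5257 o o o)) o)) (n 7176 o (n 7153 (n 6980 o (n 6786 (n 6356 (n 5475 o o o) o o) o o) o) o o) o)) (n 7312 o o (n 7274 (n 7038 (n 6252 o (n 5498 o o o) o) (n 6893 o o (n 5298 o o o)) o) o o)) (n 7315 o (n 7303 (n 7278 (n 7100 o (n 6887 (n 6408 (n 5498 o o o) o o) o o) o) o o) o o) o))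
/-- part of the table -/
def t121 : Tr := (n 7437 (n 7377 (n 7353 o (n 7325 (n 7256 (n 7106 (n 6942 o (n 6787 (n 6376 (n 5507 o o o) o o) o o) o) (n 6987 (n 6844 (n 6737 o o (n 5307 o o o)) o (n 6262 o (n 5507 o o o) o)) o (n 6699 o (n 6331 (n 5507 o o o) o o) o)) o) (n 7232 (n 7202 o o (n 7139 (n 6377 o (n 5507 o o o) o) o o)) o (n 7199 (n 6841 o (n 6416 (n 5507 o o o) o o) o) o o)) o) (n 7322 o o (n 7308 (n 7260 (n 6881 o (n 6423 (n 5507 o o o) o o) o) o o) o o)) o) o) t120 o) (n 7396 (n 7298 (n 6972 (n 6028 (n 5326 (n 5152 o (n 4965 (n 3849 o (n 2627 o o o) o) o o) o) (n 4590 (n 2223 o o o) (n 4154 o o o) o) o) (n 5238 o o (n 4102 o (n 2222 o o o) o)) o) (n 6805 o o (n 5164 (n 3911 o (n 2022 o o o) o) o o)) (n 6813 o (n 6526 o (n 6173 (n 5433 o o o) o o) o) o)) o (n 7182 o (n 7008 (n 6642 o (n 6289 (n 5489 o o o) o o) o) (n 6890 (n 6770 o o (n 5289 o o o)) o (n 6240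 o (n 5489 o o o) o)) o) o)) o (n 7334 (n 7323 o (n 7310 (n 7282 (n 7104 o (n 6893 (n 6419 (n 5504 o o o) o o) o o) o) o o) o o) o) (n 7255 (n 7021 (n 6631 (n 6454 o (n 6235 (n 5796 (n 3157 o o o) o o) o o) o) (n 6278 (n 5462 o o o) o o) o) (n 6892 (n 6772 o o (n 5287 o o o)) o (n 6242 o (n 5487 o o o) o)) o) (n 7234 o o (n 7172 (n 6365 o (n 5499 o o o) o) o o)) o) o)) (n 7435 o (n 7431 o (n 7426 (n 7416 (n 7392 (n 7337 (n 6938 o (n 6450 (n 5515 o o o) o o) o) o o) o o) o o) o o) o) o))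
/-- part of the table -/
def t122 : Tr := (n 7377 (n 7297 (n 7256 o o (n 7210 (n 7116 (n 6879 (n 6503 o o (n 6142 (n 5247 o o o) o o)) o (n 6730 (n 6542 o (n 5071 o o o) o) (n 6054 o o (n 5247 o o o)) o)) o (n 7091 o (n 7021 (n 6176 o o (n 5247 o o o)) o o) o)) o (n 7203 o (n 7169 (n 7064 (n 6187 o o (n 5247 o o o)) o o) o o) o))) o (n 7224 (n 7074 (n 6737 (n 5774 (n 5073 o o (n 4313 (n 1968 o o o) o (n 3881 o o o))) o (n 4948 o (n 3815 o o (n 1967 o o o)) o)) (n 6574 o o (n 6280 o o (n 5926 (n 5188 o o o) o o))) (n 6588 o (n 5012 o o o) o)) (n 7034 o o (n 6981 (n 6583 o o (n 6134 (n 5223 o o o) o o)) o o)) (n 7027 o (n 6911 (n 5047 o o o) o o) o)) (n 7205 o o (n 7180 (n 7123 (n 6714 o o (n 6220 (n 5240 o o o) o o)) o o) o o)) (n 7211 o (n 7181 (n 6999 (n 5063 o o o) o o) o o) o))) (n 7372 o o (n 7363 o o (n 7353 (n 7330 (n 7273 (n 7153 (n 6232 o o (n 5254 o o o)) o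 o) o o) o o) o o))) (n 7319 (n 7236 (n 6984 (n 4914 (n 3589 (n 3123 o o (n 2456 o o (n 1790 o o o))) o (n 1790 o o o)) o o) (n 6618 o o (n 5955 o o (n 5195 o o o))) o) (n 7045 (n 6993 o o (n 6933 (n 6537 o o (n 6092 (n 5216 o o o) o o)) o o)) o (n 6790 (n 5897 (n 5495 o o (n 5069 (n 2575 o o o) o o)) o (n 5137 o o o)) o (n 6636 o (n 5014 o o o) o))) o) (n 7223 (n 7199 o o (n 7170 (n 7107 (n 6699 o o (n 6209 (n 5238 o o o) o o)) o o) o o)) o (n 7111 (n 6805 (n 5908 (n 5503 o o (n 5070 (n 2575 o o o) o o)) o (n 5148 o o o)) o (n 6650 o (n 5025 o o o) o)) o (n 7065 o (n 6948 (n 5051 o o o) o o) o))) o))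
/-- part of the table -/
def t123 : Tr := (n 7107 (n 6927 (n 6689 (n 6465 o (n 6219 (n 5705 (n 4750 (n 2327 o o o) (n 4197 o o o) o) (n 5532 o o (n 5041 o o o)) o) (n 6170 o o (n 5946 (n 5225 o o o) o o)) o) o) (n 6495 (n 6060 (n 5176 o o (n 4126 o (n 2237 o o o) o)) o (n 5799 o (n 5452 (n 2888 o o o) o o) o)) o (n 6368 o (n 6204 (n 5820 (n 3183 o o o) o o) o o) o)) o) (n 6829 (n 6706 (n 6602 o o (n 5205 o o o)) o (n 6115 (n 5775 o (n 5376 (n 2827 o o o) o o) o) (n 5376 o o o) o)) o (n 6543 (n 6385 o (n 6197 (n 5775 (n 3147 o o o) o o) o o) o) (n 6195 (n 5406 o o o) o o) o)) (n 6894 o (n 6838 o (n 6773 (n 6627 (n 6252 (n 5431 o o o) o o) o o) o o) o) o)) (n 7072 (n 7046 o o (n 6903 (n 6202 o (n 5460 o o o) o) (n 6774 o o (n 5259 o o o)) o)) o (n 6917 (n 6568 (n 6402 o (n 6198 (n 5774 (n 3146 o o o) o o) o o) o) (n 6223 (n 5432 o o o) o o) o) (n 6808 (n 6695 o o (n 5252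 o o o)) o (n 6195 o (n 5453 o o o) o)) o)) (n 7098 o (n 7087 (n 7011 o (n 6927 (n 6742 (n 6322 (n 5461 o o o) o o) o o) o o) o) o o) o))
/-- part of the table -/
def t124 : Tr := (n 6840 (n 6304 (n 5843 (n 5620 o (n 5380 (n 4678 (n 3622 o (n 2639 o o o) o) (n 4241 (n 3697 o o o) o (n 2383 o o o)) o) (n 5318 o o (n 5111 (n 2783 o o o) o o)) o) o) (n 5393 (n 4425 (n 2097 (n 1188 o (n 22 o o o) o) o o) (n 3987 o o o) (n 3954 o (n 3127 o (n 2168 o o o) o) o)) (n 5258 o o (n 4837 o o o)) (n 5264 o (n 5106 (n 3986 o (n 2748 o o o) o) o o) o)) o) (n 5880 (n 5148 o o (n 4093 o (n 2232 o o o) o)) (n 5880 o o (n 5879 o o (n 5004 o o o))) (n 5315 (n 5153 o (n 4972 (n 3855 o (n 2632 o o o) o) o o) o) (n 4586 (n 2233 o o o) (n 4153 o o o) o) o)) (n 6272 o (n 6216 o (n 6150 (n 6000 (n 5646 (n 3066 o o o) o o) o o) o o) o) o)) (n 6702 (n 6572 o o (n 5109 (n 3911 o (n 2034 o o o) o)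 o o)) o (n 5982 (n 5326 (n 5158 o (n 4975 (n 3859 o (n 2637 o o o) o) o o) o) (n 4596 (n 2236 o o o) (n 4162 o o o) o) o) (n 5214 o o (n 4107 o (n 2235 o o o) o)) o)) (n 6760 o (n 6623 (n 6547 o (n 6462 (n 6272 (n 5880 (n 3241 o o o) o o) o o) o o) o) (n 6473 (n 6133 (n 5366 o o o) o o) o o) o) o))
/-- part of the table -/
def t125 : Tr := (n 7271 (n 7191 (n 7170 o (n 7147 (n 7062 (n 6990 o (n 6924 (n 6746 (n 6328 (n 5474 o o o) o o) o o) o o) o) (n 6994 (n 6888 (n 6768 (n 6666 o o (n 5273 o o o)) o (n 6217 o (n 5474 o o o) o)) o (n 6635 o (n 6272 (n 5474 o o o) o o) o)) o (n 6867 o (n 6707 (n 6309 (n 5474 o o o) o o) o o) o)) o) (n 7143 o o (n 7129 (n 6971 o (n 6783 (n 6345 (n 5474 o o o) o o) o o) o) o o)) o) o) t123 o) (n 7139 t124 (n 7095 o o (n 6885 (n 6010 (n 5333 (n 5163 o (n 4979 (n 3862 o (n 2639 o o o) o) o o) o) (n 4601 (n 2237 o o o) (n 4166 o o o) o) o)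 (n 5233 o o (n 4112 o (n 2236 o o o) o)) o) (n 6730 o o (n 5146 (n 3919 o (n 2035 o o o) o) o o)) (n 6763 o (n 6486 o (n 6140 (n 5410 o o o) o o) o) o))) (n 7059 (n 7047 o (n 7035 (n 6959 o (n 6876 (n 6699 (n 6294 (n 5449 o o o) o o) o o) o o) o) o o) o) (n 6943 (n 6772 (n 6694 o (n 6600 (n 6388 (n 5971 (n 3307 o o o) o o) o o) o o) o) (n 6622 (n 6249 (n 5433 o o o) o o) o o) o) (n 6856 (n 6757 (n 6651 o o (n 5244 o o o)) o (n 6182 o (n 5445 o o o) o)) o (n 6576 o (n 6229 (n 5445 o o o) o o) o)) o) o)) (n 7268 o (n 7265 o (n 7260 (n 7250 (n 7226 (n 7050 o (n 6843 (n 6376 (n 5484 o o o) o o) o o) o) o o) o o) o o) o) o))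
/-- part of the table -/
def t126 : Tr := (n 6937 (n 5960 (n 5187 (n 4748 (n 4671 o (n 4589 (n 4101 o (n 3570 (n 2434 o o o) o o) o) o o) o) (n 4244 (n 3164 (n 2855 o (n 2562 (n 909 o o o) o o) o) (n 2204 o o o) o) (n 3933 (n 3601 o o o) o (n 2131 o o o)) o) o) (n 4417 (n 2075 (n 1170 o (n 5 o o o) o) o o) (n 3997 o o o) (n 3921 o (n 3100 o (n 2141 o o o) o) o)) o) (n 5169 o o (n 3975 (n 3528 o (n 2855 o (n 2142 o o o) o) o) (n 2076 (n 1169 o (n 4 o o o) o) o o) o)) (n 5845 o (n 5642 (n 5566 o (n 5481 (n 5305 (n 4162 o (n 2820 o o o) o) o o) o o) o) (n 5421 (n 4558 (n 2215 o o o) (n 4126 o o o) o) o o) o) o)) (n 6767 o o (n 5059 (n 3734 (n 3278 o (n 2604 o (n 1891 o o o) o) o) (n 1838 (n 986 o (n 4 o o o) o) o o) o) o (n 4834 o (n 4492 o (n 4119 (n 1742 o o o) o o) o) o))) (n 6701 (n 6624 o (n 6508 (n 6432 o (n 6349 (n 6167 (n 5789 (n 3169 o o o) o o) o o) o o) o) (n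 6396 (n 6056 (n 5331 o o o) o o) o o) o) o) (n 6315 (n 5911 (n 5834 o (n 5741 (n 5551 (n 4401 o (n 3038 o o o) o) o o) o o) o) (n 5491 (n 4599 (n 2230 o o o) (n 4162 o o o) o) (n 5354 o o (n 4947 o o o)) o) o) (n 5934 (n 5169 o o (n 4101 o (n 2228 o o o) o)) o (n 5649 o (n 5321 (n 2798 o o o) o o) o)) o) o))
/-- part of the table -/
def t127 : Tr := (n 7412 t125 (n 7292 t126 o (n 7121 (n 7045 o (n 6947 (n 6785 o (n 6634 (n 6269 (n 5455 o o o) o o) o o) o) (n 6875 (n 6773 (n 6667 o o (n 5254 o o o)) o (n 6196 o (n 5455 o o o) o)) o (n 6592 o (n 6246 (n 5455 o o o) o o) o)) o) o) (n 6893 (n 6419 (n 6022 o (n 5595 (n 4687 (n 2276 o o o) (n 4194 o o o) o) (n 5456 o o (n 4999 o o o)) o) o) (n 6031 (n 5199 o o (n 4124 o (n 2235 o o o) o)) o (n 5744 o (n 5409 (n 2854 o o o) o o) o)) o) (n 6763 (n 6629 o o (n 5132 (n 3923 o (n 2034 o o o) o) o o)) o (n 6105 (n 5750 o (n 5371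 (n 2824 o o o) o o) o) (n 5369 o o o) o)) (n 6817 o (n 6690 o (n 6539 (n 6199 (n 5413 o o o) o o) o o) o) o)) o)) (n 7391 o (n 7368 o (n 7341 (n 7260 (n 7039 (n 6675 o (n 6323 (n 5509 o o o) o o) o) (n 6910 (n 6791 o o (n 5309 o o o)) o (n 6261 o (n 5509 o o o) o)) o) (n 7239 o o (n 7177 (n 6372 o (n 5509 o o o) o) o o)) o) o o) o) (n 7385 (n 7372 (n 7338 o o (n 7307 (n 7255 (n 7038 (n 4996 o o o) o o) o o) o o)) o (n 7366 o (n 7307 o o (n 7255 (n 7038 (n 4996 o o o) o o) o o)) o)) o o)))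
/-- part of the table -/
def t128 : Tr := (n 7048 (n 7007 o o (n 6963 (n 6815 (n 6651 o o (n 6497 (n 6080 (n 5214 o o o) o o) o o)) o (n 6707 (n 6563 (n 6438 o (n 5035 o o o) o) (n 5976 o o (n 5214 o o o)) o) (n 6416 o o (n 6040 (n 5214 o o o) o o)) o)) o (n 6953 o (n 6922 (n 6559 o o (n 6120 (n 5214 o o o) o o)) o o) o))) o (n 6923 (n 6645 (n 6164 (n 5762 o o (n 5329 (n 4394 (n 2036 o o o) o (n 3903 o o o)) o (n 5190 o (n 4730 o o o) o))) o (n 5767 (n 4901 o (n 3836 o o (n 1987 o o o)) o) (n 5471 o o (n 5115 (n 2612 o o o) o o)) o)) (n 6571 o o (n 6442 o o (n 6292 (n 5949 (n 5154 o o o) o o) o o))) (n 6516 (n 6394 o (n 4965 o o o) o) (n 5856 (n 5487 o o (n 5077 (n 2582 o o o) o o)) o (n 5113 o o o)) o)) (n 6903 o o (n 6878 (n 6704 o o (n 6511 (n 6077 (n 5194 o o o) o o) o o)) o o)) (n 6877 (n 6844 o (n 6761 (n 5012 o o o) o o) o) (n 6682 (n 5878 (n 5494 o o (n 5079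 (n 2584 o o o) o o)) o (n 5132 o o o)) o (n 6543 o (n 4999 o o o) o)) o)))
/-- part of the table -/
def t129 : Tr := (n 7171 t128 (n 7166 o o (n 7157 o o (n 7147 (n 7123 (n 7069 (n 6667 o o (n 6184 (n 5231 o o o) o o)) o o) o o) o o))) (n 7030 (n 6680 (n 5711 (n 4975 (n 4799 o o (n 4608 (n 3505 o o (n 2337 o o o)) o o)) o (n 4196 (n 1825 (n 980 o o (n 5 o o o)) o o) o (n 3772 o o o))) (n 5640 o o (n 5512 o o (n 5358 (n 5024 (n 2553 o o o) o o) o o))) (n 4928 o (n 3812 o o (n 1978 o o o)) o)) (n 6498 o o (n 6185 (n 6012 o o (n 5816 (n 5413 (n 2855 o o o) o o) o o)) o (n 5832 (n 5095 o o o) o o))) (n 6511 o (n 4887 (n 3648 o o (n 1805 o o o)) o o) o)) (n 6893 (n 6868 o o (n 6841 (n 6667 o o (n 6476 (n 6057 (n 5195 o o o) o o) o o)) o o)) o (n 6705 (n 6313 (n 6135 o o (n 5920 (n 5484 (n 2909 o o o) o o) o o)) o (n 5957 (n 5159 o o o) o o)) o (n 6584 (n 6464 o (n 5006 o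 o o) o) (n 5932 o o (n 5184 o o o)) o))) (n 6979 o (n 6851 (n 4922 (n 3655 o o (n 1808 o o o)) o o) o o) o)))
/-- part of the table -/
def t130 : Tr := (n 7250 (n 6984 (n 4847 (n 3471 (n 3006 o o (n 2339 o o (n 1669 o o o))) o (n 1615 (n 828 o o (n 4 o o o)) o o)) (n 4596 o o (n 4248 o o (n 3876 (n 1548 o o o) o o))) o) (n 6555 (n 6403 o o (n 6164 o o (n 5902 (n 5164 o o o) o o))) o (n 5834 (n 5123 o o (n 4326 (n 1985 o o o) o (n 3895 o o o))) o (n 5115 o o o))) o) (n 6999 (n 6856 (n 6830 o o (n 6802 (n 6628 o o (n 6437 (n 6021 (n 5192 o o o) o o) o o)) o o)) o (n 6683 (n 6288 (n 6111 o o (n 5897 (n 5466 (n 2896 o o o) o o) o o)) o (n 5935 (n 5152 o o o) o o)) o (n 6581 (n 6460 o (n 5001 o o o) o) (n 5927 o o (n 5179 o o o)) o))) o (n 6703 (n 5734 (n 5024 (n 4848 o o (n 4658 (n 3555 o o (n 2387 o o o)) o o)) o (n 4292 (n 1989 o o o) o (n 3868 o o o))) o (n 4948 o (n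 3821 o o (n 1987 o o o)) o)) (n 6531 o o (n 6239 o o (n 5886 (n 5148 o o o) o o))) (n 6532 o (n 4899 (n 3651 o o (n 1809 o o o)) o o) o))) o)
/-- part of the table -/
def t131 : Tr := (n 7501 (n 7343 t129 (n 7321 o o (n 7281 (n 7270 o o (n 7257 (n 7227 (n 7167 (n 6757 o o (n 6250 (n 5258 o o o) o o)) o o) o o) o o)) o (n 7238 (n 7118 (n 6817 (n 5925 (n 5523 o o (n 5094 (n 2594 o o o) o o)) o (n 5168 o o o)) o (n 6663 o (n 5042 o o o) o)) o (n 7071 o (n 6956 (n 5065 o o o) o o) o)) o o))) t130) (n 7457 (n 7449 o o (n 7437 (n 7426 o o (n 7413 (n 7385 (n 7322 (n 7199 (n 6270 o o (n 5283 o o o)) o o) o o) o o) o o)) o (n 7427 (n 7394 (n 7345 (n 7133 (n 5105 o o o) o o) o o) o o) o o))) (n 7452 (n 7427 o (n 7409 (n 7339 (n 7070 (n 6236 o (n 5477 o o o) o) (n 6916 o o (n 5282 o o o)) o) o o) o o) o) o o) (n 7407 (n 7351 o o (n 7293 (n 7176 (n 6890 (n 6038 o o (n 5278 o o o))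 o (n 6733 o (n 5100 o o o) o)) o (n 7130 o (n 7013 (n 5100 o o o) o o) o)) o (n 7281 o (n 7256 (n 7071 (n 5100 o o o) o o) o o) o))) o (n 7363 (n 7300 (n 7056 (n 4963 (n 3658 o o (n 1805 o o o)) o o) o o) (n 7208 o o (n 7087 (n 6182 o o (n 5265 o o o)) o o)) o) (n 7319 o o (n 7265 (n 7142 (n 6225 o o (n 5273 o o o)) o o) o o)) o))) o)
/-- part of the table -/
def t132 : Tr := (n 7694 t110 (n 7371 (n 5126 t112 o (n 4739 (n 4629 (n 4600 o (n 4557 (n 4524 o (n 4487 (n 4408 (n 4249 (n 3121 o (n 1795 o o o) o) o o) o o) o o) o) (n 4517 (n 4410 (n 4035 (n 1732 o o o) o o) o o) o o) o) o) (n 4473 (n 4310 (n 4256 o (n 4194 (n 3987 (n 3486 o (n 2897 (n 1787 o o o) o o) o) (n 3894 (n 3636 o o (n 1787 o o o)) o o) o) o o) o) (n 4158 (n 3775 (n 2747 o (n 1787 o o o) o) (n 3586 o o (n 1787 o o o)) o) (n 4099 o o (n 3863 (n 1725 o o o) o o)) o) o) (n 4334 (n 3908 (n 1629 (n 835 o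 (n 4 o o o) o) o o) o (n 3400 o (n 2557 o (n 1575 o o o) o) o)) o (n 4089 o (n 3772 (n 2738 o (n 1779 o o o) o) (n 3582 o o (n 1779 o o o)) o) o)) o) o) t113 (n 4641 o (n 4569 o (n 4513 (n 4404 o (n 4322 (n 3977 (n 1638 o o o) o o) o o) o) o o) o) o))) o t118) (n 7552 (n 7486 t119 t121 (n 7458 t122 (n 7449 o o (n 7434 (n 7422 o o (n 7409 (n 7381 (n 7316 (n 7193 (n 6261 o o (n 5265 o o o)) o o) o o) o o) o o)) o (n 7419 (n 7386 (n 7328 (n 7117 (n 5088 o o o) o o) o o) o o) o o))) (n 7445 o (n 7351 (n 7235 (n 7210 o o (n 7179 (n 7115 (n 6707 o o (n 6216 (n 5242 o o o) o o)) o o) o o)) o (n 7119 (n 6812 (n 5910 (n 5506 o o (n 5073 (n 2575 o o o) o o)) o (n 5150 o o o)) o (n 6656 o (n 5028 o o o) o)) o (n 7072 o (n 6955 (n 5053 o o o) o o) o))) o (n 7272 (n 7012 (n 4942 (n 3639 o o (n 1790 o o o)) o o) (n 6638 o o (n 5970 o o (n 5210 o o o))) o) (n 7177 o o (n 7062 (n 6159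 o o (n 5243 o o o)) o o)) o)) o))) t127 t131))
/-- part of the table -/
def t133 : Tr := (n 7047 (n 6849 (n 6592 (n 6374 o (n 6148 (n 5645 (n 4703 (n 2292 o o o) (n 4152 o o o) o) (n 5471 o o (n 4984 o o o)) o) (n 6099 o o (n 5875 (n 5162 o o o) o o)) o) o) (n 6382 (n 5956 (n 5129 o o (n 4082 o (n 2202 o o o) o)) o (n 5697 o (n 5353 (n 2812 o o o) o o) o)) (n 6367 o o (n 6330 (n 6249 o o (n 5060 o o o)) o o)) (n 6183 o (n 5940 (n 4953 (n 2492 o o o) (n 4152 o o o) o) o o) o)) o) (n 6735 (n 6600 (n 6463 o o (n 5068 (n 3884 o (n 2004 o o o) o) o o)) o (n 6007 (n 5380 o (n 4603 (n 2212 o o o) (n 4152 o o o) o) o) (n 5300 o o o) o)) o (n 6405 (n 6028 o (n 5578 (n 4664 (n 2261 o o o) (n 4152 o o o) o) (n 5433 o o (n 4961 o o o)) o) o) (n 6047 (n 5199 o o (n 4082 o (n 2202 o o o) o)) o o) o)) (n 6817 o (n 6761 o (n 6696 (n 6550 (n 6182 (n 5367 o o o) o o) o o) o o) o) o))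 (n 7002 (n 6965 (n 6937 o o (n 6868 (n 5201 o o o) o o)) o (n 6811 (n 6079 (n 5720 o (n 5322 (n 2787 o o o) o o) o) (n 5347 o o o) o) (n 6683 o o (n 5188 o o o)) o)) o (n 6837 (n 6397 (n 6012 o (n 5576 (n 4651 (n 2250 o o o) (n 4152 o o o) o) (n 5437 o o (n 4973 o o o)) o) o) (n 5999 (n 5149 o o (n 4082 o (n 2202 o o o) o)) o (n 5713 o (n 5365 (n 2822 o o o) o o) o)) o) (n 6727 (n 6607 o o (n 5190 o o o)) o (n 6123 o (n 5388 o o o) o)) o)) (n 7021 o (n 6981 (n 6905 o (n 6821 (n 6661 (n 6270 (n 5406 o o o) o o) o o) o o) o) (n 6954 (n 6897 (n 6837 o o (n 6237 o (n 5406 o o o) o)) o (n 6617 o (n 6270 (n 5406 o o o) o o) o)) o o) o) o))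
/-- part of the table -/
def t134 : Tr := (n 6217 (n 5753 (n 5477 o (n 5173 (n 4483 (n 3429 o (n 2455 o o o) o) (n 4045 (n 3641 o o o) o (n 2227 o o o)) o) (n 5063 (n 4937 o o (n 4537 o o o)) o (n 4855 (n 2589 o o o) o o)) o) o) (n 5304 (n 4381 (n 2066 (n 1165 o (n 25 o o o) o) o o) (n 3943 o o o) (n 3911 o (n 3086 o (n 2137 o o o) o) o)) (n 5175 o o (n 4770 o o o)) (n 5047 o (n 4685 (n 3569 o (n 2346 o o o) o) (n 4519 (n 4063 o o o) o o) o) o)) o) (n 5785 (n 5035 o o (n 3923 (n 3489 o (n 2815 o (n 2111 o o o) o) o) (n 2044 (n 1144 o (n 4 o o o) o) o o) o)) (n 5784 o o (n 5781 o o (n 4917 o o o))) (n 5189 (n 4896 o (n 4551 (n 3502 o (n 2549 o o o) o) (n 4352 o o (n 2469 o o o)) o) o) (n 4439 (n 2048 (n 1148 o (n 7 o o o) o) o o) (n 4007 o o o) o) o)) (n 6150 o (n 6030 o (n 5894 (n 5443 (n 4558 (n 2206 o o o) (n 4100 o o o) o) (n 5307 o o (n 4881 o o o)) o) o o) o) o))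
/-- part of the table -/
def t135 : Tr := (n 7085 (n 6767 t134 (n 6620 (n 6488 o o (n 5034 (n 3825 (n 3376 o (n 2702 o (n 1997 o o o) o) o) (n 1997 o o o) o) o o)) (n 6620 o o (n 6620 o o (n 6620 (n 5096 o o o) o o))) (n 5903 (n 5176 (n 4881 o (n 4553 (n 3505 o (n 2555 o o o) o) (n 4359 o o (n 2475 o o o)) o) o) (n 4380 (n 2045 (n 1145 o (n 5 o o o) o) o o) (n 3962 o o o) (n 3885 o (n 3060 o (n 2112 o o o) o) o)) o) (n 5139 o o (n 4045 o (n 2192 o o o) o)) o)) (n 6658 (n 6629 o (n 6583 o (n 6535 (n 6390 (n 6060 (n 5299 o o o) o o) o o) o o) o) o) (n 6481 (n 6257 o (n 6008 (n 5526 (n 4617 (n 2237 o o o) (n 4131 o o o) o) (n 5389 o o (n 4935 o o o)) o) (n 5961 o o (n 5772 (n 5101 o o o) o o)) o) o) (n 6317 (n 5938 (n 5122 o o (n 4061 o (n 2196 o o o) o)) o (n 5653 o (n 5322 (n 2800 o o o) o o) o)) o o) o) o)) (n 7031 (n 6995 o o (n 6904 (n 5112 (n 3878 o (n 2002 o o o)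 o) o o) o (n 6684 o (n 6107 o (n 5376 o o o) o) o))) o (n 6818 (n 5945 (n 5237 (n 5066 o (n 4883 (n 3769 o (n 2557 o o o) o) o o) o) (n 4462 (n 2045 (n 1145 o (n 5 o o o) o) o o) (n 4029 o o o) o) o) (n 5172 o o (n 4060 o (n 2194 o o o) o)) (n 5882 o (n 5758 o (n 5605 (n 5276 (n 2762 o o o) o o) o o) o) o)) (n 6664 o o (n 5095 (n 3874 o (n 2001 o o o) o) o o)) (n 6697 o (n 6422 o (n 6080 (n 5354 o o o) o o) o) o))) (n 6988 (n 6968 o (n 6944 (n 6873 o (n 6808 (n 6633 (n 6234 (n 5387 o o o) o o) o o) o o) o) (n 6931 o o (n 6802 o (n 6633 (n 6234 (n 5387 o o o) o o) o o) o)) o) o) (n 6851 (n 6609 (n 6384 o (n 6136 (n 5636 (n 4694 (n 2289 o o o) (n 4146 o o o) o) (n 5472 o o (n 4979 o o o)) o) (n 6088 o o (n 5873 (n 5154 o o o) o o)) o) o) (n 6412 (n 5997 (n 5120 o o (n 4076 o (n 2200 o o o) o)) o (n 5737 o (n 5393 (n 2848 o o o) o o) o)) o (n 6287 o (n 6128 (n 5750 (n 3134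 o o o) o o) o o) o)) o) (n 6760 (n 6653 (n 6541 o o (n 5157 o o o)) o (n 6061 (n 5710 o (n 5318 (n 2788 o o o) o o) o) (n 5327 o o o) o)) o (n 6486 o (n 6149 (n 5364 o o o) o o) o)) o) o))
/-- part of the table -/
def t136 : Tr := (n 7243 (n 7148 (n 7118 o (n 7083 (n 7000 (n 6928 o (n 6862 (n 6694 (n 6291 (n 5423 o o o) o o) o o) o o) o) (n 6936 (n 6841 (n 6728 (n 6606 o o (n 5225 o o o)) o (n 6176 o (n 5423 o o o) o)) o (n 6590 o (n 6236 (n 5423 o o o) o o) o)) o (n 6812 o (n 6660 (n 6273 (n 5423 o o o) o o) o o) o)) o) (n 7068 (n 7053 (n 7037 o o (n 6989 (n 6271 o (n 5423 o o o) o) o o)) o (n 7025 (n 6702 o (n 6308 (n 5423 o o o) o o) o) o o)) o (n 7022 (n 6867 o (n 6690 (n 6308 (n 5423 o o o) o o) o o) o) (n 6992 (n 6922 o o (n 6271 o (n 5423 o o o) o)) o o) o)) o) o) t133 o) t135 (n 7236 o (n 7223 o (n 7209 (n 7167 (n 7024 (n 6863 o (n 6712 (n 6303 (n 5439 o o o)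 o o) o o) o) (n 6919 (n 6781 (n 6649 o o (n 5241 o o o)) o (n 6199 o (n 5439 o o o) o)) o (n 6633 o (n 6264 (n 5439 o o o) o o) o)) o) (n 7157 o o (n 7128 (n 6773 o (n 6342 (n 5439 o o o) o o) o) o o)) o) o o) o) o))
/-- part of the table -/
def t137 : Tr := (n 5879 (n 5078 (n 4594 (n 4373 o (n 4105 (n 3647 o (n 3235 (n 2260 o o o) o o) o) (n 3913 (n 3649 (n 3360 o o o) o (n 2084 o o o)) o (n 3128 o (n 2204 o o o) o)) o) o) (n 4065 (n 3003 (n 2314 o (n 1562 (n 126 o o o) (n 1273 o o o) o) o) (n 2125 o o o) o) (n 3742 (n 3426 o o o) o (n 1981 (n 1138 o (n 5 o o o) o) o o)) (n 3846 o (n 3485 o (n 3074 (n 2167 o o o) o o) o) o)) o) (n 4295 (n 1986 (n 1096 (n 739 o (n 270 o (n 5 o o o) o) o) (n 5 o o o) o) o (n 1861 o (n 1640 o (n 1422 (n 4 o o o) o o) o) o)) (n 3885 o o o) (n 3740 (n 3542 o (n 3248 o (n 2942 (n 2036 o o o) o o) o) o) (n 2874 (n 2186 o (n 1434 (n 6 o o o)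 (n 1147 o o o) o) o) (n 1998 o o o) o) o)) (n 5031 o (n 4946 o (n 4849 (n 4472 (n 3444 o (n 2504 o o o) o) (n 4282 o o (n 2427 o o o)) o) o o) o) o)) (n 5091 o o (n 3906 (n 3412 (n 3248 o (n 3007 o (n 2758 (n 2055 o o o) o o) o) o) (n 2713 (n 2415 o (n 2149 (n 565 o o o) o o) o) (n 2011 o o o) o) o) (n 2030 (n 1143 o (n 4 o o o) o) o o) o)) (n 5739 (n 5710 o (n 5664 o (n 5615 (n 5466 (n 5149 (n 2696 o o o) o o) o o) o o) o) o) (n 5498 (n 5274 o (n 5026 (n 4351 (n 3312 o (n 2366 o o o) o) (n 3946 (n 3615 o o o) o (n 2152 o o o)) o) (n 4966 o o (n 4789 (n 2551 o o o) o o)) o) o) (n 5263 (n 4363 (n 2037 (n 1144 o (n 5 o o o) o) o o) (n 3946 o o o) (n 3867 o (n 3049 o (n 2103 o o o) o) o)) o o) o) o))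
/-- part of the table -/
def t138 : Tr := (n 6608 (n 6510 (n 6485 o (n 6447 o (n 6408 (n 6297 (n 5966 (n 5261 o o o) o o) o o) o o) o) o) (n 6372 (n 6214 o (n 6061 (n 5550 (n 4622 (n 2249 o o o) (n 4114 o o o) o) (n 5325 o o (n 4922 o o o)) o) o o) o) (n 6247 (n 5923 (n 5224 o o o) o o) o (n 6117 o (n 5944 (n 5570 (n 3007 o o o) o o) o o) o)) o) o) (n 6194 (n 5729 (n 5450 o (n 5136 (n 4446 (n 3397 o (n 2432 o o o) o) (n 4018 (n 3638 o o o) o (n 2208 o o o)) o) (n 5029 (n 4903 o o (n 4528 o o o)) o (n 4829 (n 2570 o o o) o o)) o) o) (n 5292 (n 4348 (n 2043 (n 1145 o (n 5 o o o) o) o o) (n 3935 o o o) (n 3879 o (n 3057 o (n 2109 o o o) o) o)) (n 5158 o o (n 4762 o o o)) (n 5164 o (n 5011 (n 3899 o (n 2681 o o o) o) o o) o)) o) (n 5797 (n 5075 o o (n 4026 o (n 2187 o o o) o)) o (n 5231 (n 5072 o (n 4897 (n 3789 o (n 2584 o o o) o) o o) o) (n 4513 (n 2188 o o o) (n 4085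 o o o) o) o)) o) o)
/-- part of the table -/
def t139 : Tr := (n 6790 (n 6253 (n 5791 (n 5567 o (n 5324 (n 4626 (n 3573 o (n 2602 o o o) o) (n 4190 (n 3649 o o o) o (n 2346 o o o)) o) (n 5263 o o (n 5056 (n 2745 o o o) o o)) o) o) (n 5339 (n 4376 (n 2062 (n 1163 o (n 22 o o o) o) o o) (n 3940 o o o) (n 3905 o (n 3081 o (n 2133 o o o) o) o)) (n 5204 o o (n 4785 o o o)) (n 5210 o (n 5053 (n 3936 o (n 2710 o o o) o) o o) o)) o) (n 5826 (n 5095 o o (n 4044 o (n 2195 o o o) o)) (n 5825 o o (n 5825 o o (n 4955 o o o))) (n 5259 (n 5098 o (n 4918 (n 3805 o (n 2594 o o o) o) o o) o) (n 4533 (n 2197 o o o) (n 4102 o o o) o) o)) (n 6219 o (n 6163 o (n 6097 (n 5946 (n 5593 (n 3027 o o o) o o) o o) o o) o) o)) (n 6653 (n 6523 o o (n 5065 (n 3870 o (n 2000 o o o) o) o o)) o (n 5939 (n 5302 o (n 4575 (n 2199 o o o) (n 4137 o o o) o) o) (n 5173 o o (n 4068 o (n 2198 o o o) o)) o)) (n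 6715 o (n 6589 o (n 6439 (n 6099 (n 5335 o o o) o o) o o) o) o))
/-- part of the table -/
def t140 : Tr := (n 7232 (n 6866 t137 (n 6696 o o (n 4999 (n 3682 (n 3219 (n 3053 o (n 2813 o (n 2563 (n 1859 o o o) o o) o) o) (n 2563 o (n 1859 o o o) o) o) (n 1805 (n 964 o (n 4 o o o) o) o o) o) o (n 4777 o (n 4438 o (n 4068 (n 1712 o o o) o o) o) o))) t138) (n 7181 o o (n 7050 (n 5043 (n 3698 (n 3238 o (n 2565 o (n 1861 o o o) o) o) (n 1807 (n 965 o (n 4 o o o) o) o o) o) o (n 4802 o (n 4460 o (n 4086 (n 1716 o o o) o o) o) o)) o (n 6745 (n 6608 o (n 6376 o (n 6116 (n 5383 o o o) o o) o) o) (n 6054 (n 5366 o (n 4580 (n 2198 o o o) (n 4142 o o o) o) o) (n 5338 o o o) o) o))) (n 7040 (n 6936 (n 6916 o (n 6894 (n 6822 o (n 6757 (n 6582 (n 6197 (n 5373 o o o) o o) o o) o o) o) (n 6880 o o (n 6752 o (n 6582 (n 6197 (n 5373 o o o) o o) o o) o)) o) o) (n 6808 (n 6571 (n 6348 o (n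 6108 (n 5602 (n 4669 (n 2270 o o o) (n 4143 o o o) o) (n 5445 o o (n 4969 o o o)) o) (n 6060 o o (n 5851 (n 5151 o o o) o o)) o) o) (n 6383 (n 5970 (n 5117 o o (n 4073 o (n 2199 o o o) o)) o (n 5711 o (n 5371 (n 2831 o o o) o o) o)) o (n 6256 o (n 6092 (n 5721 (n 3112 o o o) o o) o o) o)) o) (n 6733 (n 6636 (n 6532 o o (n 5152 o o o)) o (n 6076 o (n 5350 o o o) o)) o (n 6448 (n 6290 o (n 6099 (n 5693 (n 3089 o o o) o o) o o) o) (n 6110 (n 5336 o o o) o o) o)) (n 6774 o (n 6718 o (n 6653 (n 6509 (n 6151 (n 5354 o o o) o o) o o) o o) o) o)) o) t139 o))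
/-- part of the table -/
def t141 : Tr := (n 7334 (n 7309 o (n 7282 (n 7216 (n 7068 (n 6905 o (n 6752 (n 6350 (n 5467 o o o) o o) o o) o) (n 6953 (n 6820 (n 6688 o o (n 5269 o o o)) o (n 6234 o (n 5467 o o o) o)) o (n 6667 o (n 6305 (n 5467 o o o) o o) o)) o) (n 7193 (n 7172 o o (n 7107 (n 6346 o (n 5467 o o o) o) o o)) o (n 7162 (n 6807 o (n 6390 (n 5467 o o o) o o) o) o o)) o) (n 7279 o o (n 7266 (n 7220 (n 6846 o (n 6396 (n 5467 o o o) o o) o) o o) o o)) o) o) (n 7292 (n 7159 (n 6893 (n 6420 (n 6022 o (n 5591 (n 4654 (n 2249 o o o) (n 4156 o o o) o) (n 5452 o o (n 4989 o o o)) o) o) (n 6026 (n 5159 o o (n 4086 o (n 2202 o o o) o)) o (n 5733 o (n 5378 (n 2828 o o o) o o) o)) o) (n 6767 (n 6646 o o (n 5198 o o o)) o (n 6111 (n 5746 o (n 5339 (n 2797 o o o) o o) o) (n 5367 o o o) o)) (n 6821 o (n 6693 o (n 6543 (n 6201 (n 5406 o o o) o o) o o) o) o)) (n 7115 (n 7082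 o o (n 7000 (n 5242 o o o) o o)) o (n 6924 (n 6128 (n 5751 o (n 5341 (n 2798 o o o) o o) o) (n 5383 o o o) o) (n 6785 o o (n 5229 o o o)) o)) (n 7140 o (n 7117 (n 6945 o (n 6753 (n 6323 (n 5443 o o o) o o) o o) o) o o) o)) o o) o)
/-- part of the table -/
def t142 : Tr := (n 5058 (n 3625 (n 3057 (n 2858 (n 2798 o (n 2712 o (n 2623 (n 2374 (n 1738 o o o) o o) o o) o) o) (n 2591 (n 2387 o (n 2186 (n 1477 (n 164 o o o) (n 955 o o o) o) o o) o) (n 2341 (n 1720 o o o) o o) o) o) (n 2316 (n 1765 (n 1634 o (n 1498 (n 772 o (n 339 o o o) o) o o) o) (n 1249 (n 4 o o o) (n 934 o o o) o) o) (n 1642 o o (n 939 o (n 4 o o o) o)) o) o) (n 1760 (n 923 (n 621 o (n 222 o (n 4 o o o) o) o) (n 4 o o o) o) o (n 1646 o (n 1458 o (n 1276 (n 4 o o o) o o) o) o)) (n 3374 o (n 3178 (n 3125 o (n 3071 (n 2729 o (n 2358 (n 1826 o o o) o o) o) o o) o) (n 3018 (n 2326 o (n 1826 o o o) o) o o) o)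 o)) o (n 4708 (n 4634 o (n 4520 (n 4444 o (n 4360 (n 4192 (n 3064 o (n 1767 o o o) o) o o) o o) o) (n 4405 (n 4018 (n 1705 o o o) o o) o o) o) o) (n 4264 (n 3955 (n 3879 o (n 3798 (n 3311 o (n 2782 (n 1660 o o o) o o) o) o o) o) (n 3633 (n 2606 o (n 1660 o o o) o) (n 3444 o o (n 1660 o o o)) o) o) (n 3837 (n 1540 (n 765 o (n 4 o o o) o) o o) o (n 3312 o (n 2473 o (n 1510 o o o) o) o)) o) o))
/-- part of the table -/
def t143 : Tr := (n 6718 (n 6477 (n 6410 o (n 6313 (n 6237 o (n 6154 (n 5972 (n 5608 (n 3031 o o o) o o) o o) o o) o) (n 6222 (n 5977 (n 5265 o o o) o o) o o) o) o) (n 6140 (n 5767 (n 5643 o (n 5501 (n 5027 (n 3882 o (n 2536 o o o) o) (n 4814 (n 4226 o o o) o o) o) o o) o) (n 5417 (n 4544 (n 2193 o o o) (n 4111 o o o) o) (n 5283 o o (n 4887 o o o)) o) o) (n 5841 (n 5116 o o (n 4051 o (n 2192 o o o) o)) o (n 5280 o (n 4556 (n 2193 o o o) (n 4121 o o o) o)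 o)) o) o) (n 5920 (n 5144 (n 4722 (n 4645 o (n 4563 (n 4075 o (n 3547 (n 2423 o o o) o o) o) o o) o) (n 4242 (n 3213 o (n 2265 o o o) o) (n 3933 (n 3604 o o o) o (n 2145 o o o)) o) o) (n 4373 (n 2044 (n 1145 o (n 4 o o o) o) o o) (n 3957 o o o) (n 3876 o (n 3058 o (n 2110 o o o) o) o)) o) (n 5129 o o (n 3933 (n 3484 o (n 2813 o (n 2109 o o o) o) o) (n 2043 (n 1144 o (n 4 o o o) o) o o) o)) (n 5808 o (n 5615 o (n 5394 (n 4531 (n 2182 o o o) (n 4099 o o o) o) o o) o) o)) (n 6637 o (n 6572 o (n 6516 (n 6267 o (n 6080 (n 5346 o o o) o o) o) o o) o) o))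
/-- part of the table -/
def t144 : Tr := (n 6781 (n 6265 (n 5803 (n 5580 o (n 5340 (n 4642 (n 3589 o (n 2618 o o o) o) (n 4208 (n 3653 o o o) o (n 2359 o o o)) o) (n 5278 o o (n 5073 (n 2759 o o o) o o)) o) o) (n 5354 (n 4392 (n 2074 (n 1174 o (n 33 o o o) o) o o) (n 3943 o o o) (n 3921 o (n 3096 o (n 2148 o o o) o) o)) (n 5220 o o (n 4787 o o o)) (n 5225 o (n 5068 (n 3952 o (n 2727 o o o) o) o o) o)) o) (n 5862 (n 5098 o o (n 4047 o (n 2198 o o o) o)) o (n 5297 (n 5135 o (n 4956 (n 3843 o (n 2631 o o o) o) o o) o) (n 4571 (n 2227 o o o) (n 4106 o o o) o) o)) (n 6233 o (n 6177 o (n 6111 (n 5959 (n 5608 (n 3042 o o o) o o) o o) o o) o) o)) (n 6655 (n 6525 o o (n 5063 (n 3869 o (n 2003 o o o) o) o o)) o (n 5931 (n 5275 (n 5108 o (n 4926 (n 3813 o (n 2602 o o o) o) o o) o) (n 4547 (n 2202 o o o) (n 4115 o o o) o) o) (n 5165 o o (n 4062 o (n 2201 o o o) o)) o)) (n 6696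 o (n 6558 (n 6482 o (n 6397 (n 6207 (n 5817 (n 3196 o o o) o o) o o) o o) o) (n 6408 (n 6068 (n 5314 o o o) o o) o o) o) o))
/-- part of the table -/
def t145 : Tr := (n 6913 (n 5921 (n 5144 (n 4703 (n 4626 o (n 4543 (n 4056 o (n 3527 (n 2402 o o o) o o) o) o o) o) (n 4199 (n 3121 (n 2811 o (n 2519 (n 899 o o o) o o) o) (n 2172 o o o) o) (n 3889 (n 3559 o o o) o (n 2100 o o o)) o) o) (n 4371 (n 2041 (n 1146 o (n 5 o o o) o) o o) (n 3954 o o o) (n 3875 o (n 3056 o (n 2108 o o o) o) o)) o) (n 5127 o o (n 3933 (n 3485 o (n 2814 o (n 2109 o o o) o) o) (n 2043 (n 1145 o (n 4 o o o) o) o o) o)) (n 5804 o (n 5599 (n 5523 o (n 5438 (n 5262 (n 4121 o (n 2789 o o o) o) o o) o o) o) (n 5378 (n 4515 (n 2185 o o o) (n 4086 o o o) o) o o) o) o)) (n 6743 o o (n 5100 (n 3836 (n 3379 o (n 2706 o (n 2002 o o o) o) o) (n 2002 o o o) o) o o)) (n 6670 (n 6602 o (n 6497 o (n 6385 (n 6045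 (n 5322 o o o) o o) o o) o) o) (n 6287 (n 5892 o (n 5470 (n 4578 (n 2201 o o o) (n 4140 o o o) o) (n 5333 o o (n 4927 o o o)) o) o) (n 5903 (n 5139 o o (n 4070 o (n 2199 o o o) o)) o (n 5617 o (n 5288 (n 2769 o o o) o o) o)) o) o))
/-- part of the table -/
def t146 : Tr := (n 7225 (n 7016 (n 6916 (n 6904 o (n 6892 (n 6816 o (n 6733 (n 6558 (n 6172 (n 5374 o o o) o o) o o) o o) o) o o) o) (n 6796 (n 6552 (n 6330 o (n 6090 (n 5582 (n 4652 (n 2257 o o o) (n 4146 o o o) o) (n 5426 o o (n 4968 o o o)) o) (n 6042 o o (n 5833 (n 5151 o o o) o o)) o) o) (n 6365 (n 5951 (n 5121 o o (n 4076 o (n 2202 o o o) o)) o (n 5693 o (n 5355 (n 2820 o o o) o o) o)) o (n 6238 o (n 6073 (n 5705 (n 3100 o o o) o o) o o) o)) o) (n 6727 (n 6641 (n 6537 o o (n 5152 o o o)) o (n 6077 o (n 5350 o o o) o)) o (n 6437 (n 6279 o (n 6086 (n 5684 (n 3083 o o o) o o) o o) o) (n 6098 (n 5336 o o o) o o)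 o)) o) o) t144 (n 7011 o (n 7003 o (n 6993 (n 6970 (n 6798 o (n 6609 (n 6203 (n 5391 o o o) o o) o o) o) o o) o o) o) o)) t145 (n 7213 o (n 7184 o (n 7150 (n 7017 (n 6651 o (n 6300 (n 5443 o o o) o o) o) (n 6950 o o (n 6272 o (n 5443 o o o) o)) o) o o) o) o))
/-- part of the table -/
def t147 : Tr := (n 7545 (n 7542 o (n 7539 o (n 7537 (n 7529 (n 7507 (n 7458 (n 7345 (n 6451 o (n 5499 o o o) o) o o) o o) o o) o o) o o) o) (n 7541 (n 7535 o o (n 7528 (n 7514 (n 7493 (n 7416 (n 7208 (n 5176 o o o) o o) o o) o o) o o) o o)) o o)) (n 7527 (n 7508 o (n 7488 (n 7435 (n 7313 (n 7080 (n 6710 o (n 6350 (n 5499 o o o) o o) o) (n 6932 (n 6791 o o (n 5303 o o o)) o (n 6274 o (n 5499 o o o) o)) o) (n 7266 (n 7220 o o (n 7104 (n 5303 o o o) o o)) o (n 7199 (n 6379 o (n 5499 o o o) o) o o)) o) (n 7422 o o (n 7393 (n 7293 (n 6429 o (n 5499 o o o) o) o o) o o)) o) o o) o) (n 7511 (n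 7468 (n 7338 (n 7047 (n 6169 (n 5773 o (n 5346 (n 2794 o o o) o o) o) (n 5410 o o o) o) (n 6894 o o (n 5264 o o o)) o) (n 7293 o o (n 7181 (n 5287 o o o) o o)) o) o o) o (n 7502 o (n 7490 (n 7463 (n 7405 (n 7000 o (n 6501 (n 5498 o o o) o o) o) o o) o o) o o) o)) o) (n 7537 (n 7514 (n 7498 o o (n 7481 (n 7443 (n 7363 (n 7056 (n 6187 o o (n 5359 o o o)) o (n 6813 o (n 5176 o o o) o)) o o) o o) o o)) o (n 7495 (n 7467 (n 7379 (n 7139 (n 5036 (n 3730 o o (n 1864 o o o)) o o) o o) o o) (n 7427 o o (n 7369 (n 7246 (n 6327 o o (n 5354 o o o)) o o) o o)) o) (n 7476 o o (n 7453 (n 7394 (n 7271 (n 6346 o o (n 5357 o o o)) o o) o o) o o)) o)) o (n 7534 o (n 7510 (n 7486 o o (n 7458 (n 7400 (n 7276 (n 6352 o o (n 5362 o o o)) o o) o o) o o)) o (n 7488 (n 7412 (n 7204 (n 5178 o o o) o o) o o) o o)) o)))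
/-- part of the table -/
def t148 : Tr := (n 7354 (n 7198 (n 6922 (n 6445 (n 6044 o (n 5609 (n 4661 (n 2247 o o o) (n 4152 o o o) o) (n 5468 o o (n 4996 o o o)) o) o) (n 6046 (n 5160 o o (n 4083 o (n 2193 o o o) o)) o (n 5750 o (n 5388 (n 2829 o o o) o o) o)) o) (n 6794 (n 6665 o o (n 5211 o o o)) o (n 6133 (n 5763 o (n 5348 (n 2797 o o o) o o) o) (n 5378 o o o) o)) (n 6851 o (n 6723 o (n 6572 (n 6228 (n 5419 o o o) o o) o o) o) o)) (n 7145 (n 7112 o o (n 7029 (n 5258 o o o) o o)) o (n 6950 (n 6148 (n 5764 o (n 5345 (n 2794 o o o) o o) o) (n 5396 o o o) o) (n 6810 o o (n 5244 o o o)) o)) (n 7180 o (n 7156 (n 6982 o (n 6788 (n 6354 (n 5458 o o o) o o) o o) o) o o) o)) (n 7336 o o (n 7255 (n 6995 (n 6158 (n 5770 o (n 5348 (n 2797 o o o) o o) o) (n 5403 o o o) o) (n 6849 o o (n 5254 o o o)) o) (n 7214 o o (n 7112 (n 5274 o o o) o o)) o)) (n 7345 o (n 7334 (n 7309 (n 7130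 o (n 6915 (n 6432 (n 5478 o o o) o o) o o) o) o o) o o) o))
/-- part of the table -/
def t149 : Tr := (n 7433 (n 7270 (n 6938 (n 5991 (n 5290 (n 5115 o (n 4926 (n 3810 o (n 2597 o o o) o) o o) o) (n 4554 (n 2194 o o o) (n 4119 o o o) o) o) (n 5201 o o (n 4068 o (n 2193 o o o) o)) o) (n 6771 o o (n 5131 (n 3880 o (n 1996 o o o) o) o o)) (n 6761 o (n 6448 (n 6276 o (n 6082 (n 5680 (n 3068 o o o) o o) o o) o) (n 6096 (n 5355 o o o) o o) o) o)) (n 7220 o o (n 7095 (n 5161 (n 3883 o (n 1996 o o o) o) o o) o (n 6819 o (n 6186 o (n 5435 o o o) o) o))) (n 7143 (n 7119 o (n 7093 (n 6920 o (n 6729 (n 6315 (n 5450 o o o) o o) o o) o) o o) o) (n 6958 (n 6567 (n 6391 o (n 6178 (n 5744 (n 3116 o o o) o o) o o) o) (n 6215 (n 5414 o o o) o o) o) (n 6841 (n 6721 o o (n 5242 o o o)) o (n 6191 o (n 5439 o o o) o)) o) o)) o (n 7360 o (n 7264 (n 7041 (n 6673 o (n 6318 (n 5487 o o o) o o)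 o) (n 6908 (n 6774 o o (n 5290 o o o)) o (n 6252 o (n 5487 o o o) o)) o) (n 7229 (n 7187 o o (n 7081 (n 5290 o o o) o o)) o (n 7164 (n 6353 o (n 5487 o o o) o) o o)) o) o))
/-- part of the table -/
def t150 : Tr := (n 7488 (n 7415 (n 7375 o o (n 7330 (n 7237 (n 7002 (n 6629 o o (n 6268 (n 5363 o o o) o o)) o (n 6854 (n 6661 o (n 5178 o o o) o) (n 6178 o o (n 5363 o o o)) o)) o (n 7214 o (n 7144 (n 6300 o o (n 5363 o o o)) o o) o)) o (n 7323 o (n 7291 (n 7187 (n 6311 o o (n 5363 o o o)) o o) o o) o))) o (n 7355 (n 7205 (n 6891 (n 6030 (n 5627 o o (n 5192 (n 2669 o o o) o o)) o (n 5268 o o o)) (n 6729 o o (n 6437 o o (n 6083 (n 5321 o o o) o o))) (n 6743 o (n 5136 o o o) o)) (n 7165 o o (n 7113 (n 6717 o o (n 6269 (n 5347 o o o) o o)) o o)) (n 7159 o (n 7044 (n 5162 o o o) o o) o)) (n 7335 o o (n 7310 (n 7254 (n 6847 o o (n 6357 (n 5359 o o o) o o)) o o) o o)) (n 7341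 o (n 7300 (n 7118 (n 5173 o o o) o o) o o) o))) (n 7482 o o (n 7474 o o (n 7464 (n 7441 (n 7387 (n 7268 (n 6350 o o (n 5368 o o o)) o o) o o) o o) o o))) (n 7452 (n 7357 (n 7107 (n 5045 (n 3742 o o (n 1875 o o o)) o o) (n 6743 o o (n 6081 o o (n 5320 o o o))) o) (n 7270 o o (n 7158 (n 6264 o o (n 5352 o o o)) o o)) o) (n 7349 (n 7325 o o (n 7296 (n 7234 (n 6828 o o (n 6339 (n 5355 o o o) o o)) o o) o o)) o (n 7225 (n 6921 (n 6027 (n 5625 o o (n 5192 (n 2669 o o o) o o)) o (n 5265 o o o)) o (n 6766 o (n 5133 o o o) o)) o (n 7179 o (n 7063 (n 5158 o o o) o o) o))) o))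
/-- part of the table -/
def t151 : Tr := (n 7629 (n 7409 t136 t140 (n 7376 (n 7372 o (n 7367 o (n 7362 (n 7346 (n 7288 (n 7236 (n 6853 o (n 6419 (n 5472 o o o) o o) o) o o) (n 7262 o o (n 7184 (n 6369 o (n 5472 o o o) o) o o)) o) o o) o o) o) (n 7371 (n 7369 (n 7354 o o (n 7336 (n 7312 (n 7235 (n 7025 (n 5004 o o o) o o) o o) o o) o o)) o o) o o)) t141 (n 7374 (n 7365 (n 7332 (n 7306 o o (n 7277 (n 7216 (n 7092 (n 6166 o o (n 5178 o o o)) o o) o o) o o)) o (n 7310 (n 7233 (n 7023 (n 5007 o o o) o o) o o) o o)) o o) o o))) (n 7499 (n 7225 t142 o t143) o t146) (n 7565 t147 (n 7496 (n 7424 (n 7399 o (n 7371 (n 7302 (n 7151 (n 6987 o (n 6830 (n 6411 (n 5488 o o o) o o) o o) o) (n 7030 (n 6878 (n 6720 o o (n 5291 o o o)) o (n 6282 o (n 5488 o o o) o)) o (n 6741 o (n 6366 (n 5488 o o o) o o) o)) o) (n 7277 (n 7244 o o (n 7177 (n 6399 o (n 5488 o o o) o) o o)) o (n 7243 (n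 6883 o (n 6451 (n 5488 o o o) o o) o) o o)) o) (n 7368 o o (n 7353 (n 7304 (n 6923 o (n 6458 (n 5488 o o o) o o) o) o o) o o)) o) o) t148 o) t149 o) (n 7549 t150 (n 7541 o o (n 7531 o o (n 7519 (n 7502 (n 7426 (n 7218 (n 5189 o o o) o o) o o) o o) o o))) o)))
/-- part of the table -/
def t152 : Tr := (n 7146 (n 6860 (n 6383 (n 5985 o (n 5558 (n 4636 (n 2227 o o o) (n 4123 o o o) o) (n 5415 o o (n 4939 o o o)) o) o) (n 5983 (n 5130 o o (n 4054 o (n 2168 o o o) o)) o (n 5692 o (n 5348 (n 2796 o o o) o o) o)) o) (n 6710 (n 6553 o o (n 5075 (n 3859 o (n 1973 o o o) o) o o)) o (n 6035 (n 5366 o (n 4576 (n 2179 o o o) (n 4123 o o o) o) o) (n 5311 o o o) o)) (n 6789 o (n 6660 o (n 6510 (n 6162 (n 5364 o o o) o o) o o) o) o)) (n 7082 (n 7039 o o (n 6940 (n 5116 (n 3859 o (n 1973 o o o) o) o o) o o)) o (n 6879 (n 5991 (n 5317 o (n 4566 (n 2171 o o o) (n 4123 o o o) o) o) (n 5185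 o o (n 4054 o (n 2168 o o o) o)) o) (n 6737 o o (n 5191 o o o)) o)) (n 7093 o (n 7007 (n 6834 o (n 6641 (n 6261 (n 5417 o o o) o o) o o) o) (n 6950 (n 6825 (n 6690 o o (n 5223 o o o)) o (n 6175 o (n 5417 o o o) o)) o o) o) o))
/-- part of the table -/
def t153 : Tr := (n 7399 (n 7363 o (n 7325 (n 7234 (n 7088 (n 6923 o (n 6766 (n 6358 (n 5460 o o o) o o) o o) o) (n 6984 (n 6838 (n 6690 o o (n 5265 o o o)) o (n 6245 o (n 5460 o o o) o)) o (n 6696 o (n 6326 (n 5460 o o o) o o) o)) o) (n 7187 (n 7146 (n 7099 o o (n 7004 (n 5265 o o o) o o)) o (n 7081 (n 6320 o (n 5460 o o o) o) o o)) o (n 7086 (n 6728 o (n 6306 (n 5460 o o o) o o) o) (n 7021 (n 6851 o o (n 5265 o o o)) o o) o)) o) (n 7313 (n 7306 o o (n 7278 (n 7189 (n 6369 o (n 5460 o o o) o) o o) o o)) o (n 7283 (n 7072 (n 6712 o (n 6334 (n 5460 o o o) o o) o) (n 6908 (n 6736 o o (n 5265 o o o)) o (n 6255 o (n 5460 o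 o o) o)) o) o o)) o) o) (n 7318 t152 (n 7296 (n 7287 o o (n 7259 (n 7109 (n 5252 o o o) o o) o o)) o (n 7213 (n 6950 (n 6124 (n 5735 o (n 5315 (n 2770 o o o) o o) o) (n 5372 o o o) o) (n 6807 o o (n 5225 o o o)) (n 6805 o (n 6523 o (n 6173 (n 5420 o o o) o o) o) o)) (n 7172 o o (n 7072 (n 5246 o o o) o o)) o)) (n 7285 o (n 7242 (n 7090 (n 6922 o (n 6752 (n 6351 (n 5448 o o o) o o) o o) o) (n 6961 (n 6828 (n 6675 o o (n 5253 o o o)) o (n 6234 o (n 5448 o o o) o)) o (n 6674 o (n 6310 (n 5448 o o o) o o) o)) o) (n 7232 (n 7211 o o (n 7146 (n 6342 o (n 5448 o o o) o) o o)) o o) o) o)) o)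
/-- part of the table -/
def t154 : Tr := (n 7213 (n 6861 (n 5883 (n 5113 (n 4699 o (n 4219 (n 3171 o (n 2230 o o o) o) (n 3906 (n 3575 o o o) o (n 2110 o o o)) o) o) (n 4338 (n 2005 (n 1114 o (n 5 o o o) o) o o) (n 3920 o o o) (n 3838 o (n 3013 o (n 2072 o o o) o) o)) o) (n 5088 o o (n 3894 (n 3443 o (n 2769 o (n 2070 o o o) o) o) (n 2004 (n 1113 o (n 4 o o o) o) o o) o)) (n 5776 o (n 5581 o (n 5360 (n 4497 (n 2148 o o o) (n 4064 o o o) o) o o) o) o)) (n 6693 o o (n 5066 (n 3799 (n 3340 o (n 2666 o (n 1967 o o o) o) o) (n 1967 o o o) o) o o)) (n 6653 (n 6587 o (n 6482 o (n 6370 (n 6029 (n 5305 o o o) o o) o o) o) o) (n 6297 (n 5891 o (n 5430 (n 4538 (n 2163 o o o) (n 4100 o o o) o) (n 5293 o o (n 4887 o o o)) o) o) (n 5945 (n 5165 o o (n 4031 o (n 2162 o o o) o)) o o) o) o)) (n 7162 o o (n 7034 (n 5104 (n 3807 (n 3343 o (n 2670 o (n 1971 o o o) o) o) (n 1971 o o o)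 o) o o) o (n 6761 o (n 6132 o (n 5386 o o o) o) o))) (n 7064 (n 7022 o (n 6968 (n 6805 o (n 6654 (n 6246 (n 5390 o o o) o o) o o) o) (n 6938 o o (n 6642 o (n 6246 (n 5390 o o o) o o) o)) o) o) (n 6847 (n 6362 (n 5962 o (n 5530 (n 4604 (n 2207 o o o) (n 4113 o o o) o) (n 5392 o o (n 4934 o o o)) o) o) (n 5969 (n 5118 o o (n 4044 o (n 2165 o o o) o)) o (n 5676 o (n 5326 (n 2785 o o o) o o) o)) o) (n 6719 (n 6602 o o (n 5150 o o o)) o (n 6051 (n 5687 o (n 5289 (n 2755 o o o) o o) o) (n 5314 o o o) o)) o) o))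
/-- part of the table -/
def t155 : Tr := (n 7294 (n 7256 o (n 7211 (n 7065 (n 6901 o (n 6747 (n 6331 (n 5443 o o o) o o) o o) o) (n 6956 (n 6812 (n 6669 o o (n 5248 o o o)) o (n 6222 o (n 5443 o o o) o)) o (n 6666 o (n 6291 (n 5443 o o o) o o) o)) o) (n 7202 o o (n 7169 (n 6808 o (n 6370 (n 5443 o o o) o o) o) o o)) o) o) (n 7170 (n 6897 (n 6414 (n 6011 o (n 5570 (n 4627 (n 2222 o o o) (n 4120 o o o) o) (n 5430 o o (n 4958 o o o)) o) o) (n 6008 (n 5126 o o (n 4051 o (n 2167 o o o) o)) o (n 5712 o (n 5353 (n 2802 o o o) o o) o)) o) (n 6759 (n 6629 o o (n 5176 o o o)) o (n 6093 (n 5724 o (n 5312 (n 2770 o o o) o o) o) (n 5340 o o o) o)) (n 6821 o (n 6692 o (n 6542 (n 6197 (n 5390 o o o) o o) o o) o) o)) (n 7121 (n 7087 o o (n 7005 (n 5236 o o o) o o)) o (n 6941 (n 6180 o (n 5431 o o o) o) (n 6800 o o (n 5236 o o o)) o)) o) o)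
/-- part of the table -/
def t156 : Tr := (n 7431 (n 7174 (n 5036 (n 3647 (n 3135 (n 2969 o (n 2728 o (n 2479 (n 1780 o o o) o o) o) o) (n 2440 (n 2182 o (n 1964 (n 563 o o o) o o) o) (n 1741 o o o) o) o) (n 1765 (n 939 o (n 4 o o o) o) o o) o) o (n 4764 o (n 4392 (n 4221 o (n 4047 (n 2936 o (n 1728 o o o) o) o o) o) (n 4016 (n 1685 o o o) o o) o) o)) o (n 6723 (n 6555 o (n 6293 (n 6121 o (n 5928 (n 5545 (n 2965 o o o) o o) o o) o) (n 6031 (n 5289 o o o) o o) o) o) (n 5952 (n 5246 (n 5072 o (n 4887 (n 3773 o (n 2566 o o o) o) o o) o) (n 4509 (n 2163 o o o) (n 4077 o o o) o) o) (n 5162 o o (n 4027 o (n 2162 o o o) o)) o) o)) o (n 7209 (n 7075 (n 7050 o (n 7023 (n 6850 o (n 6659 (n 6244 (n 5412 o o o) o o) o o) o) o o) o) (n 6906 (n 6514 (n 6337 o (n 6125 (n 5696 (n 3079 o o o) o o) o o) o) (n 6160 (n 5374 o o o) o o) o) (n 6804 (n 6684 o o (n 5205 o o o)) o (n 6152 o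 (n 5400 o o o) o)) o) o) (n 6922 (n 5964 (n 5256 (n 5081 o (n 4892 (n 3778 o (n 2571 o o o) o) o o) o) (n 4520 (n 2168 o o o) (n 4086 o o o) o) o) (n 5173 o o (n 4036 o (n 2167 o o o) o)) o) (n 6753 o o (n 5106 (n 3850 o (n 1972 o o o) o) o o)) (n 6755 o (n 6465 o (n 6112 (n 5370 o o o) o o) o) o)) o))
/-- part of the table -/
def t157 : Tr := (n 7288 (n 7249 o (n 7205 (n 7058 (n 6894 o (n 6740 (n 6322 (n 5442 o o o) o o) o o) o) (n 6950 (n 6805 (n 6671 o o (n 5247 o o o)) o (n 6216 o (n 5442 o o o) o)) o (n 6660 o (n 6282 (n 5442 o o o) o o) o)) o) (n 7196 o o (n 7164 (n 6801 o (n 6361 (n 5442 o o o) o o) o) o o)) o) o) (n 7159 (n 6885 (n 6406 (n 6004 o (n 5570 (n 4627 (n 2220 o o o) (n 4122 o o o) o) (n 5427 o o (n 4959 o o o)) o) o) (n 6006 (n 5130 o o (n 4053 o (n 2168 o o o) o)) o (n 5711 o (n 5352 (n 2800 o o o) o o) o)) o) (n 6755 (n 6630 o o (n 5178 o o o)) o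 (n 6094 (n 5724 o (n 5313 (n 2769 o o o) o o) o) (n 5342 o o o) o)) (n 6812 o (n 6684 o (n 6533 (n 6187 (n 5383 o o o) o o) o o) o) o)) (n 7110 (n 7077 o o (n 6994 (n 5225 o o o) o o)) o (n 6914 (n 6111 (n 5728 o (n 5313 (n 2769 o o o) o o) o) (n 5360 o o o) o) (n 6775 o o (n 5210 o o o)) o)) (n 7139 o (n 7115 (n 6941 o (n 6749 (n 6314 (n 5423 o o o) o o) o o) o) o o) o)) o)
/-- part of the table -/
def t158 : Tr := (n 7578 (n 7575 o (n 7572 o (n 7569 (n 7559 (n 7538 (n 7485 (n 7369 (n 6463 o (n 5487 o o o) o) o o) o o) o o) o o) o o) o) (n 7575 (n 7569 o o (n 7564 (n 7556 (n 7529 (n 7455 (n 7251 (n 5227 o o o) o o) o o) o o) o o) o o)) o o)) (n 7553 (n 7532 o (n 7509 (n 7463 (n 7373 (n 7139 (n 6768 o (n 6407 (n 5486 o o o) o o) o) (n 6989 (n 6782 o o (n 5292 o o o)) o (n 6312 o (n 5486 o o o) o)) o) (n 7350 o o (n 7280 (n 6434 o (n 5486 o o o) o) o o)) o) (n 7455 o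 o (n 7423 (n 7320 (n 6445 o (n 5486 o o o) o) o o) o o)) o) (n 7506 o o (n 7494 (n 7448 (n 7338 (n 6450 o (n 5486 o o o) o) o o) o o) o o)) o) o) (n 7529 (n 7464 (n 7325 (n 7028 (n 6155 (n 5755 o (n 5323 (n 2774 o o o) o o) o) (n 5394 o o o) o) (n 6877 o o (n 5251 o o o)) o) (n 7280 o o (n 7167 (n 5275 o o o) o o)) (n 7284 o (n 7227 (n 6834 o (n 6389 (n 5470 o o o) o o) o) o o) o)) (n 7450 o o (n 7410 (n 7234 (n 5285 o o o) o o) o o)) (n 7444 o (n 7421 (n 7362 (n 6958 o (n 6471 (n 5480 o o o) o o) o) o o) o o) o)) o o) o) (n 7575 (n 7561 (n 7550 o o (n 7540 (n 7513 (n 7454 (n 7334 (n 6412 o o (n 5417 o o o)) o o) o o) o o) o o)) o (n 7551 (n 7524 (n 7450 (n 7246 (n 5229 o o o) o o) o o) o o) (n 7531 o o (n 7505 (n 7447 (n 7326 (n 6407 o o (n 5417 o o o)) o o) o o) o o)) o)) o o))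
/-- part of the table -/
def t159 : Tr := (n 7598 (n 7483 t153 (n 7392 t154 (n 7376 o o (n 7330 (n 7124 (n 5143 (n 3856 o (n 1972 o o o) o) o o) o (n 6808 o (n 6171 o (n 5418 o o o) o) o)) o (n 7283 o (n 7180 (n 6325 o (n 5445 o o o) o) o o) o))) t155) (n 7476 o (n 7464 o (n 7449 (n 7408 (n 7323 (n 7096 (n 6728 o (n 6370 (n 5471 o o o) o o) o) (n 6953 (n 6760 o o (n 5276 o o o)) o (n 6283 o (n 5471 o o o) o)) o) (n 7301 o o (n 7234 (n 6401 o (n 5471 o o o) o) o o)) o) (n 7401 o o (n 7371 (n 7272 (n 6410 o (n 5471 o o o) o) o o) o o)) o) o o) o) o)) (n 7541 t156 o (n 7406 t157 (n 7258 (n 6918 (n 5964 (n 5260 (n 5084 o (n 4894 (n 3780 o (n 2572 o o o) o) o o) o) (n 4524 (n 2169 o o o) (n 4090 o o o) o) o) (n 5174 o o (n 4039 o (n 2168 o o o) o)) o) (n 6750 o o (n 5107 (n 3853 o (n 1973 o o o) o) o o)) (n 6737 o (n 6422 (n 6249 o (n 6054 (n 5651 (n 3044 o o o) o o) o o)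 o) (n 6069 (n 5327 o o o) o o) o) o)) (n 7209 o o (n 7082 (n 5137 (n 3857 o (n 1973 o o o) o) o o) o o)) (n 7137 o (n 6961 (n 6592 o (n 6235 (n 5433 o o o) o o) o) (n 6839 (n 6718 o o (n 5238 o o o)) o (n 6185 o (n 5433 o o o) o)) o) o)) o)) t158)
/-- part of the table -/
def t160 : Tr := (n 7510 (n 7424 (n 7259 (n 6918 (n 5972 (n 5284 o (n 4547 (n 2152 o o o) (n 4106 o o o) o) o) (n 5179 o o (n 4037 o (n 2150 o o o) o)) o) (n 6749 o o (n 5106 (n 3844 o (n 1957 o o o) o) o o)) (n 6758 o (n 6466 o (n 6113 (n 5370 o o o) o o) o) o)) (n 7208 o o (n 7083 (n 5130 (n 3844 o (n 1957 o o o) o) o o) o o)) (n 7185 o (n 7069 (n 6675 o (n 6230 (n 5427 o o o) o o) o) (n 7019 (n 6864 o o (n 5234 o o o)) o o) o) o)) (n 7407 o o (n 7361 (n 7161 (n 5141 (n 3844 o (n 1957 o o o) o) o o) o o) o o)) (n 7370 o (n 7293 (n 7066 (n 6693 o (n 6330 (n 5454 o o o) o o) o) (n 6923 (n 6748 o o (n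 5261 o o o)) o (n 6253 o (n 5454 o o o) o)) o) (n 7268 o o (n 7197 (n 6365 o (n 5454 o o o) o) o o)) o) o)) (n 7506 o o (n 7492 (n 7431 (n 7246 (n 5275 o o o) o o) o o) o o)) (n 7487 o (n 7460 (n 7367 (n 7130 (n 6754 o (n 6379 (n 5468 o o o) o o) o) (n 6965 (n 6764 o o (n 5275 o o o)) o (n 6288 o (n 5468 o o o) o)) o) (n 7323 o o (n 7252 (n 6408 o (n 5468 o o o) o) o o)) o) o o) o))
/-- part of the table -/
def t161 : Tr := (n 7574 (n 7530 (n 7431 (n 7187 (n 5120 (n 3795 (n 3328 o (n 2654 o (n 1957 o o o) o) o) (n 1957 o o o) o) o o) o (n 6796 o (n 6089 (n 5699 o (n 5300 (n 2760 o o o) o o) o) (n 5327 o o o) o) o)) o (n 7254 (n 7205 o (n 7147 (n 6754 o (n 6313 (n 5438 o o o) o o) o) o o) o) (n 7009 (n 6126 (n 5728 o (n 5305 (n 2760 o o o) o o) o) (n 5363 o o o) o) (n 6856 o o (n 5222 o o o)) o) o)) o (n 7440 (n 7418 o (n 7391 (n 7331 (n 6927 o (n 6441 (n 5462 o o o)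 o o) o) o o) o o) o) (n 7322 (n 7025 (n 6139 (n 5738 o (n 5307 (n 2761 o o o) o o) o) (n 5376 o o o) o) (n 6871 o o (n 5235 o o o)) o) (n 7277 o o (n 7163 (n 5259 o o o) o o)) o) o)) o (n 7521 (n 7483 o (n 7439 (n 7349 (n 7114 (n 6741 o (n 6380 (n 5472 o o o) o o) o) (n 6966 (n 6770 o o (n 5279 o o o)) o (n 6291 o (n 5472 o o o) o)) o) (n 7325 o o (n 7255 (n 6410 o (n 5472 o o o) o) o o)) o) (n 7431 o o (n 7399 (n 7295 (n 6421 o (n 5472 o o o) o) o o) o o)) o) o) (n 7462 (n 7322 (n 7023 (n 6143 (n 5742 o (n 5308 (n 2761 o o o) o o) o) (n 5381 o o o) o) (n 6870 o o (n 5240 o o o)) o) (n 7276 o o (n 7163 (n 5264 o o o) o o)) (n 7277 o (n 7219 (n 6825 o (n 6378 (n 5457 o o o) o o) o) o o) o)) (n 7448 o o (n 7408 (n 7231 (n 5274 o o o) o o) o o)) o) o))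
/-- part of the table -/
def l6 : Tr := (n 7613 o (n 7611 (n 7608 (n 7598 (n 7573 (n 7501 (n 7300 (n 5282 o o o) o o) o o) o o) o o) o o) o o) o)
/-- part of the table -/
def s6 : Tr := n 7614 o l6 (Tr.mir l6)
/-- part of the table -/
def l5 : Tr := (n 7607 (n 7595 o (n 7583 (n 7552 (n 7489 (n 7359 (n 7079 (n 6239 o (n 5475 o o o) o) (n 6923 o o (n 5282 o o o)) o) (n 7311 o o (n 7197 (n 5282 o o o) o o)) o) (n 7473 o o (n 7432 (n 7253 (n 5282 o o o) o o) o o)) o) (n 7544 o o (n 7530 (n 7468 (n 7277 (n 5282 o o o) o o) o o) o o)) o) o o) o) (n 7600 (n 7585 (n 7550 (n 7461 (n 7229 (n 5145 (n 3838 o (n 1951 o o o) o) o o) o o) o (n 7378 o (n 7260 (n 6370 o (n 5457 o o o) o) o o) o)) o (n 7514 o (n 7463 (n 7343 (n 6434 o (n 5468 o o o) o) o o) o o) o)) o (n 7569 o (n 7546 (n 7492 (n 7373 (n 6457 o (n 5472 o o o) o) o o) o o) o o) o)) o (n 7592 o (n 7582 (n 7558 (n 7503 (n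 7383 (n 6466 o (n 5474 o o o) o) o o) o o) o o) o o) o)) o)
/-- part of the table -/
def s5 : Tr := n 7616 s6 l5 (Tr.mir l5)
/-- part of the table -/
def l4 : Tr := (n 7597 (n 7550 (n 7524 o (n 7498 (n 7427 (n 7304 (n 7072 (n 6698 o (n 6334 (n 5473 o o o) o o) o) (n 6924 (n 6770 o o (n 5280 o o o)) o (n 6260 o (n 5473 o o o) o)) o) (n 7256 (n 7200 o o (n 7089 (n 5280 o o o) o o)) o (n 7185 (n 6359 o (n 5473 o o o) o) o o)) o) (n 7402 (n 7384 o o (n 7343 (n 7184 (n 5280 o o o) o o) o o)) o (n 7355 (n 7094 (n 6270 o (n 5473 o o o) o) (n 6897 o o (n 5280 o o o)) o) o o)) o) (n 7495 o o (n 7481 (n 7434 (n 7322 (n 6433 o (n 5473 o o o) o) o o) o o) o o)) o) o) t160 o) t161 (n 7595 o (n 7591 o (n 7587 (n 7577 (n 7554 (n 7499 (n 7381 (n 6467 o (n 5479 o o o) o) o o) o o) o o) o o) o o) o) o))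
/-- part of the table -/
def s4 : Tr := n 7629 s5 l4 (Tr.mir l4)
/-- part of the table -/
def l3 : Tr := t159
/-- part of the table -/
def s3 : Tr := n 7682 s4 l3 (Tr.mir l3)
/-- part of the table -/
def l2 : Tr := t151
/-- part of the table -/
def s2 : Tr := n 7818 s3 l2 (Tr.mir l2)
/-- part of the table -/
def l1 : Tr := t132
/-- part of the table -/
def s1 : Tr := n 8116 s2 l1 (Tr.mir l1)
/-- part of the table -/
def l0 : Tr := (n 7268 (n 6568 (n 6236 t6 t14 t18) t31 t42) (n 5230 t51 o (n 4841 (n 4699 (n 4642 (n 4630 o (n 4613 (n 4590 o (n 4566 (n 4515 (n 4409 (n 3992 (n 2939 o (n 1860 o o o) o) (n 3679 o o (n 1860 o o o)) o) o o) o o) o o) o) (n 4598 (n 4561 (n 4457 (n 4112 (n 1813 o o o) o o) o o) o o) o o) o) o) t52 o) t54 (n 4683 (n 4679 o o (n 4675 (n 4667 (n 4577 (n 4383 o o (n 4240 (n 2826 o o o) o o)) o o) o o) o o)) (n 4671 o (n 4660 (n 4616 (n 4583 o (n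 4547 (n 4470 (n 4314 (n 3194 o (n 1860 o o o) o) o o) o o) o o) o) (n 4588 (n 4482 (n 4128 (n 1814 o o o) o o) o o) o o) o) o o) o) (n 4682 o (n 4675 o o (n 4667 (n 4577 (n 4383 o o (n 4240 (n 2826 o o o) o o)) o o) o o)) o))) t57 t58)) t89)
/-- part of the table -/
def s0 : Tr := n 8746 s1 l0 (Tr.mir l0)

end Pool.Agent.Q220.Pei.Tab
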