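import Pool.Agent.Q220.Pei.Chain
import Pool.Agent.Q220.Bng.Model

/-!
Transfer to the bidirectional `3`-neighbour graph on `ℤ²`.
-/

set_option autoImplicit false

namespace Pool.Agent.Q220.Pei

open MeasureTheory ProbabilityTheory Set
open scoped ENNReal
open Pool.Agent.Q220.Bng
open H974 (Edg src tgt Adj Reach)

/-- an image of an infinite product measure under a relabelling and a coordinatewise map -/
theorem map_infinitePi {I J X Y : Type} [MeasurableSpace X] [MeasurableSpace Y] (μ : Measure X)
    [IsProbabilityMeasure μ] (f : J → I) (hf : Function.Injective f) (g : X → Y)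
    (hg : Measurable g) [IsProbabilityMeasure (μ.map g)] :
    (Measure.infinitePi fun _ : I => μ).map (fun c j => g (c (f j))) =
      Measure.infinitePi fun _ : J => μ.map g := by
  classical
  refine Measure.eq_infinitePi _ fun s t ht => ?_
  rw [Measure.map_apply (by fun_prop) (.pi s.countable_toSet fun _ _ => ht _)]
  have h1 : (fun (c : I → X) j => g (c (f j))) ⁻¹' (Set.pi (s : Set J) t) =
      Set.pi ((s.image f : Finset I) : Set I) fun i => {x | ∀ j, f j = i → g x ∈ t j} := by
    ext c
    simp only [mem_preimage, Set.mem_pi, Finset.coe_image, mem_image, Finset.mem_coe,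
      mem_ofPred_eq, forall_exists_index, and_imp, forall_apply_eq_imp_iff₂]
    constructor
    · intro h j hj j' hj'
      have := hf hj'
      subst this
      exact h _ hj
    · intro h j hj
      exact h j hj j rfl
  have h2 : ∀ j, {x : X | ∀ j', f j' = f j → g x ∈ t j'} = g ⁻¹' (t j) := by
    intro j
    ext x
    simp only [mem_ofPred_eq, mem_preimage]
    exact ⟨fun h => h j rfl, fun h j' hj' => (hf hj') ▸ h⟩
  rw [h1, Measure.infinitePi_pi]
  · rw [Finset.prod_image (fun a _ b _ h => hf h)]
    refine Finset.prod_congr rfl fun j _ => ?_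
    rw [h2, Measure.map_apply hg (ht j)]
  · intro i hi
    obtain ⟨j, _, rfl⟩ := Finset.mem_image.1 hi
    rw [h2]
    exact hg (ht j)

/-- directions -/
def dd : Dr → Dir 2
  | .E => (0, true)
  | .N => (1, true)
  | .W => (0, false)
  | .S => (1, false)

/-- the set of all directions except one -/
def om (D : Dr) : Finset (Dir 2) := Finset.univ.erase (dd D)

theorem dd_inj : Function.Injective dd := by
  intro D D' h
  cases D <;> cases D' <;> first | rfl | exact absurd h (by decide)

theorem om_inj : Function.Injective om := by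
  intro D D' h
  apply dd_inj
  by_contra hne
  have h1 : dd D' ∈ om D := Finset.mem_erase.2 ⟨fun h => hne h.symm, Finset.mem_univ _⟩
  rw [h] at h1
  exact (Finset.mem_erase.1 h1).1 rfl

theorem om_image : (Finset.powersetCard 3 (Finset.univ : Finset (Dir 2))) =
    Finset.univ.image om := by decide

theorem map_om (hk : 3 ≤ 2 * 2) : mu4.map om = law 2 3 hk := by
  classical
  ext A hA
  rw [Measure.map_apply Measurable.of_discrete hA]
  unfold mu4 law
  rw [PMF.toMeasure_uniformOfFinset_apply _ _ hA,
    PMF.toMeasure_uniformOfFintype_apply _ (MeasurableSet.of_discrete)]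
  have h1 : (Finset.powersetCard 3 (Finset.univ : Finset (Dir 2))).card = 4 := by decide
  have h2 : ((Finset.powersetCard 3 (Finset.univ : Finset (Dir 2))).filter (· ∈ A)).card =
      Fintype.card (om ⁻¹' A) := by
    rw [om_image, Finset.filter_image, Finset.card_image_of_injective _ om_inj,
      Fintype.card_subtype]
    rfl
  rw [h1, h2]
  rfl

/-- the configuration seen from `u` -/
def Phi (u : Pt) (c : Pt → Dr) : Vx 2 → Finset (Dir 2) := fun v => om (c (u.1 + v 0, u.2 + v 1))

theorem map_Phi (u : Pt) (hk : 3 ≤ 2 * 2) : QQ.map (Phi u) = PP 2 3 hk := by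
  have hinj : Function.Injective (fun v : Vx 2 => ((u.1 + v 0, u.2 + v 1) : Pt)) := by
    intro v w h
    simp only [Prod.mk.injEq] at h
    funext i
    fin_cases i
    · simpa using h.1
    · simpa using h.2
  have hm : Measurable om := Measurable.of_discrete
  have : IsProbabilityMeasure (mu4.map om) := Measure.isProbabilityMeasure_map hm.aemeasurable
  have h := map_infinitePi mu4 (fun v : Vx 2 => ((u.1 + v 0, u.2 + v 1) : Pt)) hinj om hm
  show (Measure.infinitePi fun _ : Pt => mu4).map
    (fun (c : Pt → Dr) (v : Vx 2) => om (c (u.1 + v 0, u.2 + v 1))) = _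
  rw [h]
  unfold PP
  simp only [map_om hk]

/-- the vertex `w` seen from `u` -/
def rel (u w : Pt) : Vx 2 := ![w.1 - u.1, w.2 - u.2]

theorem rel_inj (u : Pt) : Function.Injective (rel u) := by
  intro v w h
  have h0 := congrFun h 0
  have h1 := congrFun h 1
  simp only [rel, Matrix.cons_val_zero, Matrix.cons_val_one] at h0 h1
  ext
  · linarith
  · linarith

theorem adj_bng {c : Pt → Dr} {u a b : Pt} (hab : Nb a b) (h : ¬ cl c (a, b)) :
    (bng (Phi u c)).Adj (rel u a) (rel u b) := by
  have key : ∀ a b : Pt, Nb a b → ¬ pk c a b → rel u b ∈ nbs (Phi u c) (rel u a) := by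
    rintro a b ⟨D, rfl⟩ hp
    have hne : c a ≠ D := fun he => hp (by rw [pk, he])
    have h1 : (u.1 + rel u a 0, u.2 + rel u a 1) = a := by
      simp [rel]
    refine ⟨dd D, ?_, ?_⟩
    · show dd D ∈ om (c (u.1 + rel u a 0, u.2 + rel u a 1))
      rw [h1]
      exact Finset.mem_erase.2 ⟨fun he => hne (dd_inj he).symm, Finset.mem_univ _⟩
    · funext i
      fin_cases i <;> cases D <;> simp [rel, fwd, dd, vec] <;> ring
  refine ⟨key a b hab fun hp => h (Or.inl hp), key b a hab.symm fun hp => h (Or.inr hp)⟩

theorem nb_edge (e : Edg) : Nb (src e) (tgt e) := by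
  obtain ⟨x, y, b⟩ := e
  cases b
  · exact ⟨.N, by simp [fwd]⟩
  · exact ⟨.E, by simp [fwd]⟩

theorem reach_bng {c : Pt → Dr} {u w : Pt} (h : Reach (op c) u w) :
    (bng (Phi u c)).Reachable (rel u u) (rel u w) := by
  induction h with
  | refl => exact SimpleGraph.Reachable.refl _
  | @tail w w' _ hs ih =>
    obtain ⟨e, he, hc⟩ := hs
    have hadj := adj_bng (u := u) (nb_edge e) he
    rcases hc with ⟨rfl, rfl⟩ | ⟨rfl, rfl⟩
    · exact ih.trans hadj.reachable
    · exact ih.trans hadj.symm.reachable

theorem rel_self (u : Pt) : rel u u = 0 := by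
  funext i
  fin_cases i <;> simp [rel]

theorem theta_pos (hk : 3 ≤ 2 * 2) : 0 < theta 2 3 hk := by
  obtain ⟨u, hu⟩ := exists_pos
  refine lt_of_lt_of_le (pos_iff_ne_zero.2 hu) ?_
  unfold theta
  rw [← map_Phi u hk]
  have hm : Measurable (Phi u) := by
    unfold Phi
    refine measurable_pi_lambda _ fun v => ?_
    exact (Measurable.of_discrete (f := om)).comp (measurable_pi_apply _)
  refine (measure_mono ?_).trans (Measure.le_map_apply hm.aemeasurable _)
  intro c hc
  simp only [mem_ofPred_eq] at hc
  show ((bng (Phi u c)).connectedComponentMk 0).supp.Infinite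
  refine (hc.image (rel_inj u).injOn).mono ?_
  rintro _ ⟨w, hw, rfl⟩
  rw [SimpleGraph.ConnectedComponent.mem_supp_iff, SimpleGraph.ConnectedComponent.eq]
  have := reach_bng hw
  rw [rel_self] at this
  exact this.symm

end Pool.Agent.Q220.Pei
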